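import Pool.Agent.Lib.MP_d439b2_co.Spec4

/-!
# MP_d439b2_co, I6: small graphs
-/

namespace Pool.Agent.MPd439b2

/-- a vertex of `tripods ι` has at most three neighbours -/
theorem Size8_tdeg (ι : Type) (u : ι × Fin 3 × ℕ) :
    ∃ x y z : ι × Fin 3 × ℕ, ∀ v, (tripods ι).Adj u v → v = x ∨ v = y ∨ v = z := by
  obtain ⟨c, i, k⟩ := u
  rcases Nat.eq_zero_or_pos k with hk | hk
  · by_cases hi : i = 0
    · refine ⟨(c, 0, 1), (c, 1, 0), (c, 2, 0), ?_⟩
      rintro ⟨c', i', k'⟩ ⟨h1, h2, h3⟩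
      simp only at h2 h3
      subst h2
      subst hk
      subst hi
      rcases h3 with ⟨h4, h5⟩ | ⟨-, h4, -⟩
      · left
        rw [← h4, show k' = 1 by omega]
      · subst h4
        right
        fin_cases i'
        · exact absurd rfl h1
        · left; rfl
        · right; rfl
    · refine ⟨(c, i, 1), (c, 0, 0), (c, 0, 0), ?_⟩
      rintro ⟨c', i', k'⟩ ⟨h1, h2, h3⟩
      simp only at h2 h3
      subst h2
      subst hk
      rcases h3 with ⟨h4, h5⟩ | ⟨-, h4, h5⟩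
      · left
        rw [← h4, show k' = 1 by omega]
      · subst h4
        right
        left
        rcases h5 with h5 | h5
        · exact absurd h5 hi
        · rw [h5]
  · refine ⟨(c, i, k + 1), (c, i, k - 1), (c, i, k - 1), ?_⟩
    rintro ⟨c', i', k'⟩ ⟨h1, h2, h3⟩
    simp only at h2 h3
    subst h2
    rcases h3 with ⟨h4, h5⟩ | ⟨h4, -⟩
    · subst h4
      rcases h5 with h5 | h5
      · right; left
        rw [show k' = k - 1 by omega]
      · left
        rw [h5]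
    · omega

/-- a vertex of `nets ι` has at most three neighbours -/
theorem Size8_ndeg (ι : Type) (u : ι × Fin 3 × ℕ) :
    ∃ x y z : ι × Fin 3 × ℕ, ∀ v, (nets ι).Adj u v → v = x ∨ v = y ∨ v = z := by
  obtain ⟨c, i, k⟩ := u
  rcases Nat.eq_zero_or_pos k with hk | hk
  · refine ⟨(c, i, 1), (c, i + 1, 0), (c, i + 2, 0), ?_⟩
    rintro ⟨c', i', k'⟩ ⟨h1, h2, h3⟩
    simp only at h2 h3
    subst h2
    subst hk
    rcases h3 with ⟨h4, h5⟩ | ⟨-, h4⟩
    · left
      rw [← h4, show k' = 1 by omega]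
    · subst h4
      right
      have h6 : i ≠ i' := by
        intro h
        exact h1 (by rw [h])
      have h7 : ∀ i i' : Fin 3, i ≠ i' → i' = i + 1 ∨ i' = i + 2 := by decide
      rcases h7 i i' h6 with h8 | h8
      · left; rw [h8]
      · right; rw [h8]
  · refine ⟨(c, i, k + 1), (c, i, k - 1), (c, i, k - 1), ?_⟩
    rintro ⟨c', i', k'⟩ ⟨h1, h2, h3⟩
    simp only at h2 h3
    subst h2
    rcases h3 with ⟨h4, h5⟩ | ⟨h4, -⟩
    · subst h4
      rcases h5 with h5 | h5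
      · right; left
        rw [show k' = k - 1 by omega]
      · left
        rw [h5]
    · omega

theorem Size8_tadj {ι : Type} {u v : ι × Fin 3 × ℕ} (h : (tripods ι).Adj u v) :
    (u.2.1.val ≠ v.2.1.val ∨ u.2.2 ≠ v.2.2) ∧
    ((u.2.1.val = v.2.1.val ∧ (u.2.2 = v.2.2 + 1 ∨ v.2.2 = u.2.2 + 1)) ∨
      (u.2.2 = 0 ∧ v.2.2 = 0 ∧ (u.2.1.val = 0 ∨ v.2.1.val = 0))) := by
  obtain ⟨c, i, k⟩ := u
  obtain ⟨c', i', k'⟩ := v
  obtain ⟨h1, h2, h3⟩ := h
  simp only at h2 h3 ⊢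
  subst h2
  constructor
  · by_contra hcon
    push Not at hcon
    apply h1
    rw [Fin.ext hcon.1, hcon.2]
  · rcases h3 with ⟨h4, h5⟩ | ⟨h4, h5, h6⟩
    · left
      exact ⟨by rw [h4], h5⟩
    · right
      refine ⟨h4, h5, ?_⟩
      rcases h6 with h6 | h6
      · left; rw [h6]; rfl
      · right; rw [h6]; rfl

theorem Size8_nadj {ι : Type} {u v : ι × Fin 3 × ℕ} (h : (nets ι).Adj u v) :
    (u.2.1.val ≠ v.2.1.val ∨ u.2.2 ≠ v.2.2) ∧
    ((u.2.1.val = v.2.1.val ∧ (u.2.2 = v.2.2 + 1 ∨ v.2.2 = u.2.2 + 1)) ∨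
      (u.2.2 = 0 ∧ v.2.2 = 0)) := by
  obtain ⟨c, i, k⟩ := u
  obtain ⟨c', i', k'⟩ := v
  obtain ⟨h1, h2, h3⟩ := h
  simp only at h2 h3 ⊢
  subst h2
  constructor
  · by_contra hcon
    push Not at hcon
    apply h1
    rw [Fin.ext hcon.1, hcon.2]
  · rcases h3 with ⟨h4, h5⟩ | ⟨h4, h5⟩
    · left
      exact ⟨by rw [h4], h5⟩
    · right
      exact ⟨h4, h5⟩

/-- no triangle in `tripods ι` -/
theorem Size8_ttri {ι : Type} {a b c : ι × Fin 3 × ℕ} (h1 : (tripods ι).Adj a b)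
    (h2 : (tripods ι).Adj a c) (h3 : (tripods ι).Adj b c) : False := by
  have e1 := Size8_tadj h1
  have e2 := Size8_tadj h2
  have e3 := Size8_tadj h3
  have l1 := a.2.1.isLt
  have l2 := b.2.1.isLt
  have l3 := c.2.1.isLt
  omega

/-- a vertex of `nets ι` with three pairwise adjacent neighbours has the level `0` -/
theorem Size8_nlev {ι : Type} {a b c d : ι × Fin 3 × ℕ} (h1 : (nets ι).Adj a b)
    (h2 : (nets ι).Adj a c) (h3 : (nets ι).Adj a d) (h4 : (nets ι).Adj b c)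
    (h5 : (nets ι).Adj b d) (h6 : (nets ι).Adj c d) : a.2.2 = 0 := by
  have e1 := (Size8_nadj h1).2
  have e2 := (Size8_nadj h2).2
  have e4 := Size8_nadj h4
  by_contra hne
  omega

/-- no four pairwise adjacent vertices in `nets ι` -/
theorem Size8_nK4 {ι : Type} {a b c d : ι × Fin 3 × ℕ} (h1 : (nets ι).Adj a b)
    (h2 : (nets ι).Adj a c) (h3 : (nets ι).Adj a d) (h4 : (nets ι).Adj b c)
    (h5 : (nets ι).Adj b d) (h6 : (nets ι).Adj c d) : False := by
  have f1 := Size8_nlev h1 h2 h3 h4 h5 h6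
  have f2 := Size8_nlev h1.symm h4 h5 h2 h3 h6
  have f3 := Size8_nlev h2.symm h4.symm h6 h1 h3 h5
  have f4 := Size8_nlev h3.symm h5.symm h6.symm h1 h2 h4
  have e1 := (Size8_nadj h1).1
  have e2 := (Size8_nadj h2).1
  have e3 := (Size8_nadj h3).1
  have e4 := (Size8_nadj h4).1
  have e5 := (Size8_nadj h5).1
  have e6 := (Size8_nadj h6).1
  have l1 := a.2.1.isLt
  have l2 := b.2.1.isLt
  have l3 := c.2.1.isLt
  have l4 := d.2.1.isLt
  omega

theorem Size8_three {W : Type} [Finite W] (S : Set W)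
    (h : ¬ ∃ p : Fin 4 → W, Function.Injective p ∧ ∀ i, p i ∈ S) : S.ncard ≤ 3 := by
  by_contra hcon
  apply h
  have h4 : 4 ≤ Nat.card S := by
    have : Nat.card S = S.ncard := rfl
    omega
  refine ⟨fun i => ((Finite.equivFin S).symm (Fin.castLE h4 i) : S), ?_, ?_⟩
  · intro i j hij
    have h5 := (Finite.equivFin S).symm.injective (Subtype.ext hij)
    exact Fin.castLE_injective h4 h5
  · intro i
    exact ((Finite.equivFin S).symm (Fin.castLE h4 i)).2

theorem Size8_five {W T : Type} [Finite W] (S N : Set W) (hN : N.encard ≤ 2) (f : W → T)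
    (hf : Function.Injective f) (x y z : T)
    (h : ∀ k ∈ S, k ∈ N ∨ f k = x ∨ f k = y ∨ f k = z) : S.ncard ≤ 5 := by
  have h1 : S ⊆ N ∪ f ⁻¹' {x, y, z} := by
    intro k hk
    rcases h k hk with h | h
    · exact Or.inl h
    · exact Or.inr h
  have h2 : N.ncard ≤ 2 := by
    have hfin : N.Finite := Set.toFinite N
    rw [← hfin.cast_ncard_eq] at hN
    exact_mod_cast hN
  have h3 : (f ⁻¹' {x, y, z}).ncard ≤ 3 := by
    rw [← Set.ncard_image_of_injective _ hf]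
    have h4 : (f '' (f ⁻¹' {x, y, z})) ⊆ {x, y, z} := Set.image_preimage_subset f _
    have h5 : ({x, y, z} : Set T).Finite := Set.toFinite _
    refine (Set.ncard_le_ncard h4 h5).trans ?_
    exact (Set.ncard_insert_le _ _).trans (by
      have := Set.ncard_insert_le y ({z} : Set T)
      rw [Set.ncard_singleton] at this
      omega)
  have h6 := Set.ncard_le_ncard h1 (Set.toFinite _)
  have h7 := Set.ncard_union_le N (f ⁻¹' {x, y, z})
  omega

theorem Size8_sum {W : Type} [Finite W] (S : Set W) (h5 : S.ncard ≤ 5) (h3 : Sᶜ.ncard ≤ 3) :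
    Nat.card W ≤ 8 := by
  have h1 := Set.ncard_add_ncard_compl S
  omega

theorem size8 : S_Size8 := by
  intro W _ H hS2 hcase
  obtain ⟨K, hK1, hK2, hK3⟩ := hS2
  by_cases hI : ∃ v₀, v₀ ∉ K
  swap
  · left
    push Not at hI
    intro u v huv
    exact hK1 u (hI u) v (hI v) huv
  right
  obtain ⟨v₀, hv₀⟩ := hI
  rcases hcase with hCoS | hCoT | ⟨hQS, hA3⟩
  · obtain ⟨ι, f, hf, hadj⟩ := hCoS
    refine Size8_sum K ?_ (Size8_three _ ?_)
    · obtain ⟨x, y, z, hxyz⟩ := Size8_tdeg ι (f v₀)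
      refine Size8_five K (H.neighborSet v₀) (hK3 v₀ hv₀) f hf x y z ?_
      intro k hk
      have hne : v₀ ≠ k := fun h => hv₀ (h ▸ hk)
      by_cases h : H.Adj v₀ k
      · exact Or.inl h
      · exact Or.inr (hxyz _ (hadj v₀ k ((SimpleGraph.compl_adj H v₀ k).2 ⟨hne, h⟩)))
    · rintro ⟨p, hp, hpK⟩
      have hc : ∀ i j : Fin 4, i ≠ j → (tripods ι).Adj (f (p i)) (f (p j)) := fun i j hij =>
        hadj _ _ ((SimpleGraph.compl_adj H _ _).2 ⟨fun h => hij (hp h), hK2 _ (hpK i) _ (hpK j)⟩)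
      exact Size8_ttri (hc 0 1 (by decide)) (hc 0 2 (by decide)) (hc 1 2 (by decide))
  · obtain ⟨ι, f, hf, hadj, -⟩ := hCoT
    refine Size8_sum K ?_ (Size8_three _ ?_)
    · obtain ⟨x, y, z, hxyz⟩ := Size8_ndeg ι (f v₀)
      refine Size8_five K (H.neighborSet v₀) (hK3 v₀ hv₀) f hf x y z ?_
      intro k hk
      have hne : v₀ ≠ k := fun h => hv₀ (h ▸ hk)
      by_cases h : H.Adj v₀ k
      · exact Or.inl h
      · exact Or.inr (hxyz _ (hadj v₀ k ((SimpleGraph.compl_adj H v₀ k).2 ⟨hne, h⟩)))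
    · rintro ⟨p, hp, hpK⟩
      have hc : ∀ i j : Fin 4, i ≠ j → (nets ι).Adj (f (p i)) (f (p j)) := fun i j hij =>
        hadj _ _ ((SimpleGraph.compl_adj H _ _).2 ⟨fun h => hij (hp h), hK2 _ (hpK i) _ (hpK j)⟩)
      exact Size8_nK4 (hc 0 1 (by decide)) (hc 0 2 (by decide)) (hc 0 3 (by decide))
        (hc 1 2 (by decide)) (hc 1 3 (by decide)) (hc 2 3 (by decide))
  · obtain ⟨K', hK'1, hK'2, ι, f, hf, hadj⟩ := hQS
    have hI' : K'ᶜ.ncard ≤ 3 := by
      refine Size8_three _ ?_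
      rintro ⟨p, hp, hpK⟩
      exact hA3.2 ⟨p, hp, fun i j => hK'2 _ (hpK i) _ (hpK j)⟩
    refine Size8_sum K' ?_ hI'
    by_cases hv : ∃ v, v ∉ K ∧ v ∉ K'
    · obtain ⟨v, hvK, hvK'⟩ := hv
      obtain ⟨x, y, z, hxyz⟩ := Size8_tdeg ι (f v)
      refine Size8_five K' (H.neighborSet v) (hK3 v hvK) f hf x y z ?_
      intro k hk
      by_cases h : H.Adj v k
      · exact Or.inl h
      · exact Or.inr (hxyz _ (hadj k hk v hvK' (fun h' => h h'.symm)).symm)
    · push Not at hv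
      have hv₀' : v₀ ∈ K' := hv v₀ hv₀
      refine Size8_five K' (H.neighborSet v₀) (hK3 v₀ hv₀) (id : W → W) Function.injective_id
        v₀ v₀ v₀ ?_
      intro k hk
      by_cases h : v₀ = k
      · exact Or.inr (Or.inl h.symm)
      · exact Or.inl (hK'1 v₀ hv₀' k hk h)

end Pool.Agent.MPd439b2
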