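import Pool.Agent.Lib.MP_d439b2_co.Spec1

/-!
# MP_d439b2_co, C2: transitivity of the induced minor relation
-/

namespace Pool.Agent.MPd439b2

theorem imsTrans : S_ImsTrans := by
  intro V W W' G H F S hHF hFG
  obtain ⟨B, -, hBc, hBd, hBa⟩ := hHF
  obtain ⟨B', hBS', hBc', hBd', hBa'⟩ := hFG
  refine ⟨fun w => ⋃ w' ∈ B w, B' w', ?_, ?_, ?_, ?_⟩
  · intro w
    exact Set.iUnion₂_subset fun w' _ => hBS' w'
  · intro w
    have hmem : ∀ x, x ∈ (⋃ w' ∈ B w, B' w') ↔ ∃ w' ∈ B w, x ∈ B' w' := by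
      intro x
      simp only [Set.mem_iUnion, exists_prop]
    refine ⟨?_, ?_⟩
    · obtain ⟨w', hw'⟩ := (hBc w).1
      obtain ⟨x, hx⟩ := (hBc' w').1
      exact ⟨x, (hmem x).mpr ⟨w', hw', hx⟩⟩
    · intro C hC hne hne'
      by_contra hcon
      push Not at hcon
      -- closedness
      have hcl : ∀ w' ∈ B w, ∀ y, y ∈ B' w' → y ∈ C → B' w' ⊆ C := by
        intro w' hw' y hy hyC
        have h1 := (hBc' w').eq_of_nb (C := C ∩ B' w') Set.inter_subset_right ⟨y, hyC, hy⟩ (by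
          intro v hv hvn
          obtain ⟨hv1, c, hc, hcv⟩ := hvn
          exact hcon c hc.1 v ⟨(hmem v).mpr ⟨w', hw', hv⟩, fun h => hv1 ⟨h, hv⟩⟩ hcv)
        rw [← h1]
        exact Set.inter_subset_left
      have hDne : {w' ∈ B w | B' w' ⊆ C}.Nonempty := by
        obtain ⟨c, hc⟩ := hne
        obtain ⟨w', hw', hcw⟩ := (hmem c).mp (hC hc)
        exact ⟨w', hw', hcl w' hw' c hcw hc⟩
      have hDne' : {w' ∈ B w | B' w' ⊆ C} ≠ B w := by
        intro h
        apply hne'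
        refine Set.Subset.antisymm hC ?_
        intro x hx
        obtain ⟨w', hw', hxw⟩ := (hmem x).mp hx
        rw [← h] at hw'
        exact hw'.2 hxw
      obtain ⟨d, hd, e, he, hde⟩ := (hBc w).2 {w' ∈ B w | B' w' ⊆ C} (fun x hx => hx.1) hDne hDne'
      obtain ⟨x, hx, y, hy, hxy⟩ := (hBa' d e hde.ne).mp hde
      have hyC : y ∉ C := fun h => he.2 ⟨he.1, hcl e he.1 y hy h⟩
      exact hcon x (hd.2 hx) y ⟨(hmem y).mpr ⟨e, he.1, hy⟩, hyC⟩ hxy
  · intro w w' hww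
    rw [Set.disjoint_left]
    intro x hx hx'
    simp only [Set.mem_iUnion, exists_prop] at hx hx'
    obtain ⟨a, ha, hxa⟩ := hx
    obtain ⟨b, hb, hxb⟩ := hx'
    by_cases hab : a = b
    · subst hab
      exact Set.disjoint_left.mp (hBd w w' hww) ha hb
    · exact Set.disjoint_left.mp (hBd' a b hab) hxa hxb
  · intro w w' hww
    rw [hBa w w' hww]
    constructor
    · rintro ⟨a, ha, b, hb, hab⟩
      exact ((hBa' a b hab.ne).mp hab).mono (fun x hx => Set.mem_biUnion ha hx)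
        (fun x hx => Set.mem_biUnion hb hx)
    · rintro ⟨x, hx, y, hy, hxy⟩
      simp only [Set.mem_iUnion, exists_prop] at hx hy
      obtain ⟨a, ha, hxa⟩ := hx
      obtain ⟨b, hb, hyb⟩ := hy
      have hab : a ≠ b := by
        rintro rfl
        exact Set.disjoint_left.mp (hBd w w' hww) ha hb
      exact ⟨a, ha, b, hb, (hBa' a b hab).mpr ⟨x, hxa, y, hyb, hxy⟩⟩

end Pool.Agent.MPd439b2
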