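import Pool.Agent.Lib.MP_d439b2_co.Spec1

/-!
# MP_d439b2_co, A1: a layout of width `k` gives clique-width at most `3 (k + 1)`
-/

set_option autoImplicit false

namespace Pool.Agent.MPd439b2

namespace LayCWAux

/-- the labelled graph `(X, R, l)` is defined by an expression -/
def LReal (K : ℕ) {X : Type} (R : X → X → Prop) (l : X → Fin K) : Prop :=
  ∃ (e : Expr K) (φ : X ≃ e.V), (∀ u v, R u v ↔ e.Rel (φ u) (φ v)) ∧ ∀ u, e.label (φ u) = l u

variable {K : ℕ}

theorem LReal.congr {X : Type} {R R' : X → X → Prop} {l l' : X → Fin K} (h : LReal K R l)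
    (hR : ∀ u v, R' u v ↔ R u v) (hl : ∀ u, l' u = l u) : LReal K R' l' := by
  obtain ⟨e, φ, h1, h2⟩ := h
  exact ⟨e, φ, fun u v => (hR u v).trans (h1 u v), fun u => (h2 u).trans (hl u).symm⟩

theorem LReal.equiv {X Y : Type} {R : X → X → Prop} {l : X → Fin K} (h : LReal K R l)
    (ψ : Y ≃ X) : LReal K (fun u v => R (ψ u) (ψ v)) (fun u => l (ψ u)) := by
  obtain ⟨e, φ, h1, h2⟩ := h
  exact ⟨e, ψ.trans φ, fun u v => h1 _ _, fun u => h2 _⟩

theorem LReal.vertex {X : Type} [Unique X] (a : Fin K) {R : X → X → Prop}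
    (hR : ∀ u v, ¬ R u v) : LReal K R (fun _ => a) := by
  refine ⟨Expr.vertex a, (Equiv.ofUnique X Unit : X ≃ Unit), fun u v => ?_, fun u => rfl⟩
  exact iff_of_false (hR u v) (fun h => h)

theorem LReal.union {X Y : Type} {R : X → X → Prop} {l : X → Fin K} {R' : Y → Y → Prop}
    {l' : Y → Fin K} (h : LReal K R l) (h' : LReal K R' l') {Q : X ⊕ Y → X ⊕ Y → Prop}
    (h1 : ∀ u v, Q (Sum.inl u) (Sum.inl v) ↔ R u v)
    (h2 : ∀ u v, Q (Sum.inr u) (Sum.inr v) ↔ R' u v)
    (h3 : ∀ u v, ¬ Q (Sum.inl u) (Sum.inr v)) (h4 : ∀ u v, ¬ Q (Sum.inr u) (Sum.inl v)) :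
    LReal K Q (Sum.elim l l') := by
  obtain ⟨e, φ, a1, a2⟩ := h
  obtain ⟨e', φ', b1, b2⟩ := h'
  refine ⟨Expr.union e e', (Equiv.sumCongr φ φ' : X ⊕ Y ≃ e.V ⊕ e'.V), fun u v => ?_, fun u => ?_⟩
  · rcases u with u | u <;> rcases v with v | v
    · exact (h1 u v).trans (a1 u v)
    · exact iff_of_false (h3 u v) (fun h => h)
    · exact iff_of_false (h4 u v) (fun h => h)
    · exact (h2 u v).trans (b1 u v)
  · rcases u with u | u
    · exact a2 u
    · exact b2 u

theorem LReal.join {X : Type} {R : X → X → Prop} {l : X → Fin K} (h : LReal K R l)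
    {i j : Fin K} (hij : i ≠ j) :
    LReal K (fun u v => R u v ∨ (l u = i ∧ l v = j) ∨ (l u = j ∧ l v = i)) l := by
  obtain ⟨e, φ, h1, h2⟩ := h
  refine ⟨Expr.join i j hij e, φ, fun u v => ?_, fun u => h2 u⟩
  change _ ↔ (e.Rel (φ u) (φ v) ∨ (e.label (φ u) = i ∧ e.label (φ v) = j) ∨
    (e.label (φ u) = j ∧ e.label (φ v) = i))
  rw [h2, h2]
  exact or_congr (h1 u v) Iff.rfl

theorem LReal.relabel {X : Type} {R : X → X → Prop} {l : X → Fin K} (h : LReal K R l)
    (i j : Fin K) : LReal K R (fun u => if l u = i then j else l u) := by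
  obtain ⟨e, φ, h1, h2⟩ := h
  refine ⟨Expr.relabel i j e, φ, fun u v => h1 u v, fun u => ?_⟩
  change (if e.label (φ u) = i then j else e.label (φ u)) = _
  rw [h2]

theorem LReal.relabels {X : Type} {R : X → X → Prop} {l : X → Fin K} (h : LReal K R l)
    (t : Fin K → Fin K) (S : Finset (Fin K)) (ht : ∀ i ∈ S, t i ∉ S) :
    LReal K R (fun u => if l u ∈ S then t (l u) else l u) := by
  induction S using Finset.induction_on with
  | empty => exact h.congr (fun _ _ => Iff.rfl) (fun u => by simp)
  | insert a S ha ih =>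
    have h1 := ih (fun i hi h2 => ht i (Finset.mem_insert_of_mem hi) (Finset.mem_insert_of_mem h2))
    refine (h1.relabel a (t a)).congr (fun _ _ => Iff.rfl) (fun u => ?_)
    by_cases hu : l u ∈ S
    · have h2 : t (l u) ≠ a := fun h3 => ht (l u) (Finset.mem_insert_of_mem hu)
        (h3 ▸ Finset.mem_insert_self _ _)
      simp only [hu, Finset.mem_insert, or_true, if_true, h2, if_false]
    · by_cases hua : l u = a
      · simp only [if_false, hua, Finset.mem_insert, true_or, if_true, ha]
      · simp only [hu, if_false, hua, Finset.mem_insert, or_self]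

theorem LReal.joins {X : Type} {R : X → X → Prop} {l : X → Fin K} (h : LReal K R l)
    (P : Finset (Fin K × Fin K)) (hP : ∀ p ∈ P, p.1 ≠ p.2) :
    LReal K (fun u v => R u v ∨ ∃ p ∈ P, (l u = p.1 ∧ l v = p.2) ∨ (l u = p.2 ∧ l v = p.1)) l := by
  induction P using Finset.induction_on with
  | empty => exact h.congr (fun _ _ => by simp) (fun u => rfl)
  | insert a P ha ih =>
    have h1 := ih (fun p hp => hP p (Finset.mem_insert_of_mem hp))
    refine (h1.join (hP a (Finset.mem_insert_self _ _))).congr (fun u v => ?_) (fun _ => rfl)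
    constructor
    · rintro (h2 | ⟨p, hp, h2⟩)
      · exact Or.inl (Or.inl h2)
      · rcases Finset.mem_insert.1 hp with rfl | hp
        · exact Or.inr h2
        · exact Or.inl (Or.inr ⟨p, hp, h2⟩)
    · rintro ((h2 | ⟨p, hp, h2⟩) | h2)
      · exact Or.inl h2
      · exact Or.inr ⟨p, Finset.mem_insert_of_mem hp, h2⟩
      · exact Or.inr ⟨a, Finset.mem_insert_self _ _, h2⟩

variable {V : Type}

/-- an injection of the types of `A` into `Fin (k + 1)` -/
theorem exists_code (G : SimpleGraph V) (k : ℕ) (A : Set V) (h : (Types G A).encard ≤ k) :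
    ∃ g : Set V → Fin (k + 1), ∀ u ∈ A, ∀ v ∈ A,
      g (G.neighborSet u \ A) = g (G.neighborSet v \ A) →
        G.neighborSet u \ A = G.neighborSet v \ A := by
  classical
  set T : Set (Set V) := insert ∅ (Types G A) with hT
  have h1 : T.encard ≤ ((k + 1 : ℕ) : ℕ∞) := by
    refine (Set.encard_insert_le _ _).trans ?_
    push_cast
    exact add_le_add h le_rfl
  have hfin : T.Finite := Set.finite_of_encard_le_coe h1
  have : Fintype T := hfin.fintype
  have hcard : Fintype.card T ≤ Fintype.card (Fin (k + 1)) := by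
    rw [Fintype.card_fin]
    have h2 : T.encard = (Fintype.card T : ℕ∞) := by
      rw [Set.encard_eq_coe_toFinset_card, Set.toFinset_card]
    rw [h2] at h1
    exact_mod_cast h1
  obtain ⟨f⟩ := Function.Embedding.nonempty_of_card_le hcard
  have hmem : ∀ u ∈ A, G.neighborSet u \ A ∈ T := by
    intro u hu
    by_cases he : G.neighborSet u \ A = ∅
    · rw [he]; exact Set.mem_insert _ _
    · exact Set.mem_insert_of_mem _ ⟨Set.nonempty_iff_ne_empty.2 he, u, hu, rfl⟩
  refine ⟨fun s => if hs : s ∈ T then f ⟨s, hs⟩ else 0, fun u hu v hv huv => ?_⟩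
  simp only [dif_pos (hmem u hu), dif_pos (hmem v hv)] at huv
  exact congrArg Subtype.val (f.injective huv)

/-- the main claim -/
theorem claim (G : SimpleGraph V) (k : ℕ) (ι : Fin 3 × Fin (k + 1) ≃ Fin K) (A : Set V)
    (h : Lay G k A) :
    A = ∅ ∨ ∃ c : A → Fin (k + 1),
      LReal K (fun u v : A => G.Adj u v) (fun u => ι ((0 : Fin 3), c u)) ∧
      ∀ u v : A, c u = c v → G.neighborSet u \ A = G.neighborSet v \ A := by
  classical
  induction h with
  | empty => exact Or.inl rfl
  | single v hv =>
    right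
    refine ⟨fun _ => 0, LReal.vertex _ (fun u w h => ?_), fun u w _ => ?_⟩
    · have hu : (u : V) = v := u.2
      have hw : (w : V) = v := w.2
      rw [hu, hw] at h
      exact G.loopless.irrefl v h
    · have hu : (u : V) = v := u.2
      have hw : (w : V) = v := w.2
      rw [hu, hw]
  | @union A B hA hB hd ht ihA ihB =>
    rcases ihA with rfl | ⟨cA, rA, nA⟩
    · rw [Set.empty_union]; exact ihB
    rcases ihB with rfl | ⟨cB, rB, nB⟩
    · rw [Set.union_empty]; exact Or.inr ⟨cA, rA, nA⟩
    right
    obtain ⟨g, hg⟩ := exists_code G k (A ∪ B) ht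
    -- move the labels of `B` to block 1
    have rB1 : LReal K (fun u v : B => G.Adj u v)
        (fun u => ι ((1 : Fin 3), cB u)) := by
      refine (rB.relabels (fun x => ι ((1 : Fin 3), (ι.symm x).2))
        (Finset.univ.filter fun x => (ι.symm x).1 = (0 : Fin 3)) ?_).congr
        (fun _ _ => Iff.rfl) (fun v => ?_)
      · intro x _
        simp
      · simp
    -- disjoint union
    set Q : A ⊕ B → A ⊕ B → Prop := fun x y => match x, y with
      | Sum.inl u, Sum.inl v => G.Adj u v
      | Sum.inr u, Sum.inr v => G.Adj u v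
      | _, _ => False with hQ
    have rU : LReal K Q (Sum.elim (fun u => ι ((0 : Fin 3), cA u))
        (fun u => ι ((1 : Fin 3), cB u))) :=
      LReal.union rA rB1 (fun _ _ => Iff.rfl) (fun _ _ => Iff.rfl) (fun _ _ h => h)
        (fun _ _ h => h)
    -- the cross edges
    have hcross : ∀ (u u' : A) (v v' : B), cA u = cA u' → cB v = cB v' → G.Adj u' v' →
        G.Adj u v := by
      intro u u' v v' h1 h2 h3
      have hvA : (v' : V) ∉ A := fun h => Set.disjoint_left.1 hd h v'.2
      have huB : (u : V) ∉ B := fun h => Set.disjoint_left.1 hd u.2 h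
      have h4 : (v' : V) ∈ G.neighborSet (u' : V) \ A := ⟨h3, hvA⟩
      rw [← nA u u' h1] at h4
      have h5 : (u : V) ∈ G.neighborSet (v' : V) \ B := ⟨h4.1.symm, huB⟩
      rw [← nB v v' h2] at h5
      exact h5.1.symm
    have rJ := rU.joins (Finset.univ.filter fun p : Fin K × Fin K =>
      ∃ (u : A) (v : B), G.Adj u v ∧
        p = (ι ((0 : Fin 3), cA u), ι ((1 : Fin 3), cB v))) (by
      intro p hp
      rw [Finset.mem_filter] at hp
      obtain ⟨_, u, v, _, rfl⟩ := hp
      intro h
      have h1 := ι.injective h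
      exact absurd (congrArg Prod.fst h1) (show (0 : Fin 3) ≠ 1 by decide))
    have rJ' : LReal K
        (fun x y : A ⊕ B => G.Adj (Sum.elim (fun u : A => (u : V)) (fun v : B => (v : V)) x)
          (Sum.elim (fun u : A => (u : V)) (fun v : B => (v : V)) y))
        (Sum.elim (fun u => ι ((0 : Fin 3), cA u))
          (fun u => ι ((1 : Fin 3), cB u))) := by
      refine rJ.congr (fun x y => ?_) (fun _ => rfl)
      have h01 : ∀ i j : Fin (k + 1), (ι ((0 : Fin 3), i) : Fin K) ≠
          ι ((1 : Fin 3), j) := by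
        intro i j h
        exact absurd (congrArg Prod.fst (ι.injective h)) (show (0 : Fin 3) ≠ 1 by decide)
      have hinj : ∀ (a : Fin 3) (i j : Fin (k + 1)),
          (ι (a, i) : Fin K) = ι (a, j) → i = j := by
        intro a i j h
        exact congrArg Prod.snd (ι.injective h)
      rcases x with u | u <;> rcases y with v | v
      · constructor
        · intro h; exact Or.inl h
        · rintro (h | ⟨p, hp, h⟩)
          · exact h
          · rw [Finset.mem_filter] at hp
            obtain ⟨_, u', v', _, rfl⟩ := hp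
            rcases h with ⟨_, h⟩ | ⟨h, _⟩
            · exact absurd h (h01 _ _)
            · exact absurd h (h01 _ _)
      · constructor
        · intro h
          refine Or.inr ⟨(ι ((0 : Fin 3), cA u), ι ((1 : Fin 3), cB v)),
            Finset.mem_filter.2 ⟨Finset.mem_univ _, u, v, h, rfl⟩, Or.inl ⟨rfl, rfl⟩⟩
        · rintro (h | ⟨p, hp, h⟩)
          · exact absurd h (fun h => h)
          · rw [Finset.mem_filter] at hp
            obtain ⟨_, u', v', h3, rfl⟩ := hp
            rcases h with ⟨h1, h2⟩ | ⟨h1, _⟩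
            · exact hcross u u' v v' (hinj _ _ _ h1) (hinj _ _ _ h2) h3
            · exact absurd h1 (h01 _ _)
      · constructor
        · intro h
          refine Or.inr ⟨(ι ((0 : Fin 3), cA v), ι ((1 : Fin 3), cB u)),
            Finset.mem_filter.2 ⟨Finset.mem_univ _, v, u, G.adj_symm h, rfl⟩, Or.inr ⟨rfl, rfl⟩⟩
        · rintro (h | ⟨p, hp, h⟩)
          · exact absurd h (fun h => h)
          · rw [Finset.mem_filter] at hp
            obtain ⟨_, u', v', h3, rfl⟩ := hp
            rcases h with ⟨h1, _⟩ | ⟨h1, h2⟩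
            · exact absurd h1.symm (h01 _ _)
            · exact G.adj_symm (hcross v u' u v' (hinj _ _ _ h2) (hinj _ _ _ h1) h3)
      · constructor
        · intro h; exact Or.inl h
        · rintro (h | ⟨p, hp, h⟩)
          · exact h
          · rw [Finset.mem_filter] at hp
            obtain ⟨_, u', v', _, rfl⟩ := hp
            rcases h with ⟨h, _⟩ | ⟨_, h⟩
            · exact absurd h.symm (h01 _ _)
            · exact absurd h.symm (h01 _ _)
    -- the new labels
    let f₀ : Fin (k + 1) → Fin (k + 1) := fun i =>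
      if h : ∃ u : A, cA u = i then g (G.neighborSet (h.choose : V) \ (A ∪ B)) else 0
    let f₁ : Fin (k + 1) → Fin (k + 1) := fun i =>
      if h : ∃ u : B, cB u = i then g (G.neighborSet (h.choose : V) \ (A ∪ B)) else 0
    have hf₀ : ∀ u : A, f₀ (cA u) = g (G.neighborSet (u : V) \ (A ∪ B)) := by
      intro u
      have h : ∃ u' : A, cA u' = cA u := ⟨u, rfl⟩
      simp only [f₀, dif_pos h]
      rw [← Set.sdiff_sdiff, nA _ _ h.choose_spec, Set.sdiff_sdiff]
    have hf₁ : ∀ u : B, f₁ (cB u) = g (G.neighborSet (u : V) \ (A ∪ B)) := by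
      intro u
      have h : ∃ u' : B, cB u' = cB u := ⟨u, rfl⟩
      simp only [f₁, dif_pos h]
      rw [Set.union_comm, ← Set.sdiff_sdiff, nB _ _ h.choose_spec, Set.sdiff_sdiff]
    have r2 : LReal K
        (fun x y : A ⊕ B => G.Adj (Sum.elim (fun u : A => (u : V)) (fun v : B => (v : V)) x)
          (Sum.elim (fun u : A => (u : V)) (fun v : B => (v : V)) y))
        (fun x => ι ((2 : Fin 3),
          g (G.neighborSet (Sum.elim (fun u : A => (u : V)) (fun v : B => (v : V)) x) \
            (A ∪ B)))) := by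
      refine (rJ'.relabels (fun x => ι ((2 : Fin 3),
        if (ι.symm x).1 = (0 : Fin 3) then f₀ (ι.symm x).2
          else f₁ (ι.symm x).2))
        (Finset.univ.filter fun x => (ι.symm x).1 ≠ (2 : Fin 3)) ?_).congr
        (fun _ _ => Iff.rfl) (fun x => ?_)
      · intro x _
        simp
      · rcases x with u | u
        · simp [hf₀]
        · simp [hf₁]
    have r0 : LReal K
        (fun x y : A ⊕ B => G.Adj (Sum.elim (fun u : A => (u : V)) (fun v : B => (v : V)) x)
          (Sum.elim (fun u : A => (u : V)) (fun v : B => (v : V)) y))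
        (fun x => ι ((0 : Fin 3),
          g (G.neighborSet (Sum.elim (fun u : A => (u : V)) (fun v : B => (v : V)) x) \
            (A ∪ B)))) := by
      refine (r2.relabels (fun x => ι ((0 : Fin 3), (ι.symm x).2))
        (Finset.univ.filter fun x => (ι.symm x).1 = (2 : Fin 3)) ?_).congr
        (fun _ _ => Iff.rfl) (fun x => ?_)
      · intro x _
        simp
      · simp
    -- transport to the union
    have hval : ∀ w : (A ∪ B : Set V),
        Sum.elim (fun u : A => (u : V)) (fun v : B => (v : V)) (Equiv.Set.union hd w) = w := by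
      intro w
      have h1 : ∀ x : A ⊕ B, (((Equiv.Set.union hd).symm x : (A ∪ B : Set V)) : V) =
          Sum.elim (fun u : A => (u : V)) (fun v : B => (v : V)) x := by
        intro x
        rcases x with u | u
        · rw [Equiv.Set.union_symm_apply_left]; rfl
        · rw [Equiv.Set.union_symm_apply_right]; rfl
      rw [← h1, Equiv.symm_apply_apply]
    refine ⟨fun w => g (G.neighborSet (w : V) \ (A ∪ B)), ?_, fun u v huv => ?_⟩
    · refine (r0.equiv (Equiv.Set.union hd)).congr (fun u v => ?_) (fun u => ?_)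
      · rw [hval, hval]
      · rw [hval]
    · exact hg u u.2 v v.2 huv

end LayCWAux

open LayCWAux

theorem layCW : S_LayCW := by
  intro V _ hne G k h
  rcases claim G k finProdFinEquiv Set.univ h with h0 | ⟨c, ⟨e, φ, h1, _⟩, _⟩
  · exact absurd h0 Set.univ_nonempty.ne_empty
  · exact ⟨e, (Equiv.Set.univ V).symm.trans φ, fun u v => h1 ⟨u, trivial⟩ ⟨v, trivial⟩⟩

end Pool.Agent.MPd439b2
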