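import Pool.Agent.Lib.MP_d439b2_co.Spec1

/-!
# MP_d439b2_co, C1: every graph in `S2` is an induced minor of some `DD N m`
-/

namespace Pool.Agent.MPd439b2

namespace S2DDAux

/-- a set with at most two elements is given by two optional elements -/
theorem two_opt {W : Type} (A : Set W) (h : A.encard ≤ 2) :
    ∃ f g : Option W, ∀ a, a ∈ A ↔ (f = some a ∨ g = some a) := by
  rcases Set.eq_empty_or_nonempty A with h0 | ⟨x, hx⟩
  · refine ⟨none, none, fun a => ?_⟩
    simp [h0]
  · by_cases h1 : ∃ y ∈ A, y ≠ x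
    · obtain ⟨y, hy, hyx⟩ := h1
      refine ⟨some x, some y, fun a => ?_⟩
      constructor
      · intro ha
        by_contra hcon
        push Not at hcon
        have h2 : ({x, y, a} : Set W) ⊆ A := by
          intro z hz
          rcases hz with hz | hz | hz
          · rw [hz]; exact hx
          · rw [hz]; exact hy
          · rw [hz]; exact ha
        have h3 : ({x, y, a} : Set W).encard = 3 := by
          rw [Set.encard_eq_three]
          refine ⟨x, y, a, hyx.symm, ?_, ?_, rfl⟩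
          · intro h; exact hcon.1 (by rw [h])
          · intro h; exact hcon.2 (by rw [h])
        have h4 := (Set.encard_le_encard h2).trans h
        rw [h3] at h4
        exact absurd h4 (by decide)
      · rintro (h2 | h2)
        · rw [← Option.some.inj h2]; exact hx
        · rw [← Option.some.inj h2]; exact hy
    · push Not at h1
      refine ⟨some x, none, fun a => ?_⟩
      constructor
      · intro ha
        left
        rw [h1 a ha]
      · rintro (h2 | h2)
        · rw [← Option.some.inj h2]; exact hx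
        · exact absurd h2 (by simp)

variable {W : Type} {K : Set W} {s m : ℕ}

/-- the vertex `w` of `H` which belongs to a vertex of `DD (2 m + s) m` -/
def Own (eK : {w // w ∈ K} ≃ Fin s) (eI : {w // w ∉ K} ≃ Fin m)
    (f g : {w // w ∉ K} → Option W) (x : Fin (2 * m + s) ⊕ Fin m) (w : W) : Prop :=
  match x with
  | Sum.inl i => (∃ h : w ∈ K, i.val = 2 * m + (eK ⟨w, h⟩).val) ∨
      (∃ v, i.val = 2 * (eI v).val ∧ f v = some w) ∨
      (∃ v, i.val = 2 * (eI v).val + 1 ∧ g v = some w)
  | Sum.inr q => ∃ h : w ∉ K, q = eI ⟨w, h⟩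

theorem own_fun (eK : {w // w ∈ K} ≃ Fin s) (eI : {w // w ∉ K} ≃ Fin m)
    (f g : {w // w ∉ K} → Option W) (x : Fin (2 * m + s) ⊕ Fin m) (w w' : W)
    (h : Own eK eI f g x w) (h' : Own eK eI f g x w') : w = w' := by
  rcases x with i | q
  · rcases h with ⟨hw, h⟩ | ⟨v, hv, h⟩ | ⟨v, hv, h⟩ <;>
      rcases h' with ⟨hw', h'⟩ | ⟨v', hv', h'⟩ | ⟨v', hv', h'⟩
    · have h1 : eK ⟨w, hw⟩ = eK ⟨w', hw'⟩ := Fin.ext (by omega)
      exact congrArg Subtype.val (eK.injective h1)
    · have := (eI v').isLt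
      omega
    · have := (eI v').isLt
      omega
    · have := (eI v).isLt
      omega
    · have h1 : eI v = eI v' := Fin.ext (by omega)
      have h2 := eI.injective h1
      subst h2
      rw [h] at h'
      exact Option.some.inj h'
    · omega
    · have := (eI v).isLt
      omega
    · omega
    · have h1 : eI v = eI v' := Fin.ext (by omega)
      have h2 := eI.injective h1
      subst h2
      rw [h] at h'
      exact Option.some.inj h'
  · obtain ⟨hw, h⟩ := h
    obtain ⟨hw', h'⟩ := h'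
    have h1 : eI ⟨w, hw⟩ = eI ⟨w', hw'⟩ := h.symm.trans h'
    exact congrArg Subtype.val (eI.injective h1)

end S2DDAux

open S2DDAux in
/-- **C1.** Every graph in `S2` is an induced minor of some `DD N m`. -/
theorem s2DD : S_S2DD := by
  classical
  intro W _ H hH
  obtain ⟨K, hK1, hK2, hK3⟩ := hH
  have hfg : ∀ v : {w // w ∉ K}, ∃ f g : Option W, ∀ a,
      a ∈ H.neighborSet v.1 ↔ (f = some a ∨ g = some a) :=
    fun v => two_opt _ (hK3 v.1 v.2)
  choose f g hfg using hfg
  obtain ⟨s, ⟨eK⟩⟩ := Finite.exists_equiv_fin {w // w ∈ K}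
  obtain ⟨m, ⟨eI⟩⟩ := Finite.exists_equiv_fin {w // w ∉ K}
  -- the neighbours of a vertex outside of `K` are in `K`
  have hnbK : ∀ (v : {w // w ∉ K}) (a : W), H.Adj v.1 a → a ∈ K := by
    intro v a hva
    by_contra ha
    exact hK2 v.1 v.2 a ha hva
  have hin : ∀ (i : Fin (2 * m + s)) (w : W), Own eK eI f g (Sum.inl i) w → w ∈ K := by
    intro i w h
    rcases h with ⟨hw, _⟩ | ⟨v, _, h⟩ | ⟨v, _, h⟩
    · exact hw
    · exact hnbK v w ((hfg v w).mpr (Or.inl h))
    · exact hnbK v w ((hfg v w).mpr (Or.inr h))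
  let B : W → Set (Fin (2 * m + s) ⊕ Fin m) := fun w => {x | Own eK eI f g x w}
  have hBmem : ∀ w x, x ∈ B w ↔ Own eK eI f g x w := fun w x => Iff.rfl
  -- base points
  have hbase : ∀ w (hw : w ∈ K),
      Sum.inl ⟨2 * m + (eK ⟨w, hw⟩).val, by have := (eK ⟨w, hw⟩).isLt; omega⟩ ∈ B w :=
    fun w hw => Or.inl ⟨hw, rfl⟩
  have hpt : ∀ w (hw : w ∉ K), B w = {Sum.inr (eI ⟨w, hw⟩)} := by
    intro w hw
    ext x
    rw [hBmem, Set.mem_singleton_iff]
    constructor
    · intro hx
      rcases x with i | q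
      · exact absurd (hin i w hx) hw
      · obtain ⟨_, h⟩ := hx
        rw [h]
    · intro hx
      rw [hx]
      exact ⟨hw, rfl⟩
  have hclq : ∀ w (hw : w ∈ K) x, x ∈ B w → ∃ i, x = Sum.inl i := by
    intro w hw x hx
    rcases x with i | q
    · exact ⟨i, rfl⟩
    · obtain ⟨h, _⟩ := hx
      exact absurd hw h
  -- adjacency of a vertex outside of `K` and a vertex of `K`
  have hadj : ∀ w (hw : w ∈ K) w' (hw' : w' ∉ K),
      (H.Adj w w' ↔ Tch (DD (2 * m + s) m) (B w) (B w')) := by
    intro w hw w' hw'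
    have h1 : H.Adj w w' ↔ (f ⟨w', hw'⟩ = some w ∨ g ⟨w', hw'⟩ = some w) := by
      rw [← hfg ⟨w', hw'⟩ w]
      exact H.adj_comm w w'
    rw [h1, hpt w' hw']
    have hlt := (eI ⟨w', hw'⟩).isLt
    constructor
    · rintro (h | h)
      · exact ⟨Sum.inl ⟨2 * (eI ⟨w', hw'⟩).val, by omega⟩, Or.inr (Or.inl ⟨⟨w', hw'⟩, rfl, h⟩),
          _, rfl, Or.inl rfl⟩
      · exact ⟨Sum.inl ⟨2 * (eI ⟨w', hw'⟩).val + 1, by omega⟩,
          Or.inr (Or.inr ⟨⟨w', hw'⟩, rfl, h⟩), _, rfl, Or.inr rfl⟩
    · rintro ⟨x, hx, y, hy, hxy⟩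
      rw [Set.mem_singleton_iff] at hy
      subst hy
      obtain ⟨i, rfl⟩ := hclq w hw x hx
      have hxy' : i.val = 2 * (eI ⟨w', hw'⟩).val ∨ i.val = 2 * (eI ⟨w', hw'⟩).val + 1 := hxy
      rcases hx with ⟨hw2, h⟩ | ⟨v, hv, h⟩ | ⟨v, hv, h⟩
      · omega
      · left
        have h2 : eI v = eI ⟨w', hw'⟩ := Fin.ext (by omega)
        rw [← eI.injective h2]
        exact h
      · right
        have h2 : eI v = eI ⟨w', hw'⟩ := Fin.ext (by omega)
        rw [← eI.injective h2]
        exact h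
  refine ⟨2 * m + s, m, by omega, B, fun w => Set.subset_univ _, ?_, ?_, ?_⟩
  · intro w
    by_cases hw : w ∈ K
    · refine ⟨⟨_, hbase w hw⟩, fun C hC hne hne' => ?_⟩
      obtain ⟨b, hb⟩ := hne
      obtain ⟨a, ha, haC⟩ : ∃ a ∈ B w, a ∉ C := by
        by_contra h'
        push Not at h'
        exact hne' (Set.Subset.antisymm hC h')
      refine ⟨b, hb, a, ⟨ha, haC⟩, ?_⟩
      obtain ⟨i, rfl⟩ := hclq w hw b (hC hb)
      obtain ⟨j, rfl⟩ := hclq w hw a ha
      change i ≠ j
      rintro rfl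
      exact haC hb
    · rw [hpt w hw]
      exact Conn.singleton _ _
  · intro w w' hww'
    rw [Set.disjoint_left]
    intro x hx hx'
    exact hww' (own_fun eK eI f g x w w' hx hx')
  · intro w w' hww'
    by_cases hw : w ∈ K <;> by_cases hw' : w' ∈ K
    · refine iff_of_true (hK1 w hw w' hw' hww') ⟨_, hbase w hw, _, hbase w' hw', ?_⟩
      intro h
      have h1 : eK ⟨w, hw⟩ = eK ⟨w', hw'⟩ := by
        have h2 := congrArg Fin.val h
        simp only at h2
        exact Fin.ext (by omega)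
      exact hww' (congrArg Subtype.val (eK.injective h1))
    · exact hadj w hw w' hw'
    · rw [H.adj_comm, tch_comm]
      exact hadj w' hw' w hw
    · refine iff_of_false (hK2 w hw w' hw') ?_
      rw [hpt w hw, hpt w' hw']
      rintro ⟨x, hx, y, hy, hxy⟩
      rw [Set.mem_singleton_iff] at hx hy
      subst hx
      subst hy
      exact hxy

end Pool.Agent.MPd439b2
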