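import Pool.Agent.Lib.MP_d439b2_co.Defs4

/-!
# MP_d439b2_co : the classification outside the exceptional graphs (definitions)
-/

set_option autoImplicit false

namespace Pool.Agent.MPd439b2

/-- The exceptional graphs: `H` belongs to `S2` and is not complete, and `H` is the complement of a
subgraph of a disjoint union of tripods, or belongs to the analogous class `InCoT` of nets, or belongs
to both classes `InQS` and `InA3`.  (All these graphs have at most eight vertices.) -/
def Exc {W : Type} (H : SimpleGraph W) : Prop :=
  InS2 H ∧ ¬ IsComplete H ∧ (InCoS H ∨ InCoT H ∨ (InQS H ∧ InA3 H))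

/-- `H` belongs to `S2`, and `H` is complete or `H'` is the join of a complete graph and an induced
subgraph of `P_4` -/
def C1 {W W' : Type} (H : SimpleGraph W) (H' : SimpleGraph W') : Prop :=
  InS2 H ∧ (IsComplete H ∨ IsKP4 H')

/-- The condition of the classification: one of the two graphs is an induced minor of a grid, and
`C1` holds for the pair in one of the two orders. -/
def Cond {W₁ W₂ : Type} (H₁ : SimpleGraph W₁) (H₂ : SimpleGraph W₂) : Prop :=
  (InGrid H₁ ∨ InGrid H₂) ∧ (C1 H₁ H₂ ∨ C1 H₂ H₁)

/-- Third theorem: the classification of all pairs without exceptional graphs.  The exceptional graphs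
have at most eight vertices; `Cond` is always sufficient for bounded clique-width, and it is necessary
unless one of the two graphs is exceptional (in which case it is still necessary that one of the two
graphs is an induced minor of a grid). -/
def Goal4 : Prop :=
  (∀ (W : Type) [Finite W] (H : SimpleGraph W), Exc H → Nat.card W ≤ 8) ∧
    ∀ (W₁ W₂ : Type) [Finite W₁] [Finite W₂] (H₁ : SimpleGraph W₁) (H₂ : SimpleGraph W₂),
      (Cond H₁ H₂ → BoundedCW H₁ H₂) ∧
      (BoundedCW H₁ H₂ → Cond H₁ H₂ ∨ ((InGrid H₁ ∨ InGrid H₂) ∧ (Exc H₁ ∨ Exc H₂)))

end Pool.Agent.MPd439b2
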