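import Pool.Agent.Lib.MP_d439b2_co.Spec4

/-!
# MP_d439b2_co, I9: assembly of the reduction theorem (Goal3)
-/

namespace Pool.Agent.MPd439b2

namespace Goal3Aux

variable {W₁ W₂ : Type} {H₁ : SimpleGraph W₁} {H₂ : SimpleGraph W₂}

/-- a graph of large clique-width contains `H₁` or `H₂` -/
theorem principle {c : ℕ} (hb : ∀ (V : Type) [Finite V] [Nonempty V] (G : SimpleGraph V),
      ¬ IsIndMinor H₁ G → ¬ IsIndMinor H₂ G → CWLe c G)
    (V : Type) [Finite V] [Nonempty V] (G : SimpleGraph V) (h : ¬ CWLe c G) :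
    IsIndMinor H₁ G ∨ IsIndMinor H₂ G := by
  by_contra hcon
  push Not at hcon
  exact h (hb V G hcon.1 hcon.2)

theorem wtv_nonempty {n g : ℕ} (hn : 1 ≤ n) : Nonempty (WTV n g) :=
  ⟨Sum.inl (false, ⟨0, hn⟩, ⟨0, Nat.mul_pos hn (by omega)⟩)⟩

theorem red {W W' : Type} [Finite W] (h11 : S_Size8) (h12 : S_C4) (h13 : S_KP4)
    (H : SimpleGraph W) (H' : SimpleGraph W') (hS : InS2 H) (hCoS : InCoS H ∨ InCoS H')
    (hCoT : InCoT H ∨ InCoT H') (hQS : InQS H ∨ InQS H') (hA : InA3 H ∨ InA3 H') : Red H H' := by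
  refine ⟨hS, ?_⟩
  by_cases h1 : InCoS H
  · rcases h11 W H hS (Or.inl h1) with h | h
    · exact Or.inl h
    · exact Or.inr (Or.inl h)
  by_cases h2 : InCoT H
  · rcases h11 W H hS (Or.inr (Or.inl h2)) with h | h
    · exact Or.inl h
    · exact Or.inr (Or.inl h)
  have h1' : InCoS H' := hCoS.resolve_left h1
  have h2' : InCoT H' := hCoT.resolve_left h2
  by_cases h3 : ∃ a b c d : W', a ≠ c ∧ b ≠ d ∧ H'.Adj a b ∧ H'.Adj b c ∧ H'.Adj c d ∧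
      H'.Adj d a ∧ ¬ H'.Adj a c ∧ ¬ H'.Adj b d
  · obtain ⟨a, b, c, d, hac, hbd, e1, e2, e3, e4, e5, e6⟩ := h3
    obtain ⟨q, a3⟩ := h12 W' H' a b c d hac hbd e1 e2 e3 e4 e5 e6
    rcases h11 W H hS (Or.inr (Or.inr ⟨hQS.resolve_right q, hA.resolve_right a3⟩)) with h | h
    · exact Or.inl h
    · exact Or.inr (Or.inl h)
  · exact Or.inr (Or.inr (h13 W' H' h1' h2' h3))

end Goal3Aux

open Goal3Aux in
/-- **I9.** -/
theorem goal3_of (h1 : S_S2Closed) (h2 : S_SGUnb) (h3 : S_CoSClosed) (h4 : S_CoTClosed)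
    (h5 : S_WTUnb) (h6 : S_GridUnb) (h7 : S_QSClosed) (h8 : S_QSUnb) (h9 : S_A3Fam)
    (h10 : S_A3Closed) (h11 : S_Size8) (h12 : S_C4) (h13 : S_KP4) : S_Goal3 := by
  intro W₁ W₂ _ _ H₁ H₂ hbd
  obtain ⟨c, hb⟩ := hbd
  have P := fun (V : Type) (_ : Finite V) (_ : Nonempty V) (G : SimpleGraph V)
    (h : ¬ CWLe c G) => principle hb V G h
  have hS2 : InS2 H₁ ∨ InS2 H₂ := by
    have hne : Nonempty (Fin (3 * c + 2) ⊕ (Fin (3 * c + 2) × Fin (3 * c + 2))) :=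
      ⟨Sum.inl ⟨0, by omega⟩⟩
    rcases P _ inferInstance hne (SG (3 * c + 2)) (h2.2 c (3 * c + 2) (by omega) (by omega))
      with h | h
    · exact Or.inl (h1.1 _ _ _ _ (h2.1 _) h)
    · exact Or.inr (h1.1 _ _ _ _ (h2.1 _) h)
  set g : ℕ := 3 * Nat.card W₁ + 3 * Nat.card W₂ + 6 with hg
  have hCoS : InCoS H₁ ∨ InCoS H₂ := by
    obtain ⟨n, hn, hcw⟩ := h5 g 0 c (by omega) (by omega)
    rcases P _ inferInstance (wtv_nonempty hn) _ hcw with h | h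
    · exact Or.inl (h3 W₁ H₁ n g (by omega) h)
    · exact Or.inr (h3 W₂ H₂ n g (by omega) h)
  have hCoT : InCoT H₁ ∨ InCoT H₂ := by
    obtain ⟨n, hn, hcw⟩ := h5 g 1 c (by omega) (by omega)
    rcases P _ inferInstance (wtv_nonempty hn) _ hcw with h | h
    · exact Or.inl (h4 W₁ H₁ n g (by omega) h)
    · exact Or.inr (h4 W₂ H₂ n g (by omega) h)
  have hGrid : InGrid H₁ ∨ InGrid H₂ := by
    obtain ⟨n, hn, hcw⟩ := h6 c
    have hne : Nonempty (Fin n × Fin n) := ⟨(⟨0, hn⟩, ⟨0, hn⟩)⟩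
    rcases P _ inferInstance hne _ hcw with h | h
    · exact Or.inl ⟨n, h⟩
    · exact Or.inr ⟨n, h⟩
  have hQS : InQS H₁ ∨ InQS H₂ := by
    have he : Even (2 * (Nat.card W₁ + Nat.card W₂ + 1)) := even_two_mul _
    obtain ⟨n, hn, hcw⟩ := h8 (2 * (Nat.card W₁ + Nat.card W₂ + 1)) c (by omega) he
    rcases P _ inferInstance (wtv_nonempty hn) _ hcw with h | h
    · exact Or.inl (h7 W₁ H₁ n _ he (by omega) h)
    · exact Or.inr (h7 W₂ H₂ n _ he (by omega) h)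
  have hA3 : InA3 H₁ ∨ InA3 H₂ := by
    obtain ⟨n, hn, hcw⟩ := h9.2 c
    have hne : Nonempty ((Fin n × Fin n) ⊕ (Fin n ⊕ Fin n)) := ⟨Sum.inl (⟨0, hn⟩, ⟨0, hn⟩)⟩
    rcases P _ inferInstance hne _ hcw with h | h
    · exact Or.inl (h10 _ _ _ _ (h9.1 n) h)
    · exact Or.inr (h10 _ _ _ _ (h9.1 n) h)
  refine ⟨hGrid, ?_⟩
  rcases hS2 with h | h
  · exact Or.inl (red h11 h12 h13 H₁ H₂ h hCoS hCoT hQS hA3)
  · exact Or.inr (red h11 h12 h13 H₂ H₁ h hCoS.symm hCoT.symm hQS.symm hA3.symm)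

end Pool.Agent.MPd439b2
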