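import Pool.Agent.Lib.MP_d439b2_co.Defs2

/-!
# MP_d439b2_co, basic lemmas on `Conn`, `nb`, `IMS`, `Lay`
-/

namespace Pool.Agent.MPd439b2

variable {V W : Type} {G : SimpleGraph V}

/-! ### `Conn` -/

theorem Conn.singleton (G : SimpleGraph V) (v : V) : Conn G {v} := by
  refine ⟨⟨v, rfl⟩, fun B hB hne hne' => ?_⟩
  exact absurd (Set.Nonempty.subset_singleton_iff hne |>.mp hB) hne'

theorem Conn.union {A B : Set V} (hA : Conn G A) (hB : Conn G B)
    (h : (A ∩ B).Nonempty ∨ Tch G A B) : Conn G (A ∪ B) := by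
  refine ⟨hA.1.mono Set.subset_union_left, fun C hC hne hne' => ?_⟩
  by_cases h1 : (C ∩ A).Nonempty ∧ C ∩ A ≠ A
  · obtain ⟨b, hb, a, ha, hab⟩ := hA.2 (C ∩ A) Set.inter_subset_right h1.1 h1.2
    exact ⟨b, hb.1, a, ⟨Or.inl ha.1, fun h => ha.2 ⟨h, ha.1⟩⟩, hab⟩
  by_cases h2 : (C ∩ B).Nonempty ∧ C ∩ B ≠ B
  · obtain ⟨b, hb, a, ha, hab⟩ := hB.2 (C ∩ B) Set.inter_subset_right h2.1 h2.2
    exact ⟨b, hb.1, a, ⟨Or.inr ha.1, fun h => ha.2 ⟨h, ha.1⟩⟩, hab⟩
  -- now `C` is `A` or `B`, disjoint from the other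
  have hA' : C ∩ A = ∅ ∨ A ⊆ C := by
    by_cases h3 : (C ∩ A).Nonempty
    · right
      by_contra h4
      apply h1
      refine ⟨h3, fun h5 => h4 ?_⟩
      rw [← h5]; exact Set.inter_subset_left
    · left; exact Set.not_nonempty_iff_eq_empty.mp h3
  have hB' : C ∩ B = ∅ ∨ B ⊆ C := by
    by_cases h3 : (C ∩ B).Nonempty
    · right
      by_contra h4
      apply h2
      refine ⟨h3, fun h5 => h4 ?_⟩
      rw [← h5]; exact Set.inter_subset_left
    · left; exact Set.not_nonempty_iff_eq_empty.mp h3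
  rcases hA' with hA' | hA' <;> rcases hB' with hB' | hB'
  · exfalso
    obtain ⟨c, hc⟩ := hne
    rcases hC hc with h3 | h3
    · exact (Set.mem_empty_iff_false c).mp (hA' ▸ ⟨hc, h3⟩)
    · exact (Set.mem_empty_iff_false c).mp (hB' ▸ ⟨hc, h3⟩)
  · rcases h with ⟨z, hz⟩ | ⟨a, ha, b, hb, hab⟩
    · exact absurd (show z ∈ C ∩ A from ⟨hB' hz.2, hz.1⟩) (by rw [hA']; exact Set.notMem_empty z)
    · refine ⟨b, hB' hb, a, ⟨Or.inl ha, fun h => ?_⟩, hab.symm⟩
      exact absurd (show a ∈ C ∩ A from ⟨h, ha⟩) (by rw [hA']; exact Set.notMem_empty a)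
  · rcases h with ⟨z, hz⟩ | ⟨a, ha, b, hb, hab⟩
    · exact absurd (show z ∈ C ∩ B from ⟨hA' hz.1, hz.2⟩) (by rw [hB']; exact Set.notMem_empty z)
    · refine ⟨a, hA' ha, b, ⟨Or.inr hb, fun h => ?_⟩, hab⟩
      exact absurd (show b ∈ C ∩ B from ⟨h, hb⟩) (by rw [hB']; exact Set.notMem_empty b)
  · exfalso
    apply hne'
    exact Set.Subset.antisymm hC (Set.union_subset hA' hB')

theorem Conn.insert {A : Set V} {v : V} (hA : Conn G A) (h : ∃ a ∈ A, G.Adj a v) :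
    Conn G (insert v A) := by
  rw [Set.insert_eq, Set.union_comm]
  obtain ⟨a, ha, hav⟩ := h
  exact hA.union (Conn.singleton G v) (Or.inr ⟨a, ha, v, rfl, hav⟩)

theorem Conn.pair {u v : V} (h : G.Adj u v) : Conn G {u, v} :=
  (Conn.singleton G v).insert ⟨v, rfl, h.symm⟩

theorem Tch.symm {A B : Set V} (h : Tch G A B) : Tch G B A := by
  obtain ⟨a, ha, b, hb, hab⟩ := h
  exact ⟨b, hb, a, ha, hab.symm⟩

theorem Tch.mono {A B A' B' : Set V} (h : Tch G A B) (hA : A ⊆ A') (hB : B ⊆ B') :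
    Tch G A' B' := by
  obtain ⟨a, ha, b, hb, hab⟩ := h
  exact ⟨a, hA ha, b, hB hb, hab⟩

theorem tch_comm {A B : Set V} : Tch G A B ↔ Tch G B A := ⟨Tch.symm, Tch.symm⟩

theorem Tch.of_adj {u v : V} (h : G.Adj u v) {A B : Set V} (hu : u ∈ A) (hv : v ∈ B) :
    Tch G A B := ⟨u, hu, v, hv, h⟩

theorem Conn.congr {G' : SimpleGraph V} {A : Set V}
    (h : ∀ u ∈ A, ∀ v ∈ A, (G.Adj u v ↔ G'.Adj u v)) : Conn G A ↔ Conn G' A := by
  constructor
  · rintro ⟨h1, h2⟩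
    refine ⟨h1, fun B hB hne hne' => ?_⟩
    obtain ⟨b, hb, a, ha, hab⟩ := h2 B hB hne hne'
    exact ⟨b, hb, a, ha, (h b (hB hb) a ha.1).mp hab⟩
  · rintro ⟨h1, h2⟩
    refine ⟨h1, fun B hB hne hne' => ?_⟩
    obtain ⟨b, hb, a, ha, hab⟩ := h2 B hB hne hne'
    exact ⟨b, hb, a, ha, (h b (hB hb) a ha.1).mpr hab⟩

theorem Conn.mono_graph {G' : SimpleGraph V} {A : Set V} (hA : Conn G A)
    (h : ∀ u ∈ A, ∀ v ∈ A, G.Adj u v → G'.Adj u v) : Conn G' A := by
  refine ⟨hA.1, fun B hB hne hne' => ?_⟩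
  obtain ⟨b, hb, a, ha, hab⟩ := hA.2 B hB hne hne'
  exact ⟨b, hb, a, ha, h b (hB hb) a ha.1 hab⟩

theorem Conn.eq_of_nb {A C : Set V} (hA : Conn G A) (hC : C ⊆ A) (hne : C.Nonempty)
    (h : ∀ v ∈ A, v ∉ nb G C) : C = A := by
  by_contra hne'
  obtain ⟨b, hb, a, ha, hab⟩ := hA.2 C hC hne hne'
  exact h a ha.1 ⟨ha.2, b, hb, hab⟩

/-- the connected component of `v` in `G[A]` -/
theorem exists_comp (G : SimpleGraph V) {A : Set V} {v : V} (hv : v ∈ A) :
    ∃ C ⊆ A, v ∈ C ∧ Conn G C ∧ ∀ u ∈ A, u ∉ nb G C := by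
  let C : Set V := ⋃₀ {D | D ⊆ A ∧ v ∈ D ∧ Conn G D}
  have hCA : C ⊆ A := Set.sUnion_subset fun D hD => hD.1
  have hvC : v ∈ C := ⟨{v}, ⟨Set.singleton_subset_iff.mpr hv, rfl, Conn.singleton G v⟩, rfl⟩
  have hC : Conn G C := by
    refine ⟨⟨v, hvC⟩, fun B hB hne hne' => ?_⟩
    by_cases hvB : v ∈ B
    · -- some element of `C \ B` lies in some `D`
      obtain ⟨c, hc, hcB⟩ : ∃ c ∈ C, c ∉ B := by
        by_contra h
        push Not at h
        exact hne' (Set.Subset.antisymm hB h)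
      obtain ⟨D, hD, hcD⟩ := hc
      obtain ⟨b, hb, a, ha, hab⟩ := hD.2.2.2 (B ∩ D) Set.inter_subset_right ⟨v, hvB, hD.2.1⟩
        (fun h => hcB (show c ∈ B from (by rw [← h] at hcD; exact hcD.1)))
      exact ⟨b, hb.1, a, ⟨⟨D, hD, ha.1⟩, fun h => ha.2 ⟨h, ha.1⟩⟩, hab⟩
    · obtain ⟨b₀, hb₀⟩ := hne
      obtain ⟨D, hD, hbD⟩ := hB hb₀
      obtain ⟨b, hb, a, ha, hab⟩ := hD.2.2.2 (B ∩ D) Set.inter_subset_right ⟨b₀, hb₀, hbD⟩
        (fun h => hvB (show v ∈ B from (by have h5 := hD.2.1; rw [← h] at h5; exact h5.1)))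
      exact ⟨b, hb.1, a, ⟨⟨D, hD, ha.1⟩, fun h => ha.2 ⟨h, ha.1⟩⟩, hab⟩
  refine ⟨C, hCA, hvC, hC, fun u hu hun => ?_⟩
  apply hun.1
  refine ⟨insert u C, ⟨Set.insert_subset hu hCA, Set.mem_insert_of_mem u hvC, ?_⟩,
    Set.mem_insert u C⟩
  exact hC.insert hun.2

theorem exists_comp_of_not_conn {A : Set V} (hne : A.Nonempty) (h : ¬ Conn G A) :
    ∃ C ⊆ A, Conn G C ∧ C ≠ A ∧ (∀ u ∈ A, u ∉ nb G C) := by
  obtain ⟨v, hv⟩ := hne
  obtain ⟨C, hC, _, hconn, hnb⟩ := exists_comp G hv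
  exact ⟨C, hC, hconn, fun h' => h (h' ▸ hconn), hnb⟩

theorem Conn.union_iUnion {ι : Type*} {A : Set V} {P : ι → Set V} (hA : Conn G A)
    (hP : ∀ i, Conn G (P i)) (h : ∀ i, (A ∩ P i).Nonempty ∨ Tch G A (P i)) :
    Conn G (A ∪ ⋃ i, P i) := by
  refine ⟨hA.1.mono Set.subset_union_left, fun B hB hne hne' => ?_⟩
  by_contra hcon
  push Not at hcon
  -- `B` is closed; compare with `A ∪ P i`
  have key : ∀ i, (B ∩ (A ∪ P i)).Nonempty → A ∪ P i ⊆ B := by
    intro i hi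
    have hc := hA.union (hP i) (h i)
    have h1 := hc.eq_of_nb (C := B ∩ (A ∪ P i)) Set.inter_subset_right hi (by
      intro v hv hvn
      obtain ⟨hv1, b, hb, hbv⟩ := hvn
      have hvB : v ∉ B := fun h' => hv1 ⟨h', hv⟩
      have hvU : v ∈ (A ∪ ⋃ i, P i) := by
        rcases hv with hv | hv
        · exact Or.inl hv
        · exact Or.inr (Set.mem_iUnion.mpr ⟨i, hv⟩)
      exact hcon b hb.1 v ⟨hvU, hvB⟩ hbv)
    rw [← h1]; exact Set.inter_subset_left
  have hAB : A ⊆ B := by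
    obtain ⟨b, hb⟩ := hne
    rcases hB hb with hbA | hbP
    · have h1 := hA.eq_of_nb (C := B ∩ A) Set.inter_subset_right ⟨b, hb, hbA⟩ (by
        intro v hv hvn
        obtain ⟨hv1, b, hb, hbv⟩ := hvn
        exact hcon b hb.1 v ⟨Or.inl hv, fun h' => hv1 ⟨h', hv⟩⟩ hbv)
      rw [← h1]; exact Set.inter_subset_left
    · obtain ⟨i, hi⟩ := Set.mem_iUnion.mp hbP
      exact Set.subset_union_left.trans (key i ⟨b, hb, Or.inr hi⟩)
  apply hne'
  apply Set.Subset.antisymm hB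
  apply Set.union_subset hAB
  apply Set.iUnion_subset
  intro i
  obtain ⟨a, ha⟩ := hA.1
  exact Set.subset_union_right.trans (key i ⟨a, hAB ha, Or.inl ha⟩)

/-- removing a vertex with exactly one neighbour -/
theorem Conn.erase_leaf {A : Set V} {v u : V} (hA : Conn G A) (hne : A ≠ {v}) (hv : v ∈ A)
    (h : ∀ w ∈ A, G.Adj v w → w = u) : Conn G (A \ {v}) := by
  have hne1 : (A \ {v}).Nonempty := by
    by_contra h1
    rw [Set.not_nonempty_iff_eq_empty, Set.sdiff_eq_empty] at h1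
    exact hne (Set.Subset.antisymm h1 (Set.singleton_subset_iff.mpr hv))
  refine ⟨hne1, fun B hB hBne hBne' => ?_⟩
  by_contra hcon
  push Not at hcon
  have hvB : v ∉ B := fun h' => (hB h').2 rfl
  by_cases huB : u ∈ B
  · -- the complement of `B` in `A \ {v}` is closed
    have hC : ((A \ {v}) \ B).Nonempty := by
      by_contra h1
      rw [Set.not_nonempty_iff_eq_empty, Set.sdiff_eq_empty] at h1
      exact hBne' (Set.Subset.antisymm hB h1)
    have h2 := hA.eq_of_nb (C := (A \ {v}) \ B) (fun x hx => hx.1.1) hC (by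
      intro w hw hwn
      obtain ⟨hw1, c, hc, hcw⟩ := hwn
      by_cases hwv : w = v
      · subst hwv
        have := h c hc.1.1 hcw.symm
        subst this
        exact hc.2 huB
      · have hwB : w ∈ B := by
          by_contra h3
          exact hw1 ⟨⟨hw, hwv⟩, h3⟩
        exact hcon w hwB c hc hcw.symm)
    have h3 : v ∈ (A \ {v}) \ B := by rw [h2]; exact hv
    exact h3.1.2 rfl
  · have h2 := hA.eq_of_nb (C := B) (fun x hx => (hB hx).1) hBne (by
      intro w hw hwn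
      obtain ⟨hw1, c, hc, hcw⟩ := hwn
      by_cases hwv : w = v
      · subst hwv
        have := h c (hB hc).1 hcw.symm
        subst this
        exact huB hc
      · exact hcon c hc w ⟨⟨hw, hwv⟩, hw1⟩ hcw)
    exact hvB (h2 ▸ hv)

theorem conn_iff (G : SimpleGraph V) (A : Set V) : Conn G A ↔ (G.induce A).Connected := by
  constructor
  · intro hA
    obtain ⟨v, hv⟩ := hA.1
    rw [SimpleGraph.connected_iff]
    refine ⟨?_, ⟨⟨v, hv⟩⟩⟩
    intro a b
    -- the set of vertices reachable from `a`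
    let C : Set V := {x | ∃ hx : x ∈ A, (G.induce A).Reachable a ⟨x, hx⟩}
    have hC : C = A := by
      apply hA.eq_of_nb (fun x hx => hx.1) (show C.Nonempty from ⟨a.1, a.2, SimpleGraph.Reachable.refl _⟩)
      intro w hw hwn
      obtain ⟨hw1, c, ⟨hc, hr⟩, hcw⟩ := hwn
      apply hw1
      refine ⟨hw, hr.trans (SimpleGraph.Adj.reachable ?_)⟩
      exact hcw
    have : b.1 ∈ C := by rw [hC]; exact b.2
    obtain ⟨_, h⟩ := this
    exact h
  · intro h
    have hne : A.Nonempty := by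
      obtain ⟨x⟩ := h.nonempty
      exact ⟨x.1, x.2⟩
    refine ⟨hne, fun B hB hBne hBne' => ?_⟩
    by_contra hcon
    push Not at hcon
    obtain ⟨b, hb⟩ := hBne
    obtain ⟨c, hc, hcB⟩ : ∃ c ∈ A, c ∉ B := by
      by_contra h'
      push Not at h'
      exact hBne' (Set.Subset.antisymm hB h')
    have key : ∀ (x y : A), (G.induce A).Reachable x y → x.1 ∈ B → y.1 ∈ B := by
      intro x y hxy
      obtain ⟨p⟩ := hxy
      induction p with
      | nil => exact id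
      | @cons x z y hxz p ih =>
        intro hx
        apply ih
        by_contra hz
        exact hcon x.1 hx z.1 ⟨z.2, hz⟩ hxz
    exact hcB (key ⟨b, hB hb⟩ ⟨c, hc⟩ (h.preconnected _ _) hb)

/-! ### `nb` -/

theorem nb_union_subset {A B : Set V} : nb G (A ∪ B) ⊆ (nb G A ∪ nb G B) \ (A ∪ B) := by
  rintro v ⟨hv, a, ha, hav⟩
  refine ⟨?_, hv⟩
  rcases ha with ha | ha
  · exact Or.inl ⟨fun h => hv (Or.inl h), a, ha, hav⟩
  · exact Or.inr ⟨fun h => hv (Or.inr h), a, ha, hav⟩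

/-! ### `IMS` -/

theorem IMS.mono {H : SimpleGraph W} {S S' : Set V} (h : IMS H G S) (hS : S ⊆ S') :
    IMS H G S' := by
  obtain ⟨B, h1, h2, h3, h4⟩ := h
  exact ⟨B, fun w => (h1 w).trans hS, h2, h3, h4⟩

theorem IMS.congr {H : SimpleGraph W} {G' : SimpleGraph V} {S : Set V} (h : IMS H G S)
    (hG : ∀ u ∈ S, ∀ v ∈ S, (G.Adj u v ↔ G'.Adj u v)) : IMS H G' S := by
  obtain ⟨B, h1, h2, h3, h4⟩ := h
  refine ⟨B, h1, fun w => (Conn.congr fun u hu v hv => hG u (h1 w hu) v (h1 w hv)).mp (h2 w),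
    h3, fun w w' hw => ?_⟩
  rw [h4 w w' hw]
  constructor
  · rintro ⟨a, ha, b, hb, hab⟩
    exact ⟨a, ha, b, hb, (hG a (h1 w ha) b (h1 w' hb)).mp hab⟩
  · rintro ⟨a, ha, b, hb, hab⟩
    exact ⟨a, ha, b, hb, (hG a (h1 w ha) b (h1 w' hb)).mpr hab⟩

theorem ims_univ_iff {H : SimpleGraph W} : IMS H G Set.univ ↔ IsIndMinor H G := by
  constructor
  · rintro ⟨B, _, h2, h3, h4⟩
    exact ⟨B, fun w => (conn_iff G _).mp (h2 w), h3, h4⟩
  · rintro ⟨B, h2, h3, h4⟩
    exact ⟨B, fun w => Set.subset_univ _, fun w => (conn_iff G _).mpr (h2 w), h3, h4⟩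

theorem GoodOn.mono {N m : ℕ} {S S' : Set V} (h : GoodOn N m G S') (hS : S ⊆ S') :
    GoodOn N m G S :=
  ⟨fun h' => h.1 (h'.mono hS), fun h' => h.2 (h'.mono hS)⟩

theorem GoodOn.congr {N m : ℕ} {G' : SimpleGraph V} {S : Set V} (h : GoodOn N m G S)
    (hG : ∀ u ∈ S, ∀ v ∈ S, (G.Adj u v ↔ G'.Adj u v)) : GoodOn N m G' S :=
  ⟨fun h' => h.1 (h'.congr fun u hu v hv => (hG u hu v hv).symm),
    fun h' => h.2 (h'.congr fun u hu v hv => (hG u hu v hv).symm)⟩

/-- five sets forming a `K_5` minus an edge model -/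
theorem ims_K5m {S X Y Z P Q : Set V} (hX : X ⊆ S) (hY : Y ⊆ S) (hZ : Z ⊆ S) (hP : P ⊆ S)
    (hQ : Q ⊆ S) (cX : Conn G X) (cY : Conn G Y) (cZ : Conn G Z) (cP : Conn G P) (cQ : Conn G Q)
    (dXY : Disjoint X Y) (dXZ : Disjoint X Z) (dXP : Disjoint X P) (dXQ : Disjoint X Q)
    (dYZ : Disjoint Y Z) (dYP : Disjoint Y P) (dYQ : Disjoint Y Q) (dZP : Disjoint Z P)
    (dZQ : Disjoint Z Q) (dPQ : Disjoint P Q)
    (tXY : Tch G X Y) (tXZ : Tch G X Z) (tXP : Tch G X P) (tXQ : Tch G X Q)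
    (tYZ : Tch G Y Z) (tYP : Tch G Y P) (tYQ : Tch G Y Q) (tZP : Tch G Z P)
    (tZQ : Tch G Z Q) (tPQ : ¬ Tch G P Q) : IMS K5m G S := by
  refine ⟨![X, Y, Z, P, Q], ?_, ?_, ?_, ?_⟩
  · intro w; fin_cases w <;> simpa
  · intro w; fin_cases w <;> simpa
  · intro w w' hw
    fin_cases w <;> fin_cases w' <;> first
      | exact absurd rfl hw
      | assumption
      | (apply Disjoint.symm; assumption)
  · intro w w' hw
    have hs : ¬ Tch G Q P := fun h => tPQ h.symm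
    fin_cases w <;> fin_cases w' <;> first
      | exact absurd rfl hw
      | (refine iff_of_true ⟨by decide, by decide⟩ ?_; assumption)
      | (refine iff_of_true ⟨by decide, by decide⟩ ?_; apply Tch.symm; assumption)
      | (refine iff_of_false (fun h => absurd h.2 (by decide)) ?_; assumption)

/-! ### `Types` and `Lay` -/

theorem types_subset_powerset (G : SimpleGraph V) (A : Set V) :
    Types G A ⊆ {T | T ⊆ nb G A ∧ T.Nonempty} := by
  rintro T ⟨hne, a, ha, rfl⟩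
  exact ⟨fun v hv => ⟨hv.2, a, ha, hv.1⟩, hne⟩

theorem Lay.mono {k k' : ℕ} (hk : k ≤ k') {A : Set V} (h : Lay G k A) : Lay G k' A := by
  induction h with
  | empty => exact Lay.empty
  | single v h => exact Lay.single v (h.trans (by exact_mod_cast hk))
  | union _ _ hd ht ihA ihB => exact Lay.union ihA ihB hd (ht.trans (by exact_mod_cast hk))

theorem types_singleton (G : SimpleGraph V) (v : V) : (Types G {v}).encard ≤ 1 := by
  have h : Types G {v} ⊆ {G.neighborSet v \ {v}} := by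
    rintro T ⟨_, a, ha, rfl⟩
    rw [Set.mem_singleton_iff] at ha
    subst ha
    rfl
  exact (Set.encard_le_encard h).trans (by rw [Set.encard_singleton])

theorem Lay.single' {k : ℕ} (hk : 1 ≤ k) (v : V) : Lay G k {v} :=
  Lay.single v ((types_singleton G v).trans (by exact_mod_cast hk))

theorem Lay.insert {k : ℕ} (hk : 1 ≤ k) {A : Set V} {v : V} (hA : Lay G k A) (hv : v ∉ A)
    (ht : (Types G (insert v A)).encard ≤ k) : Lay G k (insert v A) := by
  rw [Set.insert_eq] at ht ⊢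
  exact Lay.union (Lay.single' hk v) hA (Set.disjoint_singleton_left.mpr hv) ht

/-- if `nb G A` has at most `n` elements then there are at most `2 ^ n - 1` types -/
theorem types_encard_le [Finite V] {A : Set V} {n : ℕ} (h : (nb G A).ncard ≤ n) :
    (Types G A).encard ≤ (2 ^ n - 1 : ℕ) := by
  classical
  have hfin : (nb G A).Finite := Set.toFinite _
  have h1 : Types G A ⊆ (𝒫 (nb G A)) \ {∅} := by
    intro T hT
    have := types_subset_powerset G A hT
    exact ⟨this.1, fun h => this.2.ne_empty h⟩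
  have h2 : ((𝒫 (nb G A)) \ {∅}).ncard = 2 ^ (nb G A).ncard - 1 := by
    rw [Set.ncard_sdiff_singleton_of_mem (show ∅ ∈ 𝒫 (nb G A) from Set.empty_subset _), Set.ncard_powerset]
  have h3 : ((𝒫 (nb G A)) \ {∅}).Finite := Set.toFinite _
  calc (Types G A).encard ≤ ((𝒫 (nb G A)) \ {∅}).encard := Set.encard_le_encard h1
    _ = (((𝒫 (nb G A)) \ {∅}).ncard : ℕ) := (Set.Finite.cast_ncard_eq h3).symm
    _ ≤ (2 ^ n - 1 : ℕ) := by
      rw [h2]
      exact_mod_cast Nat.sub_le_sub_right (Nat.pow_le_pow_right (by norm_num) h) 1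

end Pool.Agent.MPd439b2
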