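import Pool.Agent.Lib.MP_d439b2_co.Spec4

/-! # MP_d439b2_co : induced four-cycles (I7) -/

namespace Pool.Agent.MPd439b2

theorem c4 : S_C4 := by
  intro W H a b c d hac hbd hab hbc hcd hda nac nbd
  constructor
  · rintro ⟨K, hK, hI, -⟩
    have h1 : a ∉ K ∨ c ∉ K := by
      by_contra h
      push Not at h
      exact nac (hK a h.1 c h.2 hac)
    have h2 : b ∉ K ∨ d ∉ K := by
      by_contra h
      push Not at h
      exact nbd (hK b h.1 d h.2 hbd)
    rcases h1 with h1 | h1 <;> rcases h2 with h2 | h2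
    · exact hI a h1 b h2 hab
    · exact hI a h1 d h2 hda.symm
    · exact hI c h1 b h2 hbc.symm
    · exact hI c h1 d h2 hcd
  · rintro ⟨⟨l, r, hlr, h⟩, -⟩
    have e1 := (h a b hab.ne).1 hab
    have e2 := (h b c hbc.ne).1 hbc
    have e3 := (h c d hcd.ne).1 hcd
    have e4 := (h d a hda.ne).1 hda
    have n1 : ¬ (l a ≤ r c ∧ l c ≤ r a) := fun h' => nac ((h a c hac).2 h')
    have n2 : ¬ (l b ≤ r d ∧ l d ≤ r b) := fun h' => nbd ((h b d hbd).2 h')
    obtain ⟨e1, e1'⟩ := e1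
    obtain ⟨e2, e2'⟩ := e2
    obtain ⟨e3, e3'⟩ := e3
    obtain ⟨e4, e4'⟩ := e4
    rw [not_and_or, not_le, not_le] at n1 n2
    rcases n1 with n1 | n1 <;> rcases n2 with n2 | n2 <;> linarith

end Pool.Agent.MPd439b2
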