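import Pool.Agent.Lib.MP_d439b2_co.Spec4

/-!
# MP_d439b2_co, I8: co-linear forests without an induced four-cycle
-/

namespace Pool.Agent.MPd439b2

/-! ### abstract part -/

section KP4abs

variable {W : Type} {F : W → W → Prop} {c : W → ℕ}

theorem KP4_aux (hs : ∀ a b, F a b → F b a) (hc2 : ∀ w, c w < 2) (hc : ∀ u v, F u v → c u ≠ c v)
    (h4 : ∀ p q r s, F p q → F q r → F r s → F s p → p = r ∨ q = s)
    (h3 : ∀ u x y z, F u x → F u y → F u z → x = y ∨ y = z ∨ x = z)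
    (hd : ∀ p q r s, F p q → F r s → p ≠ r → p ≠ s → q ≠ r → q ≠ s →
      F p r ∨ F p s ∨ F q r ∨ F q s)
    {u v x y q : W} (huv : F u v) (hvx : F v x) (hxy : F x y) (hux : u ≠ x) (hvy : v ≠ y)
    (huq : F u q) (hqv : q ≠ v) : False := by
  have cu := hc2 u
  have cv := hc2 v
  have cx := hc2 x
  have cy := hc2 y
  have cq := hc2 q
  have e1 := hc _ _ huv
  have e2 := hc _ _ hvx
  have e3 := hc _ _ hxy
  have e4 := hc _ _ huq
  have hux' : ¬ F u x := fun h => by
    have := hc _ _ h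
    omega
  have huy' : ¬ F u y := fun h => by
    rcases h4 u v x y huv hvx hxy (hs _ _ h) with h | h
    · exact hux h
    · exact hvy h
  have hqx : q ≠ x := by
    rintro rfl
    exact hux' huq
  have hqy : q ≠ y := by
    rintro rfl
    exact huy' huq
  have huy : u ≠ y := by
    rintro rfl
    omega
  rcases hd u q x y huq hxy hux huy hqx hqy with h | h | h | h
  · exact hux' h
  · exact huy' h
  · rcases h3 x v y q (hs _ _ hvx) hxy (hs _ _ h) with h | h | h
    · exact hvy h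
    · exact hqy h.symm
    · exact hqv h.symm
  · have := hc _ _ h
    omega

theorem KP4_path (hs : ∀ a b, F a b → F b a) (hc2 : ∀ w, c w < 2) (hc : ∀ u v, F u v → c u ≠ c v)
    (h4 : ∀ p q r s, F p q → F q r → F r s → F s p → p = r ∨ q = s)
    (h3 : ∀ u x y z, F u x → F u y → F u z → x = y ∨ y = z ∨ x = z)
    (hd : ∀ p q r s, F p q → F r s → p ≠ r → p ≠ s → q ≠ r → q ≠ s →
      F p r ∨ F p s ∨ F q r ∨ F q s)
    {u v x y : W} (huv : F u v) (hvx : F v x) (hxy : F x y) (hux : u ≠ x) (hvy : v ≠ y)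
    (p q : W) (hpq : F p q) : p = v ∨ p = x ∨ q = v ∨ q = x := by
  by_contra hcon
  push Not at hcon
  obtain ⟨h1, h2, h5, h6⟩ := hcon
  have hA : ∀ q, F u q → q ≠ v → False := fun q h h' =>
    KP4_aux hs hc2 hc h4 h3 hd huv hvx hxy hux hvy h h'
  have hB : ∀ q, F y q → q ≠ x → False := fun q h h' =>
    KP4_aux hs hc2 hc h4 h3 hd (hs _ _ hxy) (hs _ _ hvx) (hs _ _ huv) hvy.symm hux.symm h h'
  rcases hd v x p q hvx hpq h1.symm h5.symm h2.symm h6.symm with h | h | h | h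
  · rcases h3 v u x p (hs _ _ huv) hvx h with h | h | h
    · exact hux h
    · exact h2 h.symm
    · subst h
      exact hA q hpq h5
  · rcases h3 v u x q (hs _ _ huv) hvx h with h | h | h
    · exact hux h
    · exact h6 h.symm
    · subst h
      exact hA p (hs _ _ hpq) h1
  · rcases h3 x v y p (hs _ _ hvx) hxy h with h | h | h
    · exact hvy h
    · subst h
      exact hB q hpq h6
    · exact h1 h.symm
  · rcases h3 x v y q (hs _ _ hvx) hxy h with h | h | h
    · exact hvy h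
    · subst h
      exact hB p (hs _ _ hpq) h2
    · exact h5 h.symm

theorem KP4_central (hs : ∀ a b, F a b → F b a) (hc2 : ∀ w, c w < 2)
    (hc : ∀ u v, F u v → c u ≠ c v)
    (h4 : ∀ p q r s, F p q → F q r → F r s → F s p → p = r ∨ q = s)
    (h3 : ∀ u x y z, F u x → F u y → F u z → x = y ∨ y = z ∨ x = z)
    (hd : ∀ p q r s, F p q → F r s → p ≠ r → p ≠ s → q ≠ r → q ≠ s →
      F p r ∨ F p s ∨ F q r ∨ F q s) :
    (∀ x y, ¬ F x y) ∨ ∃ u v, F u v ∧ ∀ x y, F x y → x = u ∨ x = v ∨ y = u ∨ y = v := by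
  by_cases h0 : ∀ x y, ¬ F x y
  · exact Or.inl h0
  right
  push Not at h0
  obtain ⟨u, v, huv⟩ := h0
  by_cases h1 : ∀ x y, F x y → x = u ∨ x = v ∨ y = u ∨ y = v
  · exact ⟨u, v, huv, h1⟩
  push Not at h1
  obtain ⟨x, y, hxy, hxu, hxv, hyu, hyv⟩ := h1
  rcases hd u v x y huv hxy hxu.symm hyu.symm hxv.symm hyv.symm with h | h | h | h
  · -- `v u x y`
    exact ⟨u, x, h, KP4_path hs hc2 hc h4 h3 hd (hs _ _ huv) h hxy hxv.symm hyu.symm⟩
  · exact ⟨u, y, h, KP4_path hs hc2 hc h4 h3 hd (hs _ _ huv) h (hs _ _ hxy) hyv.symm hxu.symm⟩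
  · exact ⟨v, x, h, KP4_path hs hc2 hc h4 h3 hd huv h hxy hxu.symm hyv.symm⟩
  · exact ⟨v, y, h, KP4_path hs hc2 hc h4 h3 hd huv h (hs _ _ hxy) hyu.symm hxv.symm⟩

end KP4abs

/-! ### tripods and nets -/

/-- the colour of a vertex of a tripod -/
def KP4_col {ι : Type} (u : ι × Fin 3 × ℕ) : ℕ :=
  if u.2.1 = 0 then u.2.2 % 2 else (u.2.2 + 1) % 2

theorem KP4_col_lt {ι : Type} (u : ι × Fin 3 × ℕ) : KP4_col u < 2 := by
  unfold KP4_col
  split_ifs <;> omega

theorem KP4_col_ne {ι : Type} (u v : ι × Fin 3 × ℕ) (h : (tripods ι).Adj u v) :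
    KP4_col u ≠ KP4_col v := by
  obtain ⟨c, i, k⟩ := u
  obtain ⟨c', i', k'⟩ := v
  obtain ⟨h1, h2, h3⟩ := h
  simp only at h2 h3
  subst h2
  unfold KP4_col
  simp only
  rcases h3 with ⟨rfl, h3⟩ | ⟨rfl, rfl, h3⟩
  · split_ifs <;> omega
  · by_cases h4 : i = 0 <;> by_cases h5 : i' = 0
    · subst h4; subst h5
      exact absurd rfl h1
    · rw [if_pos h4, if_neg h5]; omega
    · rw [if_neg h4, if_pos h5]; omega
    · rcases h3 with h3 | h3
      · exact absurd h3 h4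
      · exact absurd h3 h5

theorem KP4_trip4 {ι : Type} (p q r s : ι × Fin 3 × ℕ) (h1 : (tripods ι).Adj p q)
    (h2 : (tripods ι).Adj q r) (h3 : (tripods ι).Adj r s) (h4 : (tripods ι).Adj s p) :
    p = r ∨ q = s := by
  obtain ⟨c, i, k⟩ := p
  obtain ⟨c', i', k'⟩ := q
  obtain ⟨c'', i'', k''⟩ := r
  obtain ⟨c₃, i₃, k₃⟩ := s
  obtain ⟨a1, b1, d1⟩ := h1
  obtain ⟨a2, b2, d2⟩ := h2
  obtain ⟨a3, b3, d3⟩ := h3
  obtain ⟨a4, b4, d4⟩ := h4
  simp only at b1 b2 b3 b4 d1 d2 d3 d4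
  subst b1; subst b2; subst b3
  simp only [ne_eq, Prod.mk.injEq, true_and, Fin.ext_iff, Fin.val_zero] at *
  clear b4
  rcases d1 with ⟨d1, d1'⟩ | d1
  · rcases d2 with ⟨d2, d2'⟩ | d2
    · rcases d3 with ⟨d3, d3'⟩ | d3
      · rcases d4 with ⟨d4, d4'⟩ | d4 <;> omega
      · rcases d4 with ⟨d4, d4'⟩ | d4 <;> omega
    · rcases d3 with ⟨d3, d3'⟩ | d3
      · rcases d4 with ⟨d4, d4'⟩ | d4 <;> omega
      · rcases d4 with ⟨d4, d4'⟩ | d4 <;> omega
  · rcases d2 with ⟨d2, d2'⟩ | d2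
    · rcases d3 with ⟨d3, d3'⟩ | d3
      · rcases d4 with ⟨d4, d4'⟩ | d4 <;> omega
      · rcases d4 with ⟨d4, d4'⟩ | d4 <;> omega
    · rcases d3 with ⟨d3, d3'⟩ | d3
      · rcases d4 with ⟨d4, d4'⟩ | d4 <;> omega
      · rcases d4 with ⟨d4, d4'⟩ | d4 <;> omega

theorem KP4_nets3 {ι : Type} (u x y z : ι × Fin 3 × ℕ) (h1 : (nets ι).Adj u x)
    (h2 : (nets ι).Adj u y) (h3 : (nets ι).Adj u z) (hxy : x ≠ y) (hyz : y ≠ z) (hxz : x ≠ z) :
    (x.1 = y.1 ∧ x.2.2 = 0 ∧ y.2.2 = 0) ∨ (y.1 = z.1 ∧ y.2.2 = 0 ∧ z.2.2 = 0) ∨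
      (x.1 = z.1 ∧ x.2.2 = 0 ∧ z.2.2 = 0) := by
  obtain ⟨c, i, k⟩ := u
  obtain ⟨c', i', k'⟩ := x
  obtain ⟨c'', i'', k''⟩ := y
  obtain ⟨c₃, i₃, k₃⟩ := z
  obtain ⟨a1, b1, d1⟩ := h1
  obtain ⟨a2, b2, d2⟩ := h2
  obtain ⟨a3, b3, d3⟩ := h3
  simp only at b1 b2 b3 d1 d2 d3
  subst b1; subst b2; subst b3
  simp only [ne_eq, Prod.mk.injEq, true_and, Fin.ext_iff] at *
  rcases d1 with ⟨e1, d1 | d1⟩ | ⟨e1, d1⟩ <;> rcases d2 with ⟨e2, d2 | d2⟩ | ⟨e2, d2⟩ <;>
    rcases d3 with ⟨e3, d3 | d3⟩ | ⟨e3, d3⟩ <;> clear a1 a2 a3 <;>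
    first
    | exact Or.inl ⟨d1, d2⟩
    | exact Or.inr (Or.inl ⟨d2, d3⟩)
    | exact Or.inr (Or.inr ⟨d1, d3⟩)
    | (exfalso; exact hxy ⟨by omega, by omega⟩)
    | (exfalso; exact hyz ⟨by omega, by omega⟩)
    | (exfalso; exact hxz ⟨by omega, by omega⟩)
    | omega

/-! ### the theorem -/

theorem kp4 : S_KP4 := by
  intro W H hS hT hno
  obtain ⟨ι, f, hf, hfa⟩ := hS
  obtain ⟨ι', f', hf', hfa', hft⟩ := hT
  obtain ⟨F, hF⟩ : ∃ F : W → W → Prop, F = fun u v => Hᶜ.Adj u v := ⟨_, rfl⟩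
  have hFi : ∀ u v, F u v ↔ (u ≠ v ∧ ¬ H.Adj u v) := by
    intro u v
    rw [hF]
    exact SimpleGraph.compl_adj H u v
  have hs : ∀ a b, F a b → F b a := by
    intro a b h
    rw [hFi] at h ⊢
    exact ⟨h.1.symm, fun h' => h.2 h'.symm⟩
  have hFf : ∀ u v, F u v → (tripods ι).Adj (f u) (f v) := fun u v h => hfa u v (by rw [hF] at h; exact h)
  have hFf' : ∀ u v, F u v → (nets ι').Adj (f' u) (f' v) := fun u v h =>
    hfa' u v (by rw [hF] at h; exact h)
  obtain ⟨c, hcd⟩ : ∃ c : W → ℕ, c = fun w => KP4_col (f w) := ⟨_, rfl⟩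
  have hc2 : ∀ w, c w < 2 := fun w => by rw [hcd]; exact KP4_col_lt _
  have hc : ∀ u v, F u v → c u ≠ c v := fun u v h => by
    rw [hcd]; exact KP4_col_ne _ _ (hFf u v h)
  have h4 : ∀ p q r s, F p q → F q r → F r s → F s p → p = r ∨ q = s := by
    intro p q r s h1 h2 h3 h4
    exact (KP4_trip4 _ _ _ _ (hFf _ _ h1) (hFf _ _ h2) (hFf _ _ h3) (hFf _ _ h4)).imp
      (fun h => hf h) (fun h => hf h)
  have htri : ∀ u x y, F u x → F u y → ¬ F x y := by
    intro u x y h1 h2 h3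
    have e1 := hc _ _ h1
    have e2 := hc _ _ h2
    have e3 := hc _ _ h3
    have := hc2 u
    have := hc2 x
    have := hc2 y
    omega
  have h3 : ∀ u x y z, F u x → F u y → F u z → x = y ∨ y = z ∨ x = z := by
    intro u x y z h1 h2 h3
    by_contra hcon
    push Not at hcon
    obtain ⟨n1, n2, n3⟩ := hcon
    rcases KP4_nets3 _ _ _ _ (hFf' _ _ h1) (hFf' _ _ h2) (hFf' _ _ h3) (fun h => n1 (hf' h))
      (fun h => n2 (hf' h)) (fun h => n3 (hf' h)) with h | h | h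
    · refine htri u x y h1 h2 ?_
      rw [hF]
      exact hft x y n1 h.1 h.2.1 h.2.2
    · refine htri u y z h2 h3 ?_
      rw [hF]
      exact hft y z n2 h.1 h.2.1 h.2.2
    · refine htri u x z h1 h3 ?_
      rw [hF]
      exact hft x z n3 h.1 h.2.1 h.2.2
  have hd : ∀ p q r s, F p q → F r s → p ≠ r → p ≠ s → q ≠ r → q ≠ s →
      F p r ∨ F p s ∨ F q r ∨ F q s := by
    intro p q r s hpq hrs h1 h2 h5 h6
    by_contra hcon
    push Not at hcon
    obtain ⟨g1, g2, g3, g4⟩ := hcon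
    rw [hFi] at hpq hrs g1 g2 g3 g4
    push Not at g1 g2 g3 g4
    exact hno ⟨p, r, q, s, hpq.1, hrs.1, g1 h1, (g3 h5).symm, g4 h6, (g2 h2).symm, hpq.2, hrs.2⟩
  rcases KP4_central hs hc2 hc h4 h3 hd with h0 | ⟨u, v, huv, hcen⟩
  · refine ⟨fun _ => none, fun u v i h => by simp at h, fun x y hxy => ?_⟩
    have h1 : H.Adj x y := by
      by_contra h
      exact h0 x y ((hFi x y).mpr ⟨hxy, h⟩)
    exact iff_of_true h1 (fun i j h => by simp at h)
  · have huvne : u ≠ v := ((hFi u v).mp huv).1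
    have hirr : ∀ x, ¬ F x x := fun x h => ((hFi x x).mp h).1 rfl
    classical
    obtain ⟨g, hg⟩ : ∃ g : W → Option (Fin 4), g = fun x => if x = u then some 0 else
      if x = v then some 3 else if F u x then some 2 else if F v x then some 1 else none :=
      ⟨_, rfl⟩
    have gu : g u = some 0 := by rw [hg]; simp
    have gv : g v = some 3 := by rw [hg]; simp [huvne.symm]
    -- the labels of the other vertices
    have gcase : ∀ x, (x = u ∧ g x = some 0) ∨ (x = v ∧ g x = some 3) ∨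
        (x ≠ u ∧ x ≠ v ∧ F u x ∧ ¬ F v x ∧ g x = some 2) ∨
        (x ≠ u ∧ x ≠ v ∧ ¬ F u x ∧ F v x ∧ g x = some 1) ∨
        (x ≠ u ∧ x ≠ v ∧ ¬ F u x ∧ ¬ F v x ∧ g x = none) := by
      intro x
      by_cases h1 : x = u
      · exact Or.inl ⟨h1, by rw [h1, gu]⟩
      by_cases h2 : x = v
      · exact Or.inr (Or.inl ⟨h2, by rw [h2, gv]⟩)
      by_cases h5 : F u x
      · have h6 : ¬ F v x := htri u v x huv h5
        exact Or.inr (Or.inr (Or.inl ⟨h1, h2, h5, h6, by rw [hg]; simp [h1, h2, h5]⟩))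
      by_cases h6 : F v x
      · exact Or.inr (Or.inr (Or.inr (Or.inl ⟨h1, h2, h5, h6, by rw [hg]; simp [h1, h2, h5, h6]⟩)))
      · exact Or.inr (Or.inr (Or.inr (Or.inr ⟨h1, h2, h5, h6, by rw [hg]; simp [h1, h2, h5, h6]⟩)))
    refine ⟨g, ?_, ?_⟩
    · intro x y i hx hy
      rcases gcase x with ⟨a, b⟩ | ⟨a, b⟩ | ⟨a1, a2, a3, a4, b⟩ | ⟨a1, a2, a3, a4, b⟩ |
        ⟨a1, a2, a3, a4, b⟩ <;> rcases gcase y with ⟨a', b'⟩ | ⟨a', b'⟩ | ⟨a1', a2', a3', a4', b'⟩ |
        ⟨a1', a2', a3', a4', b'⟩ | ⟨a1', a2', a3', a4', b'⟩ <;> rw [b] at hx <;> rw [b'] at hy <;>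
        first
        | exact a.trans a'.symm
        | (exfalso; have := hx.trans hy.symm; simp at this; done)
        | skip
      · rcases h3 u v x y huv a3 a3' with h | h | h
        · exact absurd h.symm a2
        · exact h
        · exact absurd h.symm a2'
      · rcases h3 v u x y (hs _ _ huv) a4 a4' with h | h | h
        · exact absurd h.symm a1
        · exact h
        · exact absurd h.symm a1'
      · simp at hx
    · intro x y hxy
      have key : H.Adj x y ↔ ¬ F x y := by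
        rw [hFi]
        constructor
        · intro h h'
          exact h'.2 h
        · intro h
          by_contra h'
          exact h ⟨hxy, h'⟩
      rw [key]
      -- isolated vertices
      have hiso : ∀ x y, x ≠ u → x ≠ v → ¬ F u x → ¬ F v x → ¬ F x y := by
        intro x y h1 h2 h5 h6 h
        rcases hcen x y h with h' | h' | h' | h'
        · exact h1 h'
        · exact h2 h'
        · rw [h'] at h
          exact h5 (hs _ _ h)
        · rw [h'] at h
          exact h6 (hs _ _ h)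
      have hab : ∀ x y, x ≠ u → x ≠ v → y ≠ u → y ≠ v → ¬ F x y := by
        intro x y h1 h2 h5 h6 h
        rcases hcen x y h with h' | h' | h' | h'
        · exact h1 h'
        · exact h2 h'
        · exact h5 h'
        · exact h6 h'
      rcases gcase x with ⟨a, b⟩ | ⟨a, b⟩ | ⟨a1, a2, a3, a4, b⟩ | ⟨a1, a2, a3, a4, b⟩ |
        ⟨a1, a2, a3, a4, b⟩
      · rcases gcase y with ⟨a', b'⟩ | ⟨a', b'⟩ | ⟨a1', a2', a3', a4', b'⟩ |
          ⟨a1', a2', a3', a4', b'⟩ | ⟨a1', a2', a3', a4', b'⟩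
        · exact absurd (a.trans a'.symm) hxy
        · rw [a, a'] at *
          simp [huv, gu, gv]
        · rw [a] at *
          simp [a3', gu, b']
        · rw [a] at *
          simp [a3', gu, b']
        · rw [a] at *
          simp [a3', b']
      · rcases gcase y with ⟨a', b'⟩ | ⟨a', b'⟩ | ⟨a1', a2', a3', a4', b'⟩ |
          ⟨a1', a2', a3', a4', b'⟩ | ⟨a1', a2', a3', a4', b'⟩
        · rw [a, a'] at *
          simp [hs _ _ huv, gu, gv]
        · exact absurd (a.trans a'.symm) hxy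
        · rw [a] at *
          simp [a4', gv, b']
        · rw [a] at *
          simp [a4', gv, b']
        · rw [a] at *
          simp [a4', b']
      · rcases gcase y with ⟨a', b'⟩ | ⟨a', b'⟩ | ⟨a1', a2', a3', a4', b'⟩ |
          ⟨a1', a2', a3', a4', b'⟩ | ⟨a1', a2', a3', a4', b'⟩
        · rw [a'] at *
          simp [hs _ _ a3, gu, b]
        · rw [a'] at *
          have : ¬ F x v := fun h => a4 (hs _ _ h)
          simp [this, gv, b]
        · exfalso
          rcases h3 u v x y huv a3 a3' with h | h | h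
          · exact a2 h.symm
          · exact hxy h
          · exact a2' h.symm
        · have := hab x y a1 a2 a1' a2'
          simp [this, b, b']
        · have := hab x y a1 a2 a1' a2'
          simp [this, b']
      · rcases gcase y with ⟨a', b'⟩ | ⟨a', b'⟩ | ⟨a1', a2', a3', a4', b'⟩ |
          ⟨a1', a2', a3', a4', b'⟩ | ⟨a1', a2', a3', a4', b'⟩
        · rw [a'] at *
          have : ¬ F x u := fun h => a3 (hs _ _ h)
          simp [this, gu, b]
        · rw [a'] at *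
          simp [hs _ _ a4, gv, b]
        · have := hab x y a1 a2 a1' a2'
          simp [this, b, b']
        · exfalso
          rcases h3 v u x y (hs _ _ huv) a4 a4' with h | h | h
          · exact a1 h.symm
          · exact hxy h
          · exact a1' h.symm
        · have := hab x y a1 a2 a1' a2'
          simp [this, b']
      · have := hiso x y a1 a2 a3 a4
        simp [this, b]

end Pool.Agent.MPd439b2
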