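import Pool.Agent.Lib.MP_d439b2_co.Basic

/-!
# MP_d439b2_co, Spec 1: clique-width, `S2`, models, contractions, classification

Every `S_...` is a statement to be proved in its own file; the docstring contains the complete
proof.  Toolkit: `Basic.lean`.
-/

namespace Pool.Agent.MPd439b2

/-! ## A. clique-width -/

/-- **A1.** A layout of width `k` of the whole vertex set gives `3 (k + 1)` labels.

Proof. Identify `Fin (3 * (k + 1))` with `Fin 3 × Fin (k + 1)` (three blocks of `k + 1` labels).
CLAIM: if `Lay G k A`, `A` nonempty, then there are `e : Expr (3 (k+1))` and `φ : A ≃ e.V` with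
`G.Adj u v ↔ e.Rel (φ u) (φ v)` for `u v : A`, all labels lie in block `0`, and
`e.label (φ u) = e.label (φ v)` implies `G.neighborSet u \ A = G.neighborSet v \ A`.
`single v`: the expression `vertex 0`.
`union A B`: if `A = ∅` or `B = ∅` use the other one.  Otherwise take `e_A`, `e_B` from the
induction.  Auxiliary facts on expressions (by induction over a list of labels / of pairs of labels):
(R) for blocks `b ≠ b'` and `f : Fin (k+1) → Fin (k+1)` every expression `e` can be replaced by `e'`
with the same vertex set (an `Equiv`), the same `Rel`, where the labels `(b, i)` become `(b', f i)`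
and the labels of the other blocks stay (apply `relabel (b,i) (b', f i)` for all `i` one after the
other; the target block is not a source);
(J) for a relation `R` on `Fin (k+1)` every `e` can be replaced by `e'` with the same vertices and
labels and `Rel' u v ↔ Rel u v ∨ (label u = (0,i), label v = (1,j), R i j for some i j) ∨ (symm)`.
Move `e_B` to block `1` by (R), take `union`, apply (J) with `R i j` := (there are `u ∈ A` with
label `i`, `v ∈ B` with label `j` and `G.Adj u v`).  If `R i j` then EVERY vertex `u' ∈ A` of label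
`i` is adjacent to EVERY `v' ∈ B` of label `j`: `v ∈ N(u) \ A = N(u') \ A`, so `u' ∈ N(v) \ B =
N(v') \ B`.  So `Rel` is right.  Finally relabel: the set of types `G.neighborSet u \ (A ∪ B)`,
`u ∈ A ∪ B`, consists of at most `k` nonempty ones and possibly `∅`, so there is an injection `g` of
these sets into `Fin (k+1)`; the type of `u ∈ A` in `A ∪ B` is determined by its type in `A`, so by
its label (`N(u) \ (A ∪ B) = (N(u) \ A) \ B`); so (R) moves block `0` to block `2` by a function
`f₀`, block `1` to block `2` by `f₁`, where the new label of `u` is `g (type of u)`, and then block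
`2` to block `0` by the identity.  Apply the CLAIM to `A = univ`. -/
def S_LayCW : Prop := ∀ (V : Type) [Finite V] [Nonempty V] (G : SimpleGraph V) (k : ℕ),
  Lay G k Set.univ → CWLe (3 * (k + 1)) G

/-- **A2.** Balanced cuts.

Proof. CLAIM, by induction on the expression `e` over `Fin k`: let `t ≥ 2` be a number, `M` a set of
vertices of `e` with `2 t < 3 |M|`.  Then there are `A : Set e.V` with `t ≤ 3 |A ∩ M| ≤ 2 t` and
`lab : e.V → Fin k` such that for `u, v ∈ A` with `lab u = lab v`: `e.label u = e.label v` and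
`e.Rel u w ↔ e.Rel v w` for all `w ∉ A`.  PROOF.  `vertex`: `|M| ≤ 1` contradicts `4 ≤ 2 t < 3 |M|`.
`union a b`: `M` splits into `Ma`, `Mb`.  If `2 t < 3 |Ma|` take `A` from the induction for `a`
(image under `inl`; outside vertices `inr w` are never `Rel`-related to `inl u`); similarly for `b`.
Otherwise both `3 |Ma|, 3 |Mb| ≤ 2 t`, and the larger of the two satisfies `3 |Ma| ≥ 3 |M| / 2 > t`
(say `Ma`): `A = range inl`, `lab = ` the labels of `a`.  `join i j a` and `relabel i j a`: take `A`,
`lab` from the induction for `a` (the new edges depend only on the `a`-labels; the new labels are a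
function of the old ones).
Now let `M` be given with `|M| = t ≥ 2`; the claim for `t` applies as `2 t < 3 t`.  Transport by
`φ`.  The set of the traces `N(u) \ A`, `u ∈ A`, has at most `k` elements, as `N(u) \ A` is
determined by `lab u`. -/
def S_CWCut : Prop := ∀ (V : Type) [Finite V] (G : SimpleGraph V) (k : ℕ), CWLe k G →
  ∀ M : Set V, 2 ≤ M.ncard → ∃ A : Set V, M.ncard ≤ 3 * (A ∩ M).ncard ∧
    3 * (A ∩ M).ncard ≤ 2 * M.ncard ∧ {T : Set V | ∃ u ∈ A, T = G.neighborSet u \ A}.ncard ≤ k

/-! ## B. the class `S2` -/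

/-- **B1.** `S2` is closed under induced minors and does not contain `K_5` minus an edge.

Proof. Let `K` be the clique of `G`, `B` the model.  `K_H := {w | (B w ∩ K).Nonempty}`.  It is a
clique of `H`: for `w ≠ w'` in it pick `x ∈ B w ∩ K`, `y ∈ B w' ∩ K`, `x ≠ y` by disjointness, so
`G.Adj x y` and `H.Adj w w'`.  If `w ∉ K_H` then `B w` is a connected subset of the independent set
`V \ K`, so it is a singleton `{v}` (a connected induced graph with two vertices has an edge; use
`conn_iff` and `Conn`: for `b ∈ B w` with `{b} ≠ B w` there is an edge from `b` into `B w \ {b}`).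
So two such vertices are not adjacent in `H`, and the neighbours `w'` of `w` have pairwise distinct
(by disjointness) neighbours of `v` in their sets `B w'`: the degree of `w` is at most that of `v`
(`Set.encard_le_encard_of_injOn`).
`K5m`: all its five vertices have degree at least `3`, so all would be in `K`; but `3` and `4` are
not adjacent. -/
def S_S2Closed : Prop :=
  (∀ (V W : Type) (G : SimpleGraph V) (H : SimpleGraph W), InS2 G → IsIndMinor H G → InS2 H) ∧
    ¬ InS2 K5m

/-- complete graph on `n` vertices and for every ordered pair a vertex adjacent to its entries -/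
def SG (n : ℕ) : SimpleGraph (Fin n ⊕ (Fin n × Fin n)) where
  Adj
    | Sum.inl a, Sum.inl b => a ≠ b
    | Sum.inl a, Sum.inr q => a = q.1 ∨ a = q.2
    | Sum.inr q, Sum.inl a => a = q.1 ∨ a = q.2
    | Sum.inr _, Sum.inr _ => False
  symm := ⟨fun u v h => by
    rcases u with u | u <;> rcases v with v | v
    · exact Ne.symm h
    · exact h
    · exact h
    · exact h⟩
  loopless := ⟨fun u h => by
    rcases u with u | u
    · exact h rfl
    · exact h⟩

/-- **B2.** The graphs `SG n` are in `S2` and have unbounded clique-width.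

Proof. `InS2`: `K = range inl`; `inr (a, b)` has the neighbours `inl a, inl b`.  Let `CWLe c (SG n)`,
`n > 3 c`, `n ≥ 2`.  Apply A2 with `M = range inl`: `A`, `I = {a | inl a ∈ A}`, `J` the complement,
`|I|, |J| ≥ n / 3 > c`.  If for every `b ∈ J` there is `a ∈ I` with `inr (a, b) ∈ A` then the trace of
that vertex is `N \ A = {inl b}`: these are `|J| > c` distinct traces, contradiction.  Otherwise there
is `b₀ ∈ J` with `inr (a, b₀) ∉ A` for all `a ∈ I`; then for `a ∈ I` the trace of `inl a` contains
`inr (a, b₀)` but no `inr (a', b₀)` with `a' ∈ I`, `a' ≠ a` (`a ≠ b₀` as `b₀ ∉ I`): `|I| > c` distinct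
traces, contradiction. -/
def S_SGUnb : Prop := (∀ n, InS2 (SG n)) ∧ ∀ c n : ℕ, 3 * c < n → 2 ≤ n → ¬ CWLe c (SG n)

/-! ## C. models -/

/-- **C1.** Every graph in `S2` is an induced minor of some `DD N m`.

Proof. Let `K` be the clique, `I` the complement, `m = |I|`, `I = {v_0, ..., v_{m-1}}`,
`K = {a_0, ..., a_{s-1}}`, `N = 2 m + s`.  All neighbours of `v_q` are in `K`; there are at most two;
let them be `f q, g q` if there are two, only `f q` if there is one (e.g. two partial functions
`f g : Fin m → Option K` with `f q ≠ g q` unless both `none`, and `N(v_q) = {f q, g q}`).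
`B a_j := {inl (2 m + j)} ∪ {inl (2 q) | f q = a_j} ∪ {inl (2 q + 1) | g q = a_j}` and
`B v_q := {inr q}`.  The sets `B a_j` are connected (nonempty subsets of a clique), disjoint, pairwise
adjacent; `B v_q` is adjacent to `B a_j` iff `f q = a_j` or `g q = a_j`; the `B v_q` are pairwise
non-adjacent. -/
def S_S2DD : Prop := ∀ (W : Type) [Finite W] (H : SimpleGraph W), InS2 H →
  ∃ N m : ℕ, 2 * m ≤ N ∧ IMS H (DD N m) Set.univ

/-- **C2.** Transitivity.

Proof. `B'' w = ⋃ w' ∈ B w, B' w'`.  Connected: let `C` be a nonempty proper closed subset of `B'' w`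
(closed: no edge to the rest of `B'' w`); each `B' w'` (`w' ∈ B w`) is inside `C` or disjoint from it
(`Conn.eq_of_nb`); the set `D` of the `w' ∈ B w` with `B' w' ⊆ C` is nonempty and not `B w`, so there
is an edge of `F` between `D` and `B w \ D`, so an edge of `G` between `C` and the rest. -/
def S_ImsTrans : Prop := ∀ (V W W' : Type) (G : SimpleGraph V) (H : SimpleGraph W)
  (F : SimpleGraph W') (S : Set V), IMS H F Set.univ → IMS F G S → IMS H G S

/-- **E1.** Simulation of an additional edge `x c` by a connected set `R` outside `S` which touches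
only `x` and `c`.

Proof. Let `B` be the model in `addE G x c`.  If no branch set contains `x`, or none contains `c`, the
edge `x c` is not used and `B` is a model in `G`.  Otherwise `x ∈ B w₀`, `c ∈ B w₁`.  Put
`B' w₀ = B w₀ ∪ R`, `B' w = B w` for `w ≠ w₀`.  If `w₀ = w₁`: `B' w₀` is connected in `G` (a closed
nonempty subset `C` (in `G`) of `B w₀ ∪ R`: if it meets `R` it contains `R`, hence `x` and `c`, hence
`C ∩ B w₀` is closed in `addE G x c`; if it does not meet `R` then it contains neither `x` nor `c`, so it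
is closed in `addE G x c`), and `R` touches no other `B w`.  If `w₀ ≠ w₁`: `B w₀` does not contain
`c` and `B w₁` does not contain `x`, all the `B w` are connected in `G`; `B w₀ ∪ R` is connected,
`R` touches `B w₁` in `c` and no other set; in `addE G x c` the sets `B w₀`, `B w₁` are adjacent, in
`G` the sets `B' w₀`, `B' w₁` are adjacent. -/
def S_ImsEdge : Prop := ∀ (V W : Type) [Finite V] (H : SimpleGraph W) (G : SimpleGraph V)
  (S R : Set V) (x c : V), x ∈ S → c ∈ S → x ≠ c → Disjoint R S → Conn G R →
  (∀ s ∈ S, (∃ r ∈ R, G.Adj r s) → s = x ∨ s = c) → (∃ r ∈ R, G.Adj r x) →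
  (∃ r ∈ R, G.Adj r c) → IMS H (addE G x c) S → IMS H G (S ∪ R)

/-- **E2.** Models in a contraction.

Proof. `B' w = B w ∪ {a}` if `x ∈ B w`, and `B' w = B w` otherwise. -/
def S_ContrIMS : Prop := ∀ (V W : Type) [Finite V] (H : SimpleGraph W) (G : SimpleGraph V)
  (S : Set V) (a x : V), a ∈ S → x ∈ S → G.Adj a x → IMS H (contr G a x) (S \ {a}) → IMS H G S

/-! ## G. 3-connected graphs without `K_5` minus an edge as an induced minor -/

/-- the outcome of the classification -/
def Classified {V : Type} (G : SimpleGraph V) (S : Set V) : Prop :=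
  CompleteOn G S ∨ WheelOn G S ∨ IsoOn prism G S ∨ IsoOn k33 G S

/-- `a ∈ S` has exactly the three neighbours `x, y, z` in `S` -/
def Nbr3 {V : Type} (G : SimpleGraph V) (S : Set V) (a x y z : V) : Prop :=
  a ∈ S ∧ x ∈ S ∧ y ∈ S ∧ z ∈ S ∧ x ≠ y ∧ x ≠ z ∧ y ≠ z ∧ G.Adj a x ∧ G.Adj a y ∧ G.Adj a z ∧
    ∀ v ∈ S, G.Adj a v → v = x ∨ v = y ∨ v = z

/-- **G1.** If the contraction of `a x` is not 3-connected then some `{a, x, z}` separates.

Proof. `S' = S \ {a}` has at least `4` elements, so there are `u, v` with `contr G a x` not connected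
on `S' \ {u, v}`.  If `a ∈ {u, v}`, say `u = a`: `S' \ {u, v} = S \ {a, v}` is connected in `G` and does
not contain `a`, so it is connected in `contr G a x` (`Conn.mono_graph`): contradiction.
(1) If `x ∉ {u, v}` and `a ∉ {u, v}`: the set `X = S \ {u, v}` contains `a` and `x` and is connected in
`G`; then `X \ {a}` is connected in `contr G a x`: let `C ⊆ X \ {a}` be nonempty and proper; if `x ∈ C`
use `C ∪ {a}`, otherwise use `C` itself in the definition of `Conn G X`; the edge obtained is not
`a x`, and it gives an edge of the contraction (an edge at `a` becomes an edge at `x`).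
(2) So `x ∈ {u, v}`, say `u = x`, `v ≠ a`; then `S' \ {x, v} = S \ {a, x, v}` and there `contr G a x`
equals `G`, so it is not connected in `G`.  If `v = x` or `v ∉ S` then this set is `S \ {a, x}`, which
is connected: contradiction. -/
def S_NonContr : Prop := ∀ (V : Type) [Finite V] (G : SimpleGraph V) (S : Set V) (a x : V),
  ThreeConn G S → 5 ≤ S.ncard → a ∈ S → x ∈ S → G.Adj a x →
  ¬ ThreeConn (contr G a x) (S \ {a}) → ∃ z ∈ S, z ≠ a ∧ z ≠ x ∧ ¬ Conn G (S \ {a, x, z})

/-- **G2.** (Thomassen) Some edge is contractible.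

Proof. Suppose not.  Consider all `(x, y, z, C)` with `x, y, z ∈ S` distinct, `G.Adj x y`,
`C ⊆ S \ {x, y, z}` nonempty, `C ≠ S \ {x, y, z}`, and no edge between `C` and
`S \ {x, y, z} \ C`.  There is one: `S` has an edge (it is connected with `≥ 5` vertices), it is not
contractible, apply G1.  Choose one with `|C|` minimal.  There is `v ∈ C` adjacent to `z`: otherwise
there is no edge between `C` and `S \ {x, y} \ C`, contradicting `Conn G (S \ {x, y})`.  The edge
`z v` is not contractible, so by G1 there is `w ∈ S \ {z, v}` such that `S \ {z, v, w}` is not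
connected: `S \ {z, v, w} = D ∪ D'` with `D, D'` nonempty, disjoint, no edge between them (the set is
nonempty as `|S| ≥ 5`).  As `x y` is an edge, one of `D, D'` contains neither `x` nor `y`; say `D`.
The vertex `v` has a neighbour `u ∈ D`: otherwise there is no edge between `D` and `S \ {z, w} \ D`,
contradicting `Conn G (S \ {z, w})`.  As `v ∈ C` and `u ∉ {x, y, z}`, `u ∈ C`.  So `D ∩ C` is nonempty;
`v ∈ C \ D`, so it is smaller than `C`; and `(z, v, w, D ∩ C)` is again such a quadruple: a
neighbour of `D ∩ C` in `S` outside `D ∩ C` is in `D ∪ {z, v, w}` and in `C ∪ {x, y, z}`, so in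
`{z, v, w}` (as `x, y, z ∉ D`); the rest `S \ {z, v, w} \ (D ∩ C)` contains `D'`.  Contradiction. -/
def S_Thomassen : Prop := ∀ (V : Type) [Finite V] (G : SimpleGraph V) (S : Set V),
  ThreeConn G S → 5 ≤ S.ncard → ∃ a ∈ S, ∃ x ∈ S, G.Adj a x ∧ ThreeConn (contr G a x) (S \ {a})

/-- **G3.** (Halin) A vertex of degree three has a contractible edge.

Proof.  (P) Suppose that neither `a x` nor `a y` is contractible.  By G1 there is `u ∈ S \ {a, x}` with
`S \ {a, x, u} = Y ∪ Z`, nonempty, disjoint, no edge between.  `a` has a neighbour in both `Y` and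
`Z` (otherwise `{x, u}` separates in `G`), so `u ∉ {y, z}` and one of them contains `y`, the
other `z`; say `y ∈ Y =: Y_x`, `z ∈ Z =: Z_x`.  In the same way there is `v ∉ {a, x, y, z}` and
`S \ {a, y, v} = X_y ∪ Z_y` with `x ∈ X_y`, `z ∈ Z_y`.
The neighbours in `S` of `Z_x ∩ Z_y` (outside it) lie in `(Z_x ∪ {a, x, u}) ∩ (Z_y ∪ {a, y, v})`, that is
in `{a} ∪ ({v} ∩ Z_x) ∪ ({u} ∩ Z_y) ∪ ({u} ∩ {v})` (`y ∉ Z_x`, `x ∉ Z_y`).  As `z ∈ Z_x ∩ Z_y` and
`x` is outside this set and outside `{a, u, v}`, 3-connectivity says that these are at least three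
vertices, so `v ∈ Z_x`, `u ∈ Z_y` and `u ≠ v`.
The neighbours of `X_y ∩ Y_x` lie in `{x, y, a}` and the vertices `v` (if `v ∈ Y_x`), `u` (if
`u ∈ X_y`), `u` (if `u = v`); none of the last three happens, and `a` is not adjacent to
`X_y ∩ Y_x` (which does not contain `x, y, z`).  So they lie in `{x, y}`, so `X_y ∩ Y_x = ∅`
(3-connectivity; `a` is outside).  Hence `Y_x ⊆ {y} ∪ Z_y` (`v ∉ Y_x`).  The neighbours of
`Y_x ∩ Z_y` lie in `(Y_x ∪ {a, x, u}) ∩ (Z_y ∪ {a, y, v})`, outside itself these are in `{u, y, a}`, and `a`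
is not adjacent to it; so they lie in `{u, y}` and `Y_x ∩ Z_y = ∅` (`x` or `a` is outside).  So
`Y_x = {y}` and all neighbours of `y` in `S` are in `{a, x, u}`; as `y` has at least three neighbours,
`y ~ x` and `y ~ u`, and `y` is not adjacent to `z` (`z ≠ u`).  In the same way (exchange the
roles of `x` and `y`) all neighbours of `x` are in `{a, y, v}`, so `x` is not adjacent to `z`.
(Q) If none of `a x, a y, a z` is contractible then by (P) for `x, y`: `x` is not adjacent to `z`;
and by (P) for `x, z`: `x` is adjacent to `z`.  Contradiction. -/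
def S_Halin : Prop := ∀ (V : Type) [Finite V] (G : SimpleGraph V) (S : Set V) (a x y z : V),
  ThreeConn G S → 5 ≤ S.ncard → Nbr3 G S a x y z → ThreeConn (contr G a x) (S \ {a}) ∨
    ThreeConn (contr G a y) (S \ {a}) ∨ ThreeConn (contr G a z) (S \ {a})

/-- **G4.** If some contraction is classified then there is a vertex of degree at most three or the
graph is complete.

Proof. Let `S' = S \ {a}`, `G' = contr G a x`; on `S' \ {x}` the graphs `G, G'` agree, and
`v ∈ S' \ {x}` is adjacent to `x` in `G'` iff it is adjacent to `a` or `x` in `G`.  So the degree in `G[S]` of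
`v` is its degree in `G'[S']`, plus one if `v` is adjacent to both `a` and `x`.
(1) `G'` complete on `S'`: `C = S \ {a, x}` is a clique with at least `3` elements; every `c ∈ C` is
adjacent to `a` or `x`.  If `G[S]` is not complete there is `c ∈ C` not adjacent to `a` (or to `x`, same
argument with `a, x` exchanged).  If `a` has three neighbours `c₁, c₂, c₃ ∈ C` then
`{c₁}, {c₂}, {c₃}, {a}, {c}` is a `K5m` model.  So `a` has at most two neighbours in `C`, and degree
at most `3`.
(2) wheel with the rim vertex `x = r i`: some rim vertex `v` is not adjacent to `x` (`n ≥ 4`), it has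
degree `3` in `G'` and in `G`.  (3) wheel with the hub `x = h`: if some rim vertex is not adjacent to
both `a` and `x` it has degree `3`.  Otherwise `{a}, {x}, {r 1}, {r 0}, {r 2}` is a `K5m` model
(`r 0` is not adjacent to `r 2` as `n ≥ 4`).
(4) prism, `K_{3,3}`: `x` has two non-neighbours among the `6` vertices (besides itself); they have
degree `3` in `G'` and `G`. -/
def S_Deg4 : Prop := ∀ (V : Type) [Finite V] (G : SimpleGraph V) (S : Set V) (a x : V),
  a ∈ S → x ∈ S → G.Adj a x → 5 ≤ S.ncard → Classified (contr G a x) (S \ {a}) →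
  ¬ IMS K5m G S → CompleteOn G S ∨ ∃ b ∈ S, (S ∩ G.neighborSet b).ncard ≤ 3

/-! In G5 - G10: `a` has degree three, `G' = contr G a x`, `T = S \ {a}`.  On `T \ {x}` the graphs
`G, G'` agree; `y, z` are adjacent to `x` in `G'`; for `v ∈ T \ {x, y, z}`: `G'.Adj x v ↔ G.Adj x v`.
The adjacencies `x y`, `x z` in `G` are open. -/

/-- **G5.** contraction complete.

Proof. `W = T \ {x, y, z}` is nonempty.  If `x ~ y`, `x ~ z`: `{x}, {y}, {z} | {a}, {w}` is a `K5m`
model (`ims_K5m`).  If `|W| ≥ 2`, `w₁ ≠ w₂ ∈ W` and `x` is not adjacent to `z`: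
`{a, y}, {w₁}, {w₂} | {x}, {z}`; if `x` is not adjacent to `y`: `{a, z}, {w₁}, {w₂} | {x}, {y}`.  If
`W = {w}`: one of `x y`, `x z` is an edge by the degree of `x` (neighbours `a, w` and one more), say
`x ~ z`, not `x ~ y`: then `S = {a, x, w, y, z}` is a wheel with hub `z` and rim `a, x, w, y`
(`n = 4`); if `x ~ y` and not `x ~ z`: hub `y`, rim `a, x, w, z`. -/
def S_CaseK : Prop := ∀ (V : Type) [Finite V] (G : SimpleGraph V) (S : Set V) (a x y z : V),
  Nbr3 G S a x y z → 3 ≤ (S ∩ G.neighborSet x).ncard → 5 ≤ S.ncard →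
  CompleteOn (contr G a x) (S \ {a}) → ¬ IMS K5m G S → WheelOn G S

/-- **G6.** Rotation and reflection of a wheel.

Proof. `r' i = r ((i + j) % n)`; `r' i = r ((n - i) % n)` (so `r' 0 = r 0`, `r' 1 = r (n - 1)`,
`r' i = r (n - i)` for `0 < i < n`). -/
def S_WheelSym : Prop := ∀ (V : Type) (G : SimpleGraph V) (S : Set V) (n : ℕ) (h : V) (r : ℕ → V),
  WheelAt G S n h r →
  (∀ j < n, ∃ r' : ℕ → V, WheelAt G S n h r' ∧ ∀ i < n, r' i = r ((i + j) % n)) ∧
    ∃ r' : ℕ → V, WheelAt G S n h r' ∧ r' 0 = r 0 ∧ ∀ i, 0 < i → i < n → r' i = r (n - i)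

/-- **G7.** The contracted vertex is the rim vertex `x = r 0`, `n ≥ 4`.

(1) `y = r 1`, `z = r (n-1)`: `x ~ h` in `G`.  If `x ~ y` and `x ~ z`:
`{x}, {r 1, ..., r (n-2)}, {r (n-1)} | {a}, {h}`.  If `x ~ y` and not `x ~ z`:
`{r 1}, {h}, {a, r (n-1)} | {x}, {r 2, ..., r (n-2)}`.  If `x ~ z` and not `x ~ y`:
`{r (n-1)}, {h}, {a, r 1} | {x}, {r 2, ..., r (n-2)}`.  One of them is an edge by the degree of `x`.
(2) `y = h`, `z = r 1`: `x ~ r (n-1)`.  If `x ~ h` and not `x ~ r 1`: `G[S]` is the wheel with hub `h` and rim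
`x, a, r 1, ..., r (n-1)` of length `n + 1`.  If `x ~ h` and `x ~ r 1`:
`{x}, {h}, {r 1} | {a}, {r 2, ..., r (n-1)}`.  If not `x ~ h` then `x ~ r 1` by the degree of `x`, and
`{r 1}, {h}, {x, r (n-1)} | {a}, {r 2, ..., r (n-2)}`. -/
def S_CaseRim : Prop := ∀ (V : Type) [Finite V] (G : SimpleGraph V) (S : Set V) (a x y z : V)
  (n : ℕ) (h : V) (r : ℕ → V),
  Nbr3 G S a x y z → 3 ≤ (S ∩ G.neighborSet x).ncard →
  WheelAt (contr G a x) (S \ {a}) n h r → x = r 0 →
  (y = r 1 → z = r (n - 1) → IMS K5m G S) ∧ (y = h → z = r 1 → IMS K5m G S ∨ WheelOn G S)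

/-- **G8.** The contracted vertex is the hub `x = h`; `y = r 0`, `z = r j`, `1 ≤ j ≤ n - 2` (the
case `j = n - 1` is reduced to `j = 1` by reflection).  `h ~ r i` in `G` for all `i ∉ {0, j}`.

(1) `h ~ y`, `h ~ z`: `{h}, {r 0, ..., r (j-1)}, {r j} | {a}, {r (j+1), ..., r (n-1)}`.
(2) `h ~ y`, not `h ~ z`: if `j = 1`: `{r 0}, {h}, {r 1, r 2} | {a}, {r 3, ..., r (n-1)}`; if `j ≥ 2`:
`{r 1, ..., r j}, {r 0}, {h} | {a}, {r (j+1), ..., r (n-1)}`.
(3) neither: if `j = 1`, `n = 4`: prism with the triangles `a, r 0, r 1` and `h, r 3, r 2`; if `j = 1`,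
`n ≥ 5`: `{r 0, r (n-1)}, {r 1, r 2}, {h} | {a}, {r 3, ..., r (n-2)}`; if `j ≥ 2`, `n = 4` (so `j = 2`):
`K_{3,3}` with the classes `a, r 1, r 3` and `h, r 0, r 2`; if `j ≥ 3`:
`{r 0, r 1}, {r 2, ..., r j}, {h} | {a}, {r (j+1), ..., r (n-1)}`; if `j = 2`, `n ≥ 5`:
`{r 0, r (n-1)}, {r 2, ..., r (n-2)}, {h} | {a}, {r 1}` (this is the previous one after
reflection).
(In (2) the mirror case: not `h ~ y`, `h ~ z` is reduced to `h ~ y`, not `h ~ z` by exchanging the
names `y, z` and rotating; that is done in the assembly, here only the case `h ~ y`.) -/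
def S_CaseHub : Prop := ∀ (V : Type) [Finite V] (G : SimpleGraph V) (S : Set V) (a x y z : V)
  (n : ℕ) (h : V) (r : ℕ → V) (j : ℕ),
  Nbr3 G S a x y z → WheelAt (contr G a x) (S \ {a}) n h r → x = h → y = r 0 → z = r j →
  1 ≤ j → j + 2 ≤ n → (G.Adj x y ∨ ¬ G.Adj x z) →
  IMS K5m G S ∨ IsoOn prism G S ∨ IsoOn k33 G S

/-- **G9.** contraction a prism.

Proof. Let `p : Fin 6 → V` be the isomorphism; the prism is vertex transitive, so we may assume
`x = p 0` (automorphisms: `i ↦ i + 1 mod 3` in both triangles, exchange of the two triangles) and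
`{y, z} = {p 1, p 2}` or `{p 1, p 3}` (exchange `1, 2` and `4, 5`).  `a = 6`.  Models (write `i` for `p i`,
`6` for `a`; three pairwise adjacent sets, then the two non-adjacent ones):
`{y, z} = {1, 2}`: if `0 ~ 2` (in `G`): `{0,3}, {1,4}, {2} | {5}, {6}`; if only `0 ~ 1`:
`{0,3}, {1}, {2,5} | {4}, {6}`.
`{y, z} = {1, 3}`: if `0 ~ 3`: `{0,2}, {1,4}, {3} | {5}, {6}`; if only `0 ~ 1`:
`{1}, {2,5}, {3,6} | {0}, {4}`.
By the degree of `x` at least one of `x y`, `x z` is an edge of `G`.
(Suggestion: define for booleans `b, c` the concrete graph on `Fin 7`, check the models there by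
`decide`, and transport by an injective map `Fin 7 → V`; or use `ims_K5m` directly with `simp`.) -/
def S_CasePrism : Prop := ∀ (V : Type) [Finite V] (G : SimpleGraph V) (S : Set V) (a x y z : V),
  Nbr3 G S a x y z → 3 ≤ (S ∩ G.neighborSet x).ncard →
  IsoOn prism (contr G a x) (S \ {a}) → IMS K5m G S

/-- **G10.** contraction `K_{3,3}`.

Proof. Let `x` be in one class with the other two vertices `p, q`, and let the opposite class be
`y, z, w` (`y, z` are neighbours of `x` in `G'`, so in the opposite class).  By the degree of `x` one of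
`x y`, `x z` is an edge of `G`.  If `x ~ y`: `{x, w}, {y}, {a, z} | {p}, {q}` is a model: `{x,w} ~ {y}` by `x y`;
`{x,w} ~ {a,z}` by `x a`; `{y} ~ {a,z}` by `a y`; `p` and `q` are adjacent to `w`, `y`, `z`; `p` and
`q` are not adjacent.  If `x ~ z`: exchange `y, z`. -/
def S_CaseK33 : Prop := ∀ (V : Type) [Finite V] (G : SimpleGraph V) (S : Set V) (a x y z : V),
  Nbr3 G S a x y z → 3 ≤ (S ∩ G.neighborSet x).ncard →
  IsoOn k33 (contr G a x) (S \ {a}) → IMS K5m G S

/-- **G11.** Classification (assembly of G2 - G10 and E2).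

Proof. Strong induction on `|S|`.  `|S| = 4`: for `u ≠ v ∈ S`, with `{p, q}` the other two,
`S \ {p, q} = {u, v}` is connected, so `u ~ v`: complete.  `|S| ≥ 5`: by G2 there is a contractible edge
`a x`; its contraction has no `K5m` (E2) and is classified by induction; by G4, `G[S]` is complete
(done) or there is `b ∈ S` of degree `≤ 3`, hence exactly `3` (if a vertex `b` had at most two neighbours
`u, v` then `S \ {u, v}` would not be connected).  By G3 one of the three edges at `b` is
contractible; rename so that it is `b x`, the other neighbours being `y, z`.  The contraction is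
classified by induction; the degree of `x` is at least `3`.  Complete: G5.  Prism: G9.  `K_{3,3}`: G10.
Wheel with hub `h`, rim `r`: `x` is `h` or some `r i`.  If `x = r i`, rotate (G6) to `x = r 0`; `y, z` are
two of `h, r 1, r (n-1)` (the neighbours of `x` in the contraction); after exchanging `y, z` and
a reflection (G6) we are in the two cases of G7.  If `x = h`: exchanging `y, z` we may assume
`G.Adj x y ∨ ¬ G.Adj x z`; rotate to `y = r 0`, then `z = r j`, `1 ≤ j ≤ n - 1`; if `j = n - 1` reflect
(then `j = 1 ≤ n - 2`); G8. -/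
def S_Class : Prop := ∀ (V : Type) [Finite V] (G : SimpleGraph V) (S : Set V),
  ThreeConn G S → ¬ IMS K5m G S → Classified G S

end Pool.Agent.MPd439b2
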