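import Pool.Agent.Lib.MP_d439b2_co.Defs3
import Pool.Agent.Lib.MP_d439b2_co.Spec1

/-!
# MP_d439b2_co, Spec 3: necessary conditions for all pairs (Goal2)
-/

namespace Pool.Agent.MPd439b2

/-- vertices of `WT n g t`: `inl (b, l, q)` is the point `q` of the row (`b = false`) or column
(`b = true`) number `l`; `inr (i, j, m)` is the `m`-th vertex of the path which connects row `i` and
column `j` -/
abbrev WTV (n g : ℕ) : Type :=
  (Bool × Fin n × Fin (n * (g + 2))) ⊕ (Fin n × Fin n × Fin g)

/-- the wall-like graph: `n` rows and `n` columns (paths with `n (g + 2)` vertices), and for every pair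
(row `i`, column `j`) a path with `g` vertices, whose first vertex is adjacent to the points
`q ∈ {j (g+2), ..., j (g+2) + t}` of row `i`, and whose last vertex is adjacent to the points
`q ∈ {i (g+2), ..., i (g+2) + t}` of column `j` (we use `t = 0`: branch vertices of degree three, and
`t = 1`: triangles) -/
def WT (n g t : ℕ) : SimpleGraph (WTV n g) where
  Adj
    | Sum.inl (b, l, q), Sum.inl (b', l', q') =>
        b = b' ∧ l = l' ∧ (q.val = q'.val + 1 ∨ q'.val = q.val + 1)
    | Sum.inr (i, j, m), Sum.inr (i', j', m') =>
        i = i' ∧ j = j' ∧ (m.val = m'.val + 1 ∨ m'.val = m.val + 1)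
    | Sum.inl (b, l, q), Sum.inr (i, j, m) =>
        (b = false ∧ l = i ∧ m.val = 0 ∧ j.val * (g + 2) ≤ q.val ∧ q.val ≤ j.val * (g + 2) + t) ∨
        (b = true ∧ l = j ∧ m.val + 1 = g ∧ i.val * (g + 2) ≤ q.val ∧ q.val ≤ i.val * (g + 2) + t)
    | Sum.inr (i, j, m), Sum.inl (b, l, q) =>
        (b = false ∧ l = i ∧ m.val = 0 ∧ j.val * (g + 2) ≤ q.val ∧ q.val ≤ j.val * (g + 2) + t) ∨
        (b = true ∧ l = j ∧ m.val + 1 = g ∧ i.val * (g + 2) ≤ q.val ∧ q.val ≤ i.val * (g + 2) + t)
  symm := ⟨fun u v h => by
    rcases u with ⟨b, l, q⟩ | ⟨i, j, m⟩ <;> rcases v with ⟨b', l', q'⟩ | ⟨i', j', m'⟩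
    · exact ⟨h.1.symm, h.2.1.symm, h.2.2.symm⟩
    · exact h
    · exact h
    · exact ⟨h.1.symm, h.2.1.symm, h.2.2.symm⟩⟩
  loopless := ⟨fun u h => by
    rcases u with ⟨b, l, q⟩ | ⟨i, j, m⟩
    · have := h.2.2; omega
    · have := h.2.2; omega⟩

/-- **H1.** A small set `U` of vertices of `WT n g t` (`t ≤ 1`) can be mapped into tripods / nets.

Proof. Put `s = g + 2`.  The index type is `ι = Bool × Fin n × Fin n` (the index `(b, l, j)` stands for the
branch point at position `j s` of the line `(b, l)`).  As `|U| < g`: for every line `(b, l)` and every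
`j < n` there is `x (b, l, j)` with `j s + t < x < (j + 1) s` such that no point of `U` on the line
`(b, l)` has position `x` (there are `s - 1 - t ≥ g > |U|` such positions), and for all `i, j` there is
`m (i, j) < g` with `inr (i, j, m (i, j)) ∉ U`.  Define `φ` on `U`:
* `inl (b, l, q)` with `j = q / s`: if `q < j s + t` (only for `t = 1`, `q = j s`): `((b,l,j), 1, 0)`
  (`= j s + t - 1 - q`); if `j s + t ≤ q < x (b, l, j)`: `((b,l,j), 0, q - j s - t)`; if
  `q > x (b, l, j)` (then `j + 1 < n` or not): if `j + 1 < n`: `((b,l,j+1), 1, (j+1) s + t - 1 - q)`;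
  if `j + 1 = n` (end of the line): one may choose `x` irrelevant, i.e. use the formula
  `((b,l,j), 0, q - j s - t)` for all `q ≥ j s + t`.
* `inr (i, j, m)`: if `m < m (i, j)`: `((false, i, j), 2, m)`; if `m > m (i, j)`:
  `((true, j, i), 2, g - 1 - m)`.
So leg `0` goes to the right (with the centre `j s + t` as its vertex `0`), leg `1` to the left
(vertex `k` is the position `j s + t - 1 - k`), leg `2` is the connecting path.  Injective on `U`: clear.
Adjacent vertices of `U` are mapped to adjacent vertices: `q, q + 1` on a line: both in leg `0`, or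
both in leg `1`, or `q = j s + t - 1`, `q + 1 = j s + t`, mapped to `(c, 1, 0), (c, 0, 0)` (adjacent in
tripods and nets); `q < x < q + 1` is impossible.  Consecutive vertices of a connecting path: same
leg.  First vertex `m = 0` of a connecting path (then `0 < m (i, j)`) and the point `q` of row `i`:
for `q = j s + t`: `(c, 2, 0), (c, 0, 0)`; for `t = 1`, `q = j s`: `(c, 2, 0), (c, 1, 0)`: adjacent in
nets.  Last vertex and column: the same.  (3) for `t = 1`: different vertices of `U` with the same
index and level `0` are two of: the points `j s`, `j s + 1` of the line and the end vertex of the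
connecting path; these three are pairwise adjacent in `WT n g 1`. -/
def S_Legs : Prop := ∀ (n g t : ℕ) (U : Set (WTV n g)), t ≤ 1 → U.ncard < g →
  ∃ (ι : Type) (φ : WTV n g → ι × Fin 3 × ℕ), Set.InjOn φ U ∧
    (∀ u ∈ U, ∀ v ∈ U, (WT n g t).Adj u v → (nets ι).Adj (φ u) (φ v)) ∧
    (t = 0 → ∀ u ∈ U, ∀ v ∈ U, (WT n g t).Adj u v → (tripods ι).Adj (φ u) (φ v)) ∧
    (t = 1 → ∀ u ∈ U, ∀ v ∈ U, u ≠ v → (φ u).1 = (φ v).1 → (φ u).2.2 = 0 → (φ v).2.2 = 0 →
      (WT n g t).Adj u v)

/-- **H2.** Induced minors of the complement of `WT n g 0`.

Proof (from H1). Let `B` be the model of `H` in the complement, `b w ∈ B w` (nonempty).  `b` is injective.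
If `Hᶜ.Adj w w'` then `w ≠ w'` and there is no edge of `(WT n g 0)ᶜ` between `B w` and `B w'`, so
`b w`, `b w'` (different) are adjacent in `WT n g 0`.  Apply H1 to `U = range b` (`|U| ≤ |W| < g`);
`f = φ ∘ b`. -/
def S_CoSClosed : Prop := ∀ (W : Type) [Finite W] (H : SimpleGraph W) (n g : ℕ),
  Nat.card W < g → IsIndMinor H (WT n g 0)ᶜ → InCoS H

/-- **H3.** Induced minors of the complement of `WT n g 1`.

Proof (from H1). Let `L = WT n g 1`, `F = Hᶜ`, `B` the model of `H` in `Lᶜ`.  If `F.Adj w w'` then every
vertex of `B w` is `L`-adjacent to every vertex of `B w'` (they are different and not adjacent in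
`Lᶜ`).  If `B w` has at least two elements, it is connected in `Lᶜ`, so it contains `p ≠ q` with
`¬ L.Adj p q` (an edge of `Lᶜ` inside `B w`); choose such `p_w, q_w`.  If `B w` is a singleton put
`p_w = q_w =` its element.  Moreover choose `b w ∈ B w` for all `w`.
FACTS.  (α) two different `L`-non-adjacent vertices `p, q` have at most one common neighbour: otherwise
`p r q r'` is a 4-cycle of `L`; by H1 for `U = {p, q, r, r'}` (as `g > 4`) the graph `nets ι` has a
4-cycle (four distinct vertices), impossible (adjacent vertices of `nets` have the same index; case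
distinction over legs and levels, `omega`).  (β) if `p, q` are different, not `L`-adjacent, and have a
common neighbour `r`, then for every `φ` of H1 with `p, q, r ∈ U` one of `φ p, φ q` has positive level:
both have the index of `φ r`, so if both levels were `0`, `p, q` would be adjacent by (3).
CONSEQUENCES.  Call `w` big if `B w` is not a singleton.  If `w` is big and `F.Adj w w'` then all
elements of `B w'` are common neighbours of `p_w, q_w`: so `B w' = {r}` is a singleton, and
`w'` is the only `F`-neighbour of `w` (the sets are disjoint).
Let `U` be the set of all `p_w, q_w, b w` (at most `3 |W|` elements, `< g`), `φ` from H1, index type `ι`.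
Define the index type `ι ⊕ W` and `f w`: if `w` is not big: `φ (b w)` (index in `ι`); if `w` is big and
has an `F`-neighbour: `φ z_w`, where `z_w` is the one of `p_w, q_w` whose `φ`-level is positive (by
(β)); if `w` is big without `F`-neighbours: `(inr w, 0, 0)`.
Injective: the chosen vertices lie in disjoint sets `B w`, `φ` is injective on `U`.
`F.Adj w w'` implies that `f w, f w'` are adjacent: the chosen vertices are `L`-adjacent (all pairs
of `B w × B w'` are).  If `f w, f w'` have the same index and level `0`, `w ≠ w'`: then both are not big
(big ones with a neighbour have positive level, those without have a private index), so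
`B w = {b w}`, `B w' = {b w'}` and `L.Adj (b w) (b w')` by (3), so there is no `Lᶜ`-edge between
`B w` and `B w'` and `F.Adj w w'`. -/
def S_CoTClosed : Prop := ∀ (W : Type) [Finite W] (H : SimpleGraph W) (n g : ℕ),
  3 * Nat.card W + 4 < g → IsIndMinor H (WT n g 1)ᶜ → InCoT H

/-- **H4.** The complements of the graphs `WT n g t` have unbounded clique-width.

Proof (from A2).  (1) Let `A` be a set of vertices such that at most `c` traces `N(u) \ A`, `u ∈ A`
(neighbourhoods in the complement of `L = WT n g t`) are different.  Suppose there are `a_k ∈ A`,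
`b_k ∉ A`, `k < T`, with `L.Adj a_k b_k` and `¬ L.Adj a_k b_k'` for `k ≠ k'`.  Then the traces of the
`a_k` are different: `b_k'` is in the trace of `a_k` iff `k' ≠ k`.  So `T ≤ c`.
(2) Choose `n ≥ 6 c + 12` (say) and apply A2 to `M = {inl (false, i, j s) | i, j < n}` (`s = g + 2`),
`|M| = n ^ 2`.  Call a line `(b, l)` split if it contains vertices of `A` and vertices outside `A`.
A split line contains two consecutive points, one in `A`, one not in `A`.  Different lines are never
adjacent in `L`, so by (1) at most `c` lines are split.  If all points of row `i` are in `A` call it full,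
if none is, empty.  Rows which are not split are full or empty.  From
`n ^ 2 ≤ 3 |A ∩ M| ≤ 2 n ^ 2`: (number of full rows) `* n ≥ |A ∩ M| - c n ≥ n ^ 2 / 3 - c n`, so at least
`n / 3 - c ≥ c + 1` rows are full, and similarly at least `c + 1` rows are empty.  There is a column
`j` which is not split (`n > c`).  If it is empty: for each full row `i` the path consisting of the
point `inl (false, i, j s)` (in `A`), the connecting path `inr (i, j, ·)`, and the point
`inl (true, j, i s)` (not in `A`) contains an edge `a_i b_i` with `a_i ∈ A`, `b_i ∉ A`.  For different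
`i` there is no edge of `L` between these paths, except that two points of the column `j` could be
adjacent, but their positions `i s`, `i' s` differ by at least `2`.  So (1) is violated by the
`c + 1` full rows.  If the column is full use the empty rows (the edge goes the other way).
(`g ≥ 1`; the traces are those of the complement graph; `CWLe c` is about the complement.) -/
def S_WTUnb : Prop := ∀ (g t c : ℕ), 1 ≤ g → t ≤ 1 → ∃ n : ℕ, 1 ≤ n ∧ ¬ CWLe c (WT n g t)ᶜ

/-- **H5.** Grids have unbounded clique-width.

Proof (from A2).  As in H4, now for the graph itself: if `a_k ∈ A`, `b_k ∉ A`, `k < T`, with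
`Adj a_k b_k` and `¬ Adj a_k b_k'` for `k ≠ k'`, then the traces `N(a_k) \ A` are different, `T ≤ c`.
`M = univ`, `n ≥ 12 c + 12`.  If `2 c + 2` rows are split, then `c + 1` of them have pairwise distance
at least `2` (take every second one, or those of one parity), and give `T = c + 1`: contradiction.  So
at most `2 c + 1` rows and at most `2 c + 1` columns are split; as in H4 there is a full row (in fact
at least `n / 3 - (2 c + 1) > 0`) and an empty row; then every column is split (it meets the full and
the empty row): `n ≤ 2 c + 1`, contradiction. -/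
def S_GridUnb : Prop := ∀ c : ℕ, ∃ n : ℕ, 1 ≤ n ∧ ¬ CWLe c (grid n)

/-- **H6.** Interval graphs are closed under induced minors.

Proof. Let `G` be given by `l, r` and let `B` be the model of `H`.  `V` is finite, so put
`l' w = min (l over B w)`, `r' w = max (r over B w)` (`B w` is finite and nonempty).  KEY: if `B` is
nonempty, finite and connected in `G` then every real `t ∈ [min l, max r]` lies in some `[l v, r v]`,
`v ∈ B`: otherwise `{v ∈ B | r v < t}` and `{v ∈ B | l v > t}` are a partition of `B` into two
nonempty sets without edges between them.  So `[l' w, r' w]` and `[l' w', r' w']` intersect iff they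
have a common point `t` (`t = max (l' w) (l' w')`) iff there are `v ∈ B w`, `v' ∈ B w'` with
`t ∈ [l v, r v] ∩ [l v', r v']` iff there is an edge between `B w` and `B w'` (`v ≠ v'` by
disjointness). -/
def S_IntClosed : Prop := ∀ (V W : Type) [Finite V] (G : SimpleGraph V) (H : SimpleGraph W),
  IsInterval G → IsIndMinor H G → IsInterval H

/-- the unit interval graph with `n` columns of `n` intervals `[i + j / n, i + j / n + 1]`: the vertices
`(i, j)` and `(i', j')` are adjacent iff `|(n i + j) - (n i' + j')| ≤ n` -/
def UI (n : ℕ) : SimpleGraph (Fin n × Fin n) where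
  Adj u v := u ≠ v ∧ n * u.1.val + u.2.val ≤ n * v.1.val + v.2.val + n ∧
    n * v.1.val + v.2.val ≤ n * u.1.val + u.2.val + n
  symm := ⟨fun _ _ h => ⟨h.1.symm, h.2.2, h.2.1⟩⟩
  loopless := ⟨fun _ h => h.1 rfl⟩

/-- **H7.** The graphs `UI n` are interval graphs with unbounded clique-width.

Proof. Interval graph: `l (i, j) = n i + j`, `r = l + n` (reals).
Unbounded (from A2): write `v_{ij} = (i, j)`; `v_{ij}` and `v_{i+1,j'}` are adjacent iff `j' ≤ j`; `v_{ij}`,
`v_{i'j'}` are not adjacent if `|i - i'| ≥ 2`; vertices with the same `i` are adjacent.  Let `CWLe c`, `n`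
large (`n = 6 (4 (c+1) ^ 2) + 12 c + 12`, say), `A` from A2 with `M = univ`; at most `c` different
traces `N(u) \ A`, `u ∈ A`.  Call the row `j` split if `{v_{ij} | i}` meets `A` and its complement;
then there is `i_j` such that exactly one of `v_{i_j, j}`, `v_{i_j + 1, j}` is in `A`; call this one
`a_j` and the other one `b_j` (direction: `a_j` left or right).
(1) If `c + 1` split rows have the same `i_j` and the same direction then their `a_j` have different
traces: direction left (`a_j = v_{ij}`, `b_j = v_{i+1,j}`): `b_k ∈ N(a_j)` iff `k ≤ j`; direction right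
(`a_j = v_{i+1,j}`, `b_j = v_{ij}`): `b_k ∈ N(a_j)` iff `j ≤ k`.  Contradiction.
(2) If `c + 1` split rows have values `i_j` with pairwise differences at least `3` then
`N(a_j)` contains `b_j` but no other `b_k` (the columns differ by at least `2`).  Contradiction.
(3) So fewer than `2 (c + 1)` split rows for every value of `i_j`, and at most `3 c` values occur
(among `3 c + 1` values one finds `c + 1` with pairwise differences `≥ 3`): at most
`6 (c + 1) ^ 2` split rows.  (Choose `n` accordingly, e.g. `n = 100 (c + 1) ^ 2`.)
(4) As `n ^ 2 ≤ 3 |A| ≤ 2 n ^ 2` and the rows which are not split are full or empty, there are a full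
row `j` and an empty row `k`.  The vertices `v_{ij}`, `i = 0, 2, 4, ...`, of the full row have
different traces: `v_{ik} ∉ A` is adjacent to `v_{ij}` (same column) and not adjacent to `v_{i'j}` for
`|i - i'| ≥ 2`.  So `n / 2 ≤ c`: contradiction. -/
def S_IntUnb : Prop := (∀ n, IsInterval (UI n)) ∧ ∀ c : ℕ, ∃ n : ℕ, 1 ≤ n ∧ ¬ CWLe c (UI n)

/-- **H8.** The intersection of the first three classes.

Proof. Let `F = Hᶜ`.  (a) `F` has no triangle: `tripods` has none (three pairwise adjacent vertices have
the same index; case distinction).  (b) every vertex has at most two `F`-neighbours: suppose `u` has three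
different `F`-neighbours `a, b, c`.  In `nets`, a vertex of positive level has at most two neighbours;
so `f u` has level `0`, and two of the `f a, f b, f c` have level `0` too (only one neighbour of `f u`
has level `1`), and the same index; by the last condition of `InCoT` these two are `F`-adjacent,
so with `u` they form a triangle: contradiction.
Let `K` be the clique of `InS2 H`, `I` its complement (independent in `H`, so a clique of `F`), so
`|I| ≤ 2` by (a).  `I = ∅`: `H` is complete.  `I = {v}`: `v` has at most two neighbours in `K`
(`InS2`) and at most two non-neighbours in `K` (b), so `H` is an induced subgraph of `co2P1P3`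
(`v ↦ 4`, neighbours into `{0, 1}`, non-neighbours into `{2, 3}`).  `I = {u, v}`: `F.Adj u v`; by (b)
each of `u, v` has at most one `F`-neighbour in `K`, and they are different (no triangle); each has at
most two `H`-neighbours, so `|K| ≤ 3`.  The gem has the complement: path `1 3 0 2` (edges `13, 30,
02`) and the isolated vertex `4`; so map `u ↦ 3`, `v ↦ 0`, the `F`-neighbour of `u` in `K` (if any) to
`1`, the `F`-neighbour of `v` in `K` (if any) to `2`, and the other elements of `K`: an element of `K` with no
`F`-neighbour at all.  If there is at most one such element: map it to `4`.  If there are two such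
elements `k₁, k₂` then (`|K| ≤ 3`, and `u` has at most two `H`-neighbours in `K`, namely `k₁, k₂`, and the
same holds for `v`) a third element `k` of `K` must be `F`-adjacent to both `u` and `v`: triangle; so
`K = {k₁, k₂}` and `H` is an induced subgraph of `co2P1P3` (`F` is the edge `u v` plus two isolated
vertices: map `u ↦ 4`, `v ↦ 3`, `k₁ ↦ 0`, `k₂ ↦ 1`).  Three such elements: `u` would have degree `3`. -/
def S_Small : Prop := ∀ (W : Type) [Finite W] (H : SimpleGraph W), InS2 H → InCoS H → InCoT H →
  IsComplete H ∨ IsIndSub H gem ∨ IsIndSub H co2P1P3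

/-- **H9.** assembly.

Proof. Let `BoundedCW H₁ H₂` with the constant `c`.  For each class: if it contained neither `H₁` nor
`H₂`, the graphs of the family (`SG n`; `(WT n g 0)ᶜ`, `(WT n g 1)ᶜ` with `g` larger than
`3 |W₁| + 3 |W₂| + 4`; `grid n`; `UI n`) would contain neither `H₁` nor `H₂` as an induced minor, so
their clique-width would be at most `c` for all `n`: contradiction.  The last statement: `H₂` is in the
three classes; `S_Small`. -/
def S_Goal2 : Prop := Goal2

end Pool.Agent.MPd439b2
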