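import Pool.Agent.Lib.MP_d439b2_co.Defs4
import Pool.Agent.Lib.MP_d439b2_co.Spec3

/-!
# MP_d439b2_co, Spec 4: the reduction theorem (Goal3)
-/

namespace Pool.Agent.MPd439b2

/-- the branch points on the rows of `WT n g t` -/
def WTM (n g : ℕ) : Set (WTV n g) :=
  {v | ∃ (i : Fin n) (q : Fin (n * (g + 2))), v = Sum.inl (false, i, q) ∧ q.val % (g + 2) = 0}

/-- **I1.** Every balanced cut of `WT n g t` has many independent crossing edges.

Proof. Put `s = g + 2`, `n = 6 T + 12`, `L = WT n g t`.  `|WTM n g| = n ^ 2` (positions `q = j s`, `j < n`).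
Let `A` be given.  Call a line `(b, l)` (row or column) split if it contains vertices of `A` and vertices
outside `A`.  A split line contains two consecutive points, one in `A` and one not in `A`.  Different
lines are never adjacent in `L`; so if at least `T` lines are split we are done (`a k` the point in `A`,
`b k` the point outside, one pair for each of `T` split lines).  Otherwise fewer than `T` lines are
split; the other lines are full (all points in `A`) or empty.  `|A ∩ WTM|` is at most
`n * (number of full rows + number of split rows)` and at least `n * (number of full rows)`.  So the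
number of full rows is at least `n / 3 - T ≥ T`, and the number of empty rows is at least
`n - T - 2 n / 3 ≥ T`.  As `n > T` there is a column `j` which is not split.  Suppose it is empty.  For each
full row `i` consider the path: the point `inl (false, i, j s) ∈ A`, the connecting path
`inr (i, j, 0), ..., inr (i, j, g - 1)`, the point `inl (true, j, i s) ∉ A` (consecutive vertices are
adjacent in `L`, `g ≥ 1`).  It contains consecutive vertices `a_i ∈ A`, `b_i ∉ A`.  For different `i, i'`
there is no edge of `L` between the two paths: the connecting paths are different, the rows are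
different, the two column points have the positions `i s`, `i' s` which differ by at least `s ≥ 3`, the
last vertex of the connecting path of `i` is adjacent in column `j` only to positions in
`[i s, i s + t]`, and the first vertex is adjacent only to points of row `i`.  Take `T` full rows.
If the column `j` is full use the empty rows in the same way. -/
def S_WTCut : Prop := ∀ (g t T : ℕ), 1 ≤ g → t ≤ 1 → ∃ n : ℕ, 2 ≤ n ∧
  (WTM n g).ncard = n ^ 2 ∧ ∀ A : Set (WTV n g), (WTM n g).ncard ≤ 3 * (A ∩ WTM n g).ncard →
    3 * (A ∩ WTM n g).ncard ≤ 2 * (WTM n g).ncard → ∃ a b : Fin T → WTV n g,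
      (∀ k, a k ∈ A) ∧ (∀ k, b k ∉ A) ∧ (∀ k, (WT n g t).Adj (a k) (b k)) ∧
      ∀ k k', k ≠ k' → ¬ (WT n g t).Adj (a k) (b k')

/-- the colour of a vertex of `WT n g 0`; for even `g` adjacent vertices have different colours -/
def col {n g : ℕ} : WTV n g → ℕ
  | Sum.inl (b, _, q) => (q.val + if b then 1 else 0) % 2
  | Sum.inr (_, _, m) => (m.val + 1) % 2

/-- the split graph with the clique of the vertices of colour `0` and the independent set of the
vertices of colour `1`, where two vertices of different colours are adjacent iff they are not adjacent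
in `WT n g 0` (used for even `g`) -/
def QSG (n g : ℕ) : SimpleGraph (WTV n g) where
  Adj u v := u ≠ v ∧ (col u = 0 ∨ col v = 0) ∧ ¬ (WT n g 0).Adj u v
  symm := ⟨fun _ _ h => ⟨h.1.symm, h.2.1.symm, fun h' => h.2.2 h'.symm⟩⟩
  loopless := ⟨fun _ h => h.1 rfl⟩

/-- **I2.** Induced minors of `QSG n g`.

Proof (from H1 = S_Legs, `t = 0`). First: for even `g`, adjacent vertices of `WT n g 0` have different
colours (`g + 2` is even; row branch points have colour `0`, the first vertex of a connecting path has
colour `1`, the last one `g % 2 = 0`, column branch points have colour `1`).  So two different vertices of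
colour `0` are adjacent in `QSG`, two vertices of colour `1` are not.  Let `B` be the model of `H`,
`K = {w | B w contains a vertex of colour 0}`.  `K` is a clique of `H`.  For `w ∉ K`, `B w` is connected
inside an independent set, so it is a singleton; so `Kᶜ` is independent in `H`.  Choose `b w ∈ B w`, of
colour `0` if `w ∈ K`.  If `u ∈ K`, `v ∉ K`, `¬ H.Adj u v` then `b u, b v` are not adjacent in `QSG` and
have the colours `0, 1`, so they are adjacent in `WT n g 0`.  Apply H1 to `range b`. -/
def S_QSClosed : Prop := ∀ (W : Type) [Finite W] (H : SimpleGraph W) (n g : ℕ), Even g →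
  Nat.card W < g → IsIndMinor H (QSG n g) → InQS H

/-- **I3.** `QSG n g` has unbounded clique-width (`g ≥ 2` even).

Proof (from I1 with `t = 0`, `T = 2 c + 2`, and A2). Let `CWLe c (QSG n g)`, `A` the cut of A2 for
`M = WTM n g`, and `a k ∈ A`, `b k ∉ A` as in I1.  `a k` and `b k` have different colours.  For at least
`c + 1` indices `k` the colour of `a k` is the same (pigeonhole), say it is `γ`, and the colour of
`b k` is `1 - γ`.  For two such indices `k, k'`: `a k` and `b k'` have different colours, so they are
adjacent in `QSG` iff not adjacent in `WT n g 0` iff `k ≠ k'` (`a k ≠ b k'` clear).  So the traces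
`N(a k) \ A` of these `c + 1` vertices are different: contradiction. -/
def S_QSUnb : Prop := ∀ (g c : ℕ), 2 ≤ g → Even g → ∃ n : ℕ, 1 ≤ n ∧ ¬ CWLe c (QSG n g)

/-- three cliques `X = {(a, b)}`, `Y = {k}`, `Z = {l}`, where `(a, b)` is adjacent to `k` iff `k ≤ a` and
to `l` iff `l ≤ b`, and there are no edges between `Y` and `Z` -/
def A3G (n : ℕ) : SimpleGraph ((Fin n × Fin n) ⊕ (Fin n ⊕ Fin n)) where
  Adj
    | Sum.inl x, Sum.inl x' => x ≠ x'
    | Sum.inl x, Sum.inr (Sum.inl k) => k ≤ x.1
    | Sum.inl x, Sum.inr (Sum.inr l) => l ≤ x.2
    | Sum.inr (Sum.inl k), Sum.inl x => k ≤ x.1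
    | Sum.inr (Sum.inr l), Sum.inl x => l ≤ x.2
    | Sum.inr (Sum.inl k), Sum.inr (Sum.inl k') => k ≠ k'
    | Sum.inr (Sum.inr l), Sum.inr (Sum.inr l') => l ≠ l'
    | _, _ => False
  symm := ⟨fun u v h => by
    rcases u with u | u | u <;> rcases v with v | v | v <;> first
      | exact Ne.symm h
      | exact h⟩
  loopless := ⟨fun u h => by
    rcases u with u | u | u <;> exact h rfl⟩

/-- **I4.** `A3G n` is an interval graph without four independent vertices, and the clique-width is
unbounded.

Proof. Intervals: `(a, b) ↦ [- a - 1, b + 1]`, `k ∈ Y ↦ [- n - 1, - k - 1]`, `l ∈ Z ↦ [l + 1, n + 1]`.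
It is covered by three cliques, so among four vertices two are adjacent or equal (pigeonhole).
Unbounded (from A2): let `CWLe c (A3G n)`, `n = 6 c + 12`, `A` from A2 with `M = range inl` (`n ^ 2`
elements); there are at most `c` different traces `N(u) \ A`, `u ∈ A`.  Write `x (a, b)`, `y k`.  The row
`a` is `{x (a, b) | b}`; call it mixed if it meets `A` and the complement of `A`.
CLAIM: at most `2 c + 1` rows are mixed.  Let `a_0 < a_1 < ... < a_m` be mixed rows, and for
`1 ≤ i ≤ m` consider `y (a_i)`: it is adjacent to the vertices of row `a_j` iff `j ≥ i`.  Let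
`P = {i | y (a_i) ∉ A}`, `Q = {i | y (a_i) ∈ A}`, `|P| + |Q| = m`.
`|P| ≤ c`: for `i ∈ P` choose `x_i ∈ A` in row `a_i`; for `i < i'` in `P`: `y (a_i')` is not in
`N(x_i)` but in `N(x_i')`: the traces of the `x_i`, `i ∈ P`, are different.
`|Q| ≤ c`: for `i ∈ Q` let `x'_(i-1) ∉ A` be in row `a_(i-1)`; the vertices `y (a_i) ∈ A`, `i ∈ Q`, have
different traces: for `i < i'` in `Q`: `x'_(i'-1)` is adjacent to `y (a_i)` (`i ≤ i' - 1`) and not to
`y (a_i')`.  So `m ≤ 2 c`.
In the same way at most `2 c + 1` columns `{x (a, b) | a}` are mixed (use `Z`).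
Rows which are not mixed are full (inside `A`) or empty.  From `n ^ 2 ≤ 3 |A ∩ M| ≤ 2 n ^ 2`: there is at
least one full row (otherwise `|A ∩ M| ≤ (2 c + 1) n < n ^ 2 / 3`) and at least one empty row
(otherwise `|A ∩ M| ≥ (n - 2 c - 1) n > 2 n ^ 2 / 3`).  Then all `n > 2 c + 1` columns are mixed:
contradiction. -/
def S_A3Fam : Prop := (∀ n, InA3 (A3G n)) ∧ ∀ c : ℕ, ∃ n : ℕ, 1 ≤ n ∧ ¬ CWLe c (A3G n)

/-- **I5.** `A3` is closed under induced minors.

Proof (from H6 = S_IntClosed). Four pairwise non-adjacent different vertices `p i` of `H` give four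
vertices `b i ∈ B (p i)` of `G`, different by disjointness, pairwise non-adjacent. -/
def S_A3Closed : Prop := ∀ (V W : Type) [Finite V] (G : SimpleGraph V) (H : SimpleGraph W),
  InA3 G → IsIndMinor H G → InA3 H

/-- **I6.** Small graphs.

Proof. Let `K` be the clique of `InS2 H` and `I` its complement.  If `I = ∅` then `H` is complete.
Otherwise fix `v₀ ∈ I`; it has at most two neighbours.  `F = Hᶜ`; `I` is a clique of `F`.
(1) `InCoS`: every vertex has at most three neighbours in `tripods ι` and there is no triangle in it.
So `|I| ≤ 2`, `v₀` has at most three `F`-neighbours, so `|K| ≤ 5`, `|W| ≤ 7`.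
(2) `InCoT`: every vertex has at most three neighbours in `nets ι` and there are no four pairwise
adjacent vertices.  So `|I| ≤ 3`, `|K| ≤ 5`, `|W| ≤ 8`.
(3) `InQS` and `InA3`: let `K'` be the clique of `InQS`, `I'` its complement, `|I'| ≤ 3` by `InA3`.  If some
`v ∈ I` is in `I'`: it has at most two neighbours, and at most three non-neighbours in `K'` (they are
neighbours in `tripods`), so `|K'| ≤ 5`, `|W| ≤ 8`.  If `I ⊆ K'`: `I` is independent and nonempty,
`K'` a clique, so `I = {v₀}`, and `K' ⊆ {v₀} ∪ N(v₀)` has at most three elements: `|W| ≤ 6`. -/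
def S_Size8 : Prop := ∀ (W : Type) [Finite W] (H : SimpleGraph W), InS2 H →
  (InCoS H ∨ InCoT H ∨ (InQS H ∧ InA3 H)) → IsComplete H ∨ Nat.card W ≤ 8

/-- **I7.** Induced four-cycles.

Proof. (1) Split graphs: of the two non-adjacent vertices `a, c` one is not in `K`, of `b, d` one is not
in `K`; these two are adjacent, contradiction.  (2) Interval graphs: `a, c` are disjoint, say
`r a < l c` (or symmetric); `b` meets both, so `l b ≤ r a < l c ≤ r b`, the same for `d`; so `b` and `d`
intersect, contradiction. -/
def S_C4 : Prop := ∀ (W : Type) (H : SimpleGraph W) (a b c d : W), a ≠ c → b ≠ d →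
  H.Adj a b → H.Adj b c → H.Adj c d → H.Adj d a → ¬ H.Adj a c → ¬ H.Adj b d → ¬ InQS H ∧ ¬ InA3 H

/-- **I8.** Co-linear forests without an induced four-cycle.

Proof. `F = Hᶜ`.  (a) `F` is bipartite, in particular it has no triangle and no `C_5`: the graph
`tripods ι` is 2-coloured by the parity of `k` for `(c, 0, k)` and of `k + 1` for `(c, 1, k)`,
`(c, 2, k)`.  (b) `F` has no four-cycle `p q r s`: two different vertices of `tripods ι` have at most one
common neighbour.  (c) Every vertex has at most two `F`-neighbours: suppose `u` has three different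
neighbours `x, y, z`.  In `nets`, a vertex of positive level has at most two neighbours; so `f u` has
level `0`; at most one neighbour of `f u` has level `1`, so two of `f x, f y, f z` have level `0` and
the same index; by the last condition of `InCoT` these two vertices are `F`-adjacent, a triangle with
`u`: contradiction.  (d) `F` has no two edges `p q`, `r s` with four different ends and no `F`-edge
between `{p, q}` and `{r, s}`: then `p, r, q, s` would be an induced four-cycle of `H`.
If `F` has no edge take `g = none`.  Otherwise let `u v` be an edge of `F`; let `a` be the other neighbour of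
`u` (if any), `b` the other neighbour of `v` (if any).
Case 1: both exist.  `a ≠ b` (no triangle), `a, b` not adjacent (no four-cycle).  `a` has no other
neighbour `a'`: otherwise the edges `a a'`, `v b` violate (d) (`a'` is not adjacent to `b` since there is
no `C_5`; `a' ≠ v, b`).  In the same way `b` has no other neighbour.  An edge disjoint from `{u, v}` has,
by (d) for it and `u v`, an end in `{a, b}`: impossible.  So the edges of `F` are `a u, u v, v b`.
Case 2: only `a` exists (the case that only `b` exists is symmetric).  An edge disjoint from `{u, v}`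
contains `a`, by (d); `a` has at most one neighbour `a'` besides `u`.  So the edges are `v u`, `u a` and
possibly `a a'`.  Case 3: none exists: the only edge is `u v` (by (d)).
In all cases the non-isolated vertices of `F` form a path `p_1 p_2 p_3 p_4` (or its initial part with
two or three vertices).  Put `g p_1 = some 2`, `g p_2 = some 0`, `g p_3 = some 3`, `g p_4 = some 1`, and
`g = none` elsewhere: the complement of the path `0 1 2 3` is the path `2 0 3 1`. -/
def S_KP4 : Prop := ∀ (W : Type) (H : SimpleGraph W), InCoS H → InCoT H →
  (¬ ∃ a b c d : W, a ≠ c ∧ b ≠ d ∧ H.Adj a b ∧ H.Adj b c ∧ H.Adj c d ∧ H.Adj d a ∧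
    ¬ H.Adj a c ∧ ¬ H.Adj b d) → IsKP4 H

/-- **I9.** assembly.

Proof. Let `BoundedCW H₁ H₂` with constant `c`.  General principle: if a family of graphs (nonempty,
finite vertex types) has unbounded clique-width then some member contains `H₁` or `H₂` as an induced
minor.  Families: `SG n` (S2; `S_SGUnb`, `S_S2Closed`), `(WT n g 0)ᶜ` and `(WT n g 1)ᶜ` with
`g = 3 |W₁| + 3 |W₂| + 6` (CoS, CoT), `grid n` (InGrid), `QSG n g` with an even `g > |W₁|, |W₂|` (QS),
`A3G n` (A3).  So each of the classes InS2, InCoS, InCoT, InGrid, InQS, InA3 contains `H₁` or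
`H₂`.  Let `H ∈ {H₁, H₂}` be in `InS2` and `H'` the other one.  If `H` is in `InCoS` or `InCoT`: I6.
Otherwise `H'` is in both.  If `H'` has no induced four-cycle: I8.  If it has one, then by I7 `H` is in
`InQS` and `InA3`: I6. -/
def S_Goal3 : Prop := Goal3

end Pool.Agent.MPd439b2
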