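import Mathlib
import Pool.Agent.Lib.MP_d439b2_co.Spec4

/-!
# MP_d439b2_co, I5: the class `A3` is closed under induced minors
-/

set_option autoImplicit false

namespace Pool.Agent.MPd439b2

theorem a3Closed (h : S_IntClosed) : S_A3Closed := by
  intro V W _ G H hG hmin
  refine ⟨h V W G H hG.1 hmin, ?_⟩
  rintro ⟨p, hp, hadj⟩
  apply hG.2
  obtain ⟨B, hconn, hdis, hB⟩ := hmin
  have hne : ∀ i, ∃ x, x ∈ B (p i) := by
    intro i
    obtain ⟨x⟩ := (hconn (p i)).nonempty
    exact ⟨x.1, x.2⟩
  choose b hb using hne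
  have hbne : ∀ i j, i ≠ j → b i ≠ b j := by
    intro i j hij he
    have h1 := hdis (p i) (p j) (fun h2 => hij (hp h2))
    have h2 := hb j
    rw [← he] at h2
    exact Set.disjoint_left.1 h1 (hb i) h2
  refine ⟨b, ?_, ?_⟩
  · intro i j he
    by_contra hij
    exact hbne i j hij he
  · intro i j hGij
    have hij : i ≠ j := by
      rintro rfl
      exact G.loopless.irrefl _ hGij
    exact hadj i j ((hB (p i) (p j) (fun h2 => hij (hp h2))).2 ⟨b i, hb i, b j, hb j, hGij⟩)

end Pool.Agent.MPd439b2
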