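import Pool.Agent.Lib.MP_d439b2_co.Spec4

/-!
# MP_d439b2_co, I4: the interval graphs `A3G n`
-/

namespace Pool.Agent.MPd439b2

open Finset in
theorem a3Fam_in (n : ℕ) : InA3 (A3G n) := by
  refine ⟨⟨fun v => match v with
    | Sum.inl x => -(x.1.val : ℝ) - 1
    | Sum.inr (Sum.inl _) => -(n : ℝ) - 1
    | Sum.inr (Sum.inr l) => (l.val : ℝ) + 1,
    fun v => match v with
    | Sum.inl x => (x.2.val : ℝ) + 1
    | Sum.inr (Sum.inl k) => -(k.val : ℝ) - 1
    | Sum.inr (Sum.inr _) => (n : ℝ) + 1, ?_, ?_⟩, ?_⟩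
  · rintro (x | k | l)
    · show -(x.1.val : ℝ) - 1 ≤ (x.2.val : ℝ) + 1
      have h1 : (0 : ℝ) ≤ (x.1.val : ℝ) := Nat.cast_nonneg _
      have h2 : (0 : ℝ) ≤ (x.2.val : ℝ) := Nat.cast_nonneg _
      linarith
    · show -(n : ℝ) - 1 ≤ -(k.val : ℝ) - 1
      have h1 : (k.val : ℝ) < n := by exact_mod_cast k.isLt
      linarith
    · show (l.val : ℝ) + 1 ≤ (n : ℝ) + 1
      have h1 : (l.val : ℝ) < n := by exact_mod_cast l.isLt
      linarith
  · rintro (x | k | l) (x' | k' | l') hne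
    · show x ≠ x' ↔ -(x.1.val : ℝ) - 1 ≤ (x'.2.val : ℝ) + 1 ∧ -(x'.1.val : ℝ) - 1 ≤ (x.2.val : ℝ) + 1
      have h1 : (0 : ℝ) ≤ (x.1.val : ℝ) := Nat.cast_nonneg _
      have h2 : (0 : ℝ) ≤ (x.2.val : ℝ) := Nat.cast_nonneg _
      have h3 : (0 : ℝ) ≤ (x'.1.val : ℝ) := Nat.cast_nonneg _
      have h4 : (0 : ℝ) ≤ (x'.2.val : ℝ) := Nat.cast_nonneg _
      exact ⟨fun _ => ⟨by linarith, by linarith⟩, fun _ h => hne (by rw [h])⟩
    · show k' ≤ x.1 ↔ -(x.1.val : ℝ) - 1 ≤ -(k'.val : ℝ) - 1 ∧ -(n : ℝ) - 1 ≤ (x.2.val : ℝ) + 1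
      have h2 : (0 : ℝ) ≤ (x.2.val : ℝ) := Nat.cast_nonneg _
      have h3 : (0 : ℝ) ≤ (n : ℝ) := Nat.cast_nonneg _
      constructor
      · intro h
        have h' : (k'.val : ℝ) ≤ (x.1.val : ℝ) := by exact_mod_cast h
        exact ⟨by linarith, by linarith⟩
      · rintro ⟨h, -⟩
        have h' : (k'.val : ℝ) ≤ (x.1.val : ℝ) := by linarith
        have h'' : k'.val ≤ x.1.val := by exact_mod_cast h'
        exact h''
    · show l' ≤ x.2 ↔ -(x.1.val : ℝ) - 1 ≤ (n : ℝ) + 1 ∧ (l'.val : ℝ) + 1 ≤ (x.2.val : ℝ) + 1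
      have h1 : (0 : ℝ) ≤ (x.1.val : ℝ) := Nat.cast_nonneg _
      have h3 : (0 : ℝ) ≤ (n : ℝ) := Nat.cast_nonneg _
      constructor
      · intro h
        have h' : (l'.val : ℝ) ≤ (x.2.val : ℝ) := by exact_mod_cast h
        exact ⟨by linarith, by linarith⟩
      · rintro ⟨-, h⟩
        have h' : (l'.val : ℝ) ≤ (x.2.val : ℝ) := by linarith
        have h'' : l'.val ≤ x.2.val := by exact_mod_cast h'
        exact h''
    · show k ≤ x'.1 ↔ -(n : ℝ) - 1 ≤ (x'.2.val : ℝ) + 1 ∧ -(x'.1.val : ℝ) - 1 ≤ -(k.val : ℝ) - 1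
      have h2 : (0 : ℝ) ≤ (x'.2.val : ℝ) := Nat.cast_nonneg _
      have h3 : (0 : ℝ) ≤ (n : ℝ) := Nat.cast_nonneg _
      constructor
      · intro h
        have h' : (k.val : ℝ) ≤ (x'.1.val : ℝ) := by exact_mod_cast h
        exact ⟨by linarith, by linarith⟩
      · rintro ⟨-, h⟩
        have h' : (k.val : ℝ) ≤ (x'.1.val : ℝ) := by linarith
        have h'' : k.val ≤ x'.1.val := by exact_mod_cast h'
        exact h''
    · show k ≠ k' ↔ -(n : ℝ) - 1 ≤ -(k'.val : ℝ) - 1 ∧ -(n : ℝ) - 1 ≤ -(k.val : ℝ) - 1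
      have h1 : (k.val : ℝ) < n := by exact_mod_cast k.isLt
      have h2 : (k'.val : ℝ) < n := by exact_mod_cast k'.isLt
      exact ⟨fun _ => ⟨by linarith, by linarith⟩, fun _ h => hne (by rw [h])⟩
    · show False ↔ -(n : ℝ) - 1 ≤ (n : ℝ) + 1 ∧ (l'.val : ℝ) + 1 ≤ -(k.val : ℝ) - 1
      have h1 : (0 : ℝ) ≤ (k.val : ℝ) := Nat.cast_nonneg _
      have h2 : (0 : ℝ) ≤ (l'.val : ℝ) := Nat.cast_nonneg _
      exact ⟨False.elim, fun h => by linarith [h.2]⟩
    · show l ≤ x'.2 ↔ (l.val : ℝ) + 1 ≤ (x'.2.val : ℝ) + 1 ∧ -(x'.1.val : ℝ) - 1 ≤ (n : ℝ) + 1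
      have h1 : (0 : ℝ) ≤ (x'.1.val : ℝ) := Nat.cast_nonneg _
      have h3 : (0 : ℝ) ≤ (n : ℝ) := Nat.cast_nonneg _
      constructor
      · intro h
        have h' : (l.val : ℝ) ≤ (x'.2.val : ℝ) := by exact_mod_cast h
        exact ⟨by linarith, by linarith⟩
      · rintro ⟨h, -⟩
        have h' : (l.val : ℝ) ≤ (x'.2.val : ℝ) := by linarith
        have h'' : l.val ≤ x'.2.val := by exact_mod_cast h'
        exact h''
    · show False ↔ (l.val : ℝ) + 1 ≤ -(k'.val : ℝ) - 1 ∧ -(n : ℝ) - 1 ≤ (n : ℝ) + 1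
      have h1 : (0 : ℝ) ≤ (k'.val : ℝ) := Nat.cast_nonneg _
      have h2 : (0 : ℝ) ≤ (l.val : ℝ) := Nat.cast_nonneg _
      exact ⟨False.elim, fun h => by linarith [h.1]⟩
    · show l ≠ l' ↔ (l.val : ℝ) + 1 ≤ (n : ℝ) + 1 ∧ (l'.val : ℝ) + 1 ≤ (n : ℝ) + 1
      have h1 : (l.val : ℝ) < n := by exact_mod_cast l.isLt
      have h2 : (l'.val : ℝ) < n := by exact_mod_cast l'.isLt
      exact ⟨fun _ => ⟨by linarith, by linarith⟩, fun _ h => hne (by rw [h])⟩
  · rintro ⟨p, hp, hadj⟩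
    let cl : (Fin n × Fin n) ⊕ (Fin n ⊕ Fin n) → Fin 3 := fun v => match v with
      | Sum.inl _ => 0
      | Sum.inr (Sum.inl _) => 1
      | Sum.inr (Sum.inr _) => 2
    obtain ⟨i, j, hij, he⟩ := Fintype.exists_ne_map_eq_of_card_lt (fun i => cl (p i)) (by simp)
    have hpij : p i ≠ p j := fun h => hij (hp h)
    apply hadj i j
    revert he hpij
    generalize p i = u
    generalize p j = v
    rcases u with x | k | l <;> rcases v with x' | k' | l' <;> intro he hpij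
    · exact fun h => hpij (by rw [h])
    · exact absurd he (by simp [cl])
    · exact absurd he (by simp [cl])
    · exact absurd he (by simp [cl])
    · exact fun h => hpij (by rw [h])
    · exact absurd he (by simp [cl])
    · exact absurd he (by simp [cl])
    · exact absurd he (by simp [cl])
    · exact fun h => hpij (by rw [h])

/-- pairwise different traces -/
theorem a3Fam_tr {V ι : Type} [Finite V] [LinearOrder ι] (G : SimpleGraph V) (A : Set V) (c : ℕ)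
    (hc : {T : Set V | ∃ u ∈ A, T = G.neighborSet u \ A}.ncard ≤ c) (P : Finset ι) (x : ι → V)
    (hx : ∀ i ∈ P, x i ∈ A)
    (hne : ∀ i ∈ P, ∀ j ∈ P, i < j → ∃ w, w ∉ A ∧ ¬ (G.Adj (x i) w ↔ G.Adj (x j) w)) :
    P.card ≤ c := by
  classical
  refine le_trans ?_ hc
  rw [← Set.ncard_coe_finset P]
  refine Set.ncard_le_ncard_of_injOn (fun i => G.neighborSet (x i) \ A) ?_ ?_ (Set.toFinite _)
  · intro i hi
    exact ⟨x i, hx i hi, rfl⟩
  · have key : ∀ i ∈ P, ∀ j ∈ P, i < j →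
        G.neighborSet (x i) \ A ≠ G.neighborSet (x j) \ A := by
      intro i hi j hj hij he
      obtain ⟨w, hw, hn⟩ := hne i hi j hj hij
      apply hn
      constructor
      · intro h
        have h1 : w ∈ G.neighborSet (x i) \ A := ⟨h, hw⟩
        rw [he] at h1
        exact h1.1
      · intro h
        have h1 : w ∈ G.neighborSet (x j) \ A := ⟨h, hw⟩
        rw [← he] at h1
        exact h1.1
    intro i hi j hj he
    rcases lt_trichotomy i j with h | h | h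
    · exact absurd he (key i hi j hj h)
    · exact h
    · exact absurd he.symm (key j hj i hi h)

/-- few mixed rows -/
theorem a3Fam_row {V : Type} [Finite V] (n : ℕ) (G : SimpleGraph V) (A : Set V) (c : ℕ)
    (hc : {T : Set V | ∃ u ∈ A, T = G.neighborSet u \ A}.ncard ≤ c)
    (x : Fin n → Fin n → V) (y : Fin n → V) (hxy : ∀ a b k, G.Adj (x a b) (y k) ↔ k ≤ a)
    (R : Finset (Fin n)) (hR1 : ∀ a ∈ R, ∃ b, x a b ∈ A) (hR2 : ∀ a ∈ R, ∃ b, x a b ∉ A) :
    R.card ≤ 2 * c := by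
  classical
  have h1 : (R.filter fun a => y a ∉ A).card ≤ c := by
    have hex : ∀ a : Fin n, ∃ v : V, a ∈ R → (v ∈ A ∧ ∃ b, v = x a b) := by
      intro a
      by_cases ha : a ∈ R
      · obtain ⟨b, hb⟩ := hR1 a ha
        exact ⟨x a b, fun _ => ⟨hb, b, rfl⟩⟩
      · exact ⟨y a, fun h => absurd h ha⟩
    choose f hf using hex
    refine a3Fam_tr G A c hc _ f ?_ ?_
    · intro i hi
      exact (hf i (Finset.mem_filter.1 hi).1).1
    · intro i hi j hj hij
      refine ⟨y j, (Finset.mem_filter.1 hj).2, ?_⟩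
      obtain ⟨b, hb⟩ := (hf i (Finset.mem_filter.1 hi).1).2
      obtain ⟨b', hb'⟩ := (hf j (Finset.mem_filter.1 hj).1).2
      rw [hb, hb', hxy, hxy]
      intro h
      exact absurd (h.2 le_rfl) (not_le.2 hij)
  have h2 : (R.filter fun a => ¬ y a ∉ A).card ≤ c := by
    refine a3Fam_tr G A c hc _ y ?_ ?_
    · intro i hi
      exact not_not.1 (Finset.mem_filter.1 hi).2
    · intro i hi j hj hij
      obtain ⟨b, hb⟩ := hR2 i (Finset.mem_filter.1 hi).1
      refine ⟨x i b, hb, ?_⟩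
      rw [G.adj_comm, hxy, G.adj_comm, hxy]
      intro h
      exact absurd (h.1 le_rfl) (not_le.2 hij)
  have h3 := Finset.card_filter_add_card_filter_not (s := R) (fun a => y a ∉ A)
  omega

theorem a3Fam (h : S_CWCut) : S_A3Fam := by
  classical
  refine ⟨a3Fam_in, fun c => ⟨6 * c + 12, by omega, ?_⟩⟩
  intro hcw
  set n : ℕ := 6 * c + 12 with hn
  set M : Set ((Fin n × Fin n) ⊕ (Fin n ⊕ Fin n)) := Set.range Sum.inl with hM
  have hMc : M.ncard = n * n := by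
    rw [hM, ← Set.image_univ, Set.ncard_image_of_injective _ Sum.inl_injective, Set.ncard_univ,
      Nat.card_prod, Nat.card_fin]
  obtain ⟨A, hA1, hA2, hA3⟩ := h _ (A3G n) c hcw M (by rw [hMc, hn]; nlinarith)
  set B : Finset (Fin n × Fin n) := Finset.univ.filter fun p => Sum.inl p ∈ A with hB
  have hBc : (A ∩ M).ncard = B.card := by
    have e : A ∩ M = Sum.inl '' (B : Set (Fin n × Fin n)) := by
      ext v
      constructor
      · rintro ⟨hv, p, rfl⟩
        exact ⟨p, by simpa [hB] using hv, rfl⟩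
      · rintro ⟨p, hp, rfl⟩
        exact ⟨by simpa [hB] using hp, p, rfl⟩
    rw [e, Set.ncard_image_of_injective _ Sum.inl_injective, Set.ncard_coe_finset]
  rw [hMc, hBc] at hA1 hA2
  set R : Finset (Fin n) := Finset.univ.filter fun a =>
    (∃ b, (Sum.inl (a, b) : (Fin n × Fin n) ⊕ (Fin n ⊕ Fin n)) ∈ A) ∧
      ∃ b, (Sum.inl (a, b) : (Fin n × Fin n) ⊕ (Fin n ⊕ Fin n)) ∉ A with hR
  have hRc : R.card ≤ 2 * c := by
    refine a3Fam_row n (A3G n) A c hA3 (fun a b => Sum.inl (a, b)) (fun k => Sum.inr (Sum.inl k))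
      (fun a b k => Iff.rfl) R ?_ ?_
    · intro a ha
      exact (Finset.mem_filter.1 ha).2.1
    · intro a ha
      exact (Finset.mem_filter.1 ha).2.2
  -- a full row
  have hfull : ∃ a : Fin n, ∀ b, (Sum.inl (a, b) : (Fin n × Fin n) ⊕ (Fin n ⊕ Fin n)) ∈ A := by
    by_contra hno
    push Not at hno
    have hsub : B ⊆ R ×ˢ Finset.univ := by
      rintro ⟨a, b⟩ hab
      rw [Finset.mem_product]
      refine ⟨Finset.mem_filter.2 ⟨Finset.mem_univ _, ⟨b, (Finset.mem_filter.1 hab).2⟩, hno a⟩,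
        Finset.mem_univ _⟩
    have hle := Finset.card_le_card hsub
    rw [Finset.card_product, Finset.card_univ, Fintype.card_fin] at hle
    have h1 : R.card * n ≤ 2 * c * n := Nat.mul_le_mul_right n hRc
    nlinarith
  have hempty : ∃ a : Fin n, ∀ b, (Sum.inl (a, b) : (Fin n × Fin n) ⊕ (Fin n ⊕ Fin n)) ∉ A := by
    by_contra hno
    push Not at hno
    have hsub : Bᶜ ⊆ R ×ˢ Finset.univ := by
      rintro ⟨a, b⟩ hab
      rw [Finset.mem_product]
      have hab' : (Sum.inl (a, b) : (Fin n × Fin n) ⊕ (Fin n ⊕ Fin n)) ∉ A := by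
        intro h'
        exact (Finset.mem_compl.1 hab) (Finset.mem_filter.2 ⟨Finset.mem_univ _, h'⟩)
      refine ⟨Finset.mem_filter.2 ⟨Finset.mem_univ _, hno a, ⟨b, hab'⟩⟩,
        Finset.mem_univ _⟩
    have hle := Finset.card_le_card hsub
    rw [Finset.card_product, Finset.card_univ, Fintype.card_fin, Finset.card_compl,
      Fintype.card_prod, Fintype.card_fin] at hle
    have h1 : R.card * n ≤ 2 * c * n := Nat.mul_le_mul_right n hRc
    have h2 : n * n ≤ B.card + 2 * c * n := by omega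
    nlinarith
  obtain ⟨a₁, ha₁⟩ := hfull
  obtain ⟨a₂, ha₂⟩ := hempty
  have hcol : (Finset.univ : Finset (Fin n)).card ≤ 2 * c := by
    refine a3Fam_row n (A3G n) A c hA3 (fun b a => Sum.inl (a, b)) (fun l => Sum.inr (Sum.inr l))
      (fun b a l => Iff.rfl) _ ?_ ?_
    · intro b _
      exact ⟨a₁, ha₁ b⟩
    · intro b _
      exact ⟨a₂, ha₂ b⟩
  rw [Finset.card_univ, Fintype.card_fin] at hcol
  omega

end Pool.Agent.MPd439b2
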