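import Pool.Agent.Lib.MP_d439b2_co.Spec1

/-!
# MP_d439b2_co, A2: balanced cuts of graphs of bounded clique-width
-/

namespace Pool.Agent.MPd439b2

private theorem cwCut_finite {k : ℕ} (e : Expr k) : Finite e.V := by
  induction e with
  | vertex l => exact (inferInstance : Finite Unit)
  | union a b iha ihb =>
    have := iha
    have := ihb
    exact (inferInstance : Finite (a.V ⊕ b.V))
  | join i j h a ih => exact ih
  | relabel i j a ih => exact ih

private def CwCutGood {k : ℕ} (e : Expr k) (t : ℕ) (M A : Set e.V) (lab : e.V → Fin k) : Prop :=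
  t ≤ 3 * (A ∩ M).ncard ∧ 3 * (A ∩ M).ncard ≤ 2 * t ∧
    ∀ u ∈ A, ∀ v ∈ A, lab u = lab v → e.label u = e.label v ∧
      ∀ w, w ∉ A → (e.Rel u w ↔ e.Rel v w)

private theorem cwCut_ncard_sum {α β : Type} [Finite α] [Finite β] (M : Set (α ⊕ β)) :
    M.ncard = (Sum.inl ⁻¹' M : Set α).ncard + (Sum.inr ⁻¹' M : Set β).ncard := by
  have h1 : M = (Sum.inl '' (Sum.inl ⁻¹' M : Set α)) ∪ (Sum.inr '' (Sum.inr ⁻¹' M : Set β)) := by
    ext x
    rcases x with x | x
    · simp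
    · simp
  have h2 : Disjoint (Sum.inl '' (Sum.inl ⁻¹' M : Set α) : Set (α ⊕ β))
      (Sum.inr '' (Sum.inr ⁻¹' M : Set β)) := by
    rw [Set.disjoint_left]
    rintro x ⟨a, _, rfl⟩ ⟨b, _, hb⟩
    exact Sum.inr_ne_inl hb
  conv_lhs => rw [h1]
  rw [Set.ncard_union_eq h2 (Set.toFinite _) (Set.toFinite _),
    Set.ncard_image_of_injective _ Sum.inl_injective,
    Set.ncard_image_of_injective _ Sum.inr_injective]

private theorem cwCut_inl {α β : Type} (A : Set α) (M : Set (α ⊕ β)) :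
    ((Sum.inl '' A : Set (α ⊕ β)) ∩ M).ncard = (A ∩ (Sum.inl ⁻¹' M : Set α)).ncard := by
  rw [← Set.ncard_image_of_injective (A ∩ (Sum.inl ⁻¹' M : Set α))
    (Sum.inl_injective (α := α) (β := β)), Set.image_inter_preimage]

private theorem cwCut_inr {α β : Type} (A : Set β) (M : Set (α ⊕ β)) :
    ((Sum.inr '' A : Set (α ⊕ β)) ∩ M).ncard = (A ∩ (Sum.inr ⁻¹' M : Set β)).ncard := by
  rw [← Set.ncard_image_of_injective (A ∩ (Sum.inr ⁻¹' M : Set β))
    (Sum.inr_injective (α := α) (β := β)), Set.image_inter_preimage]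

private theorem cwCut_rinl {α β : Type} (M : Set (α ⊕ β)) :
    ((Set.range Sum.inl : Set (α ⊕ β)) ∩ M).ncard = (Sum.inl ⁻¹' M : Set α).ncard := by
  rw [← Set.ncard_image_of_injective (Sum.inl ⁻¹' M : Set α)
    (Sum.inl_injective (α := α) (β := β)), Set.image_preimage_eq_range_inter]

private theorem cwCut_rinr {α β : Type} (M : Set (α ⊕ β)) :
    ((Set.range Sum.inr : Set (α ⊕ β)) ∩ M).ncard = (Sum.inr ⁻¹' M : Set β).ncard := by
  rw [← Set.ncard_image_of_injective (Sum.inr ⁻¹' M : Set β)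
    (Sum.inr_injective (α := α) (β := β)), Set.image_preimage_eq_range_inter]

private theorem cwCut_claim {k : ℕ} (e : Expr k) : ∀ (t : ℕ), 2 ≤ t → ∀ M : Set e.V,
    2 * t < 3 * M.ncard → ∃ (A : Set e.V) (lab : e.V → Fin k), CwCutGood e t M A lab := by
  induction e with
  | vertex l =>
    intro t ht M hM
    exfalso
    have hf : Finite (Expr.vertex l).V := cwCut_finite _
    have h1 : M.ncard ≤ 1 := by
      refine (Set.ncard_le_card M).trans ?_
      show Nat.card Unit ≤ 1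
      simp
    omega
  | union a b iha ihb =>
    intro t ht M hM
    have := cwCut_finite a
    have := cwCut_finite b
    have hsum : M.ncard = (Sum.inl ⁻¹' M : Set a.V).ncard + (Sum.inr ⁻¹' M : Set b.V).ncard :=
      cwCut_ncard_sum (α := a.V) (β := b.V) M
    by_cases h1 : 2 * t < 3 * (Sum.inl ⁻¹' M : Set a.V).ncard
    · obtain ⟨A, lab, g1, g2, g3⟩ := iha t ht _ h1
      have hc := cwCut_inl (α := a.V) (β := b.V) A M
      refine ⟨(Sum.inl '' A : Set (a.V ⊕ b.V)), Sum.elim lab b.label, ?_, ?_, ?_⟩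
      · exact hc ▸ g1
      · exact hc ▸ g2
      · rintro _ ⟨u, hu, rfl⟩ _ ⟨v, hv, rfl⟩ huv
        obtain ⟨k1, k2⟩ := g3 u hu v hv huv
        refine ⟨k1, ?_⟩
        rintro (w | w) hw
        · exact k2 w (fun h => hw ⟨w, h, rfl⟩)
        · exact Iff.rfl
    · by_cases h2 : 2 * t < 3 * (Sum.inr ⁻¹' M : Set b.V).ncard
      · obtain ⟨A, lab, g1, g2, g3⟩ := ihb t ht _ h2
        have hc := cwCut_inr (α := a.V) (β := b.V) A M
        refine ⟨(Sum.inr '' A : Set (a.V ⊕ b.V)), Sum.elim a.label lab, ?_, ?_, ?_⟩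
        · exact hc ▸ g1
        · exact hc ▸ g2
        · rintro _ ⟨u, hu, rfl⟩ _ ⟨v, hv, rfl⟩ huv
          obtain ⟨k1, k2⟩ := g3 u hu v hv huv
          refine ⟨k1, ?_⟩
          rintro (w | w) hw
          · exact Iff.rfl
          · exact k2 w (fun h => hw ⟨w, h, rfl⟩)
      · by_cases h3 : (Sum.inr ⁻¹' M : Set b.V).ncard ≤ (Sum.inl ⁻¹' M : Set a.V).ncard
        · have hc := cwCut_rinl (α := a.V) (β := b.V) M
          refine ⟨(Set.range Sum.inl : Set (a.V ⊕ b.V)), Sum.elim a.label b.label, ?_, ?_, ?_⟩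
          · have : t ≤ 3 * (Sum.inl ⁻¹' M : Set a.V).ncard := by omega
            exact hc ▸ this
          · have : 3 * (Sum.inl ⁻¹' M : Set a.V).ncard ≤ 2 * t := by omega
            exact hc ▸ this
          · rintro _ ⟨u, rfl⟩ _ ⟨v, rfl⟩ huv
            refine ⟨huv, ?_⟩
            rintro (w | w) hw
            · exact absurd ⟨w, rfl⟩ hw
            · exact Iff.rfl
        · have hc := cwCut_rinr (α := a.V) (β := b.V) M
          refine ⟨(Set.range Sum.inr : Set (a.V ⊕ b.V)), Sum.elim a.label b.label, ?_, ?_, ?_⟩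
          · have : t ≤ 3 * (Sum.inr ⁻¹' M : Set b.V).ncard := by omega
            exact hc ▸ this
          · have : 3 * (Sum.inr ⁻¹' M : Set b.V).ncard ≤ 2 * t := by omega
            exact hc ▸ this
          · rintro _ ⟨u, rfl⟩ _ ⟨v, rfl⟩ huv
            refine ⟨huv, ?_⟩
            rintro (w | w) hw
            · exact Iff.rfl
            · exact absurd ⟨w, rfl⟩ hw
  | join i j h a ih =>
    intro t ht M hM
    obtain ⟨A, lab, g1, g2, g3⟩ := ih t ht M hM
    refine ⟨A, lab, g1, g2, ?_⟩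
    intro u hu v hv huv
    obtain ⟨k1, k2⟩ := g3 u hu v hv huv
    refine ⟨k1, fun w hw => ?_⟩
    show (a.Rel u w ∨ (a.label u = i ∧ a.label w = j) ∨ (a.label u = j ∧ a.label w = i)) ↔
      (a.Rel v w ∨ (a.label v = i ∧ a.label w = j) ∨ (a.label v = j ∧ a.label w = i))
    rw [k2 w hw, k1]
  | relabel i j a ih =>
    intro t ht M hM
    obtain ⟨A, lab, g1, g2, g3⟩ := ih t ht M hM
    refine ⟨A, lab, g1, g2, ?_⟩
    intro u hu v hv huv
    obtain ⟨k1, k2⟩ := g3 u hu v hv huv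
    refine ⟨?_, fun w hw => k2 w hw⟩
    show (if a.label u = i then j else a.label u) = (if a.label v = i then j else a.label v)
    rw [k1]

theorem cwCut : S_CWCut := by
  classical
  intro V _ G k hG M hM
  obtain ⟨e, φ, hφ⟩ := hG
  have := cwCut_finite e
  have hcard : (φ '' M).ncard = M.ncard := Set.ncard_image_of_injective M φ.injective
  obtain ⟨A, lab, g1, g2, g3⟩ := cwCut_claim e M.ncard hM (φ '' M) (by rw [hcard]; omega)
  have hAM : ((φ ⁻¹' A) ∩ M).ncard = (A ∩ φ '' M).ncard := by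
    rw [← Set.ncard_image_of_injective ((φ ⁻¹' A) ∩ M) φ.injective, Set.image_preimage_inter]
  refine ⟨φ ⁻¹' A, by rw [hAM]; exact g1, by rw [hAM]; exact g2, ?_⟩
  have key : ∀ u ∈ φ ⁻¹' A, ∀ v ∈ φ ⁻¹' A, lab (φ u) = lab (φ v) →
      G.neighborSet u \ (φ ⁻¹' A) = G.neighborSet v \ (φ ⁻¹' A) := by
    intro u hu v hv huv
    obtain ⟨-, k2⟩ := g3 (φ u) hu (φ v) hv huv
    ext w
    constructor
    · rintro ⟨h1, h2⟩
      refine ⟨?_, h2⟩
      rw [SimpleGraph.mem_neighborSet] at h1 ⊢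
      rw [hφ] at h1 ⊢
      exact (k2 (φ w) h2).mp h1
    · rintro ⟨h1, h2⟩
      refine ⟨?_, h2⟩
      rw [SimpleGraph.mem_neighborSet] at h1 ⊢
      rw [hφ] at h1 ⊢
      exact (k2 (φ w) h2).mpr h1
  let F : Fin k → Set V := fun l =>
    if h : ∃ u ∈ φ ⁻¹' A, lab (φ u) = l then G.neighborSet h.choose \ (φ ⁻¹' A) else ∅
  have hsub : {T : Set V | ∃ u ∈ φ ⁻¹' A, T = G.neighborSet u \ (φ ⁻¹' A)} ⊆ F '' Set.univ := by
    rintro T ⟨u, hu, rfl⟩
    refine ⟨lab (φ u), Set.mem_univ _, ?_⟩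
    have h : ∃ v ∈ φ ⁻¹' A, lab (φ v) = lab (φ u) := ⟨u, hu, rfl⟩
    show (if h : ∃ v ∈ φ ⁻¹' A, lab (φ v) = lab (φ u) then
      G.neighborSet h.choose \ (φ ⁻¹' A) else ∅) = _
    rw [dif_pos h]
    exact key _ h.choose_spec.1 _ hu h.choose_spec.2
  calc {T : Set V | ∃ u ∈ φ ⁻¹' A, T = G.neighborSet u \ (φ ⁻¹' A)}.ncard
      ≤ (F '' Set.univ).ncard := Set.ncard_le_ncard hsub (Set.toFinite _)
    _ ≤ (Set.univ : Set (Fin k)).ncard := Set.ncard_image_le (Set.toFinite _)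
    _ = k := by rw [Set.ncard_univ, Nat.card_eq_fintype_card, Fintype.card_fin]

end Pool.Agent.MPd439b2
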