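import Pool.Agent.Lib.MP_d439b2_co.Spec3

/-!
# MP_d439b2_co, H2: induced minors of the complement of `WT n g 0`
-/

namespace Pool.Agent.MPd439b2

/-- **H2** -/
theorem coSClosed (h : S_Legs) : S_CoSClosed := by
  intro W _ H n g hg hH
  obtain ⟨B, hconn, hdisj, hadj⟩ := hH
  have hne : ∀ w, ∃ x, x ∈ B w := by
    intro w
    obtain ⟨x⟩ := (hconn w).nonempty
    exact ⟨x.1, x.2⟩
  choose b hb using hne
  have hbinj : Function.Injective b := by
    intro w w' hww
    by_contra hne'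
    have h1 := Set.disjoint_left.1 (hdisj w w' hne') (hb w)
    rw [hww] at h1
    exact h1 (hb w')
  have hcard : (Set.range b).ncard < g := by
    have h1 : (Set.range b).ncard ≤ Nat.card W := by
      rw [← Set.image_univ, ← Set.ncard_univ W]
      exact Set.ncard_image_le Set.finite_univ
    exact lt_of_le_of_lt h1 hg
  obtain ⟨ι, φ, hφinj, -, hφ0, -⟩ := h n g 0 (Set.range b) (Nat.zero_le 1) hcard
  refine ⟨ι, fun w => φ (b w), ?_, ?_⟩
  · intro w w' hww
    exact hbinj (hφinj ⟨w, rfl⟩ ⟨w', rfl⟩ hww)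
  · intro w w' hww
    rw [SimpleGraph.compl_adj] at hww
    refine hφ0 rfl _ ⟨w, rfl⟩ _ ⟨w', rfl⟩ ?_
    by_contra hn
    apply hww.2
    rw [hadj w w' hww.1]
    refine ⟨b w, hb w, b w', hb w', ?_⟩
    rw [SimpleGraph.compl_adj]
    exact ⟨fun h1 => hww.1 (hbinj h1), hn⟩

end Pool.Agent.MPd439b2
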