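import Pool.Agent.Lib.MP_d439b2_co.Spec3

/-!
# MP_d439b2_co, H3: induced minors of the complement of `WT n g 1`
-/

namespace Pool.Agent.MPd439b2

/-- `nets` has no four-cycle -/
theorem nets_no_C4 {ι : Type} {p q r s : ι × Fin 3 × ℕ} (hpq : p ≠ q) (hrs : r ≠ s)
    (h1 : (nets ι).Adj p r) (h2 : (nets ι).Adj p s) (h3 : (nets ι).Adj q r)
    (h4 : (nets ι).Adj q s) : False := by
  obtain ⟨pc, pi, pk⟩ := p
  obtain ⟨qc, qi, qk⟩ := q
  obtain ⟨rc, ri, rk⟩ := r
  obtain ⟨sc, si, sk⟩ := s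
  obtain ⟨hpr, h1c, h1⟩ := h1
  obtain ⟨hps, h2c, h2⟩ := h2
  obtain ⟨hqr, h3c, h3⟩ := h3
  obtain ⟨hqs, h4c, h4⟩ := h4
  simp only at h1c h2c h3c h4c h1 h2 h3 h4
  subst h1c h2c h3c
  have hpq' : ¬ (pi = qi ∧ pk = qk) := fun h => hpq (by rw [h.1, h.2])
  have hrs' : ¬ (ri = si ∧ rk = sk) := fun h => hrs (by rw [h.1, h.2])
  have hpr' : ¬ (pi = ri ∧ pk = rk) := fun h => hpr (by rw [h.1, h.2])
  have hps' : ¬ (pi = si ∧ pk = sk) := fun h => hps (by rw [h.1, h.2])
  have hqr' : ¬ (qi = ri ∧ qk = rk) := fun h => hqr (by rw [h.1, h.2])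
  have hqs' : ¬ (qi = si ∧ qk = sk) := fun h => hqs (by rw [h.1, h.2])
  clear hpq hrs h4c hpr hps hqr hqs
  rcases h1 with ⟨e1, h1⟩ | ⟨e1, h1⟩ <;> rcases h2 with ⟨e2, h2⟩ | ⟨e2, h2⟩ <;>
    rcases h3 with ⟨e3, h3⟩ | ⟨e3, h3⟩ <;> rcases h4 with ⟨e4, h4⟩ | ⟨e4, h4⟩ <;>
    omega

theorem coTClosed (h : S_Legs) : S_CoTClosed := by
  intro W _ H n g hg hmod
  classical
  obtain ⟨B, hconn, hdisj, hadj⟩ := hmod
  have hBne : ∀ w, (B w).Nonempty := fun w => ((conn_iff _ _).mpr (hconn w)).1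
  have hF : ∀ w w', w ≠ w' → ¬ H.Adj w w' → ∀ a ∈ B w, ∀ b ∈ B w', (WT n g 1).Adj a b := by
    intro w w' hne hna a ha b hb
    by_contra hL
    apply hna
    rw [hadj w w' hne]
    refine ⟨a, ha, b, hb, ?_⟩
    rw [SimpleGraph.compl_adj]
    refine ⟨fun hab => ?_, hL⟩
    subst hab
    exact Set.disjoint_left.mp (hdisj w w' hne) ha hb
  have hpq0 : ∀ w, ∃ p q, p ∈ B w ∧ q ∈ B w ∧
      ((p = q ∧ ∀ x ∈ B w, x = p) ∨ (p ≠ q ∧ ¬ (WT n g 1).Adj p q)) := by
    intro w
    obtain ⟨x, hx⟩ := hBne w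
    by_cases hs : ∀ y ∈ B w, y = x
    · exact ⟨x, x, hx, hx, Or.inl ⟨rfl, hs⟩⟩
    · push Not at hs
      obtain ⟨y, hy, hyx⟩ := hs
      have hc := (conn_iff _ _).mpr (hconn w)
      obtain ⟨b, hb, a, ha, hab⟩ := hc.2 {x} (Set.singleton_subset_iff.mpr hx) ⟨x, rfl⟩
        (fun he => hyx (by rw [← he] at hy; exact hy))
      rw [Set.mem_singleton_iff] at hb
      subst hb
      rw [SimpleGraph.compl_adj] at hab
      exact ⟨b, a, hx, ha.1, Or.inr hab⟩
  choose p q hp hq hpq using hpq0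
  have hα : ∀ a b r s, a ≠ b → r ≠ s → (WT n g 1).Adj a r → (WT n g 1).Adj a s →
      (WT n g 1).Adj b r → (WT n g 1).Adj b s → False := by
    intro a b r s hab hrs h1 h2 h3 h4
    have hcard : ({a, b, r, s} : Set (WTV n g)).ncard < g := by
      have e1 := Set.ncard_insert_le a {b, r, s}
      have e2 := Set.ncard_insert_le b {r, s}
      have e3 := Set.ncard_insert_le r {s}
      have e4 := Set.ncard_singleton s
      omega
    obtain ⟨ι, φ, hinj, hn, _, _⟩ := h n g 1 {a, b, r, s} (le_refl _) hcard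
    have ma : a ∈ ({a, b, r, s} : Set (WTV n g)) := by simp
    have mb : b ∈ ({a, b, r, s} : Set (WTV n g)) := by simp
    have mr : r ∈ ({a, b, r, s} : Set (WTV n g)) := by simp
    have ms : s ∈ ({a, b, r, s} : Set (WTV n g)) := by simp
    exact nets_no_C4 (fun he => hab (hinj ma mb he)) (fun he => hrs (hinj mr ms he))
      (hn a ma r mr h1) (hn a ma s ms h2) (hn b mb r mr h3) (hn b mb s ms h4)
  -- big sets
  have hbig : ∀ w, p w ≠ q w → ∀ w', w ≠ w' → ¬ H.Adj w w' →
      ∀ w'', w ≠ w'' → ¬ H.Adj w w'' → ∀ x ∈ B w', ∀ y ∈ B w'', x = y := by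
    intro w hw w' hne hna w'' hne' hna' x hx y hy
    by_contra hxy
    exact hα (p w) (q w) x y hw hxy (hF w w' hne hna _ (hp w) x hx)
      (hF w w'' hne' hna' _ (hp w) y hy) (hF w w' hne hna _ (hq w) x hx)
      (hF w w'' hne' hna' _ (hq w) y hy)
  -- the set U
  let U : Set (WTV n g) := Set.range p ∪ Set.range q
  have hUcard : U.ncard < g := by
    have e1 : (Set.range p).ncard ≤ Nat.card W := by
      rw [← Set.image_univ]
      exact (Set.ncard_image_le (Set.toFinite _)).trans (by rw [Set.ncard_univ])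
    have e2 : (Set.range q).ncard ≤ Nat.card W := by
      rw [← Set.image_univ]
      exact (Set.ncard_image_le (Set.toFinite _)).trans (by rw [Set.ncard_univ])
    have e3 := Set.ncard_union_le (Set.range p) (Set.range q)
    show (Set.range p ∪ Set.range q).ncard < g
    omega
  obtain ⟨ι, φ, hinj, hn, _, hlev⟩ := h n g 1 U (le_refl _) hUcard
  have hpU : ∀ w, p w ∈ U := fun w => Or.inl ⟨w, rfl⟩
  have hqU : ∀ w, q w ∈ U := fun w => Or.inr ⟨w, rfl⟩
  -- `w` with a big set and a non-neighbour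
  let nonIso : W → Prop := fun w => ∃ w', w ≠ w' ∧ ¬ H.Adj w w'
  -- the chosen vertex
  let z : W → WTV n g := fun w => if (φ (p w)).2.2 = 0 then q w else p w
  have hzB : ∀ w, z w ∈ B w := by
    intro w
    by_cases hz : (φ (p w)).2.2 = 0
    · simp only [z, hz, if_true]; exact hq w
    · simp only [z, hz, if_false]; exact hp w
  have hzU : ∀ w, z w ∈ U := by
    intro w
    by_cases hz : (φ (p w)).2.2 = 0
    · simp only [z, hz, if_true]; exact hqU w
    · simp only [z, hz, if_false]; exact hpU w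
  have hzlev : ∀ w, p w ≠ q w → nonIso w → (φ (z w)).2.2 ≠ 0 := by
    rintro w hw ⟨w', hne, hna⟩ hzero
    by_cases hz : (φ (p w)).2.2 = 0
    · simp only [z, hz, if_true] at hzero
      have hr : p w' ∈ U := hpU w'
      have a1 := hn _ (hpU w) _ hr (hF w w' hne hna _ (hp w) _ (hp w'))
      have a2 := hn _ (hqU w) _ hr (hF w w' hne hna _ (hq w) _ (hp w'))
      have hidx : (φ (p w)).1 = (φ (q w)).1 := a1.2.1.trans a2.2.1.symm
      have := hlev rfl _ (hpU w) _ (hqU w) hw hidx hz hzero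
      rcases hpq w with h5 | h5
      · exact hw h5.1
      · exact h5.2 this
    · simp only [z, hz, if_false] at hzero
      try exact hz hzero
  -- the map
  let f : W → (ι ⊕ W) × Fin 3 × ℕ := fun w =>
    if p w ≠ q w ∧ ¬ nonIso w then (Sum.inr w, 0, 0)
    else (Sum.inl (φ (z w)).1, (φ (z w)).2)
  have hzinj : ∀ w w', z w = z w' → w = w' := by
    intro w w' he
    by_contra hne
    exact Set.disjoint_left.mp (hdisj w w' hne) (hzB w) (by rw [he]; exact hzB w')
  refine ⟨ι ⊕ W, f, ?_, ?_, ?_⟩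
  · intro w w' he
    by_cases c1 : p w ≠ q w ∧ ¬ nonIso w <;> by_cases c2 : p w' ≠ q w' ∧ ¬ nonIso w'
    · simp only [f, c1, c2, not_false_eq_true, and_self, if_true, ne_eq] at he
      exact Sum.inr_injective (congrArg Prod.fst he)
    · simp only [f] at he
      rw [if_pos c1, if_neg c2] at he
      exact absurd (congrArg Prod.fst he) (by simp)
    · simp only [f] at he
      rw [if_neg c1, if_pos c2] at he
      exact absurd (congrArg Prod.fst he) (by simp)
    · simp only [f] at he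
      rw [if_neg c1, if_neg c2] at he
      have e1 : (φ (z w)).1 = (φ (z w')).1 := Sum.inl_injective (congrArg Prod.fst he)
      have e2 : (φ (z w)).2 = (φ (z w')).2 := (Prod.ext_iff.mp he).2
      exact hzinj w w' (hinj (hzU w) (hzU w') (Prod.ext e1 e2))
  · intro w w' hww
    rw [SimpleGraph.compl_adj] at hww
    have n1 : nonIso w := ⟨w', hww.1, hww.2⟩
    have n2 : nonIso w' := ⟨w, hww.1.symm, fun h' => hww.2 h'.symm⟩
    have c1 : ¬ (p w ≠ q w ∧ ¬ nonIso w) := fun h' => h'.2 n1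
    have c2 : ¬ (p w' ≠ q w' ∧ ¬ nonIso w') := fun h' => h'.2 n2
    simp only [f]
    rw [if_neg c1, if_neg c2]
    have := hn _ (hzU w) _ (hzU w') (hF w w' hww.1 hww.2 _ (hzB w) _ (hzB w'))
    refine ⟨fun he => ?_, ?_, this.2.2⟩
    · apply this.1
      exact Prod.ext (Sum.inl_injective (congrArg Prod.fst he)) (Prod.ext_iff.mp he).2
    · simp only; rw [this.2.1]
  · intro w w' hne h1 h2 h3
    by_cases c1 : p w ≠ q w ∧ ¬ nonIso w
    · exfalso
      simp only [f] at h1
      rw [if_pos c1] at h1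
      by_cases c2 : p w' ≠ q w' ∧ ¬ nonIso w'
      · rw [if_pos c2] at h1
        exact hne (Sum.inr_injective h1)
      · rw [if_neg c2] at h1
        exact absurd h1 (by simp)
    by_cases c2 : p w' ≠ q w' ∧ ¬ nonIso w'
    · exfalso
      simp only [f] at h1
      rw [if_neg c1, if_pos c2] at h1
      exact absurd h1 (by simp)
    simp only [f] at h1 h2 h3
    rw [if_neg c1, if_neg c2] at h1
    rw [if_neg c1] at h2
    rw [if_neg c2] at h3
    simp only at h1 h2 h3
    have s1 : p w = q w := by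
      by_contra hw
      have ni : nonIso w := by
        by_contra hn'
        exact c1 ⟨hw, hn'⟩
      exact hzlev w hw ni h2
    have s2 : p w' = q w' := by
      by_contra hw
      have ni : nonIso w' := by
        by_contra hn'
        exact c2 ⟨hw, hn'⟩
      exact hzlev w' hw ni h3
    have u1 : ∀ x ∈ B w, x = p w := by
      rcases hpq w with h5 | h5
      · exact h5.2
      · exact absurd s1 h5.1
    have u2 : ∀ x ∈ B w', x = p w' := by
      rcases hpq w' with h5 | h5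
      · exact h5.2
      · exact absurd s2 h5.1
    have hzz : z w ≠ z w' := fun he => hne (hzinj w w' he)
    have hL := hlev rfl _ (hzU w) _ (hzU w') hzz (Sum.inl_injective h1) h2 h3
    rw [SimpleGraph.compl_adj]
    refine ⟨hne, fun hH => ?_⟩
    rw [hadj w w' hne] at hH
    obtain ⟨x, hx, y, hy, hxy⟩ := hH
    rw [SimpleGraph.compl_adj] at hxy
    apply hxy.2
    rw [u1 x hx, u2 y hy, ← u1 _ (hzB w), ← u2 _ (hzB w')]
    exact hL

end Pool.Agent.MPd439b2
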