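import Pool.Agent.Lib.MP_d439b2_co.Spec3

/-!
# MP_d439b2_co, H5: grids have unbounded clique-width
-/

namespace Pool.Agent.MPd439b2

open Classical in
/-- a matching across the cut gives distinct traces -/
theorem gu_traces {V : Type} [Finite V] (G : SimpleGraph V) (A : Set V) (c : ℕ)
    (hc : {T : Set V | ∃ u ∈ A, T = G.neighborSet u \ A}.ncard ≤ c)
    {ι : Type} (S : Finset ι) (a b : ι → V) (ha : ∀ i ∈ S, a i ∈ A) (hb : ∀ i ∈ S, b i ∉ A)
    (hab : ∀ i ∈ S, G.Adj (a i) (b i))
    (hn : ∀ i ∈ S, ∀ j ∈ S, i ≠ j → ¬ G.Adj (a j) (b i)) : S.card ≤ c := by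
  refine le_trans ?_ hc
  have hinj : Set.InjOn (fun i => G.neighborSet (a i) \ A) (S : Set ι) := by
    intro i hi j hj hij
    by_contra hne
    have h1 : b i ∈ G.neighborSet (a i) \ A := ⟨hab i hi, hb i hi⟩
    have h2 : b i ∈ G.neighborSet (a j) \ A := by
      have h3 : G.neighborSet (a i) \ A = G.neighborSet (a j) \ A := hij
      rw [← h3]; exact h1
    exact hn i hi j hj hne h2.1
  have h1 : ((fun i => G.neighborSet (a i) \ A) '' (S : Set ι)).ncard = S.card := by
    rw [Set.ncard_image_of_injOn hinj, Set.ncard_coe_finset]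
  rw [← h1]
  apply Set.ncard_le_ncard _ (Set.toFinite _)
  rintro T ⟨i, hi, rfl⟩
  exact ⟨a i, ha i hi, rfl⟩

/-- in a sequence which is not constant there is a change -/
theorem gu_change {n : ℕ} (P : Fin n → Prop) (x y : Fin n) (hx : P x) (hy : ¬ P y) :
    ∃ u v : Fin n, P u ∧ ¬ P v ∧ (u.val = v.val + 1 ∨ v.val = u.val + 1) := by
  by_contra hcon
  push Not at hcon
  -- all values are equal
  have key : ∀ m : ℕ, ∀ hm : m < n, (P ⟨m, hm⟩ ↔ P ⟨0, by omega⟩) := by
    intro m
    induction m with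
    | zero => intro hm; exact Iff.rfl
    | succ m ih =>
      intro hm
      rw [← ih (by omega)]
      constructor
      · intro h
        by_contra h'
        have := hcon ⟨m + 1, hm⟩ ⟨m, by omega⟩ h h'
        exact this.1 rfl
      · intro h
        by_contra h'
        have := hcon ⟨m, by omega⟩ ⟨m + 1, hm⟩ h h'
        exact this.2 rfl
  have h1 := (key x.val x.isLt).mp hx
  exact hy ((key y.val y.isLt).mpr h1)

open Classical in
/-- few lines are split -/
theorem gu_split {n : ℕ} (A : Set (Fin n × Fin n)) (c : ℕ)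
    (hc : {T : Set (Fin n × Fin n) | ∃ u ∈ A, T = (grid n).neighborSet u \ A}.ncard ≤ c)
    (e : Fin n → Fin n → Fin n × Fin n)
    (he1 : ∀ i j k, (j.val = k.val + 1 ∨ k.val = j.val + 1) → (grid n).Adj (e i j) (e i k))
    (he2 : ∀ i j k l, (grid n).Adj (e i j) (e k l) → i = k ∨ i.val = k.val + 1 ∨ k.val = i.val + 1) :
    (Finset.univ.filter (fun i : Fin n => (∃ j, e i j ∈ A) ∧ ∃ j, e i j ∉ A)).card ≤ 2 * c := by
  set S := Finset.univ.filter (fun i : Fin n => (∃ j, e i j ∈ A) ∧ ∃ j, e i j ∉ A) with hS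
  have hch : ∀ i : Fin n, ∃ u v : Fin n, i ∈ S → (e i u ∈ A ∧ e i v ∉ A ∧
      (u.val = v.val + 1 ∨ v.val = u.val + 1)) := by
    intro i
    by_cases hi : i ∈ S
    · obtain ⟨⟨x, hx⟩, y, hy⟩ := (Finset.mem_filter.mp hi).2
      obtain ⟨u, v, h1, h2, h3⟩ := gu_change (fun j => e i j ∈ A) x y hx hy
      exact ⟨u, v, fun _ => ⟨h1, h2, h3⟩⟩
    · exact ⟨i, i, fun h => absurd h hi⟩
  choose u v huv using hch
  have hpar : ∀ r : ℕ, (S.filter (fun i => i.val % 2 = r)).card ≤ c := by
    intro r
    apply gu_traces (grid n) A c hc (S.filter (fun i => i.val % 2 = r))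
      (fun i => e i (u i)) (fun i => e i (v i))
    · intro i hi
      exact (huv i (Finset.mem_filter.mp hi).1).1
    · intro i hi
      exact (huv i (Finset.mem_filter.mp hi).1).2.1
    · intro i hi
      exact he1 _ _ _ (huv i (Finset.mem_filter.mp hi).1).2.2
    · intro i hi j hj hij hadj
      have h1 := (Finset.mem_filter.mp hi).2
      have h2 := (Finset.mem_filter.mp hj).2
      rcases he2 _ _ _ _ hadj with h | h | h
      · exact hij h.symm
      · omega
      · omega
  have hsplit : S.card = (S.filter (fun i => i.val % 2 = 0)).card +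
      (S.filter (fun i => ¬ i.val % 2 = 0)).card :=
    (Finset.card_filter_add_card_filter_not (s := S) (fun i : Fin n => i.val % 2 = 0)).symm
  have h1 : (S.filter (fun i => ¬ i.val % 2 = 0)).card ≤ (S.filter (fun i => i.val % 2 = 1)).card := by
    apply Finset.card_le_card
    intro i hi
    rw [Finset.mem_filter] at hi ⊢
    exact ⟨hi.1, by omega⟩
  have h2 := hpar 0
  have h3 := hpar 1
  omega

open Classical in
/-- **H5.** Grids have unbounded clique-width. -/
theorem gridUnb (h : S_CWCut) : S_GridUnb := by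
  intro c
  refine ⟨12 * c + 12, by omega, ?_⟩
  intro hcw
  set n := 12 * c + 12 with hn
  have hcard : (Set.univ : Set (Fin n × Fin n)).ncard = n * n := by
    rw [Set.ncard_univ, Nat.card_eq_fintype_card, Fintype.card_prod, Fintype.card_fin]
  have hn12 : 12 ≤ n := by omega
  obtain ⟨A, h1, h2, h3⟩ := h (Fin n × Fin n) (grid n) c hcw Set.univ (by
    rw [hcard]; nlinarith)
  rw [hcard, Set.inter_univ] at h1 h2
  -- rows
  have hrow := gu_split A c h3 (fun i j => (i, j))
    (fun i j k hjk => Or.inl ⟨rfl, hjk⟩)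
    (fun i j k l hadj => by
      rcases hadj with h | h
      · exact Or.inl h.1
      · exact Or.inr h.2)
  have hcol := gu_split A c h3 (fun i j => (j, i))
    (fun i j k hjk => Or.inr ⟨rfl, hjk⟩)
    (fun i j k l hadj => by
      rcases hadj with h | h
      · exact Or.inr h.2
      · exact Or.inl h.1)
  set S := Finset.univ.filter
    (fun i : Fin n => (∃ j, ((i, j) : Fin n × Fin n) ∈ A) ∧ ∃ j, ((i, j) : Fin n × Fin n) ∉ A)
    with hS
  have hSn : ∀ B : Set (Fin n × Fin n), (∀ p ∈ B, p.1 ∈ S) → B.ncard ≤ 2 * c * n := by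
    intro B hB
    have h4 : B ⊆ ((S ×ˢ (Finset.univ : Finset (Fin n)) : Finset (Fin n × Fin n)) :
        Set (Fin n × Fin n)) := by
      intro p hp
      rw [Finset.mem_coe, Finset.mem_product]
      exact ⟨hB p hp, Finset.mem_univ _⟩
    have h5 := Set.ncard_le_ncard h4 (Set.toFinite _)
    rw [Set.ncard_coe_finset, Finset.card_product, Finset.card_univ, Fintype.card_fin] at h5
    exact h5.trans (Nat.mul_le_mul_right n hrow)
  -- a full row
  have hfull : ∃ i : Fin n, ∀ j, ((i, j) : Fin n × Fin n) ∈ A := by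
    by_contra hcon
    push Not at hcon
    have h6 := hSn A (fun p hp => Finset.mem_filter.mpr
      ⟨Finset.mem_univ _, ⟨p.2, hp⟩, hcon p.1⟩)
    have h7 : n * n ≤ 3 * (2 * c * n) := h1.trans (Nat.mul_le_mul_left 3 h6)
    have h8 : n * n ≤ (6 * c) * n := by
      calc n * n ≤ 3 * (2 * c * n) := h7
        _ = (6 * c) * n := by ring
    have h9 : n ≤ 6 * c := Nat.le_of_mul_le_mul_right h8 (by omega)
    omega
  have hempty : ∃ i : Fin n, ∀ j, ((i, j) : Fin n × Fin n) ∉ A := by
    by_contra hcon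
    push Not at hcon
    have h6 := hSn Aᶜ (fun p hp => Finset.mem_filter.mpr
      ⟨Finset.mem_univ _, hcon p.1, p.2, hp⟩)
    have h7 : A.ncard + Aᶜ.ncard = n * n := by
      have := Set.ncard_add_ncard_compl A
      rw [this, Nat.card_eq_fintype_card, Fintype.card_prod, Fintype.card_fin]
    have h8 : n * n ≤ (6 * c) * n := by
      have h10 : (6 * c) * n = 3 * (2 * c * n) := by ring
      rw [h10]
      omega
    have h9 : n ≤ 6 * c := Nat.le_of_mul_le_mul_right h8 (by omega)
    omega
  obtain ⟨i0, hi0⟩ := hfull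
  obtain ⟨i1, hi1⟩ := hempty
  have hall : (Finset.univ.filter
    (fun i : Fin n => (∃ j, ((j, i) : Fin n × Fin n) ∈ A) ∧ ∃ j, ((j, i) : Fin n × Fin n) ∉ A)) =
      Finset.univ := by
    ext i
    simp only [Finset.mem_filter, Finset.mem_univ, true_and, iff_true]
    exact ⟨⟨i0, hi0 i⟩, i1, hi1 i⟩
  have h10 : (Finset.univ : Finset (Fin n)).card ≤ 2 * c := by
    rw [← hall]
    exact hcol
  rw [Finset.card_univ, Fintype.card_fin] at h10
  omega

end Pool.Agent.MPd439b2
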