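import Pool.Agent.Lib.MP_d439b2_co.Spec3

/-!
# MP_d439b2_co, H6: interval graphs are closed under induced minors
-/

namespace Pool.Agent.MPd439b2

/-- a connected family of intervals covers the whole segment -/
theorem IntClosed_cover {V : Type} {G : SimpleGraph V} {l r : V → ℝ}
    (hG : ∀ u v, u ≠ v → (G.Adj u v ↔ l u ≤ r v ∧ l v ≤ r u)) {B : Set V}
    (hB : (G.induce B).Connected) {t : ℝ} {v₀ v₁ : V} (h₀ : v₀ ∈ B) (h₁ : v₁ ∈ B)
    (hl : l v₀ ≤ t) (hr : t ≤ r v₁) : ∃ v ∈ B, l v ≤ t ∧ t ≤ r v := by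
  by_contra hcon
  push Not at hcon
  have hstep : ∀ (a b : B), (G.induce B).Walk a b → r a < t → r b < t := by
    intro a b p
    induction p with
    | nil => exact id
    | @cons a b c hab _ ih =>
      intro ha
      apply ih
      have h1 : G.Adj (a : V) (b : V) := hab
      have h2 := ((hG a b h1.ne).1 h1).2
      exact hcon b b.2 (h2.trans ha.le)
  obtain ⟨p⟩ := hB.preconnected ⟨v₀, h₀⟩ ⟨v₁, h₁⟩
  have h2 := hstep _ _ p (hcon v₀ h₀ hl)
  exact absurd hr (not_le.2 h2)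

theorem intClosed : S_IntClosed := by
  intro V W _ G H hG hH
  obtain ⟨l, r, hlr, hadj⟩ := hG
  obtain ⟨B, hconn, hdisj, hB⟩ := hH
  have hfin : ∀ w, (B w).Finite := fun w => Set.toFinite _
  have hne : ∀ w, (B w).Nonempty := by
    intro w
    obtain ⟨x⟩ := (hconn w).nonempty
    exact ⟨x, x.2⟩
  have hlo : ∀ w, ∃ v ∈ B w, ∀ u ∈ B w, l v ≤ l u := fun w =>
    Set.exists_min_image (B w) l (hfin w) (hne w)
  have hhi : ∀ w, ∃ v ∈ B w, ∀ u ∈ B w, r u ≤ r v := fun w =>
    Set.exists_max_image (B w) r (hfin w) (hne w)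
  choose a ha hamin using hlo
  choose b hb hbmax using hhi
  refine ⟨fun w => l (a w), fun w => r (b w), fun w => ?_, fun w w' hww => ?_⟩
  · exact (hlr (a w)).trans (hbmax w _ (ha w))
  · rw [hB w w' hww]
    constructor
    · rintro ⟨x, hx, y, hy, hxy⟩
      obtain ⟨h1, h2⟩ := (hadj x y hxy.ne).1 hxy
      exact ⟨(hamin w x hx).trans (h1.trans (hbmax w' y hy)),
        (hamin w' y hy).trans (h2.trans (hbmax w x hx))⟩
    · rintro ⟨h1, h2⟩
      have h3 : l (a w) ≤ r (b w) := (hlr (a w)).trans (hbmax w _ (ha w))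
      have h4 : l (a w') ≤ r (b w') := (hlr (a w')).trans (hbmax w' _ (ha w'))
      obtain ⟨x, hx, hx1, hx2⟩ := IntClosed_cover hadj (hconn w)
        (t := max (l (a w)) (l (a w'))) (ha w) (hb w) (le_max_left _ _) (max_le h3 h2)
      obtain ⟨y, hy, hy1, hy2⟩ := IntClosed_cover hadj (hconn w')
        (t := max (l (a w)) (l (a w'))) (ha w') (hb w') (le_max_right _ _) (max_le h1 h4)
      have hxy : x ≠ y := by
        intro h
        rw [h] at hx
        exact Set.disjoint_left.1 (hdisj w w' hww) hx hy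
      exact ⟨x, hx, y, hy, (hadj x y hxy).2 ⟨hx1.trans hy2, hy1.trans hx2⟩⟩

end Pool.Agent.MPd439b2
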