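import Pool.Agent.Lib.MP_d439b2_co.Spec4

/-!
# MP_d439b2_co, I2: induced minors of the split graphs `QSG n g`
-/

set_option autoImplicit false

namespace Pool.Agent.MPd439b2

namespace QSClosedAux

theorem colAdj (n g : ℕ) (hg : Even g) (u v : WTV n g) (h : (WT n g 0).Adj u v) :
    col u ≠ col v := by
  obtain ⟨r, hr⟩ := hg
  have he : ∀ j : ℕ, (j * (g + 2)) % 2 = 0 := by
    intro j
    have h1 : j * (g + 2) = (j * (r + 1)) * 2 := by rw [hr]; ring
    rw [h1]
    exact Nat.mul_mod_left _ _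
  rcases u with ⟨b, l, q⟩ | ⟨i, j, m⟩ <;> rcases v with ⟨b', l', q'⟩ | ⟨i', j', m'⟩
  · have h1 : b = b' ∧ l = l' ∧ (q.val = q'.val + 1 ∨ q'.val = q.val + 1) := h
    obtain ⟨rfl, -, h2⟩ := h1
    show (q.val + if b then 1 else 0) % 2 ≠ (q'.val + if b then 1 else 0) % 2
    omega
  · have h1 : (b = false ∧ l = i' ∧ m'.val = 0 ∧ j'.val * (g + 2) ≤ q.val ∧
        q.val ≤ j'.val * (g + 2) + 0) ∨
        (b = true ∧ l = j' ∧ m'.val + 1 = g ∧ i'.val * (g + 2) ≤ q.val ∧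
          q.val ≤ i'.val * (g + 2) + 0) := h
    show (q.val + if b then 1 else 0) % 2 ≠ (m'.val + 1) % 2
    rcases h1 with ⟨rfl, -, h3, h4, h5⟩ | ⟨rfl, -, h3, h4, h5⟩
    · have h6 := he j'.val
      have h7 : q.val = j'.val * (g + 2) := by omega
      rw [h7]
      simp only [Bool.false_eq_true, if_false]
      omega
    · have h6 := he i'.val
      have h7 : q.val = i'.val * (g + 2) := by omega
      rw [h7]
      simp only [if_true]
      omega
  · have h1 : (b' = false ∧ l' = i ∧ m.val = 0 ∧ j.val * (g + 2) ≤ q'.val ∧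
        q'.val ≤ j.val * (g + 2) + 0) ∨
        (b' = true ∧ l' = j ∧ m.val + 1 = g ∧ i.val * (g + 2) ≤ q'.val ∧
          q'.val ≤ i.val * (g + 2) + 0) := h
    show (m.val + 1) % 2 ≠ (q'.val + if b' then 1 else 0) % 2
    rcases h1 with ⟨rfl, -, h3, h4, h5⟩ | ⟨rfl, -, h3, h4, h5⟩
    · have h6 := he j.val
      have h7 : q'.val = j.val * (g + 2) := by omega
      rw [h7]
      simp only [Bool.false_eq_true, if_false]
      omega
    · have h6 := he i.val
      have h7 : q'.val = i.val * (g + 2) := by omega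
      rw [h7]
      simp only [if_true]
      omega
  · have h1 : i = i' ∧ j = j' ∧ (m.val = m'.val + 1 ∨ m'.val = m.val + 1) := h
    show (m.val + 1) % 2 ≠ (m'.val + 1) % 2
    omega

end QSClosedAux

open QSClosedAux

theorem qsClosed (h : S_Legs) : S_QSClosed := by
  rintro W _ H n g hg hcard ⟨B, hc, hdisj, hadj⟩
  have hne : ∀ u w : W, u ≠ w → ∀ x ∈ B u, ∀ y ∈ B w, x ≠ y := fun u w huw x hx y hy hxy =>
    Set.disjoint_left.1 (hdisj u w huw) hx (hxy ▸ hy)
  have hex : ∀ w, ∃ x ∈ B w, ((∃ y ∈ B w, col y = 0) → col x = 0) := by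
    intro w
    by_cases hw : ∃ y ∈ B w, col y = 0
    · obtain ⟨y, hy, hy0⟩ := hw
      exact ⟨y, hy, fun _ => hy0⟩
    · obtain ⟨x⟩ := (hc w).nonempty
      exact ⟨x.1, x.2, fun h' => absurd h' hw⟩
  choose b hbB hb0 using hex
  have hbinj : Function.Injective b := by
    intro u v huv
    by_contra hcon
    exact hne u v hcon (b u) (hbB u) (b v) (hbB v) huv
  have hcr : (Set.range b).ncard < g := by
    have h1 : (Set.range b).ncard ≤ Nat.card W := by
      rw [← Set.image_univ, ← Set.ncard_univ]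
      exact Set.ncard_image_le Set.finite_univ
    omega
  obtain ⟨ι, φ, hinj, -, htri, -⟩ := h n g 0 (Set.range b) (by norm_num) hcr
  refine ⟨{w | ∃ x ∈ B w, col x = 0}, ?_, ?_, ι, φ ∘ b, ?_, ?_⟩
  · rintro u ⟨x, hx, hx0⟩ v ⟨y, hy, hy0⟩ huv
    refine (hadj u v huv).2 ⟨x, hx, y, hy, hne u v huv x hx y hy, Or.inl hx0, fun hxy => ?_⟩
    exact colAdj n g hg x y hxy (hx0.trans hy0.symm)
  · intro u hu v hv huv
    obtain ⟨x, hx, y, hy, hxy⟩ := (hadj u v huv.ne).1 huv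
    rcases hxy.2.1 with h0 | h0
    · exact hu ⟨x, hx, h0⟩
    · exact hv ⟨y, hy, h0⟩
  · intro u v huv
    exact hbinj (hinj ⟨u, rfl⟩ ⟨v, rfl⟩ huv)
  · intro u hu v hv huv
    have huv' : u ≠ v := fun he => hv (he ▸ hu)
    refine htri rfl (b u) ⟨u, rfl⟩ (b v) ⟨v, rfl⟩ ?_
    by_contra hcon
    exact huv ((hadj u v huv').2 ⟨b u, hbB u, b v, hbB v,
      hne u v huv' _ (hbB u) _ (hbB v), Or.inl (hb0 u hu), hcon⟩)

end Pool.Agent.MPd439b2
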