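import Pool.Agent.Lib.MP_d439b2_co.Spec4

/-!
# MP_d439b2_co, I3: the graphs `QSG n g` have unbounded clique-width
-/

namespace Pool.Agent.MPd439b2

namespace QSUnbAux

theorem col_lt {n g : ℕ} (v : WTV n g) : col v < 2 := by
  rcases v with ⟨b, l, q⟩ | ⟨i, j, m⟩
  · exact Nat.mod_lt _ (by norm_num)
  · exact Nat.mod_lt _ (by norm_num)

theorem col_ne_aux {n g : ℕ} (hg : Even g) (b : Bool) (l : Fin n) (q : Fin (n * (g + 2)))
    (i j : Fin n) (m : Fin g)
    (h : (b = false ∧ l = i ∧ m.val = 0 ∧ j.val * (g + 2) ≤ q.val ∧ q.val ≤ j.val * (g + 2) + 0) ∨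
      (b = true ∧ l = j ∧ m.val + 1 = g ∧ i.val * (g + 2) ≤ q.val ∧
        q.val ≤ i.val * (g + 2) + 0)) :
    col (Sum.inl (b, l, q) : WTV n g) ≠ col (Sum.inr (i, j, m) : WTV n g) := by
  obtain ⟨r, hr⟩ := hg
  rcases h with ⟨hb, _, hm, h1, h2⟩ | ⟨hb, _, hm, h1, h2⟩
  · have hq : q.val = 2 * (j.val * (r + 1)) := by
      have : j.val * (g + 2) = 2 * (j.val * (r + 1)) := by rw [hr]; ring
      omega
    simp only [col, hb, hm]
    simp only [Bool.false_eq_true, if_false]
    omega
  · have hq : q.val = 2 * (i.val * (r + 1)) := by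
      have : i.val * (g + 2) = 2 * (i.val * (r + 1)) := by rw [hr]; ring
      omega
    simp only [col, hb]
    simp only [if_true]
    omega

theorem col_ne {n g : ℕ} (hg : Even g) {u v : WTV n g} (h : (WT n g 0).Adj u v) :
    col u ≠ col v := by
  rcases u with ⟨b, l, q⟩ | ⟨i, j, m⟩ <;> rcases v with ⟨b', l', q'⟩ | ⟨i', j', m'⟩
  · obtain ⟨h1, _, h3⟩ := h
    subst h1
    simp only [col]
    omega
  · exact col_ne_aux hg b l q i' j' m' h
  · exact (col_ne_aux hg b' l' q' i j m h).symm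
  · obtain ⟨_, _, h3⟩ := h
    simp only [col]
    omega

end QSUnbAux

open QSUnbAux in
/-- **I3.** `QSG n g` has unbounded clique-width. -/
theorem qsUnb (h : S_CWCut) (h' : S_WTCut) : S_QSUnb := by
  classical
  intro g c hg hev
  obtain ⟨n, hn, hM, hcut⟩ := h' g 0 (2 * c + 2) (by omega) (by omega)
  refine ⟨n, by omega, ?_⟩
  intro hcw
  have hn2 : 2 ≤ n ^ 2 := by nlinarith
  obtain ⟨A, hA1, hA2, hA3⟩ := h _ (QSG n g) c hcw (WTM n g) (by rw [hM]; exact hn2)
  obtain ⟨a, b, ha, hb, hab, hab'⟩ := hcut A hA1 hA2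
  have hfin : {T : Set (WTV n g) | ∃ u ∈ A, T = (QSG n g).neighborSet u \ A}.Finite :=
    Set.toFinite _
  -- a colour which occurs often
  obtain ⟨γ, hγ2, hγ⟩ : ∃ γ : ℕ, γ < 2 ∧
      c + 1 ≤ (Finset.univ.filter (fun k : Fin (2 * c + 2) => col (a k) = γ)).card := by
    by_contra hcon
    have h0 : (Finset.univ.filter (fun k : Fin (2 * c + 2) => col (a k) = 0)).card ≤ c := by
      by_contra h1
      exact hcon ⟨0, by norm_num, by omega⟩
    have h1 : (Finset.univ.filter (fun k : Fin (2 * c + 2) => col (a k) = 1)).card ≤ c := by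
      by_contra h2
      exact hcon ⟨1, by norm_num, by omega⟩
    have h2 : (Finset.univ : Finset (Fin (2 * c + 2))) ⊆
        (Finset.univ.filter (fun k : Fin (2 * c + 2) => col (a k) = 0)) ∪
          (Finset.univ.filter (fun k : Fin (2 * c + 2) => col (a k) = 1)) := by
      intro k _
      have := col_lt (a k)
      simp only [Finset.mem_union, Finset.mem_filter, Finset.mem_univ, true_and]
      omega
    have h3 := (Finset.card_le_card h2).trans (Finset.card_union_le _ _)
    rw [Finset.card_univ, Fintype.card_fin] at h3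
    omega
  -- adjacency in `QSG`
  have hadj : ∀ k k' : Fin (2 * c + 2), col (a k) = γ → col (a k') = γ → k ≠ k' →
      (QSG n g).Adj (a k) (b k') := by
    intro k k' hk hk' hne
    refine ⟨?_, ?_, hab' k k' hne⟩
    · intro he
      exact hb k' (he ▸ ha k)
    · have h1 := col_ne hev (hab k')
      have h2 := col_lt (b k')
      omega
  have hnadj : ∀ k : Fin (2 * c + 2), ¬ (QSG n g).Adj (a k) (b k) := fun k hk => hk.2.2 (hab k)
  have hinj : Set.InjOn (fun k : Fin (2 * c + 2) => (QSG n g).neighborSet (a k) \ A)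
      ((Finset.univ.filter (fun k : Fin (2 * c + 2) => col (a k) = γ) :
        Finset (Fin (2 * c + 2))) : Set (Fin (2 * c + 2))) := by
    intro k hk k' hk' he
    by_contra hne
    have hk1 : col (a k) = γ := by simpa using hk
    have hk2 : col (a k') = γ := by simpa using hk'
    have h1 : b k' ∈ (QSG n g).neighborSet (a k) \ A := ⟨hadj k k' hk1 hk2 hne, hb k'⟩
    have he' : (QSG n g).neighborSet (a k) \ A = (QSG n g).neighborSet (a k') \ A := he
    rw [he'] at h1
    exact hnadj k' h1.1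
  have hmaps : ∀ k ∈ ((Finset.univ.filter (fun k : Fin (2 * c + 2) => col (a k) = γ) :
        Finset (Fin (2 * c + 2))) : Set (Fin (2 * c + 2))),
      (fun k : Fin (2 * c + 2) => (QSG n g).neighborSet (a k) \ A) k ∈
        {T : Set (WTV n g) | ∃ u ∈ A, T = (QSG n g).neighborSet u \ A} :=
    fun k _ => ⟨a k, ha k, rfl⟩
  have h1 := Set.ncard_le_ncard_of_injOn _ hmaps hinj hfin
  rw [Set.ncard_coe_finset] at h1
  omega

end Pool.Agent.MPd439b2
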