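import Pool.Agent.Lib.MP_d439b2_co.Spec1

/-!
# MP_d439b2_co, B1: the class `S2` is closed under induced minors
-/

set_option autoImplicit false

namespace Pool.Agent.MPd439b2

namespace S2ClosedAux

theorem k5m_mem (K : Set (Fin 5)) (hdeg : ∀ v, v ∉ K → (K5m.neighborSet v).encard ≤ 2)
    (v : Fin 5) (hv : ∀ i ∈ ({0, 1, 2} : Finset (Fin 5)), K5m.Adj v i) : v ∈ K := by
  by_contra hvK
  have h1 : ((({0, 1, 2} : Finset (Fin 5)) : Set (Fin 5))).encard ≤ (K5m.neighborSet v).encard :=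
    Set.encard_le_encard (fun i hi => hv i hi)
  rw [Set.encard_coe_eq_coe_finsetCard] at h1
  have h2 := h1.trans (hdeg v hvK)
  have h3 : (({0, 1, 2} : Finset (Fin 5))).card = 3 := by decide
  rw [h3] at h2
  exact absurd h2 (by decide)

theorem not_k5m : ¬ InS2 K5m := by
  rintro ⟨K, hK, _, hdeg⟩
  have h3 : (3 : Fin 5) ∈ K := k5m_mem K hdeg 3 (by
    intro i hi
    have h : i = 0 ∨ i = 1 ∨ i = 2 := by simpa using hi
    rcases h with rfl | rfl | rfl
    · exact ⟨by decide, Or.inr (by decide)⟩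
    · exact ⟨by decide, Or.inr (by decide)⟩
    · exact ⟨by decide, Or.inr (by decide)⟩)
  have h4 : (4 : Fin 5) ∈ K := k5m_mem K hdeg 4 (by
    intro i hi
    have h : i = 0 ∨ i = 1 ∨ i = 2 := by simpa using hi
    rcases h with rfl | rfl | rfl
    · exact ⟨by decide, Or.inr (by decide)⟩
    · exact ⟨by decide, Or.inr (by decide)⟩
    · exact ⟨by decide, Or.inr (by decide)⟩)
  have h := hK 3 h3 4 h4 (by decide)
  rcases h.2 with h' | h'
  · exact absurd h' (by decide)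
  · exact absurd h' (by decide)

end S2ClosedAux

open S2ClosedAux

theorem s2Closed : S_S2Closed := by
  refine ⟨?_, not_k5m⟩
  rintro V W G H ⟨K, hK, hI, hdeg⟩ ⟨B, hc, hdisj, hadj⟩
  have hne : ∀ u w : W, u ≠ w → ∀ x ∈ B u, ∀ y ∈ B w, x ≠ y := fun u w huw x hx y hy hxy =>
    Set.disjoint_left.1 (hdisj u w huw) hx (hxy ▸ hy)
  have hnK : ∀ w, w ∉ {w | (B w ∩ K).Nonempty} → ∀ x ∈ B w, x ∉ K := fun w hw x hx hxK =>
    hw ⟨x, hx, hxK⟩
  refine ⟨{w | (B w ∩ K).Nonempty}, ?_, ?_, ?_⟩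
  · rintro u ⟨x, hxB, hxK⟩ v ⟨y, hyB, hyK⟩ huv
    exact (hadj u v huv).2 ⟨x, hxB, y, hyB, hK x hxK y hyK (hne u v huv x hxB y hyB)⟩
  · intro u hu v hv huv
    obtain ⟨x, hx, y, hy, hxy⟩ := (hadj u v huv.ne).1 huv
    exact hI x (hnK u hu x hx) y (hnK v hv y hy) hxy
  · intro w hw
    have hconn : Conn G (B w) := (conn_iff G (B w)).2 (hc w)
    obtain ⟨v, hv⟩ := hconn.1
    have hsing : B w = {v} := by
      by_contra hcon
      obtain ⟨b, hb, a, ha, hab⟩ := hconn.2 {v} (Set.singleton_subset_iff.2 hv) ⟨v, rfl⟩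
        (fun h => hcon h.symm)
      have hbv : b = v := hb
      exact hI b (hbv ▸ hnK w hw v hv) a (hnK w hw a ha.1) hab
    have hch : ∀ w' : W, ∃ y : V, H.Adj w w' → y ∈ B w' ∧ G.Adj v y := by
      intro w'
      by_cases h : H.Adj w w'
      · obtain ⟨x, hx, y, hy, hxy⟩ := (hadj w w' h.ne).1 h
        rw [hsing] at hx
        have hxv : x = v := hx
        exact ⟨y, fun _ => ⟨hy, hxv ▸ hxy⟩⟩
      · exact ⟨v, fun h' => absurd h' h⟩
    choose f hf using hch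
    refine (Set.encard_le_encard_of_injOn (f := f) (t := G.neighborSet v) ?_ ?_).trans
      (hdeg v (hnK w hw v hv))
    · intro w' hw'
      exact (hf w' hw').2
    · intro w₁ h₁ w₂ h₂ h12
      by_contra hcon
      exact hne w₁ w₂ hcon _ (hf w₁ h₁).1 _ (hf w₂ h₂).1 h12

end Pool.Agent.MPd439b2
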