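import Pool.Agent.Lib.MP_d439b2_co.Spec1

/-!
# MP_d439b2_co, B2: the graphs `SG n` are in `S2` and have unbounded clique-width
-/

namespace Pool.Agent.MPd439b2

private theorem sgUnb_inS2 (n : ℕ) : InS2 (SG n) := by
  refine ⟨Set.range Sum.inl, ?_, ?_, ?_⟩
  · rintro _ ⟨a, rfl⟩ _ ⟨b, rfl⟩ hab
    exact fun h => hab (by rw [h])
  · intro u hu v hv huv
    rcases u with u | u
    · exact hu ⟨u, rfl⟩
    rcases v with v | v
    · exact hv ⟨v, rfl⟩
    exact huv
  · intro v hv
    rcases v with v | v
    · exact absurd ⟨v, rfl⟩ hv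
    have hsub : (SG n).neighborSet (Sum.inr v) ⊆ {Sum.inl v.1, Sum.inl v.2} := by
      intro w hw
      rcases w with w | w
      · have hw' : w = v.1 ∨ w = v.2 := hw
        rcases hw' with h | h
        · exact Or.inl (by rw [h])
        · exact Or.inr (by rw [h]; rfl)
      · exact absurd hw id
    refine (Set.encard_le_encard hsub).trans ?_
    refine (Set.encard_insert_le _ _).trans ?_
    rw [Set.encard_singleton]
    exact le_of_eq (by norm_num)

/-- **B2.** The graphs `SG n` are in `S2` and have unbounded clique-width. -/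
theorem sgUnb (h : S_CWCut) : S_SGUnb := by
  refine ⟨sgUnb_inS2, ?_⟩
  intro c n hcn hn hcw
  have hM : (Set.range (Sum.inl : Fin n → Fin n ⊕ (Fin n × Fin n))).ncard = n := by
    rw [← Set.image_univ, Set.ncard_image_of_injective _ Sum.inl_injective, Set.ncard_univ,
      Nat.card_eq_fintype_card, Fintype.card_fin]
  obtain ⟨A, hA1, hA2, hA3⟩ := h _ (SG n) c hcw (Set.range Sum.inl) (by rw [hM]; exact hn)
  rw [hM] at hA1 hA2
  let I : Set (Fin n) := {a | (Sum.inl a : Fin n ⊕ (Fin n × Fin n)) ∈ A}
  have hI : (A ∩ Set.range (Sum.inl : Fin n → Fin n ⊕ (Fin n × Fin n))).ncard = I.ncard := by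
    have : A ∩ Set.range (Sum.inl : Fin n → Fin n ⊕ (Fin n × Fin n)) = Sum.inl '' I := by
      ext x
      constructor
      · rintro ⟨hx, a, rfl⟩
        exact ⟨a, hx, rfl⟩
      · rintro ⟨a, ha, rfl⟩
        exact ⟨ha, a, rfl⟩
    rw [this, Set.ncard_image_of_injective _ Sum.inl_injective]
  rw [hI] at hA1 hA2
  have hIJ : I.ncard + Iᶜ.ncard = n := by
    rw [Set.ncard_add_ncard_compl, Nat.card_eq_fintype_card, Fintype.card_fin]
  have hfin : {T : Set (Fin n ⊕ (Fin n × Fin n)) | ∃ u ∈ A, T = (SG n).neighborSet u \ A}.Finite :=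
    Set.toFinite _
  by_cases hc : ∀ b, b ∉ I → ∃ a ∈ I, (Sum.inr (a, b) : Fin n ⊕ (Fin n × Fin n)) ∈ A
  · have h1 : Iᶜ.ncard ≤
        {T : Set (Fin n ⊕ (Fin n × Fin n)) | ∃ u ∈ A, T = (SG n).neighborSet u \ A}.ncard := by
      refine Set.ncard_le_ncard_of_injOn (fun b => {(Sum.inl b : Fin n ⊕ (Fin n × Fin n))})
        ?_ ?_ hfin
      · intro b hb
        obtain ⟨a, ha, hab⟩ := hc b hb
        refine ⟨_, hab, ?_⟩
        ext w
        constructor
        · intro hw
          have hw' : w = Sum.inl b := hw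
          subst hw'
          exact ⟨show b = a ∨ b = b from Or.inr rfl, hb⟩
        · rintro ⟨hw, hwA⟩
          rcases w with w | w
          · have hw' : w = a ∨ w = b := hw
            rcases hw' with h2 | h2
            · subst h2
              exact absurd ha hwA
            · subst h2
              rfl
          · exact absurd hw id
      · intro b _ b' _ hbb
        have h3 : ({(Sum.inl b : Fin n ⊕ (Fin n × Fin n))} : Set _) = {Sum.inl b'} := hbb
        rw [Set.singleton_eq_singleton_iff] at h3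
        exact Sum.inl_injective h3
    omega
  · push Not at hc
    obtain ⟨b₀, hb₀, hab₀⟩ := hc
    have h1 : I.ncard ≤
        {T : Set (Fin n ⊕ (Fin n × Fin n)) | ∃ u ∈ A, T = (SG n).neighborSet u \ A}.ncard := by
      refine Set.ncard_le_ncard_of_injOn
        (fun a => (SG n).neighborSet (Sum.inl a) \ A) ?_ ?_ hfin
      · intro a ha
        exact ⟨_, ha, rfl⟩
      · intro a ha a' ha' haa
        have h3 : (Sum.inr (a, b₀) : Fin n ⊕ (Fin n × Fin n)) ∈
            (SG n).neighborSet (Sum.inl a) \ A :=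
          ⟨show a = a ∨ a = b₀ from Or.inl rfl, hab₀ a ha⟩
        have h4 : (Sum.inr (a, b₀) : Fin n ⊕ (Fin n × Fin n)) ∈
            (SG n).neighborSet (Sum.inl a') \ A := by
          have h5 : (SG n).neighborSet (Sum.inl a) \ A = (SG n).neighborSet (Sum.inl a') \ A := haa
          rw [← h5]
          exact h3
        have h6 : a' = a ∨ a' = b₀ := h4.1
        rcases h6 with h6 | h6
        · exact h6.symm
        · subst h6
          exact absurd ha' hb₀
    omega

end Pool.Agent.MPd439b2
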