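import Pool.Agent.Lib.MP_d439b2_co.Spec4

/-!
# MP_d439b2_co, I1: balanced cuts of `WT n g t` have many independent crossing edges
-/

namespace Pool.Agent.MPd439b2

/-- the position `j (g + 2)` -/
def wtPos {n g : ℕ} (j : Fin n) : Fin (n * (g + 2)) :=
  ⟨j.val * (g + 2), Nat.mul_lt_mul_of_pos_right j.2 (by omega)⟩

/-- the branch point `(i, j)` on row `i` -/
def wtPt {n g : ℕ} (c : Fin n × Fin n) : WTV n g := Sum.inl (false, c.1, wtPos c.2)

theorem wtPos_inj {n g : ℕ} {j j' : Fin n} (h : (wtPos j : Fin (n * (g + 2))) = wtPos j') :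
    j = j' := by
  have h1 := congrArg Fin.val h
  simp only [wtPos] at h1
  exact Fin.ext (Nat.eq_of_mul_eq_mul_right (by omega) h1)

theorem wtPt_inj {n g : ℕ} : Function.Injective (wtPt : Fin n × Fin n → WTV n g) := by
  rintro ⟨i, j⟩ ⟨i', j'⟩ h
  simp only [wtPt, Sum.inl.injEq, Prod.mk.injEq, true_and] at h
  obtain ⟨h1, h2⟩ := h
  rw [h1, wtPos_inj h2]

theorem wtm_eq_range (n g : ℕ) : WTM n g = Set.range (wtPt : Fin n × Fin n → WTV n g) := by
  ext v
  constructor
  · rintro ⟨i, q, rfl, hq⟩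
    have hq2 := q.2
    have hlt : q.val / (g + 2) < n := by
      rw [Nat.div_lt_iff_lt_mul (by omega)]
      exact hq2
    refine ⟨(i, ⟨q.val / (g + 2), hlt⟩), ?_⟩
    simp only [wtPt, wtPos]
    congr 3
    apply Fin.ext
    simp only
    exact Nat.div_mul_cancel (Nat.dvd_of_mod_eq_zero hq)
  · rintro ⟨⟨i, j⟩, rfl⟩
    refine ⟨i, wtPos j, rfl, ?_⟩
    simp [wtPos]

theorem wt_drop (P : ℕ → Prop) (m : ℕ) (h0 : P 0) (hm : ¬ P m) : ∃ z < m, P z ∧ ¬ P (z + 1) := by
  by_contra h
  push Not at h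
  have h1 : ∀ z ≤ m, P z := by
    intro z
    induction z with
    | zero => exact fun _ => h0
    | succ z ih => exact fun hz => h z (by omega) (ih (by omega))
  exact hm (h1 m le_rfl)

theorem wt_step (N : ℕ) (P : Fin N → Prop) (x y : Fin N) (hx : P x) (hy : ¬ P y) :
    ∃ q q' : Fin N, P q ∧ ¬ P q' ∧ (q.val = q'.val + 1 ∨ q'.val = q.val + 1) := by
  by_contra h
  push Not at h
  have up : ∀ d (hd : x.val + d < N), P ⟨x.val + d, hd⟩ := by
    intro d
    induction d with
    | zero => exact fun _ => hx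
    | succ d ih =>
      intro hd
      by_contra hc
      exact (h _ _ (ih (by omega)) hc).2 (by simp only; omega)
  have dn : ∀ d (hd : d ≤ x.val), P ⟨x.val - d, by omega⟩ := by
    intro d
    induction d with
    | zero => exact fun _ => hx
    | succ d ih =>
      intro hd
      by_contra hc
      exact (h _ _ (ih (by omega)) hc).1 (by simp only; omega)
  rcases le_total x.val y.val with hxy | hxy
  · have h1 := up (y.val - x.val) (by omega)
    have h2 : (⟨x.val + (y.val - x.val), by omega⟩ : Fin N) = y := Fin.ext (by simp only; omega)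
    rw [h2] at h1
    exact hy h1
  · have h1 := dn (x.val - y.val) (by omega)
    have h2 : (⟨x.val - (x.val - y.val), by omega⟩ : Fin N) = y := Fin.ext (by simp only; omega)
    rw [h2] at h1
    exact hy h1

/-- the connecting path between row `i` and column `j`, with its two end points -/
def wtPath {n g : ℕ} (j i : Fin n) (z : ℕ) : WTV n g :=
  if z = 0 then Sum.inl (false, i, wtPos j)
  else if h : z - 1 < g then Sum.inr (i, j, ⟨z - 1, h⟩)
  else Sum.inl (true, j, wtPos i)

theorem wtPath_zero {n g : ℕ} (j i : Fin n) :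
    (wtPath j i 0 : WTV n g) = Sum.inl (false, i, wtPos j) := rfl

theorem wtPath_mid {n g : ℕ} (j i : Fin n) (m : Fin g) :
    (wtPath j i (m.val + 1) : WTV n g) = Sum.inr (i, j, m) := by
  unfold wtPath
  rw [if_neg (by omega), dif_pos (by have := m.2; omega)]
  rfl

theorem wtPath_last {n g : ℕ} (j i : Fin n) {z : ℕ} (hz : g + 1 ≤ z) :
    (wtPath j i z : WTV n g) = Sum.inl (true, j, wtPos i) := by
  unfold wtPath
  rw [if_neg (by omega), dif_neg (by omega)]

theorem wtPath_cases {n g : ℕ} (j i : Fin n) (z : ℕ) :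
    (wtPath j i z : WTV n g) = Sum.inl (false, i, wtPos j) ∨
    (∃ m : Fin g, (wtPath j i z : WTV n g) = Sum.inr (i, j, m)) ∨
    (wtPath j i z : WTV n g) = Sum.inl (true, j, wtPos i) := by
  unfold wtPath
  split_ifs with h1 h2
  · exact Or.inl rfl
  · exact Or.inr (Or.inl ⟨_, rfl⟩)
  · exact Or.inr (Or.inr rfl)

theorem wtPath_adj {n g t : ℕ} (hg : 1 ≤ g) (j i : Fin n) (z : ℕ) (hz : z < g + 1) :
    (WT n g t).Adj (wtPath j i z) (wtPath j i (z + 1)) := by
  rcases Nat.eq_zero_or_pos z with h0 | h0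
  · subst h0
    rw [wtPath_zero, show (0 + 1 : ℕ) = (⟨0, hg⟩ : Fin g).val + 1 from rfl, wtPath_mid]
    left
    exact ⟨rfl, rfl, rfl, le_rfl, by simp [wtPos]⟩
  · obtain ⟨y, rfl⟩ : ∃ y, z = y + 1 := ⟨z - 1, by omega⟩
    rw [show y + 1 = (⟨y, by omega⟩ : Fin g).val + 1 from rfl, wtPath_mid]
    rcases Nat.lt_or_ge (y + 1) g with h1 | h1
    · rw [show (⟨y, by omega⟩ : Fin g).val + 1 + 1 = (⟨y + 1, h1⟩ : Fin g).val + 1 from rfl,
        wtPath_mid]
      exact ⟨rfl, rfl, Or.inr rfl⟩
    · rw [wtPath_last j i (by simp only; omega)]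
      right
      refine ⟨rfl, rfl, ?_, le_rfl, by simp [wtPos]⟩
      simp only
      omega

theorem wtPos_sep {n g : ℕ} {i i' : Fin n} (h : i ≠ i') :
    (wtPos i : Fin (n * (g + 2))).val + 2 ≤ (wtPos i' : Fin (n * (g + 2))).val ∨
    (wtPos i' : Fin (n * (g + 2))).val + 2 ≤ (wtPos i : Fin (n * (g + 2))).val := by
  have h1 : i.val ≠ i'.val := fun hh => h (Fin.ext hh)
  simp only [wtPos]
  rcases Nat.lt_or_gt_of_ne h1 with h2 | h2
  · left
    have h3 : (i.val + 1) * (g + 2) ≤ i'.val * (g + 2) := Nat.mul_le_mul_right _ h2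
    rw [Nat.add_mul, Nat.one_mul] at h3
    omega
  · right
    have h3 : (i'.val + 1) * (g + 2) ≤ i.val * (g + 2) := Nat.mul_le_mul_right _ h2
    rw [Nat.add_mul, Nat.one_mul] at h3
    omega

theorem wtPath_nonadj {n g t : ℕ} (ht : t ≤ 1) (j : Fin n) {i i' : Fin n} (hii : i ≠ i')
    (z z' : ℕ) : ¬ (WT n g t).Adj (wtPath j i z) (wtPath j i' z') := by
  have hs := wtPos_sep (g := g) hii
  intro h
  rcases wtPath_cases (g := g) j i z with h1 | ⟨m, h1⟩ | h1 <;>
    rcases wtPath_cases (g := g) j i' z' with h2 | ⟨m', h2⟩ | h2 <;> rw [h1, h2] at h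
  · exact hii h.2.1
  · rcases h with h | h
    · exact hii h.2.1
    · exact Bool.noConfusion h.1
  · exact Bool.noConfusion h.1
  · rcases h with h | h
    · exact hii h.2.1.symm
    · exact Bool.noConfusion h.1
  · exact hii h.1
  · rcases h with h | h
    · exact Bool.noConfusion h.1
    · have h3 := h.2.2.2.1
      have h4 := h.2.2.2.2
      simp only [wtPos] at hs h3 h4
      omega
  · exact Bool.noConfusion h.1
  · rcases h with h | h
    · exact Bool.noConfusion h.1
    · have h3 := h.2.2.2.1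
      have h4 := h.2.2.2.2
      simp only [wtPos] at hs h3 h4
      omega
  · have h3 := h.2.2
    simp only [wtPos] at hs h3
    omega

/-- many split lines -/
theorem wt_split {n g t T : ℕ} (A : Set (WTV n g)) (b : Bool) (F : Finset (Fin n))
    (hT : T ≤ F.card)
    (hF : ∀ l ∈ F, (∃ q, (Sum.inl (b, l, q) : WTV n g) ∈ A) ∧
      ∃ q, (Sum.inl (b, l, q) : WTV n g) ∉ A) :
    ∃ a b : Fin T → WTV n g,
      (∀ k, a k ∈ A) ∧ (∀ k, b k ∉ A) ∧ (∀ k, (WT n g t).Adj (a k) (b k)) ∧
      ∀ k k', k ≠ k' → ¬ (WT n g t).Adj (a k) (b k') := by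
  have h1 : ∀ l ∈ F, ∃ q q' : Fin (n * (g + 2)), (Sum.inl (b, l, q) : WTV n g) ∈ A ∧
      (Sum.inl (b, l, q') : WTV n g) ∉ A ∧ (q.val = q'.val + 1 ∨ q'.val = q.val + 1) := by
    intro l hl
    obtain ⟨⟨x, hx⟩, y, hy⟩ := hF l hl
    exact wt_step _ (fun q => (Sum.inl (b, l, q) : WTV n g) ∈ A) x y hx hy
  choose q q' hq hq' hqq using h1
  let e := F.orderEmbOfCardLe hT
  have he : ∀ k, e k ∈ F := fun k => Finset.orderEmbOfCardLe_mem F hT k
  refine ⟨fun k => Sum.inl (b, e k, q (e k) (he k)), fun k => Sum.inl (b, e k, q' (e k) (he k)),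
    fun k => hq _ _, fun k => hq' _ _, fun k => ⟨rfl, rfl, hqq _ _⟩, ?_⟩
  intro k k' hkk h
  exact hkk (e.injective h.2.1)

/-- many lines which are full, and one column which is empty, or the other way round -/
theorem wt_paths {n g t T : ℕ} (hg : 1 ≤ g) (ht : t ≤ 1) (A : Set (WTV n g)) (j : Fin n)
    (F : Finset (Fin n)) (hT : T ≤ F.card)
    (hF : (∀ i ∈ F, (Sum.inl (false, i, wtPos j) : WTV n g) ∈ A ∧
        (Sum.inl (true, j, wtPos i) : WTV n g) ∉ A) ∨
      (∀ i ∈ F, (Sum.inl (false, i, wtPos j) : WTV n g) ∉ A ∧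
        (Sum.inl (true, j, wtPos i) : WTV n g) ∈ A)) :
    ∃ a b : Fin T → WTV n g,
      (∀ k, a k ∈ A) ∧ (∀ k, b k ∉ A) ∧ (∀ k, (WT n g t).Adj (a k) (b k)) ∧
      ∀ k k', k ≠ k' → ¬ (WT n g t).Adj (a k) (b k') := by
  let e := F.orderEmbOfCardLe hT
  have he : ∀ k, e k ∈ F := fun k => Finset.orderEmbOfCardLe_mem F hT k
  rcases hF with hF | hF
  · have h1 : ∀ k : Fin T, ∃ z < g + 1, (wtPath j (e k) z : WTV n g) ∈ A ∧
        (wtPath j (e k) (z + 1) : WTV n g) ∉ A := fun k =>
      wt_drop (fun z => (wtPath j (e k) z : WTV n g) ∈ A) (g + 1) (hF _ (he k)).1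
        (by
          rw [wtPath_last j (e k) le_rfl]
          exact (hF _ (he k)).2)
    choose z hz hzA hzB using h1
    refine ⟨fun k => wtPath j (e k) (z k), fun k => wtPath j (e k) (z k + 1), hzA, hzB,
      fun k => wtPath_adj hg j (e k) (z k) (hz k), ?_⟩
    intro k k' hkk
    exact wtPath_nonadj ht j (fun h => hkk (e.injective h)) _ _
  · have h1 : ∀ k : Fin T, ∃ z < g + 1, ¬ ((wtPath j (e k) z : WTV n g) ∈ A) ∧
        ¬ ¬ ((wtPath j (e k) (z + 1) : WTV n g) ∈ A) := fun k =>
      wt_drop (fun z => ¬ ((wtPath j (e k) z : WTV n g) ∈ A)) (g + 1) (hF _ (he k)).1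
        (by
          rw [wtPath_last j (e k) le_rfl, not_not]
          exact (hF _ (he k)).2)
    choose z hz hzA hzB using h1
    refine ⟨fun k => wtPath j (e k) (z k + 1), fun k => wtPath j (e k) (z k),
      fun k => not_not.mp (hzB k), hzA,
      fun k => (wtPath_adj hg j (e k) (z k) (hz k)).symm, ?_⟩
    intro k k' hkk
    exact wtPath_nonadj ht j (fun h => hkk (e.injective h)) _ _

theorem wtCut : S_WTCut := by
  classical
  intro g t T hg ht
  refine ⟨6 * T + 12, by omega, ?_, ?_⟩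
  · rw [wtm_eq_range, ← Set.image_univ, Set.ncard_image_of_injective _ wtPt_inj,
      Set.ncard_univ, Nat.card_prod, Nat.card_fin, sq]
  set n : ℕ := 6 * T + 12 with hn
  intro A hA1 hA2
  have hM : (WTM n g).ncard = n * n := by
    rw [wtm_eq_range, ← Set.image_univ, Set.ncard_image_of_injective _ wtPt_inj,
      Set.ncard_univ, Nat.card_prod, Nat.card_fin]
  -- the points of `A` in `WTM`
  set D : Finset (Fin n × Fin n) := Finset.univ.filter fun c => (wtPt c : WTV n g) ∈ A with hD
  have hX : (A ∩ WTM n g).ncard = D.card := by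
    have h1 : A ∩ WTM n g = wtPt '' (D : Set (Fin n × Fin n)) := by
      rw [wtm_eq_range]
      ext v
      constructor
      · rintro ⟨hv, c, rfl⟩
        exact ⟨c, by simpa [hD] using hv, rfl⟩
      · rintro ⟨c, hc, rfl⟩
        exact ⟨by simpa [hD] using hc, c, rfl⟩
    rw [h1, Set.ncard_image_of_injective _ wtPt_inj, Set.ncard_coe_finset]
  rw [hM, hX] at hA1 hA2
  let Sp : Bool → Finset (Fin n) := fun b => Finset.univ.filter fun l =>
    (∃ q, (Sum.inl (b, l, q) : WTV n g) ∈ A) ∧ ∃ q, (Sum.inl (b, l, q) : WTV n g) ∉ A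
  have hSp : ∀ b, ∀ l ∈ Sp b, (∃ q, (Sum.inl (b, l, q) : WTV n g) ∈ A) ∧
      ∃ q, (Sum.inl (b, l, q) : WTV n g) ∉ A := fun b l hl => (Finset.mem_filter.mp hl).2
  have hSp' : ∀ b l, l ∉ Sp b → (∀ q, (Sum.inl (b, l, q) : WTV n g) ∈ A) ∨
      ∀ q, (Sum.inl (b, l, q) : WTV n g) ∉ A := by
    intro b l hl
    by_contra hc
    push Not at hc
    obtain ⟨⟨q, hq⟩, q', hq'⟩ := hc
    exact hl (Finset.mem_filter.mpr ⟨Finset.mem_univ _, ⟨q', hq'⟩, q, hq⟩)
  by_cases hr : T ≤ (Sp false).card
  · exact wt_split A false _ hr (hSp false)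
  by_cases hc : T ≤ (Sp true).card
  · exact wt_split A true _ hc (hSp true)
  set F : Finset (Fin n) := Finset.univ.filter fun l => ∀ q, (Sum.inl (false, l, q) : WTV n g) ∈ A
    with hF
  set Em : Finset (Fin n) := Finset.univ.filter fun l => ∀ q, (Sum.inl (false, l, q) : WTV n g) ∉ A
    with hEm
  have h1 : n ≤ F.card + Em.card + (Sp false).card := by
    have h2 : (Finset.univ : Finset (Fin n)) ⊆ (F ∪ Em) ∪ Sp false := by
      intro l _
      by_cases hl : l ∈ Sp false
      · exact Finset.mem_union_right _ hl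
      · rcases hSp' false l hl with h | h
        · exact Finset.mem_union_left _ (Finset.mem_union_left _
            (Finset.mem_filter.mpr ⟨Finset.mem_univ _, h⟩))
        · exact Finset.mem_union_left _ (Finset.mem_union_right _
            (Finset.mem_filter.mpr ⟨Finset.mem_univ _, h⟩))
    have h3 := Finset.card_le_card h2
    rw [Finset.card_univ, Fintype.card_fin] at h3
    have h4 := Finset.card_union_le (F ∪ Em) (Sp false)
    have h5 := Finset.card_union_le F Em
    omega
  have h2 : F.card * n ≤ D.card := by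
    have h3 : F ×ˢ (Finset.univ : Finset (Fin n)) ⊆ D := by
      rintro ⟨i, j⟩ hij
      rw [Finset.mem_product] at hij
      exact Finset.mem_filter.mpr ⟨Finset.mem_univ _, (Finset.mem_filter.mp hij.1).2 _⟩
    have h4 := Finset.card_le_card h3
    rwa [Finset.card_product, Finset.card_univ, Fintype.card_fin] at h4
  have h3 : D.card ≤ (F.card + (Sp false).card) * n := by
    have h4 : D ⊆ (F ∪ Sp false) ×ˢ (Finset.univ : Finset (Fin n)) := by
      rintro ⟨i, j⟩ hij
      have hij' := (Finset.mem_filter.mp hij).2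
      rw [Finset.mem_product]
      refine ⟨?_, Finset.mem_univ _⟩
      by_cases hl : i ∈ Sp false
      · exact Finset.mem_union_right _ hl
      · rcases hSp' false i hl with h | h
        · exact Finset.mem_union_left _ (Finset.mem_filter.mpr ⟨Finset.mem_univ _, h⟩)
        · exact absurd hij' (h _)
    have h5 := Finset.card_le_card h4
    rw [Finset.card_product, Finset.card_univ, Fintype.card_fin] at h5
    exact h5.trans (Nat.mul_le_mul_right _ (Finset.card_union_le _ _))
  have hnpos : 0 < n := by omega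
  have h4 : n ≤ 3 * (F.card + (Sp false).card) := by
    have h5 : n * n ≤ 3 * (F.card + (Sp false).card) * n := by
      calc n * n ≤ 3 * D.card := hA1
        _ ≤ 3 * ((F.card + (Sp false).card) * n) := Nat.mul_le_mul_left _ h3
        _ = 3 * (F.card + (Sp false).card) * n := by ring
    exact Nat.le_of_mul_le_mul_right h5 hnpos
  have h5 : 3 * F.card ≤ 2 * n := by
    have h6 : 3 * F.card * n ≤ 2 * n * n := by
      calc 3 * F.card * n = 3 * (F.card * n) := by ring
        _ ≤ 3 * D.card := Nat.mul_le_mul_left _ h2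
        _ ≤ 2 * (n * n) := hA2
        _ = 2 * n * n := by ring
    exact Nat.le_of_mul_le_mul_right h6 hnpos
  have hFT : T ≤ F.card := by omega
  have hET : T ≤ Em.card := by omega
  -- a column which is not split
  obtain ⟨j, hj⟩ : ∃ j, j ∉ Sp true := by
    by_contra hcon
    push Not at hcon
    have h6 : (Finset.univ : Finset (Fin n)) ⊆ Sp true := fun j _ => hcon j
    have h7 := Finset.card_le_card h6
    rw [Finset.card_univ, Fintype.card_fin] at h7
    omega
  rcases hSp' true j hj with h | h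
  · exact wt_paths hg ht A j Em hET (Or.inr fun i hi => ⟨(Finset.mem_filter.mp hi).2 _, h _⟩)
  · exact wt_paths hg ht A j F hFT (Or.inl fun i hi => ⟨(Finset.mem_filter.mp hi).2 _, h _⟩)

end Pool.Agent.MPd439b2
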