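import Pool.Agent.Lib.MP_d439b2_co.Spec4

/-!
# MP_d439b2_co, I1b: the complements of the graphs `WT n g t` have unbounded clique-width
-/

namespace Pool.Agent.MPd439b2

/-- **H4.** The complements of the graphs `WT n g t` have unbounded clique-width. -/
theorem wtUnb (h : S_CWCut) (h' : S_WTCut) : S_WTUnb := by
  intro g t c hg ht
  obtain ⟨n, hn, hM, hcut⟩ := h' g t (c + 1) hg ht
  refine ⟨n, by omega, ?_⟩
  intro hcw
  have hM2 : 2 ≤ (WTM n g).ncard := by
    rw [hM]
    nlinarith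
  obtain ⟨A, hA1, hA2, hA3⟩ := h _ (WT n g t)ᶜ c hcw (WTM n g) hM2
  obtain ⟨a, b, ha, hb, hab, hnab⟩ := hcut A hA1 hA2
  have hfin : {T : Set (WTV n g) | ∃ u ∈ A, T = (WT n g t)ᶜ.neighborSet u \ A}.Finite :=
    Set.toFinite _
  have h1 : (Set.univ : Set (Fin (c + 1))).ncard ≤
      {T : Set (WTV n g) | ∃ u ∈ A, T = (WT n g t)ᶜ.neighborSet u \ A}.ncard := by
    refine Set.ncard_le_ncard_of_injOn (fun k => (WT n g t)ᶜ.neighborSet (a k) \ A) ?_ ?_ hfin
    · intro k _
      exact ⟨a k, ha k, rfl⟩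
    · intro k _ k' _ hkk
      by_contra hne
      have h2 : b k ∈ (WT n g t)ᶜ.neighborSet (a k') \ A := by
        refine ⟨?_, hb k⟩
        rw [SimpleGraph.mem_neighborSet, SimpleGraph.compl_adj]
        refine ⟨?_, hnab k' k (Ne.symm hne)⟩
        intro h3
        exact hb k (h3 ▸ ha k')
      have h4 : b k ∈ (WT n g t)ᶜ.neighborSet (a k) \ A := by
        have h5 : (WT n g t)ᶜ.neighborSet (a k) \ A = (WT n g t)ᶜ.neighborSet (a k') \ A := hkk
        rw [h5]
        exact h2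
      have h6 := h4.1
      rw [SimpleGraph.mem_neighborSet, SimpleGraph.compl_adj] at h6
      exact h6.2 (hab k)
  rw [Set.ncard_univ, Nat.card_eq_fintype_card, Fintype.card_fin] at h1
  omega

end Pool.Agent.MPd439b2
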