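import Pool.Agent.Lib.MP_d439b2_co.Defs6
import Pool.Agent.Lib.MP_d439b2_co.R.Spec4
import Pool.Agent.Lib.MP_d439b2_co.LV.Defs
import Pool.Agent.Lib.MP_d439b2_co.B.SpecT
import Pool.Agent.Lib.MP_d439b2_co.B.Co6

/-!
# MP_d439b2_co : the classification up to finitely many pairs and dominating vertices (definitions)
-/

set_option autoImplicit false

namespace Pool.Agent.MPd439b2

/-- `H` is one of `K_3 + P_1`, `K_4` with a vertex of degree one, `K_5` with a vertex of degree two
(these are the graphs between `K3P` and `K5P`), or the kite -/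
def Row2 {W : Type} (H : SimpleGraph W) : Prop :=
  (IsIndSub K3P H ∧ IsIndSub H K5P) ∨ Nonempty (H ≃g Kite)

/-- The sufficient condition for the ordered pair `(H, H')` (besides planarity of one graph) -/
def Suf {W W' : Type} (H : SimpleGraph W) (H' : SimpleGraph W') : Prop :=
  InS2 H ∧ (IsComplete H ∨ IsKP4 H' ∨ (Row2 H ∧ InCoT H') ∨
    (InCoT H ∧ InGrid H ∧ ∃ s, IsIndSub H' (KC s)))

/-- one of the graphs is an induced minor of a grid, and `Suf` holds in one of the two orders -/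
def Good {W₁ W₂ : Type} (H₁ : SimpleGraph W₁) (H₂ : SimpleGraph W₂) : Prop :=
  (InGrid H₁ ∨ InGrid H₂) ∧ (Suf H₁ H₂ ∨ Suf H₂ H₁)

/-- the induced subgraphs of the gem and of the complement of `2 P_1 + P_3` -/
def Kn {W : Type} (H : SimpleGraph W) : Prop := IsIndSub H gem ∨ IsIndSub H co2P1P3

/-- three pairwise non-adjacent vertices -/
def Ind3 {W : Type} (H : SimpleGraph W) : Prop :=
  ∃ a b c : W, a ≠ b ∧ a ≠ c ∧ b ≠ c ∧ ¬ H.Adj a b ∧ ¬ H.Adj a c ∧ ¬ H.Adj b c

/-- the vertices which are not adjacent to all other vertices -/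
def nonDom {W : Type} (H : SimpleGraph W) : Set W := {w | ∃ u, u ≠ w ∧ ¬ H.Adj w u}

/-- The remaining ordered pairs (finitely many up to vertices of `H'` adjacent to all other vertices) -/
def Rem {W W' : Type} (H : SimpleGraph W) (H' : SimpleGraph W') : Prop :=
  InS2 H ∧ Ind3 H ∧ (InCoT H ∨ (InQS H ∧ InA3 H)) ∧
    InCoS H' ∧ ¬ IsIndSub co2P3 H' ∧ ¬ IsIndSub co6P2 H'

end Pool.Agent.MPd439b2
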