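import Pool.Agent.Lib.MP_d439b2_co.Spec2

/-!
# F3 and F4: grafting, a cut vertex
-/

namespace Pool.Agent.MPd439b2

variable {V : Type} {G G0 : SimpleGraph V}

theorem CaseCut_types_out {A D : Set V} {c : V} (hc : c ∉ A) (hd : Disjoint A D)
    (hnb : nb G D ⊆ {c}) (h0 : ∀ u v, G0.Adj u v ↔ G.Adj u v ∧ u ∉ D ∧ v ∉ D) :
    Types G A ⊆ Types G0 A := by
  rintro T ⟨hne, a, ha, rfl⟩
  refine ⟨hne, a, ha, ?_⟩
  have haD : a ∉ D := Set.disjoint_left.1 hd ha
  ext v
  constructor
  · rintro ⟨hv, hvA⟩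
    refine ⟨?_, hvA⟩
    have hav : G.Adj a v := hv
    have hvD : v ∉ D := by
      intro hvD
      have : a ∈ nb G D := ⟨haD, v, hvD, hav.symm⟩
      have h1 : a = c := hnb this
      exact hc (h1 ▸ ha)
    exact (h0 a v).2 ⟨hav, haD, hvD⟩
  · rintro ⟨hv, hvA⟩
    exact ⟨((h0 a v).1 hv).1, hvA⟩

theorem CaseCut_types_in {A D : Set V} {c : V} (hc : c ∈ A) (hd : Disjoint A D)
    (hnb : nb G D ⊆ {c}) (h0 : ∀ u v, G0.Adj u v ↔ G.Adj u v ∧ u ∉ D ∧ v ∉ D) :
    Types G (A ∪ D) ⊆ Types G0 A := by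
  rintro T ⟨hne, a, ha, rfl⟩
  rcases ha with ha | ha
  · have haD : a ∉ D := Set.disjoint_left.1 hd ha
    refine ⟨hne, a, ha, ?_⟩
    ext v
    constructor
    · rintro ⟨hv, hvA⟩
      have hvD : v ∉ D := fun h => hvA (Or.inr h)
      exact ⟨(h0 a v).2 ⟨hv, haD, hvD⟩, fun h => hvA (Or.inl h)⟩
    · rintro ⟨hv, hvA⟩
      have h1 := (h0 a v).1 hv
      refine ⟨h1.1, ?_⟩
      rintro (h | h)
      · exact hvA h
      · exact h1.2.2 h
  · exfalso
    obtain ⟨v, hv, hvA⟩ := hne
    have hvD : v ∉ D := fun h => hvA (Or.inr h)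
    have h1 : v ∈ nb G D := ⟨hvD, a, ha, hv⟩
    have h2 : v = c := hnb h1
    exact hvA (Or.inl (h2 ▸ hc))

theorem graft : S_Graft := by
  intro V _ G G0 k A D c hk hcA hAD hnb hD h0 hA
  have key : ∀ A' : Set V, Lay G0 k A' → Disjoint A' D →
      (c ∉ A' → Lay G k A') ∧ (c ∈ A' → Lay G k (A' ∪ D)) := by
    intro A' h
    induction h with
    | empty => exact fun _ => ⟨fun _ => Lay.empty, fun h => absurd h (Set.notMem_empty c)⟩
    | single v hv =>
      intro hdis
      refine ⟨fun _ => Lay.single' hk v, fun hc => ?_⟩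
      have hc' : c = v := hc
      exact Lay.union (Lay.single' hk v) hD hdis
        ((Set.encard_le_encard (CaseCut_types_in hc hdis hnb h0)).trans hv)
    | union hA1 hA2 hd ht ih1 ih2 =>
      rename_i A1 A2
      intro hdis
      have hd1 : Disjoint A1 D := hdis.mono_left Set.subset_union_left
      have hd2 : Disjoint A2 D := hdis.mono_left Set.subset_union_right
      refine ⟨fun hc => ?_, fun hc => ?_⟩
      · have hc1 : c ∉ A1 := fun h => hc (Or.inl h)
        have hc2 : c ∉ A2 := fun h => hc (Or.inr h)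
        exact Lay.union ((ih1 hd1).1 hc1) ((ih2 hd2).1 hc2) hd
          ((Set.encard_le_encard (CaseCut_types_out hc hdis hnb h0)).trans ht)
      · have ht' : (Types G ((A1 ∪ A2) ∪ D)).encard ≤ k :=
          (Set.encard_le_encard (CaseCut_types_in hc hdis hnb h0)).trans ht
        rcases hc with hc | hc
        · have hc2 : c ∉ A2 := fun h => Set.disjoint_left.1 hd hc h
          have e : (A1 ∪ A2) ∪ D = (A1 ∪ D) ∪ A2 := by
            rw [Set.union_assoc, Set.union_comm A2 D, ← Set.union_assoc]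
          rw [e] at ht' ⊢
          refine Lay.union ((ih1 hd1).2 hc) ((ih2 hd2).1 hc2) ?_ ht'
          exact Set.disjoint_union_left.2 ⟨hd, hd2.symm⟩
        · have hc1 : c ∉ A1 := fun h => Set.disjoint_left.1 hd h hc
          have e : (A1 ∪ A2) ∪ D = A1 ∪ (A2 ∪ D) := Set.union_assoc _ _ _
          rw [e] at ht' ⊢
          refine Lay.union ((ih1 hd1).1 hc1) ((ih2 hd2).2 hc) ?_ ht'
          exact Set.disjoint_union_right.2 ⟨hd, hd1⟩
  exact (key A hA hAD).2 hcA

theorem caseCut (h1 : S_One) (h2 : S_Graft) : S_CaseCut := by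
  intro V _ N m k n hk hSH G U x y hU hxy hx hy hnb hgood c hc D hD hDne hnbD
  have hDU : D ⊆ U := fun v hv => (hD hv).1
  have hcD : c ∉ D := fun h => (hD h).2 rfl
  have hxD : x ∉ D := fun h => hx (hDU h)
  have hyD : y ∉ D := fun h => hy (hDU h)
  -- layout of `D`
  have hLD : Lay G k D := by
    refine h1 V N m k n (by omega) hSH G D c ?_ hcD hnbD ?_
    · exact (Set.ncard_le_ncard hDU (Set.toFinite _)).trans hU
    · have hsub : D ∪ {c} ⊆ U ∪ {x, y} := by
        rintro v (hv | hv)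
        · exact Or.inl (hDU hv)
        · have : v = c := hv
          exact Or.inl (this ▸ hc)
      have hsubU : D ∪ {c} ⊆ U := by
        rintro v (hv | hv)
        · exact hDU hv
        · have : v = c := hv
          exact this ▸ hc
      apply (hgood.mono hsub).congr
      intro u hu v hv
      constructor
      · rintro (h | ⟨_, h | h⟩)
        · exact h
        · exact absurd (h.1 ▸ hsubU hu) hx
        · exact absurd (h.1 ▸ hsubU hu) hy
      · exact Or.inl
  let G0 : SimpleGraph V :=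
    { Adj := fun u v => G.Adj u v ∧ u ∉ D ∧ v ∉ D
      symm := ⟨fun u v h => ⟨h.1.symm, h.2.2, h.2.1⟩⟩
      loopless := ⟨fun u h => h.1.ne rfl⟩ }
  have h0 : ∀ u v, G0.Adj u v ↔ G.Adj u v ∧ u ∉ D ∧ v ∉ D := fun u v => Iff.rfl
  have hL0 : Lay G0 k (U \ D) := by
    refine hSH G0 (U \ D) x y ?_ hxy (fun h => hx h.1) (fun h => hy h.1) ?_ ?_
    · have hlt : (U \ D).ncard < U.ncard := by
        apply Set.ncard_lt_ncard _ (Set.toFinite _)
        refine ⟨fun v hv => hv.1, fun h => ?_⟩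
        obtain ⟨d, hd⟩ := hDne
        exact (h (hDU hd)).2 hd
      omega
    · rintro w ⟨hw, a, ha, haw⟩
      have h3 := (h0 a w).1 haw
      apply hnb
      refine ⟨fun h => hw ⟨h, h3.2.2⟩, a, ha.1, h3.1⟩
    · have hsub : (U \ D) ∪ {x, y} ⊆ U ∪ {x, y} := by
        rintro v (hv | hv)
        · exact Or.inl hv.1
        · exact Or.inr hv
      have hnD : ∀ v ∈ (U \ D) ∪ {x, y}, v ∉ D := by
        rintro v (hv | hv | hv)
        · exact hv.2
        · exact hv ▸ hxD
        · have : v = y := hv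
          exact this ▸ hyD
      apply (hgood.mono hsub).congr
      intro u hu v hv
      constructor
      · rintro (h | h)
        · exact Or.inl ((h0 u v).2 ⟨h, hnD u hu, hnD v hv⟩)
        · exact Or.inr h
      · rintro (h | h)
        · exact Or.inl ((h0 u v).1 h).1
        · exact Or.inr h
  have hfin := h2 V G G0 k (U \ D) D c (by omega) ⟨hc, hcD⟩ Set.disjoint_sdiff_left hnbD hLD h0 hL0
  have e : (U \ D) ∪ D = U := Set.sdiff_union_of_subset hDU
  rw [e] at hfin
  exact hfin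

end Pool.Agent.MPd439b2
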