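import Pool.Agent.Lib.MP_d439b2_co.Spec1

namespace Pool.Agent.MPd439b2

/-- to check an isomorphism it is enough to look at the pairs `i < j` -/
theorem CaseHub_iso {V : Type} {G : SimpleGraph V} {S : Set V} {m : ℕ} (F : SimpleGraph (Fin m))
    (p : Fin m → V) (hinj : ∀ i j, i < j → p i ≠ p j)
    (hadj : ∀ i j, i < j → (G.Adj (p i) (p j) ↔ F.Adj i j)) (hr : Set.range p = S) :
    IsoOn F G S := by
  refine ⟨p, fun i j hij => ?_, hr, fun i j => ?_⟩
  · rcases lt_trichotomy i j with h | h | h
    · exact absurd hij (hinj i j h)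
    · exact h
    · exact absurd hij.symm (hinj j i h)
  · rcases lt_trichotomy i j with h | h | h
    · exact hadj i j h
    · subst h
      exact iff_of_false (G.loopless.irrefl _) (F.loopless.irrefl _)
    · rw [G.adj_comm, F.adj_comm]
      exact hadj j i h

/-- all the models of G8 have this shape -/
theorem CaseHub_model {V : Type} {G : SimpleGraph V} {S : Set V} {a h : V} {n j : ℕ} {r : ℕ → V}
    (hS : ∀ i < n, r i ∈ S) (haS : a ∈ S) (hhS : h ∈ S)
    (hinj : ∀ i < n, ∀ k < n, r i = r k → i = k)
    (hrh : ∀ i < n, r i ≠ h) (hra : ∀ i < n, r i ≠ a) (hah : h ≠ a)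
    (aah : G.Adj a h) (aa0 : G.Adj a (r 0)) (aaj : G.Adj a (r j))
    (naa : ∀ i < n, i ≠ 0 → i ≠ j → ¬ G.Adj a (r i))
    (I J K : Set ℕ) (hI : ∀ t ∈ I, t < n) (hJ : ∀ t ∈ J, t < n) (hK : ∀ t ∈ K, t < n)
    (dIJ : ∀ t ∈ I, t ∉ J) (dIK : ∀ t ∈ I, t ∉ K) (dJK : ∀ t ∈ J, t ∉ K)
    (cI : Conn G (r '' I)) (cJ : Conn G (r '' J)) (cK : Conn G (r '' K))
    (h0 : 0 ∈ I) (hj : j ∈ J)
    (tI : ∃ s ∈ I, G.Adj h (r s)) (tJ : ∃ s ∈ J, G.Adj h (r s)) (tK : ∃ s ∈ K, G.Adj h (r s))
    (tIJ : ∃ s ∈ I, ∃ t ∈ J, G.Adj (r s) (r t)) (tIK : ∃ s ∈ I, ∃ t ∈ K, G.Adj (r s) (r t))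
    (tJK : ∃ s ∈ J, ∃ t ∈ K, G.Adj (r s) (r t)) : IMS K5m G S := by
  have sub : ∀ A : Set ℕ, (∀ t ∈ A, t < n) → r '' A ⊆ S := by
    rintro A hA _ ⟨t, ht, rfl⟩
    exact hS t (hA t ht)
  have disj : ∀ A B : Set ℕ, (∀ t ∈ A, t < n) → (∀ t ∈ B, t < n) → (∀ t ∈ A, t ∉ B) →
      Disjoint (r '' A) (r '' B) := by
    intro A B hA hB hAB
    rw [Set.disjoint_left]
    rintro _ ⟨s, hs, rfl⟩ ⟨t, ht, hst⟩
    have := hinj t (hB t ht) s (hA s hs) hst
    subst this
    exact hAB t hs ht
  have dh : ∀ A : Set ℕ, (∀ t ∈ A, t < n) → Disjoint {h} (r '' A) := by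
    intro A hA
    rw [Set.disjoint_singleton_left]
    rintro ⟨t, ht, h1⟩
    exact hrh t (hA t ht) h1
  have da : ∀ A : Set ℕ, (∀ t ∈ A, t < n) → a ∉ (r '' A) := by
    rintro A hA ⟨t, ht, h1⟩
    exact hra t (hA t ht) h1
  have tch : ∀ A B : Set ℕ, (∃ s ∈ A, ∃ t ∈ B, G.Adj (r s) (r t)) → Tch G (r '' A) (r '' B) := by
    rintro A B ⟨s, hs, t, ht, hst⟩
    exact ⟨r s, ⟨s, hs, rfl⟩, r t, ⟨t, ht, rfl⟩, hst⟩
  have tchh : ∀ A : Set ℕ, (∃ s ∈ A, G.Adj h (r s)) → Tch G {h} (r '' A) := by
    rintro A ⟨s, hs, hst⟩
    exact ⟨h, rfl, r s, ⟨s, hs, rfl⟩, hst⟩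
  refine ims_K5m (X := {h}) (Y := r '' I) (Z := r '' J) (P := {a}) (Q := r '' K)
    (Set.singleton_subset_iff.mpr hhS) (sub I hI) (sub J hJ) (Set.singleton_subset_iff.mpr haS)
    (sub K hK) (Conn.singleton G h) cI cJ (Conn.singleton G a) cK (dh I hI) (dh J hJ)
    (by rw [Set.disjoint_singleton]; exact hah) (dh K hK) (disj I J hI hJ dIJ)
    (Set.disjoint_singleton_right.mpr (da I hI)) (disj I K hI hK dIK)
    (Set.disjoint_singleton_right.mpr (da J hJ)) (disj J K hJ hK dJK)
    (Set.disjoint_singleton_left.mpr (da K hK)) (tchh I tI) (tchh J tJ)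
    ⟨h, rfl, a, rfl, aah.symm⟩ (tchh K tK) (tch I J tIJ) ⟨r 0, ⟨0, h0, rfl⟩, a, rfl, aa0.symm⟩
    (tch I K tIK) ⟨r j, ⟨j, hj, rfl⟩, a, rfl, aaj.symm⟩ (tch J K tJK) ?_
  rintro ⟨u, hu, v, ⟨t, ht, rfl⟩, huv⟩
  rw [Set.mem_singleton_iff] at hu
  subst hu
  exact naa t (hK t ht) (fun h1 => dIK 0 h0 (h1 ▸ ht)) (fun h1 => dJK j hj (h1 ▸ ht)) huv

theorem caseHub : S_CaseHub := by
  intro V _ G S a x y z n h r j hN hW hx hy hz hj1 hj2 hor
  subst hx hy hz
  obtain ⟨haS, hxS, -, -, hxy, hxz, -, aax, aa0, aaj, honly⟩ := hN
  obtain ⟨hn4, -, hrS, hrx, hinj, hcov, hhub, hrim⟩ := hW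
  have hS : ∀ i < n, r i ∈ S := fun i hi => (hrS i hi).1
  have hra : ∀ i < n, r i ≠ a := fun i hi => (hrS i hi).2
  have hxa : x ≠ a := aax.ne'
  have hadj : ∀ i < n, ∀ k < n, (G.Adj (r i) (r k) ↔
      (k = i + 1 ∨ i = k + 1 ∨ (i = 0 ∧ k = n - 1) ∨ (k = 0 ∧ i = n - 1))) := by
    intro i hi k hk
    rw [← hrim i hi k hk]
    constructor
    · intro h1
      exact ⟨h1.ne, hra i hi, hra k hk, Or.inl h1⟩
    · rintro ⟨-, -, -, h1 | ⟨h1, -⟩ | ⟨h1, -⟩⟩
      · exact h1
      · exact absurd h1 (hrx i hi)
      · exact absurd h1 (hrx k hk)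
  have naa : ∀ i < n, i ≠ 0 → i ≠ j → ¬ G.Adj a (r i) := by
    intro i hi h0 hj h1
    rcases honly (r i) (hS i hi) h1 with h2 | h2 | h2
    · exact hrx i hi h2
    · exact h0 (hinj i hi 0 (by omega) h2)
    · exact hj (hinj i hi j (by omega) h2)
  have hh : ∀ i < n, i ≠ 0 → i ≠ j → G.Adj x (r i) := by
    intro i hi h0 hj
    obtain ⟨-, -, -, h1 | ⟨-, h1⟩ | ⟨h1, -⟩⟩ := hhub i hi
    · exact h1
    · exact absurd h1 (naa i hi h0 hj)
    · exact absurd h1 (hrx i hi)
  have model := CaseHub_model (G := G) (S := S) (a := a) (h := x) (n := n) (j := j) (r := r)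
    hS haS hxS hinj hrx hra hxa aax aa0 aaj naa
  have seg : ∀ i k, i ≤ k → k < n → Conn G (r '' Set.Icc i k) := by
    intro i k hik hk
    induction k, hik using Nat.le_induction with
    | base => rw [Set.Icc_self, Set.image_singleton]; exact Conn.singleton G _
    | succ k hik ih =>
      have h1 : Set.Icc i (k + 1) = insert (k + 1) (Set.Icc i k) := by
        ext t; simp only [Set.mem_Icc, Set.mem_insert_iff]; omega
      rw [h1, Set.image_insert_eq]
      refine (ih (by omega)).insert ⟨r k, ⟨k, ⟨hik, le_rfl⟩, rfl⟩, ?_⟩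
      rw [hadj k (by omega) (k + 1) hk]
      exact Or.inl rfl
  have pair0 : Conn G (r '' {0, n - 1}) := by
    rw [Set.image_pair]
    exact Conn.pair ((hadj 0 (by omega) (n - 1) (by omega)).mpr (by omega))
  by_cases hy : G.Adj x (r 0)
  · by_cases hz : G.Adj x (r j)
    · -- (1)
      left
      refine model (Set.Icc 0 (j - 1)) (Set.Icc j j) (Set.Icc (j + 1) (n - 1)) ?_ ?_ ?_ ?_ ?_ ?_
        (seg _ _ (by omega) (by omega)) (seg _ _ (by omega) (by omega))
        (seg _ _ (by omega) (by omega)) ?_ ?_
        ⟨0, by simp, hy⟩ ⟨j, by simp, hz⟩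
        ⟨j + 1, by simp only [Set.mem_Icc]; omega, hh _ (by omega) (by omega) (by omega)⟩
        ⟨j - 1, by simp only [Set.mem_Icc]; omega, j, by simp, ?_⟩
        ⟨0, by simp, n - 1, by simp only [Set.mem_Icc]; omega, ?_⟩
        ⟨j, by simp, j + 1, by simp only [Set.mem_Icc]; omega, ?_⟩
      · intro t ht; simp only [Set.mem_Icc] at ht; omega
      · intro t ht; simp only [Set.mem_Icc] at ht; omega
      · intro t ht; simp only [Set.mem_Icc] at ht; omega
      · intro t ht ht'; simp only [Set.mem_Icc] at ht ht'; omega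
      · intro t ht ht'; simp only [Set.mem_Icc] at ht ht'; omega
      · intro t ht ht'; simp only [Set.mem_Icc] at ht ht'; omega
      · simp
      · simp
      · rw [hadj _ (by omega) _ (by omega)]; omega
      · rw [hadj _ (by omega) _ (by omega)]; omega
      · rw [hadj _ (by omega) _ (by omega)]; omega
    · by_cases hj' : j = 1
      · -- (2), `j = 1`
        left
        refine model (Set.Icc 0 0) (Set.Icc 1 2) (Set.Icc 3 (n - 1)) ?_ ?_ ?_ ?_ ?_ ?_
          (seg _ _ (by omega) (by omega)) (seg _ _ (by omega) (by omega))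
          (seg _ _ (by omega) (by omega)) ?_ ?_
          ⟨0, by simp, hy⟩ ⟨2, by simp, hh _ (by omega) (by omega) (by omega)⟩
          ⟨3, by simp only [Set.mem_Icc]; omega, hh _ (by omega) (by omega) (by omega)⟩
          ⟨0, by simp, 1, by simp, ?_⟩
          ⟨0, by simp, n - 1, by simp only [Set.mem_Icc]; omega, ?_⟩
          ⟨2, by simp, 3, by simp only [Set.mem_Icc]; omega, ?_⟩
        · intro t ht; simp only [Set.mem_Icc] at ht; omega
        · intro t ht; simp only [Set.mem_Icc] at ht; omega
        · intro t ht; simp only [Set.mem_Icc] at ht; omega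
        · intro t ht ht'; simp only [Set.mem_Icc] at ht ht'; omega
        · intro t ht ht'; simp only [Set.mem_Icc] at ht ht'; omega
        · intro t ht ht'; simp only [Set.mem_Icc] at ht ht'; omega
        · simp
        · simp only [Set.mem_Icc]; omega
        · rw [hadj _ (by omega) _ (by omega)]; omega
        · rw [hadj _ (by omega) _ (by omega)]; omega
        · rw [hadj _ (by omega) _ (by omega)]; omega
      · -- (2), `j ≥ 2`
        left
        refine model (Set.Icc 0 0) (Set.Icc 1 j) (Set.Icc (j + 1) (n - 1)) ?_ ?_ ?_ ?_ ?_ ?_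
          (seg _ _ (by omega) (by omega)) (seg _ _ (by omega) (by omega))
          (seg _ _ (by omega) (by omega)) ?_ ?_
          ⟨0, by simp, hy⟩
          ⟨1, by simp only [Set.mem_Icc]; omega, hh _ (by omega) (by omega) (by omega)⟩
          ⟨j + 1, by simp only [Set.mem_Icc]; omega, hh _ (by omega) (by omega) (by omega)⟩
          ⟨0, by simp, 1, by simp only [Set.mem_Icc]; omega, ?_⟩
          ⟨0, by simp, n - 1, by simp only [Set.mem_Icc]; omega, ?_⟩
          ⟨j, by simp only [Set.mem_Icc]; omega, j + 1, by simp only [Set.mem_Icc]; omega, ?_⟩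
        · intro t ht; simp only [Set.mem_Icc] at ht; omega
        · intro t ht; simp only [Set.mem_Icc] at ht; omega
        · intro t ht; simp only [Set.mem_Icc] at ht; omega
        · intro t ht ht'; simp only [Set.mem_Icc] at ht ht'; omega
        · intro t ht ht'; simp only [Set.mem_Icc] at ht ht'; omega
        · intro t ht ht'; simp only [Set.mem_Icc] at ht ht'; omega
        · simp
        · simp only [Set.mem_Icc]; omega
        · rw [hadj _ (by omega) _ (by omega)]; omega
        · rw [hadj _ (by omega) _ (by omega)]; omega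
        · rw [hadj _ (by omega) _ (by omega)]; omega
  · have hz : ¬ G.Adj x (r j) := hor.resolve_left hy
    by_cases hj' : j = 1
    · by_cases hn : n = 4
      · -- prism
        right; left
        subst hj' hn
        have n1 : ∀ i, i < 4 → a ≠ r i := fun i hi => (hra i hi).symm
        have n2 : ∀ i, i < 4 → x ≠ r i := fun i hi => (hrx i hi).symm
        have n3 : ∀ i, i < 4 → ∀ k, k < 4 → i ≠ k → r i ≠ r k :=
          fun i hi k hk hik h => hik (hinj i hi k hk h)
        refine CaseHub_iso prism ![a, r 0, r 1, x, r 3, r 2] ?_ ?_ ?_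
        · intro i k hik
          fin_cases i <;> fin_cases k <;> first
            | exact absurd hik (by decide)
            | exact n1 _ (by norm_num)
            | exact hxa.symm
            | exact n2 _ (by norm_num)
            | exact hrx _ (by norm_num)
            | exact n3 _ (by norm_num) _ (by norm_num) (by norm_num)
        · have f04 : ¬ G.Adj a (r 3) := naa 3 (by omega) (by omega) (by omega)
          have f05 : ¬ G.Adj a (r 2) := naa 2 (by omega) (by omega) (by omega)
          have f12 : G.Adj (r 0) (r 1) := (hadj 0 (by omega) 1 (by omega)).mpr (by omega)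
          have f13 : ¬ G.Adj (r 0) x := fun h => hy h.symm
          have f14 : G.Adj (r 0) (r 3) := (hadj 0 (by omega) 3 (by omega)).mpr (by omega)
          have f15 : ¬ G.Adj (r 0) (r 2) := fun h =>
            absurd ((hadj 0 (by omega) 2 (by omega)).mp h) (by omega)
          have f23 : ¬ G.Adj (r 1) x := fun h => hz h.symm
          have f24 : ¬ G.Adj (r 1) (r 3) := fun h =>
            absurd ((hadj 1 (by omega) 3 (by omega)).mp h) (by omega)
          have f25 : G.Adj (r 1) (r 2) := (hadj 1 (by omega) 2 (by omega)).mpr (by omega)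
          have f34 : G.Adj x (r 3) := hh 3 (by omega) (by omega) (by omega)
          have f35 : G.Adj x (r 2) := hh 2 (by omega) (by omega) (by omega)
          have f45 : G.Adj (r 3) (r 2) := (hadj 3 (by omega) 2 (by omega)).mpr (by omega)
          intro i k hik
          fin_cases i <;> fin_cases k <;> first
            | exact absurd hik (by decide)
            | exact iff_of_true (by assumption) ⟨by decide, by decide⟩
            | exact iff_of_false (by assumption) (fun h => absurd h.2 (by decide))
        · ext v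
          constructor
          · rintro ⟨i, rfl⟩
            fin_cases i <;> first
              | exact haS
              | exact hxS
              | exact hS _ (by norm_num)
          · intro hv
            by_cases hva : v = a
            · exact ⟨0, hva.symm⟩
            · rcases hcov v ⟨hv, hva⟩ with h1 | ⟨i, hi, h1⟩
              · exact ⟨3, h1.symm⟩
              · have : i = 0 ∨ i = 1 ∨ i = 2 ∨ i = 3 := by omega
                rcases this with h2 | h2 | h2 | h2 <;> subst h2
                · exact ⟨1, h1.symm⟩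
                · exact ⟨2, h1.symm⟩
                · exact ⟨5, h1.symm⟩
                · exact ⟨4, h1.symm⟩
      · left
        refine model {0, n - 1} (Set.Icc 1 2) (Set.Icc 3 (n - 2)) ?_ ?_ ?_ ?_ ?_ ?_
          pair0 (seg _ _ (by omega) (by omega))
          (seg _ _ (by omega) (by omega)) ?_ ?_
          ⟨n - 1, by simp, hh _ (by omega) (by omega) (by omega)⟩
          ⟨2, by simp, hh _ (by omega) (by omega) (by omega)⟩
          ⟨3, by simp only [Set.mem_Icc]; omega, hh _ (by omega) (by omega) (by omega)⟩
          ⟨0, by simp, 1, by simp, ?_⟩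
          ⟨n - 1, by simp, n - 2, by simp only [Set.mem_Icc]; omega, ?_⟩
          ⟨2, by simp, 3, by simp only [Set.mem_Icc]; omega, ?_⟩
        · intro t ht; simp only [Set.mem_insert_iff, Set.mem_singleton_iff] at ht; omega
        · intro t ht; simp only [Set.mem_Icc] at ht; omega
        · intro t ht; simp only [Set.mem_Icc] at ht; omega
        · intro t ht ht'
          simp only [Set.mem_Icc, Set.mem_insert_iff, Set.mem_singleton_iff] at ht ht'; omega
        · intro t ht ht'
          simp only [Set.mem_Icc, Set.mem_insert_iff, Set.mem_singleton_iff] at ht ht'; omega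
        · intro t ht ht'; simp only [Set.mem_Icc] at ht ht'; omega
        · simp
        · simp only [Set.mem_Icc]; omega
        · rw [hadj _ (by omega) _ (by omega)]; omega
        · rw [hadj _ (by omega) _ (by omega)]; omega
        · rw [hadj _ (by omega) _ (by omega)]; omega
    · by_cases hn : n = 4
      · -- `K_{3,3}`
        right; right
        have hj2' : j = 2 := by omega
        subst hj2' hn
        have n1 : ∀ i, i < 4 → a ≠ r i := fun i hi => (hra i hi).symm
        have n2 : ∀ i, i < 4 → x ≠ r i := fun i hi => (hrx i hi).symm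
        have n3 : ∀ i, i < 4 → ∀ k, k < 4 → i ≠ k → r i ≠ r k :=
          fun i hi k hk hik h => hik (hinj i hi k hk h)
        refine CaseHub_iso k33 ![a, r 1, r 3, x, r 0, r 2] ?_ ?_ ?_
        · intro i k hik
          fin_cases i <;> fin_cases k <;> first
            | exact absurd hik (by decide)
            | exact n1 _ (by norm_num)
            | exact hxa.symm
            | exact n2 _ (by norm_num)
            | exact hrx _ (by norm_num)
            | exact n3 _ (by norm_num) _ (by norm_num) (by norm_num)
        · have f01 : ¬ G.Adj a (r 1) := naa 1 (by omega) (by omega) (by omega)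
          have f02 : ¬ G.Adj a (r 3) := naa 3 (by omega) (by omega) (by omega)
          have f12 : ¬ G.Adj (r 1) (r 3) := fun h =>
            absurd ((hadj 1 (by omega) 3 (by omega)).mp h) (by omega)
          have f13 : G.Adj (r 1) x := (hh 1 (by omega) (by omega) (by omega)).symm
          have f14 : G.Adj (r 1) (r 0) := (hadj 1 (by omega) 0 (by omega)).mpr (by omega)
          have f15 : G.Adj (r 1) (r 2) := (hadj 1 (by omega) 2 (by omega)).mpr (by omega)
          have f23 : G.Adj (r 3) x := (hh 3 (by omega) (by omega) (by omega)).symm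
          have f24 : G.Adj (r 3) (r 0) := (hadj 3 (by omega) 0 (by omega)).mpr (by omega)
          have f25 : G.Adj (r 3) (r 2) := (hadj 3 (by omega) 2 (by omega)).mpr (by omega)
          have f45 : ¬ G.Adj (r 0) (r 2) := fun h =>
            absurd ((hadj 0 (by omega) 2 (by omega)).mp h) (by omega)
          intro i k hik
          fin_cases i <;> fin_cases k <;> first
            | exact absurd hik (by decide)
            | exact iff_of_true (by assumption) (fun h => absurd h (by decide))
            | exact iff_of_false (by assumption) (fun h => h rfl)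
        · ext v
          constructor
          · rintro ⟨i, rfl⟩
            fin_cases i <;> first
              | exact haS
              | exact hxS
              | exact hS _ (by norm_num)
          · intro hv
            by_cases hva : v = a
            · exact ⟨0, hva.symm⟩
            · rcases hcov v ⟨hv, hva⟩ with h1 | ⟨i, hi, h1⟩
              · exact ⟨3, h1.symm⟩
              · have : i = 0 ∨ i = 1 ∨ i = 2 ∨ i = 3 := by omega
                rcases this with h2 | h2 | h2 | h2 <;> subst h2
                · exact ⟨4, h1.symm⟩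
                · exact ⟨1, h1.symm⟩
                · exact ⟨5, h1.symm⟩
                · exact ⟨2, h1.symm⟩
      · by_cases hj3 : j = 2
        · left
          refine model {0, n - 1} (Set.Icc 2 (n - 2)) (Set.Icc 1 1) ?_ ?_ ?_ ?_ ?_ ?_
            pair0 (seg _ _ (by omega) (by omega))
            (seg _ _ (by omega) (by omega)) ?_ ?_
            ⟨n - 1, by simp, hh _ (by omega) (by omega) (by omega)⟩
            ⟨3, by simp only [Set.mem_Icc]; omega, hh _ (by omega) (by omega) (by omega)⟩
            ⟨1, by simp, hh _ (by omega) (by omega) (by omega)⟩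
            ⟨n - 1, by simp, n - 2, by simp only [Set.mem_Icc]; omega, ?_⟩
            ⟨0, by simp, 1, by simp, ?_⟩
            ⟨2, by simp only [Set.mem_Icc]; omega, 1, by simp, ?_⟩
          · intro t ht; simp only [Set.mem_insert_iff, Set.mem_singleton_iff] at ht; omega
          · intro t ht; simp only [Set.mem_Icc] at ht; omega
          · intro t ht; simp only [Set.mem_Icc] at ht; omega
          · intro t ht ht'
            simp only [Set.mem_Icc, Set.mem_insert_iff, Set.mem_singleton_iff] at ht ht'; omega
          · intro t ht ht'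
            simp only [Set.mem_Icc, Set.mem_insert_iff, Set.mem_singleton_iff] at ht ht'; omega
          · intro t ht ht'; simp only [Set.mem_Icc] at ht ht'; omega
          · simp
          · simp only [Set.mem_Icc]; omega
          · rw [hadj _ (by omega) _ (by omega)]; omega
          · rw [hadj _ (by omega) _ (by omega)]; omega
          · rw [hadj _ (by omega) _ (by omega)]; omega
        · left
          refine model (Set.Icc 0 1) (Set.Icc 2 j) (Set.Icc (j + 1) (n - 1)) ?_ ?_ ?_ ?_ ?_ ?_
            (seg _ _ (by omega) (by omega)) (seg _ _ (by omega) (by omega))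
            (seg _ _ (by omega) (by omega)) ?_ ?_
            ⟨1, by simp, hh _ (by omega) (by omega) (by omega)⟩
            ⟨2, by simp only [Set.mem_Icc]; omega, hh _ (by omega) (by omega) (by omega)⟩
            ⟨j + 1, by simp only [Set.mem_Icc]; omega, hh _ (by omega) (by omega) (by omega)⟩
            ⟨1, by simp, 2, by simp only [Set.mem_Icc]; omega, ?_⟩
            ⟨0, by simp, n - 1, by simp only [Set.mem_Icc]; omega, ?_⟩
            ⟨j, by simp only [Set.mem_Icc]; omega, j + 1, by simp only [Set.mem_Icc]; omega, ?_⟩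
          · intro t ht; simp only [Set.mem_Icc] at ht; omega
          · intro t ht; simp only [Set.mem_Icc] at ht; omega
          · intro t ht; simp only [Set.mem_Icc] at ht; omega
          · intro t ht ht'; simp only [Set.mem_Icc] at ht ht'; omega
          · intro t ht ht'; simp only [Set.mem_Icc] at ht ht'; omega
          · intro t ht ht'; simp only [Set.mem_Icc] at ht ht'; omega
          · simp
          · simp only [Set.mem_Icc]; omega
          · rw [hadj _ (by omega) _ (by omega)]; omega
          · rw [hadj _ (by omega) _ (by omega)]; omega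
          · rw [hadj _ (by omega) _ (by omega)]; omega

end Pool.Agent.MPd439b2
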