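import Pool.Agent.Lib.MP_d439b2_co.Spec1

/-!
# MP_d439b2_co, G5: the contraction is complete
-/

namespace Pool.Agent.MPd439b2

namespace CaseKAux

variable {V : Type} {G : SimpleGraph V} {S : Set V} {a x y z : V}

theorem adj1 (hc : CompleteOn (contr G a x) (S \ {a})) {u v : V} (hu : u ∈ S) (hv : v ∈ S)
    (hua : u ≠ a) (hva : v ≠ a) (hux : u ≠ x) (hvx : v ≠ x) (huv : u ≠ v) : G.Adj u v := by
  have h := hc u ⟨hu, hua⟩ v ⟨hv, hva⟩ huv
  rcases h.2.2.2 with h1 | h1 | h1
  · exact h1
  · exact absurd h1.1 hux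
  · exact absurd h1.1 hvx

theorem adj2 (hN : Nbr3 G S a x y z) (hc : CompleteOn (contr G a x) (S \ {a})) {w : V}
    (hw : w ∈ S) (hwa : w ≠ a) (hwx : w ≠ x) (hwy : w ≠ y) (hwz : w ≠ z) : G.Adj x w := by
  obtain ⟨ha, hx, hy, hz, hxy, hxz, hyz, hax, hay, haz, hall⟩ := hN
  have h := hc x ⟨hx, hax.ne'⟩ w ⟨hw, hwa⟩ hwx.symm
  rcases h.2.2.2 with h1 | h1 | h1
  · exact h1
  · rcases hall w hw h1.2 with h2 | h2 | h2
    · exact absurd h2 hwx
    · exact absurd h2 hwy
    · exact absurd h2 hwz
  · exact absurd h1.1 hwx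

theorem sw (hN : Nbr3 G S a x y z) : Nbr3 G S a x z y := by
  obtain ⟨ha, hx, hy, hz, hxy, hxz, hyz, hax, hay, haz, hall⟩ := hN
  refine ⟨ha, hx, hz, hy, hxz, hxy, hyz.symm, hax, haz, hay, fun v hv h => ?_⟩
  rcases hall v hv h with h | h | h
  · exact Or.inl h
  · exact Or.inr (Or.inr h)
  · exact Or.inr (Or.inl h)

/-- the case `x` not adjacent to `z` -/
theorem half [Finite V] (hN : Nbr3 G S a x y z) (hdeg : 3 ≤ (S ∩ G.neighborSet x).ncard)
    (hc : CompleteOn (contr G a x) (S \ {a})) (hK : ¬ IMS K5m G S) (hxz' : ¬ G.Adj x z)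
    {w : V} (hw : w ∈ S) (hwa : w ≠ a) (hwx : w ≠ x) (hwy : w ≠ y) (hwz : w ≠ z) :
    WheelOn G S := by
  classical
  have hN' := hN
  obtain ⟨ha, hx, hy, hz, hxy, hxz, hyz, hax, hay, haz, hall⟩ := hN'
  have hxw := adj2 hN hc hw hwa hwx hwy hwz
  have hyw := adj1 hc hy hw hay.ne' hwa hxy.symm hwx hwy.symm
  have hzw := adj1 hc hz hw haz.ne' hwa hxz.symm hwx hwz.symm
  have hyz' := adj1 hc hy hz hay.ne' haz.ne' hxy.symm hxz.symm hyz
  have haw : ¬ G.Adj a w := by
    intro h
    rcases hall w hw h with h | h | h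
    · exact hwx h
    · exact hwy h
    · exact hwz h
  have hwa' : ¬ G.Adj w a := fun h => haw h.symm
  have hzx' : ¬ G.Adj z x := fun h => hxz' h.symm
  by_cases h2 : ∃ v ∈ S, v ≠ a ∧ v ≠ x ∧ v ≠ y ∧ v ≠ z ∧ v ≠ w
  · exfalso
    obtain ⟨v, hv, hva, hvx, hvy, hvz, hvw⟩ := h2
    have hxv := adj2 hN hc hv hva hvx hvy hvz
    have hyv := adj1 hc hy hv hay.ne' hva hxy.symm hvx hvy.symm
    have hzv := adj1 hc hz hv haz.ne' hva hxz.symm hvx hvz.symm
    have hwv := adj1 hc hw hv hwa hva hwx hvx hvw.symm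
    apply hK
    refine ims_K5m (X := {a, y}) (Y := {w}) (Z := {v}) (P := {x}) (Q := {z}) ?_ ?_ ?_ ?_ ?_
      (Conn.pair hay) (Conn.singleton G w) (Conn.singleton G v) (Conn.singleton G x)
      (Conn.singleton G z) ?_ ?_ ?_ ?_ ?_ ?_ ?_ ?_ ?_ ?_ ?_ ?_ ?_ ?_ ?_ ?_ ?_ ?_ ?_ ?_
    · rintro t (rfl | rfl)
      · exact ha
      · exact hy
    · rintro t rfl; exact hw
    · rintro t rfl; exact hv
    · rintro t rfl; exact hx
    · rintro t rfl; exact hz
    · rw [Set.disjoint_singleton_right]
      rintro (h | h)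
      · exact hwa h
      · exact hwy h
    · rw [Set.disjoint_singleton_right]
      rintro (h | h)
      · exact hva h
      · exact hvy h
    · rw [Set.disjoint_singleton_right]
      rintro (h | h)
      · exact hax.ne h.symm
      · exact hxy h
    · rw [Set.disjoint_singleton_right]
      rintro (h | h)
      · exact haz.ne h.symm
      · exact hyz h.symm
    · exact Set.disjoint_singleton.mpr hvw.symm
    · exact Set.disjoint_singleton.mpr hwx
    · exact Set.disjoint_singleton.mpr hwz
    · exact Set.disjoint_singleton.mpr hvx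
    · exact Set.disjoint_singleton.mpr hvz
    · exact Set.disjoint_singleton.mpr hxz
    · exact Tch.of_adj hyw (Or.inr rfl) rfl
    · exact Tch.of_adj hyv (Or.inr rfl) rfl
    · exact Tch.of_adj hax (Or.inl rfl) rfl
    · exact Tch.of_adj haz (Or.inl rfl) rfl
    · exact Tch.of_adj hwv rfl rfl
    · exact Tch.of_adj hxw.symm rfl rfl
    · exact Tch.of_adj hzw.symm rfl rfl
    · exact Tch.of_adj hxv.symm rfl rfl
    · exact Tch.of_adj hzv.symm rfl rfl
    · rintro ⟨t, rfl, t', rfl, h⟩
      exact hxz' h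
  · push Not at h2
    have hS : ∀ v ∈ S, v = a ∨ v = x ∨ v = y ∨ v = z ∨ v = w := by
      intro v hv
      by_contra h
      push Not at h
      exact h.2.2.2.2 (h2 v hv h.1 h.2.1 h.2.2.1 h.2.2.2.1)
    have hxy' : G.Adj x y := by
      by_contra hcon
      have h1 : S ∩ G.neighborSet x ⊆ {a, w} := by
        rintro v ⟨hv, hxv⟩
        rw [SimpleGraph.mem_neighborSet] at hxv
        rcases hS v hv with h | h | h | h | h
        · exact Or.inl h
        · exact absurd h.symm hxv.ne
        · exact absurd (h ▸ hxv) hcon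
        · exact absurd (h ▸ hxv) hxz'
        · exact Or.inr h
      have h3 := Set.ncard_le_ncard h1 (Set.toFinite _)
      have h4 : ({a, w} : Set V).ncard = 2 := Set.ncard_pair hwa.symm
      omega
    refine ⟨4, y, fun i => if i = 0 then a else if i = 1 then x else if i = 2 then w else z,
      le_rfl, hy, ?_, ?_, ?_, ?_, ?_, ?_⟩
    · intro i hi
      interval_cases i
      · exact ha
      · exact hx
      · exact hw
      · exact hz
    · intro i hi
      interval_cases i
      · exact hay.ne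
      · exact hxy
      · exact hwy
      · exact hyz.symm
    · intro i hi j hj h
      interval_cases i <;> interval_cases j <;>
        simp only [one_ne_zero, OfNat.ofNat_ne_zero, OfNat.ofNat_ne_one, if_true, if_false,
          Nat.reduceEqDiff] at h ⊢
      · exact hax.ne h
      · exact hwa h.symm
      · exact haz.ne h
      · exact hax.ne h.symm
      · exact hwx h.symm
      · exact hxz h
      · exact hwa h
      · exact hwx h
      · exact hwz h
      · exact haz.ne h.symm
      · exact hxz h.symm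
      · exact hwz h.symm
    · intro v hv
      rcases hS v hv with h | h | h | h | h
      · exact Or.inr ⟨0, by norm_num, h⟩
      · exact Or.inr ⟨1, by norm_num, h⟩
      · exact Or.inl h
      · exact Or.inr ⟨3, by norm_num, h⟩
      · exact Or.inr ⟨2, by norm_num, h⟩
    · intro i hi
      interval_cases i
      · exact hay.symm
      · exact hxy'.symm
      · exact hyw
      · exact hyz'
    · intro i hi j hj
      interval_cases i <;> interval_cases j <;>
        simp [hax, hax.symm, haz, haz.symm, hxw, hxw.symm, hzw, hzw.symm, haw, hxz', hwa', hzx']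

end CaseKAux

open CaseKAux in
theorem caseK : S_CaseK := by
  classical
  intro V _ G S a x y z hN hdeg h5 hc hK
  have hN' := hN
  obtain ⟨ha, hx, hy, hz, hxy, hxz, hyz, hax, hay, haz, hall⟩ := hN'
  obtain ⟨w, hw, hwn⟩ : ∃ w ∈ S, w ∉ ({a, x, y, z} : Set V) := by
    by_contra hcon
    push Not at hcon
    have h1 : S ⊆ ({a, x, y, z} : Set V) := hcon
    have h2 := Set.ncard_le_ncard h1 (Set.toFinite _)
    have h3 : ({a, x, y, z} : Set V).ncard ≤ 4 := by
      refine (Set.ncard_insert_le _ _).trans ?_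
      refine Nat.succ_le_succ ((Set.ncard_insert_le _ _).trans ?_)
      refine Nat.succ_le_succ ((Set.ncard_insert_le _ _).trans ?_)
      rw [Set.ncard_singleton]
    omega
  simp only [Set.mem_insert_iff, Set.mem_singleton_iff, not_or] at hwn
  obtain ⟨hwa', hwx', hwy', hwz'⟩ := hwn
  have hwa : w ≠ a := hwa'
  have hwx : w ≠ x := hwx'
  have hwy : w ≠ y := hwy'
  have hwz : w ≠ z := hwz'
  by_cases h1 : G.Adj x z
  · by_cases h2 : G.Adj x y
    · exfalso
      have hxw := adj2 hN hc hw hwa hwx hwy hwz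
      have hyw := adj1 hc hy hw hay.ne' hwa hxy.symm hwx hwy.symm
      have hzw := adj1 hc hz hw haz.ne' hwa hxz.symm hwx hwz.symm
      have hyz' := adj1 hc hy hz hay.ne' haz.ne' hxy.symm hxz.symm hyz
      apply hK
      refine ims_K5m (X := {x}) (Y := {y}) (Z := {z}) (P := {a}) (Q := {w}) ?_ ?_ ?_ ?_ ?_
        (Conn.singleton G x) (Conn.singleton G y) (Conn.singleton G z) (Conn.singleton G a)
        (Conn.singleton G w) ?_ ?_ ?_ ?_ ?_ ?_ ?_ ?_ ?_ ?_ ?_ ?_ ?_ ?_ ?_ ?_ ?_ ?_ ?_ ?_
      · rintro t rfl; exact hx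
      · rintro t rfl; exact hy
      · rintro t rfl; exact hz
      · rintro t rfl; exact ha
      · rintro t rfl; exact hw
      · exact Set.disjoint_singleton.mpr hxy
      · exact Set.disjoint_singleton.mpr hxz
      · exact Set.disjoint_singleton.mpr hax.ne'
      · exact Set.disjoint_singleton.mpr hwx.symm
      · exact Set.disjoint_singleton.mpr hyz
      · exact Set.disjoint_singleton.mpr hay.ne'
      · exact Set.disjoint_singleton.mpr hwy.symm
      · exact Set.disjoint_singleton.mpr haz.ne'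
      · exact Set.disjoint_singleton.mpr hwz.symm
      · exact Set.disjoint_singleton.mpr hwa.symm
      · exact Tch.of_adj h2 rfl rfl
      · exact Tch.of_adj h1 rfl rfl
      · exact Tch.of_adj hax.symm rfl rfl
      · exact Tch.of_adj hxw rfl rfl
      · exact Tch.of_adj hyz' rfl rfl
      · exact Tch.of_adj hay.symm rfl rfl
      · exact Tch.of_adj hyw rfl rfl
      · exact Tch.of_adj haz.symm rfl rfl
      · exact Tch.of_adj hzw rfl rfl
      · rintro ⟨t, rfl, t', rfl, h⟩
        rcases hall _ hw h with h | h | h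
        · exact hwx h
        · exact hwy h
        · exact hwz h
    · exact half (sw hN) hdeg hc hK h2 hw hwa hwx hwz hwy
  · exact half hN hdeg hc hK h1 hw hwa hwx hwy hwz

end Pool.Agent.MPd439b2
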