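import Pool.Agent.Lib.MP_d439b2_co.CasePrism

/-!
# MP_d439b2_co, G10: the contraction is `K_{3,3}`
-/

namespace Pool.Agent.MPd439b2

namespace CaseK33Aux

/-- `K_{3,3}` as a boolean function -/
def pb (i j : Fin 6) : Bool := decide (i.val / 3 ≠ j.val / 3)

theorem k33_iff (i j : Fin 6) : k33.Adj i j ↔ pb i j = true := by
  unfold pb
  rw [decide_eq_true_iff]
  rfl

/-- the uncontracted graph; `none` is the vertex `a` -/
def FF (jy jz : Fin 6) (b c : Bool) : Option (Fin 6) → Option (Fin 6) → Bool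
  | none, none => false
  | none, some j => decide (j = 0 ∨ j = jy ∨ j = jz)
  | some i, none => decide (i = 0 ∨ i = jy ∨ i = jz)
  | some i, some j =>
    if i = 0 then (if j = jy then b else if j = jz then c else pb i j)
    else if j = 0 then (if i = jy then b else if i = jz then c else pb i j)
    else pb i j

/-- the six automorphisms which are used -/
def sig : Fin 6 → Fin 6 → Fin 6 :=
  ![![0, 1, 2, 3, 4, 5], ![1, 2, 0, 3, 4, 5], ![2, 0, 1, 3, 4, 5], ![3, 4, 5, 0, 1, 2],
    ![4, 5, 3, 0, 1, 2], ![5, 3, 4, 0, 1, 2]]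

theorem sig_inj : ∀ i u v : Fin 6, sig i u = sig i v → u = v := by decide

theorem sig_zero : ∀ i : Fin 6, sig i 0 = i := by decide

theorem sig_pb : ∀ i u v : Fin 6, pb (sig i u) (sig i v) = pb u v := by decide

/-- the third vertex of the opposite class -/
def ww (jy jz : Fin 6) : Fin 6 :=
  if jy ≠ 3 ∧ jz ≠ 3 then 3 else if jy ≠ 4 ∧ jz ≠ 4 then 4 else 5

/-- the models -/
def mdl (jy jz : Fin 6) (b : Bool) : Fin 5 → Option (Fin 6) × Option (Fin 6) :=
  if b then ![(some 0, some (ww jy jz)), (some jy, some jy), (none, some jz), (some 1, some 1),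
    (some 2, some 2)]
  else ![(some 0, some (ww jy jz)), (some jz, some jz), (none, some jy), (some 1, some 1),
    (some 2, some 2)]

theorem chk1 : ∀ jy jz : Fin 6, ∀ b c : Bool, pb 0 jy = true → pb 0 jz = true → jy ≠ jz →
    (b = true ∨ c = true) → ∀ w, (mdl jy jz b w).1 = (mdl jy jz b w).2 ∨
      FF jy jz b c (mdl jy jz b w).1 (mdl jy jz b w).2 = true := by
  decide +kernel

theorem chk2 : ∀ jy jz : Fin 6, ∀ b c : Bool, pb 0 jy = true → pb 0 jz = true → jy ≠ jz →
    (b = true ∨ c = true) → ∀ w w', w ≠ w' → (mdl jy jz b w).1 ≠ (mdl jy jz b w').1 ∧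
      (mdl jy jz b w).1 ≠ (mdl jy jz b w').2 ∧ (mdl jy jz b w).2 ≠ (mdl jy jz b w').1 ∧
      (mdl jy jz b w).2 ≠ (mdl jy jz b w').2 := by
  decide +kernel

theorem chk3 : ∀ jy jz : Fin 6, ∀ b c : Bool, pb 0 jy = true → pb 0 jz = true → jy ≠ jz →
    (b = true ∨ c = true) → ∀ w w' : Fin 5, w ≠ w' → ((w.val < 3 ∨ w'.val < 3) ↔
      (FF jy jz b c (mdl jy jz b w).1 (mdl jy jz b w').1 = true ∨
      FF jy jz b c (mdl jy jz b w).1 (mdl jy jz b w').2 = true ∨
      FF jy jz b c (mdl jy jz b w).2 (mdl jy jz b w').1 = true ∨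
      FF jy jz b c (mdl jy jz b w).2 (mdl jy jz b w').2 = true)) := by
  decide +kernel

theorem third0 : ∀ jy jz : Fin 6, pb 0 jy = true → pb 0 jz = true → jy ≠ jz →
    ∀ j : Fin 6, pb 0 j = true → j ≠ jy → j ≠ jz → j = ww jy jz := by
  decide +kernel

theorem third (jy jz : Fin 6) (h1 : pb 0 jy = true) (h2 : pb 0 jz = true) (h3 : jy ≠ jz) :
    ∃ k : Fin 6, ∀ j : Fin 6, pb 0 j = true → j ≠ jy → j ≠ jz → j = k :=
  ⟨_, third0 jy jz h1 h2 h3⟩

end CaseK33Aux

open CaseK33Aux in
theorem caseK33 : S_CaseK33 := by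
  classical
  intro V _ G S a x y z hN hdeg ⟨p₀, hp₀, hr₀, hadj₀⟩
  obtain ⟨ha, hx, hy, hz, hxy, hxz, hyz, hax, hay, haz, hall⟩ := hN
  -- normalise `x = p 0`
  obtain ⟨i₀, hi₀⟩ : x ∈ Set.range p₀ := by
    rw [hr₀]
    exact ⟨hx, hax.ne'⟩
  obtain ⟨p, hp, hr, hadj, hpx⟩ : ∃ p : Fin 6 → V, Function.Injective p ∧
      Set.range p = S \ {a} ∧ (∀ i j, (contr G a x).Adj (p i) (p j) ↔ pb i j = true) ∧
      p 0 = x := by
    have hs : Function.Injective (sig i₀) := fun u v h => sig_inj i₀ u v h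
    have hb : Function.Surjective (sig i₀) := Finite.surjective_of_injective hs
    refine ⟨p₀ ∘ sig i₀, hp₀.comp hs, ?_, fun i j => ?_, ?_⟩
    · rw [Set.range_comp, hb.range_eq, Set.image_univ, hr₀]
    · rw [Function.comp_apply, Function.comp_apply, hadj₀, k33_iff, sig_pb]
    · rw [Function.comp_apply, sig_zero, hi₀]
  have hpS : ∀ i, p i ∈ S ∧ p i ≠ a := fun i => by
    have : p i ∈ S \ {a} := by rw [← hr]; exact ⟨i, rfl⟩
    exact this
  have hp0 : ∀ i, p i = x → i = 0 := fun i h => hp (h.trans hpx.symm)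
  obtain ⟨jy, hjy⟩ : y ∈ Set.range p := by
    rw [hr]
    exact ⟨hy, hay.ne'⟩
  obtain ⟨jz, hjz⟩ : z ∈ Set.range p := by
    rw [hr]
    exact ⟨hz, haz.ne'⟩
  have hby : pb 0 jy = true := by
    rw [← hadj, hpx, hjy]
    exact ⟨hxy, hax.ne', hay.ne', Or.inr (Or.inl ⟨rfl, hay⟩)⟩
  have hbz : pb 0 jz = true := by
    rw [← hadj, hpx, hjz]
    exact ⟨hxz, hax.ne', haz.ne', Or.inr (Or.inl ⟨rfl, haz⟩)⟩
  have hjj : jy ≠ jz := fun h => hyz (by rw [← hjy, ← hjz, h])
  have hjy0 : jy ≠ 0 := fun h => hxy (by rw [← hjy, h, hpx])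
  have hjz0 : jz ≠ 0 := fun h => hxz (by rw [← hjz, h, hpx])
  -- the adjacencies in `G`
  have aa : ∀ i, G.Adj a (p i) ↔ (i = 0 ∨ i = jy ∨ i = jz) := by
    intro i
    constructor
    · intro h
      rcases hall _ (hpS i).1 h with h | h | h
      · exact Or.inl (hp0 i h)
      · exact Or.inr (Or.inl (hp (h.trans hjy.symm)))
      · exact Or.inr (Or.inr (hp (h.trans hjz.symm)))
    · rintro (rfl | rfl | rfl)
      · rw [hpx]; exact hax
      · rw [hjy]; exact hay
      · rw [hjz]; exact haz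
  have a0 : ∀ j, j ≠ jy → j ≠ jz → (G.Adj x (p j) ↔ pb 0 j = true) := by
    intro j h1 h2
    rw [← hadj, hpx]
    constructor
    · intro h
      exact ⟨h.ne, hax.ne', (hpS j).2, Or.inl h⟩
    · rintro ⟨h3, h4, h5, h6 | h6 | h6⟩
      · exact h6
      · rcases (aa j).1 h6.2 with h | h | h
        · exact absurd (by rw [h, hpx]) h3
        · exact absurd h h1
        · exact absurd h h2
      · exact absurd h6.1.symm h3
  have aij : ∀ i j, i ≠ 0 → j ≠ 0 → (G.Adj (p i) (p j) ↔ pb i j = true) := by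
    intro i j hi hj
    rw [← hadj]
    constructor
    · intro h
      exact ⟨h.ne, (hpS i).2, (hpS j).2, Or.inl h⟩
    · rintro ⟨h3, h4, h5, h6 | h6 | h6⟩
      · exact h6
      · exact absurd (hp0 i h6.1) hi
      · exact absurd (hp0 j h6.1) hj
  have pbs : ∀ i j : Fin 6, pb i j = pb j i := by decide
  have hbc : decide (G.Adj x y) = true ∨ decide (G.Adj x z) = true := by
    by_contra hcon
    rw [not_or, decide_eq_true_iff, decide_eq_true_iff] at hcon
    obtain ⟨k, hk⟩ := third jy jz hby hbz hjj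
    have h1 : S ∩ G.neighborSet x ⊆ {a, p k} := by
      rintro v ⟨hv, hxv⟩
      rw [SimpleGraph.mem_neighborSet] at hxv
      by_cases hva : v = a
      · exact Or.inl hva
      · right
        obtain ⟨j, rfl⟩ : v ∈ Set.range p := by
          rw [hr]
          exact ⟨hv, hva⟩
        have h2 : j ≠ jy := fun h => hcon.1 (by rw [← hjy, ← h]; exact hxv)
        have h3 : j ≠ jz := fun h => hcon.2 (by rw [← hjz, ← h]; exact hxv)
        rw [hk j ((a0 j h2 h3).1 hxv) h2 h3]
        rfl
    have h3 := Set.ncard_le_ncard h1 (Set.toFinite _)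
    have h4 : ({a, p k} : Set V).ncard = 2 := Set.ncard_pair (hpS k).2.symm
    omega
  refine CasePrismAux.ims_pairs (fun o : Option (Fin 6) => o.elim a p) ?_ ?_
    (FF jy jz (decide (G.Adj x y)) (decide (G.Adj x z))) ?_
    (mdl jy jz (decide (G.Adj x y)))
    (chk1 jy jz _ _ hby hbz hjj hbc) (chk2 jy jz _ _ hby hbz hjj hbc)
    (chk3 jy jz _ _ hby hbz hjj hbc)
  · rintro (_ | i) (_ | j) h
    · rfl
    · exact absurd h.symm (hpS j).2
    · exact absurd h (hpS i).2
    · exact congrArg some (hp h)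
  · rintro (_ | i)
    · exact ha
    · exact (hpS i).1
  · rintro (_ | i) (_ | j)
    · exact ⟨fun h => absurd rfl h.ne, fun h => absurd (show false = true from h)
        Bool.false_ne_true⟩
    · show G.Adj a (p j) ↔ decide (j = 0 ∨ j = jy ∨ j = jz) = true
      rw [decide_eq_true_iff]
      exact aa j
    · show G.Adj (p i) a ↔ decide (i = 0 ∨ i = jy ∨ i = jz) = true
      rw [decide_eq_true_iff, SimpleGraph.adj_comm]
      exact aa i
    · show G.Adj (p i) (p j) ↔ (if i = 0 then (if j = jy then decide (G.Adj x y) else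
        if j = jz then decide (G.Adj x z) else pb i j)
        else if j = 0 then (if i = jy then decide (G.Adj x y) else
          if i = jz then decide (G.Adj x z) else pb i j) else pb i j) = true
      by_cases hi : i = 0
      · rw [if_pos hi, hi, hpx]
        by_cases h1 : j = jy
        · rw [if_pos h1, decide_eq_true_iff, h1, hjy]
        · rw [if_neg h1]
          by_cases h2 : j = jz
          · rw [if_pos h2, decide_eq_true_iff, h2, hjz]
          · rw [if_neg h2]
            exact a0 j h1 h2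
      · rw [if_neg hi]
        by_cases hj : j = 0
        · rw [if_pos hj, hj, hpx, SimpleGraph.adj_comm]
          by_cases h1 : i = jy
          · rw [if_pos h1, decide_eq_true_iff, h1, hjy]
          · rw [if_neg h1]
            by_cases h2 : i = jz
            · rw [if_pos h2, decide_eq_true_iff, h2, hjz]
            · rw [if_neg h2, pbs]
              exact a0 i h1 h2
        · rw [if_neg hj]
          exact aij i j hi hj

end Pool.Agent.MPd439b2
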