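import Pool.Agent.Lib.MP_d439b2_co.Spec2

/-!
# MP_d439b2_co, F5: series decomposition
-/

namespace Pool.Agent.MPd439b2

theorem casePoly_addE_comm {V : Type} (G : SimpleGraph V) (x y u v : V) :
    (addE G x y).Adj u v ↔ (addE G y x).Adj u v := by
  simp only [addE]
  constructor
  · rintro (h | ⟨h1, h2⟩)
    · exact Or.inl h
    · exact Or.inr ⟨h1, h2.symm⟩
  · rintro (h | ⟨h1, h2⟩)
    · exact Or.inl h
    · exact Or.inr ⟨h1, h2.symm⟩

theorem casePoly_good (h : S_ImsEdge) {V : Type} [Finite V] {N m : ℕ} {G : SimpleGraph V}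
    {U A B : Set V} {x y c : V} (hxy : x ≠ y) (hx : x ∉ U) (hy : y ∉ U) (hc : c ∈ U)
    (hAB : A ∪ B = U \ {c}) (hd : Disjoint A B) (hA : nb G A ⊆ {x, c})
    (hyn : y ∈ nb G U) (hU : Conn G U)
    (hgood : GoodOn N m (addE G x y) (U ∪ {x, y})) :
    GoodOn N m (addE G x c) (A ∪ {x, c}) := by
  have hAU : A ⊆ U := fun a ha => (hAB ▸ (Or.inl ha : a ∈ A ∪ B) : a ∈ U \ {c}).1
  have hBU : B ⊆ U := fun a ha => (hAB ▸ (Or.inr ha : a ∈ A ∪ B) : a ∈ U \ {c}).1
  have hcA : c ∉ A := fun ha => (hAB ▸ (Or.inl ha : c ∈ A ∪ B) : c ∈ U \ {c}).2 rfl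
  have hcB : c ∉ B := fun ha => (hAB ▸ (Or.inr ha : c ∈ A ∪ B) : c ∈ U \ {c}).2 rfl
  have hxc : x ≠ c := fun e => hx (e ▸ hc)
  have hyc : y ≠ c := fun e => hy (e ▸ hc)
  have hABno : ∀ a ∈ A, ∀ b ∈ B, ¬ G.Adj a b := by
    intro a ha b hb hab
    have hbn : b ∈ nb G A := ⟨fun hbA => Set.disjoint_left.1 hd hbA hb, a, ha, hab⟩
    rcases hA hbn with e | e
    · exact hx (e ▸ hBU hb)
    · exact hcB (e ▸ hb)
  have hyA : ∀ a ∈ A, ¬ G.Adj a y := by
    intro a ha hay
    have hyn' : y ∈ nb G A := ⟨fun hyA => hy (hAU hyA), a, ha, hay⟩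
    rcases hA hyn' with e | e
    · exact hxy e.symm
    · exact hyc e
  -- the set `R`
  obtain ⟨R, hR1, hR2, hR3, hR4⟩ : ∃ R : Set V, R ⊆ B ∪ {y} ∧ y ∈ R ∧ Conn G R ∧
      ∃ r ∈ R, G.Adj r c := by
    obtain ⟨_, u, hu, huy⟩ := hyn
    by_cases huc : u = c
    · subst huc
      exact ⟨{y}, Set.subset_union_right, rfl, Conn.singleton G y, y, rfl, huy.symm⟩
    · have hu' : u ∈ A ∪ B := by
        rw [hAB]
        exact ⟨hu, huc⟩
      rcases hu' with huA | huB
      · exact absurd huy (hyA u huA)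
      · obtain ⟨C, hCB, huC, hC, hCn⟩ := exists_comp G huB
        have hCU : C ≠ U := fun e => hcB (hCB (e ▸ hc))
        obtain ⟨b, hb, a, ha, hab⟩ := hU.2 C (hCB.trans hBU) ⟨u, huC⟩ hCU
        have hac : a = c := by
          by_contra hne
          have ha' : a ∈ A ∪ B := by
            rw [hAB]
            exact ⟨ha.1, hne⟩
          rcases ha' with haA | haB
          · exact hABno a haA b (hCB hb) hab.symm
          · exact hCn a haB ⟨ha.2, b, hb, hab⟩
        subst hac
        refine ⟨insert y C, ?_, Set.mem_insert _ _, hC.insert ⟨u, huC, huy⟩, b,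
          Set.mem_insert_of_mem _ hb, hab⟩
        intro z hz
        rcases hz with hz | hz
        · exact Or.inr hz
        · exact Or.inl (hCB hz)
  -- the simulation
  have key : ∀ (W : Type) (H : SimpleGraph W), IMS H (addE G x c) (A ∪ {x, c}) →
      IMS H (addE G x y) (U ∪ {x, y}) := by
    intro W H hims
    have hims' : IMS H (addE (addE G x y) x c) (A ∪ {x, c}) := by
      refine hims.congr ?_
      intro u hu v hv
      have huy : u ≠ y := by
        rintro rfl
        rcases hu with hu | hu | hu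
        · exact hy (hAU hu)
        · exact hxy hu.symm
        · exact hyc hu
      have hvy : v ≠ y := by
        rintro rfl
        rcases hv with hv | hv | hv
        · exact hy (hAU hv)
        · exact hxy hv.symm
        · exact hyc hv
      simp only [addE]
      constructor
      · rintro (h1 | h1)
        · exact Or.inl (Or.inl h1)
        · exact Or.inr h1
      · rintro ((h1 | ⟨_, h1 | h1⟩) | h1)
        · exact Or.inl h1
        · exact absurd h1.2 hvy
        · exact absurd h1.1 huy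
        · exact Or.inr h1
    have hres := h V W H (addE G x y) (A ∪ {x, c}) R x c (Or.inr (Or.inl rfl))
      (Or.inr (Or.inr rfl)) hxc ?_ (hR3.mono_graph fun u _ v _ huv => Or.inl huv) ?_
      ⟨y, hR2, Or.inr ⟨hxy.symm, Or.inr ⟨rfl, rfl⟩⟩⟩ ?_ hims'
    · refine hres.mono ?_
      rintro z ((hz | hz | hz) | hz)
      · exact Or.inl (hAU hz)
      · exact Or.inr (Or.inl hz)
      · exact Or.inl (by rw [Set.mem_singleton_iff.1 hz]; exact hc)
      · rcases hR1 hz with hz | hz
        · exact Or.inl (hBU hz)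
        · exact Or.inr (Or.inr hz)
    · rw [Set.disjoint_left]
      intro z hzR hzS
      rcases hR1 hzR with hz | hz
      · rcases hzS with h1 | h1 | h1
        · exact Set.disjoint_left.1 hd h1 hz
        · exact hx (h1 ▸ hBU hz)
        · exact hcB (Set.mem_singleton_iff.1 h1 ▸ hz)
      · rw [Set.mem_singleton_iff] at hz
        subst hz
        rcases hzS with h1 | h1 | h1
        · exact hy (hAU h1)
        · exact hxy h1.symm
        · exact hyc h1
    · rintro s hs ⟨r, hr, hrs⟩
      rcases hs with hs | hs | hs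
      · exfalso
        have hsx : s ≠ x := fun e => hx (e ▸ hAU hs)
        have hsy : s ≠ y := fun e => hy (e ▸ hAU hs)
        rcases hrs with h1 | ⟨_, h1 | h1⟩
        · rcases hR1 hr with h2 | h2
          · exact hABno s hs r h2 h1.symm
          · rw [Set.mem_singleton_iff] at h2
            subst h2
            exact hyA s hs h1.symm
        · exact hsy h1.2
        · exact hsx h1.2
      · exact Or.inl hs
      · exact Or.inr hs
    · obtain ⟨r, hr, hrc⟩ := hR4
      exact ⟨r, hr, Or.inl hrc⟩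
  exact ⟨fun h1 => hgood.1 (key _ _ h1), fun h1 => hgood.2 (key _ _ h1)⟩

theorem casePoly (h : S_ImsEdge) : S_CasePoly := by
  intro V _ N m k n hk hSH G U x y hUn hxy hx hy hnb hgood hU c hc A B hAB hd hA hB
  have hAU : A ⊆ U := fun a ha => (hAB ▸ (Or.inl ha : a ∈ A ∪ B) : a ∈ U \ {c}).1
  have hBU : B ⊆ U := fun a ha => (hAB ▸ (Or.inr ha : a ∈ A ∪ B) : a ∈ U \ {c}).1
  have hcA : c ∉ A := fun ha => (hAB ▸ (Or.inl ha : c ∈ A ∪ B) : c ∈ U \ {c}).2 rfl
  have hcB : c ∉ B := fun ha => (hAB ▸ (Or.inr ha : c ∈ A ∪ B) : c ∈ U \ {c}).2 rfl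
  have hxc : x ≠ c := fun e => hx (e ▸ hc)
  have hyc : y ≠ c := fun e => hy (e ▸ hc)
  have hcard : ∀ S : Set V, S ⊆ U \ {c} → S.ncard < n := by
    intro S hS
    calc S.ncard ≤ (U \ {c}).ncard := Set.ncard_le_ncard hS (Set.toFinite _)
      _ < U.ncard := Set.ncard_sdiff_singleton_lt_of_mem hc (Set.toFinite _)
      _ ≤ n := hUn
  have hyn : y ∈ nb G U := by
    rw [hnb]
    exact Or.inr rfl
  have hxn : x ∈ nb G U := by
    rw [hnb]
    exact Or.inl rfl
  have hgA := casePoly_good h hxy hx hy hc hAB hd hA hyn hU hgood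
  have hgB : GoodOn N m (addE G y c) (B ∪ {y, c}) := by
    refine casePoly_good h hxy.symm hy hx hc (by rw [Set.union_comm]; exact hAB) hd.symm hB hxn
      hU ?_
    rw [Set.pair_comm y x]
    exact hgood.congr fun u _ v _ => casePoly_addE_comm G x y u v
  have hLA : Lay G k A := hSH G A x c (hcard A (hAB ▸ Set.subset_union_left)) hxc
    (fun h1 => hx (hAU h1)) hcA hA hgA
  have hLB : Lay G k B := hSH G B y c (hcard B (hAB ▸ Set.subset_union_right)) hyc
    (fun h1 => hy (hBU h1)) hcB hB hgB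
  have hLAB : Lay G k (A ∪ B) := by
    refine Lay.union hLA hLB hd ?_
    have h1 : (nb G (A ∪ B)).ncard ≤ 3 := by
      have h2 : nb G (A ∪ B) ⊆ {x, y, c} := by
        intro v hv
        rcases (nb_union_subset hv).1 with h3 | h3
        · rcases hA h3 with h4 | h4
          · exact Or.inl h4
          · exact Or.inr (Or.inr h4)
        · rcases hB h3 with h4 | h4
          · exact Or.inr (Or.inl h4)
          · exact Or.inr (Or.inr h4)
      refine (Set.ncard_le_ncard h2 (Set.toFinite _)).trans ?_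
      refine (Set.ncard_insert_le _ _).trans ?_
      have := Set.ncard_insert_le y ({c} : Set V)
      rw [Set.ncard_singleton] at this
      omega
    refine (types_encard_le h1).trans ?_
    exact_mod_cast hk
  have hU' : insert c (A ∪ B) = U := by
    rw [hAB]
    exact Set.insert_sdiff_self_of_mem hc
  rw [← hU']
  refine Lay.insert (le_trans (by norm_num) hk) hLAB ?_ ?_
  · rintro (h1 | h1)
    · exact hcA h1
    · exact hcB h1
  · rw [hU']
    have h1 : (nb G U).ncard ≤ 2 := by
      rw [hnb]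
      have := Set.ncard_insert_le x ({y} : Set V)
      rw [Set.ncard_singleton] at this
      omega
    refine (types_encard_le h1).trans ?_
    exact_mod_cast (le_trans (by norm_num) hk : 2 ^ 2 - 1 ≤ k)

end Pool.Agent.MPd439b2
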