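import Pool.Agent.Lib.MP_d439b2_co.Spec1

/-!
# G7: the contracted vertex is a rim vertex
-/

namespace Pool.Agent.MPd439b2

variable {V W : Type} {G : SimpleGraph V}

theorem CaseRim_contr_adj {a x u v : V} (hu : u ≠ a) (hv : v ≠ a) (hux : u ≠ x) (hvx : v ≠ x) :
    (contr G a x).Adj u v ↔ G.Adj u v := by
  constructor
  · rintro ⟨_, _, _, h | ⟨h, _⟩ | ⟨h, _⟩⟩
    · exact h
    · exact absurd h hux
    · exact absurd h hvx
  · intro h
    exact ⟨h.ne, hu, hv, Or.inl h⟩

/-- the segment `r i, ..., r j` -/
def CaseRim_seg (r : ℕ → V) (i j : ℕ) : Set V := {v | ∃ k, i ≤ k ∧ k ≤ j ∧ v = r k}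

theorem CaseRim_conn_seg {r : ℕ → V} {i j : ℕ} (hij : i ≤ j)
    (h : ∀ k, i ≤ k → k < j → G.Adj (r k) (r (k + 1))) : Conn G (CaseRim_seg r i j) := by
  induction j, hij using Nat.le_induction with
  | base =>
    have e : CaseRim_seg r i i = {r i} := by
      ext v
      constructor
      · rintro ⟨k, h1, h2, rfl⟩
        have : k = i := le_antisymm h2 h1
        rw [this]; rfl
      · intro hv
        exact ⟨i, le_rfl, le_rfl, hv⟩
    rw [e]
    exact Conn.singleton G _
  | succ j hij ih =>
    have e : CaseRim_seg r i (j + 1) = insert (r (j + 1)) (CaseRim_seg r i j) := by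
      ext v
      constructor
      · rintro ⟨k, h1, h2, rfl⟩
        rcases Nat.lt_or_ge k (j + 1) with h3 | h3
        · exact Or.inr ⟨k, h1, by omega, rfl⟩
        · have : k = j + 1 := le_antisymm h2 h3
          rw [this]
          exact Or.inl rfl
      · rintro (hv | ⟨k, h1, h2, rfl⟩)
        · exact ⟨j + 1, by omega, le_rfl, hv⟩
        · exact ⟨k, h1, by omega, rfl⟩
    rw [e]
    apply (ih fun k h1 h2 => h k h1 (by omega)).insert
    exact ⟨r j, ⟨j, hij, le_rfl, rfl⟩, h j hij (by omega)⟩

theorem CaseRim_ncard_le {a b : V} {A : Set V} [Finite V] (h : A ⊆ {a, b}) : A.ncard ≤ 2 := by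
  refine (Set.ncard_le_ncard h (Set.toFinite _)).trans ?_
  refine (Set.ncard_insert_le _ _).trans ?_
  rw [Set.ncard_singleton]

theorem caseRim : S_CaseRim := by
  intro V _ G S a x y z n h r hN hdeg hW hx0
  obtain ⟨haS, hxS, hyS, hzS, hxy, hxz, hyz, hax, hay, haz, hnb⟩ := hN
  obtain ⟨h4, hhS, hrS, hrh, hinj, hcov, hhr, hrr⟩ := hW
  subst hx0
  have hha : h ≠ a := fun e => hhS.2 e
  have hra : ∀ i < n, r i ≠ a := fun i hi e => (hrS i hi).2 e
  have hr0 : ∀ i, 1 ≤ i → i < n → r i ≠ r 0 := by
    intro i h1 h2 e
    have := hinj i h2 0 (by omega) e
    omega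
  have hh0 : h ≠ r 0 := fun e => hrh 0 (by omega) e.symm
  have f1 : ∀ i j, 1 ≤ i → i < n → 1 ≤ j → j < n →
      (G.Adj (r i) (r j) ↔ (j = i + 1 ∨ i = j + 1)) := by
    intro i j hi hi' hj hj'
    rw [← CaseRim_contr_adj (hra i hi') (hra j hj') (hr0 i hi hi') (hr0 j hj hj'),
      hrr i hi' j hj']
    constructor
    · rintro (h1 | h1 | h1 | h1)
      · exact Or.inl h1
      · exact Or.inr h1
      · omega
      · omega
    · rintro (h1 | h1)
      · exact Or.inl h1
      · exact Or.inr (Or.inl h1)
  have f2 : ∀ i, 1 ≤ i → i < n → G.Adj h (r i) := by
    intro i hi hi'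
    rw [← CaseRim_contr_adj hha (hra i hi') hh0 (hr0 i hi hi')]
    exact hhr i hi'
  have f3 : ∀ i, 1 ≤ i → i < n → G.Adj (r 0) (r i) → i = 1 ∨ i = n - 1 := by
    intro i hi hi' hadj
    have h1 : (contr G a (r 0)).Adj (r 0) (r i) :=
      ⟨hadj.ne, hra 0 (by omega), hra i hi', Or.inl hadj⟩
    rw [hrr 0 (by omega) i hi'] at h1
    omega
  have f3' : ∀ i, 1 ≤ i → i < n → (i = 1 ∨ i = n - 1) → ¬ G.Adj a (r i) → G.Adj (r 0) (r i) := by
    intro i hi hi' h1 h2
    have h3 : (contr G a (r 0)).Adj (r 0) (r i) := by
      rw [hrr 0 (by omega) i hi']
      omega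
    rcases h3.2.2.2 with h4 | ⟨_, h4⟩ | ⟨h4, _⟩
    · exact h4
    · exact absurd h4 h2
    · exact absurd h4 (hr0 i hi hi')
  have f4 : ¬ G.Adj a h → G.Adj (r 0) h := by
    intro h1
    have h3 := hhr 0 (by omega)
    rcases h3.2.2.2 with h4 | ⟨h4, _⟩ | ⟨_, h4⟩
    · exact h4.symm
    · exact absurd h4 hh0
    · exact absurd h4 h1
  have hhS' : h ∈ S := hhS.1
  have hrS' : ∀ i < n, r i ∈ S := fun i hi => (hrS i hi).1
  have segS : ∀ i j, j < n → CaseRim_seg r i j ⊆ S := by
    rintro i j hj v ⟨k, h1, h2, rfl⟩
    exact hrS' k (by omega)
  have hcov' : ∀ v ∈ S, G.Adj (r 0) v → v = a ∨ v = h ∨ v = r 1 ∨ v = r (n - 1) := by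
    intro v hv hadj
    by_cases hva : v = a
    · exact Or.inl hva
    · rcases hcov v ⟨hv, hva⟩ with h1 | ⟨i, hi, h1⟩
      · exact Or.inr (Or.inl h1)
      · have hi0 : 1 ≤ i := by
          rcases Nat.eq_zero_or_pos i with h2 | h2
          · exfalso
            rw [h1, h2] at hadj
            exact hadj.ne rfl
          · exact h2
        rw [h1] at hadj
        rcases f3 i hi0 hi hadj with h2 | h2
        · exact Or.inr (Or.inr (Or.inl (h2 ▸ h1)))
        · exact Or.inr (Or.inr (Or.inr (h2 ▸ h1)))
  have hseg : ∀ i j v, v ∈ CaseRim_seg r i j ↔ ∃ k, i ≤ k ∧ k ≤ j ∧ v = r k := fun _ _ _ => Iff.rfl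
  have consec : ∀ k, 1 ≤ k → k + 1 < n → G.Adj (r k) (r (k + 1)) := by
    intro k h1 h2
    rw [f1 k (k + 1) h1 (by omega) (by omega) h2]
    exact Or.inl rfl
  refine ⟨?_, ?_⟩
  · intro hy1 hz1
    subst hy1
    subst hz1
    have nah : ¬ G.Adj a h := by
      intro hadj
      rcases hnb h hhS' hadj with h1 | h1 | h1
      · exact hh0 h1
      · exact hrh 1 (by omega) h1.symm
      · exact hrh (n - 1) (by omega) h1.symm
    have hxh := f4 nah
    have last : G.Adj (r (n - 2)) (r (n - 1)) := by
      have := consec (n - 2) (by omega) (by omega)
      rwa [show n - 2 + 1 = n - 1 by omega] at this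
    have nxq : ¬ Tch G {r 0} (CaseRim_seg r 2 (n - 2)) := by
      rintro ⟨u, hu, v, ⟨k, h1, h2, rfl⟩, huv⟩
      have hu' : u = r 0 := hu
      rw [hu'] at huv
      have := f3 k (by omega) (by omega) huv
      omega
    by_cases hxy1 : G.Adj (r 0) (r 1)
    · by_cases hxz1 : G.Adj (r 0) (r (n - 1))
      · refine ims_K5m (X := {r 0}) (Y := CaseRim_seg r 1 (n - 2)) (Z := {r (n - 1)}) (P := {a})
          (Q := {h}) ?_ ?_ ?_ ?_ ?_ (Conn.singleton G _) ?_ (Conn.singleton G _)
          (Conn.singleton G _) (Conn.singleton G _) ?_ ?_ ?_ ?_ ?_ ?_ ?_ ?_ ?_ ?_ ?_ ?_ ?_ ?_ ?_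
          ?_ ?_ ?_ ?_ ?_
        · exact Set.singleton_subset_iff.2 hxS
        · exact segS _ _ (by omega)
        · exact Set.singleton_subset_iff.2 hzS
        · exact Set.singleton_subset_iff.2 haS
        · exact Set.singleton_subset_iff.2 hhS'
        · exact CaseRim_conn_seg (by omega) fun k h1 h2 => consec k h1 (by omega)
        · rw [Set.disjoint_left]
          intro v hv hv'
          simp only [Set.mem_insert_iff, Set.mem_singleton_iff, hseg] at hv hv'
          grind
        · rw [Set.disjoint_left]
          intro v hv hv'
          simp only [Set.mem_insert_iff, Set.mem_singleton_iff, hseg] at hv hv'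
          grind
        · rw [Set.disjoint_left]
          intro v hv hv'
          simp only [Set.mem_insert_iff, Set.mem_singleton_iff, hseg] at hv hv'
          grind
        · rw [Set.disjoint_left]
          intro v hv hv'
          simp only [Set.mem_insert_iff, Set.mem_singleton_iff, hseg] at hv hv'
          grind
        · rw [Set.disjoint_left]
          intro v hv hv'
          simp only [Set.mem_insert_iff, Set.mem_singleton_iff, hseg] at hv hv'
          grind
        · rw [Set.disjoint_left]
          intro v hv hv'
          simp only [Set.mem_insert_iff, Set.mem_singleton_iff, hseg] at hv hv'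
          grind
        · rw [Set.disjoint_left]
          intro v hv hv'
          simp only [Set.mem_insert_iff, Set.mem_singleton_iff, hseg] at hv hv'
          grind
        · rw [Set.disjoint_left]
          intro v hv hv'
          simp only [Set.mem_insert_iff, Set.mem_singleton_iff, hseg] at hv hv'
          grind
        · rw [Set.disjoint_left]
          intro v hv hv'
          simp only [Set.mem_insert_iff, Set.mem_singleton_iff, hseg] at hv hv'
          grind
        · rw [Set.disjoint_left]
          intro v hv hv'
          simp only [Set.mem_insert_iff, Set.mem_singleton_iff, hseg] at hv hv'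
          grind
        · exact Tch.of_adj hxy1 rfl ⟨1, by omega, by omega, rfl⟩
        · exact Tch.of_adj hxz1 rfl rfl
        · exact Tch.of_adj hax.symm rfl rfl
        · exact Tch.of_adj hxh rfl rfl
        · exact Tch.of_adj last ⟨n - 2, by omega, by omega, rfl⟩ rfl
        · exact Tch.of_adj hay.symm ⟨1, by omega, by omega, rfl⟩ rfl
        · exact Tch.of_adj (f2 1 (by omega) (by omega)).symm ⟨1, by omega, by omega, rfl⟩ rfl
        · exact Tch.of_adj haz.symm rfl rfl
        · exact Tch.of_adj (f2 (n - 1) (by omega) (by omega)).symm rfl rfl
        · rintro ⟨u, hu, v, hv, huv⟩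
          have hu' : u = a := hu
          have hv' : v = h := hv
          rw [hu', hv'] at huv
          exact nah huv
      · refine ims_K5m (X := {r 1}) (Y := {h}) (Z := {a, r (n - 1)}) (P := {r 0})
            (Q := CaseRim_seg r 2 (n - 2)) ?_ ?_ ?_ ?_ ?_ ?_ ?_ ?_ ?_ ?_ ?_ ?_ ?_ ?_ ?_ ?_ ?_ ?_ ?_ ?_ ?_ ?_ ?_ ?_ ?_
            ?_ ?_ ?_ ?_ ?_
        · exact Set.singleton_subset_iff.2 hyS
        · exact Set.singleton_subset_iff.2 hhS'
        · exact Set.insert_subset haS (Set.singleton_subset_iff.2 hzS)
        · exact Set.singleton_subset_iff.2 hxS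
        · exact segS _ _ (by omega)
        · exact Conn.singleton G _
        · exact Conn.singleton G _
        · exact Conn.pair haz
        · exact Conn.singleton G _
        · exact CaseRim_conn_seg (by omega) fun k h1 h2 => consec k (by omega) (by omega)
        · rw [Set.disjoint_left]
          intro v hv hv'
          simp only [Set.mem_insert_iff, Set.mem_singleton_iff, hseg] at hv hv'
          grind
        · rw [Set.disjoint_left]
          intro v hv hv'
          simp only [Set.mem_insert_iff, Set.mem_singleton_iff, hseg] at hv hv'
          grind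
        · rw [Set.disjoint_left]
          intro v hv hv'
          simp only [Set.mem_insert_iff, Set.mem_singleton_iff, hseg] at hv hv'
          grind
        · rw [Set.disjoint_left]
          intro v hv hv'
          simp only [Set.mem_insert_iff, Set.mem_singleton_iff, hseg] at hv hv'
          grind
        · rw [Set.disjoint_left]
          intro v hv hv'
          simp only [Set.mem_insert_iff, Set.mem_singleton_iff, hseg] at hv hv'
          grind
        · rw [Set.disjoint_left]
          intro v hv hv'
          simp only [Set.mem_insert_iff, Set.mem_singleton_iff, hseg] at hv hv'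
          grind
        · rw [Set.disjoint_left]
          intro v hv hv'
          simp only [Set.mem_insert_iff, Set.mem_singleton_iff, hseg] at hv hv'
          grind
        · rw [Set.disjoint_left]
          intro v hv hv'
          simp only [Set.mem_insert_iff, Set.mem_singleton_iff, hseg] at hv hv'
          grind
        · rw [Set.disjoint_left]
          intro v hv hv'
          simp only [Set.mem_insert_iff, Set.mem_singleton_iff, hseg] at hv hv'
          grind
        · rw [Set.disjoint_left]
          intro v hv hv'
          simp only [Set.mem_insert_iff, Set.mem_singleton_iff, hseg] at hv hv'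
          grind
        · exact Tch.of_adj (f2 1 (by omega) (by omega)).symm rfl rfl
        · exact Tch.of_adj hay.symm rfl (Or.inl rfl)
        · exact Tch.of_adj hxy1.symm rfl rfl
        · exact Tch.of_adj (consec 1 (by omega) (by omega)) rfl ⟨2, by omega, by omega, rfl⟩
        · exact Tch.of_adj (f2 (n - 1) (by omega) (by omega)) rfl (Or.inr rfl)
        · exact Tch.of_adj hxh.symm rfl rfl
        · exact Tch.of_adj (f2 2 (by omega) (by omega)) rfl ⟨2, by omega, by omega, rfl⟩
        · exact Tch.of_adj hax (Or.inl rfl) rfl
        · exact Tch.of_adj last.symm (Or.inr rfl) ⟨n - 2, by omega, by omega, rfl⟩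
        · exact nxq
    · by_cases hxz1 : G.Adj (r 0) (r (n - 1))
      · refine ims_K5m (X := {r (n - 1)}) (Y := {h}) (Z := {a, r 1}) (P := {r 0})
            (Q := CaseRim_seg r 2 (n - 2)) ?_ ?_ ?_ ?_ ?_ ?_ ?_ ?_ ?_ ?_ ?_ ?_ ?_ ?_ ?_ ?_ ?_ ?_ ?_ ?_ ?_ ?_ ?_ ?_ ?_
            ?_ ?_ ?_ ?_ ?_
        · exact Set.singleton_subset_iff.2 hzS
        · exact Set.singleton_subset_iff.2 hhS'
        · exact Set.insert_subset haS (Set.singleton_subset_iff.2 hyS)
        · exact Set.singleton_subset_iff.2 hxS
        · exact segS _ _ (by omega)
        · exact Conn.singleton G _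
        · exact Conn.singleton G _
        · exact Conn.pair hay
        · exact Conn.singleton G _
        · exact CaseRim_conn_seg (by omega) fun k h1 h2 => consec k (by omega) (by omega)
        · rw [Set.disjoint_left]
          intro v hv hv'
          simp only [Set.mem_insert_iff, Set.mem_singleton_iff, hseg] at hv hv'
          grind
        · rw [Set.disjoint_left]
          intro v hv hv'
          simp only [Set.mem_insert_iff, Set.mem_singleton_iff, hseg] at hv hv'
          grind
        · rw [Set.disjoint_left]
          intro v hv hv'
          simp only [Set.mem_insert_iff, Set.mem_singleton_iff, hseg] at hv hv'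
          grind
        · rw [Set.disjoint_left]
          intro v hv hv'
          simp only [Set.mem_insert_iff, Set.mem_singleton_iff, hseg] at hv hv'
          grind
        · rw [Set.disjoint_left]
          intro v hv hv'
          simp only [Set.mem_insert_iff, Set.mem_singleton_iff, hseg] at hv hv'
          grind
        · rw [Set.disjoint_left]
          intro v hv hv'
          simp only [Set.mem_insert_iff, Set.mem_singleton_iff, hseg] at hv hv'
          grind
        · rw [Set.disjoint_left]
          intro v hv hv'
          simp only [Set.mem_insert_iff, Set.mem_singleton_iff, hseg] at hv hv'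
          grind
        · rw [Set.disjoint_left]
          intro v hv hv'
          simp only [Set.mem_insert_iff, Set.mem_singleton_iff, hseg] at hv hv'
          grind
        · rw [Set.disjoint_left]
          intro v hv hv'
          simp only [Set.mem_insert_iff, Set.mem_singleton_iff, hseg] at hv hv'
          grind
        · rw [Set.disjoint_left]
          intro v hv hv'
          simp only [Set.mem_insert_iff, Set.mem_singleton_iff, hseg] at hv hv'
          grind
        · exact Tch.of_adj (f2 (n - 1) (by omega) (by omega)).symm rfl rfl
        · exact Tch.of_adj haz.symm rfl (Or.inl rfl)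
        · exact Tch.of_adj hxz1.symm rfl rfl
        · exact Tch.of_adj last.symm rfl ⟨n - 2, by omega, by omega, rfl⟩
        · exact Tch.of_adj (f2 1 (by omega) (by omega)) rfl (Or.inr rfl)
        · exact Tch.of_adj hxh.symm rfl rfl
        · exact Tch.of_adj (f2 2 (by omega) (by omega)) rfl ⟨2, by omega, by omega, rfl⟩
        · exact Tch.of_adj hax (Or.inl rfl) rfl
        · exact Tch.of_adj (consec 1 (by omega) (by omega)) (Or.inr rfl) ⟨2, by omega, by omega, rfl⟩
        · exact nxq
      · exfalso
        have hsub : S ∩ G.neighborSet (r 0) ⊆ {a, h} := by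
          rintro v ⟨hv, hadj⟩
          have hadj' : G.Adj (r 0) v := hadj
          rcases hcov' v hv hadj' with h1 | h1 | h1 | h1
          · exact Or.inl h1
          · exact Or.inr h1
          · rw [h1] at hadj'
            exact absurd hadj' hxy1
          · rw [h1] at hadj'
            exact absurd hadj' hxz1
        have := CaseRim_ncard_le hsub
        omega
  · intro hy1 hz1
    subst hy1
    subst hz1
    have nar : ∀ i, 2 ≤ i → i < n → ¬ G.Adj a (r i) := by
      intro i h1 h2 hadj
      rcases hnb (r i) (hrS' i h2) hadj with h3 | h3 | h3
      · have := hinj i h2 0 (by omega) h3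
        omega
      · exact hrh i h2 h3
      · have := hinj i h2 1 (by omega) h3
        omega
    have naq : ∀ j, j < n → ¬ Tch G {a} (CaseRim_seg r 2 j) := by
      rintro j hj ⟨u, hu, v, ⟨k, h1, h2, rfl⟩, huv⟩
      have hu' : u = a := hu
      rw [hu'] at huv
      exact nar k h1 (by omega) huv
    have hxl : G.Adj (r 0) (r (n - 1)) :=
      f3' (n - 1) (by omega) (by omega) (Or.inr rfl) (nar (n - 1) (by omega) (by omega))
    have last : G.Adj (r (n - 2)) (r (n - 1)) := by
      have := consec (n - 2) (by omega) (by omega)
      rwa [show n - 2 + 1 = n - 1 by omega] at this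
    by_cases hxh : G.Adj (r 0) y
    · by_cases hxr1 : G.Adj (r 0) (r 1)
      · left
        refine ims_K5m (X := {r 0}) (Y := {y}) (Z := {r 1}) (P := {a})
            (Q := CaseRim_seg r 2 (n - 1)) ?_ ?_ ?_ ?_ ?_ ?_ ?_ ?_ ?_ ?_ ?_ ?_ ?_ ?_ ?_ ?_ ?_ ?_ ?_ ?_ ?_ ?_ ?_ ?_ ?_
            ?_ ?_ ?_ ?_ ?_
        · exact Set.singleton_subset_iff.2 hxS
        · exact Set.singleton_subset_iff.2 hhS'
        · exact Set.singleton_subset_iff.2 hzS
        · exact Set.singleton_subset_iff.2 haS
        · exact segS _ _ (by omega)
        · exact Conn.singleton G _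
        · exact Conn.singleton G _
        · exact Conn.singleton G _
        · exact Conn.singleton G _
        · exact CaseRim_conn_seg (by omega) fun k h1 h2 => consec k (by omega) (by omega)
        · rw [Set.disjoint_left]
          intro v hv hv'
          simp only [Set.mem_insert_iff, Set.mem_singleton_iff, hseg] at hv hv'
          grind
        · rw [Set.disjoint_left]
          intro v hv hv'
          simp only [Set.mem_insert_iff, Set.mem_singleton_iff, hseg] at hv hv'
          grind
        · rw [Set.disjoint_left]
          intro v hv hv'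
          simp only [Set.mem_insert_iff, Set.mem_singleton_iff, hseg] at hv hv'
          grind
        · rw [Set.disjoint_left]
          intro v hv hv'
          simp only [Set.mem_insert_iff, Set.mem_singleton_iff, hseg] at hv hv'
          grind
        · rw [Set.disjoint_left]
          intro v hv hv'
          simp only [Set.mem_insert_iff, Set.mem_singleton_iff, hseg] at hv hv'
          grind
        · rw [Set.disjoint_left]
          intro v hv hv'
          simp only [Set.mem_insert_iff, Set.mem_singleton_iff, hseg] at hv hv'
          grind
        · rw [Set.disjoint_left]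
          intro v hv hv'
          simp only [Set.mem_insert_iff, Set.mem_singleton_iff, hseg] at hv hv'
          grind
        · rw [Set.disjoint_left]
          intro v hv hv'
          simp only [Set.mem_insert_iff, Set.mem_singleton_iff, hseg] at hv hv'
          grind
        · rw [Set.disjoint_left]
          intro v hv hv'
          simp only [Set.mem_insert_iff, Set.mem_singleton_iff, hseg] at hv hv'
          grind
        · rw [Set.disjoint_left]
          intro v hv hv'
          simp only [Set.mem_insert_iff, Set.mem_singleton_iff, hseg] at hv hv'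
          grind
        · exact Tch.of_adj hxh rfl rfl
        · exact Tch.of_adj hxr1 rfl rfl
        · exact Tch.of_adj hax.symm rfl rfl
        · exact Tch.of_adj hxl rfl ⟨n - 1, by omega, by omega, rfl⟩
        · exact Tch.of_adj (f2 1 (by omega) (by omega)) rfl rfl
        · exact Tch.of_adj hay.symm rfl rfl
        · exact Tch.of_adj (f2 2 (by omega) (by omega)) rfl ⟨2, by omega, by omega, rfl⟩
        · exact Tch.of_adj haz.symm rfl rfl
        · exact Tch.of_adj (consec 1 (by omega) (by omega)) rfl ⟨2, by omega, by omega, rfl⟩
        · exact naq (n - 1) (by omega)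
      · right
        refine ⟨n + 1, y, fun i => if i = 0 then r 0 else if i = 1 then a else r (i - 1),
          by omega, hhS', ?_, ?_, ?_, ?_, ?_, ?_⟩
        · intro i hi
          dsimp only
          split_ifs
          · exact hxS
          · exact haS
          · exact hrS' _ (by omega)
        · intro i hi
          dsimp only
          split_ifs
          · exact hrh 0 (by omega)
          · exact hha.symm
          · exact hrh _ (by omega)
        · intro i hi j hj
          dsimp only
          split_ifs with h1 h2 h3 h4 h5 h6 h7 h8
          · intro _; omega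
          · intro e; exact absurd e (hra 0 (by omega))
          · intro e
            have := hinj 0 (by omega) (j - 1) (by omega) e
            omega
          · intro e; exact absurd e.symm (hra 0 (by omega))
          · intro _; omega
          · intro e; exact absurd e.symm (hra (j - 1) (by omega))
          · intro e
            have := hinj (i - 1) (by omega) 0 (by omega) e
            omega
          · intro e; exact absurd e (hra (i - 1) (by omega))
          · intro e
            have := hinj (i - 1) (by omega) (j - 1) (by omega) e
            omega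
        · intro v hv
          by_cases hva : v = a
          · right
            exact ⟨1, by omega, by simp [hva]⟩
          · rcases hcov v ⟨hv, hva⟩ with h1 | ⟨i, hi, h1⟩
            · exact Or.inl h1
            · right
              rcases Nat.eq_zero_or_pos i with h2 | h2
              · exact ⟨0, by omega, by simp [h1, h2]⟩
              · refine ⟨i + 1, by omega, ?_⟩
                have e1 : i + 1 ≠ 0 := by omega
                have e2 : i + 1 ≠ 1 := by omega
                simp only [e1, e2, if_false, Nat.add_sub_cancel]
                exact h1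
        · intro i hi
          dsimp only
          split_ifs
          · exact hxh.symm
          · exact hay.symm
          · exact f2 _ (by omega) (by omega)
        · intro i hi j hj
          dsimp only
          have n0 : ¬ G.Adj (r 0) (r 0) := fun h => h.ne rfl
          have na : ¬ G.Adj a a := fun h => h.ne rfl
          have key0 : ∀ k, 1 ≤ k → k < n → (G.Adj (r 0) (r k) ↔ k = n - 1) := by
            intro k h1 h2
            constructor
            · intro h3
              rcases f3 k h1 h2 h3 with h4 | h4
              · rw [h4] at h3
                exact absurd h3 hxr1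
              · exact h4
            · intro h3
              rw [h3]
              exact hxl
          have keya : ∀ k, 1 ≤ k → k < n → (G.Adj a (r k) ↔ k = 1) := by
            intro k h1 h2
            constructor
            · intro h3
              by_contra h4
              exact nar k (by omega) h2 h3
            · intro h3
              rw [h3]
              exact haz
          split_ifs with h1 h2 h3 h4 h5 h6 h7 h8
          · refine iff_of_false n0 ?_
            omega
          · refine iff_of_true hax.symm ?_
            omega
          · rw [key0 (j - 1) (by omega) (by omega)]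
            omega
          · refine iff_of_true hax ?_
            omega
          · refine iff_of_false na ?_
            omega
          · rw [keya (j - 1) (by omega) (by omega)]
            omega
          · rw [G.adj_comm, key0 (i - 1) (by omega) (by omega)]
            omega
          · rw [G.adj_comm, keya (i - 1) (by omega) (by omega)]
            omega
          · rw [f1 (i - 1) (j - 1) (by omega) (by omega) (by omega) (by omega)]
            omega
    · left
      have hxr1 : G.Adj (r 0) (r 1) := by
        by_contra hxr1
        have hsub : S ∩ G.neighborSet (r 0) ⊆ {a, r (n - 1)} := by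
          rintro v ⟨hv, hadj⟩
          have hadj' : G.Adj (r 0) v := hadj
          rcases hcov' v hv hadj' with h1 | h1 | h1 | h1
          · exact Or.inl h1
          · rw [h1] at hadj'
            exact absurd hadj' hxh
          · rw [h1] at hadj'
            exact absurd hadj' hxr1
          · exact Or.inr h1
        have := CaseRim_ncard_le hsub
        omega
      refine ims_K5m (X := {r 1}) (Y := {y}) (Z := {r 0, r (n - 1)}) (P := {a})
          (Q := CaseRim_seg r 2 (n - 2)) ?_ ?_ ?_ ?_ ?_ ?_ ?_ ?_ ?_ ?_ ?_ ?_ ?_ ?_ ?_ ?_ ?_ ?_ ?_ ?_ ?_ ?_ ?_ ?_ ?_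
          ?_ ?_ ?_ ?_ ?_
      · exact Set.singleton_subset_iff.2 hzS
      · exact Set.singleton_subset_iff.2 hhS'
      · exact Set.insert_subset hxS (Set.singleton_subset_iff.2 (hrS' (n - 1) (by omega)))
      · exact Set.singleton_subset_iff.2 haS
      · exact segS _ _ (by omega)
      · exact Conn.singleton G _
      · exact Conn.singleton G _
      · exact Conn.pair hxl
      · exact Conn.singleton G _
      · exact CaseRim_conn_seg (by omega) fun k h1 h2 => consec k (by omega) (by omega)
      · rw [Set.disjoint_left]
        intro v hv hv'
        simp only [Set.mem_insert_iff, Set.mem_singleton_iff, hseg] at hv hv'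
        grind
      · rw [Set.disjoint_left]
        intro v hv hv'
        simp only [Set.mem_insert_iff, Set.mem_singleton_iff, hseg] at hv hv'
        grind
      · rw [Set.disjoint_left]
        intro v hv hv'
        simp only [Set.mem_insert_iff, Set.mem_singleton_iff, hseg] at hv hv'
        grind
      · rw [Set.disjoint_left]
        intro v hv hv'
        simp only [Set.mem_insert_iff, Set.mem_singleton_iff, hseg] at hv hv'
        grind
      · rw [Set.disjoint_left]
        intro v hv hv'
        simp only [Set.mem_insert_iff, Set.mem_singleton_iff, hseg] at hv hv'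
        grind
      · rw [Set.disjoint_left]
        intro v hv hv'
        simp only [Set.mem_insert_iff, Set.mem_singleton_iff, hseg] at hv hv'
        grind
      · rw [Set.disjoint_left]
        intro v hv hv'
        simp only [Set.mem_insert_iff, Set.mem_singleton_iff, hseg] at hv hv'
        grind
      · rw [Set.disjoint_left]
        intro v hv hv'
        simp only [Set.mem_insert_iff, Set.mem_singleton_iff, hseg] at hv hv'
        grind
      · rw [Set.disjoint_left]
        intro v hv hv'
        simp only [Set.mem_insert_iff, Set.mem_singleton_iff, hseg] at hv hv'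
        grind
      · rw [Set.disjoint_left]
        intro v hv hv'
        simp only [Set.mem_insert_iff, Set.mem_singleton_iff, hseg] at hv hv'
        grind
      · exact Tch.of_adj (f2 1 (by omega) (by omega)).symm rfl rfl
      · exact Tch.of_adj hxr1.symm rfl (Or.inl rfl)
      · exact Tch.of_adj haz.symm rfl rfl
      · exact Tch.of_adj (consec 1 (by omega) (by omega)) rfl ⟨2, by omega, by omega, rfl⟩
      · exact Tch.of_adj (f2 (n - 1) (by omega) (by omega)) rfl (Or.inr rfl)
      · exact Tch.of_adj hay.symm rfl rfl
      · exact Tch.of_adj (f2 2 (by omega) (by omega)) rfl ⟨2, by omega, by omega, rfl⟩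
      · exact Tch.of_adj hax.symm (Or.inl rfl) rfl
      · exact Tch.of_adj last.symm (Or.inr rfl) ⟨n - 2, by omega, by omega, rfl⟩
      · exact naq (n - 2) (by omega)

end Pool.Agent.MPd439b2
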