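import Pool.Agent.Lib.MP_d439b2_co.Spec1

/-!
# MP_d439b2_co, G11: classification of the 3-connected graphs without `K_5` minus an edge
-/

namespace Pool.Agent.MPd439b2

namespace ClassAux

variable {V : Type} {G : SimpleGraph V} {S : Set V}

theorem adj_of_conn_pair {u v : V} (h : Conn G {u, v}) (huv : u ≠ v) : G.Adj u v := by
  obtain ⟨b, hb, a, ha, hab⟩ := h.2 {u} (by simp) ⟨u, rfl⟩ (by
    intro h'
    have : v ∈ ({u} : Set V) := by rw [h']; simp
    exact huv (Set.mem_singleton_iff.mp this).symm)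
  rw [Set.mem_singleton_iff] at hb
  subst hb
  rcases ha.1 with h1 | h1
  · exact absurd h1 ha.2
  · rw [Set.mem_singleton_iff] at h1
    subst h1
    exact hab

theorem complete_of_four [Finite V] (h : ThreeConn G S) (h4 : S.ncard = 4) : CompleteOn G S := by
  intro u hu v hv huv
  have h1 : (S \ {u, v}).ncard = 2 := by
    rw [Set.ncard_sdiff (by intro t ht; rcases ht with rfl | rfl <;> assumption) (Set.toFinite _),
      Set.ncard_pair huv, h4]
  obtain ⟨p, q, hpq, hpq'⟩ := Set.ncard_eq_two.mp h1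
  have h2 := h.2 p q
  have h3 : S \ {p, q} = {u, v} := by
    rw [← hpq', Set.sdiff_sdiff_right_self]
    ext t
    constructor
    · intro ht; exact ht.2
    · intro ht
      refine ⟨?_, ht⟩
      rcases ht with rfl | rfl <;> assumption
  rw [h3] at h2
  exact adj_of_conn_pair h2 huv

theorem deg_ge [Finite V] (h : ThreeConn G S) {b : V} (hb : b ∈ S) :
    3 ≤ (S ∩ G.neighborSet b).ncard := by
  by_contra hcon
  have h0 : (S ∩ G.neighborSet b).ncard ≤ 2 := by omega
  have h1 : S ∩ G.neighborSet b ⊆ S \ {b} := by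
    intro t ht
    refine ⟨ht.1, fun h' => ?_⟩
    rw [Set.mem_singleton_iff] at h'
    subst h'
    exact G.loopless.irrefl t ht.2
  have h2 : 2 ≤ (S \ {b}).ncard := by
    have := Set.ncard_sdiff_singleton_of_mem hb
    have := h.1
    omega
  obtain ⟨P, hP1, hP2, hP3⟩ := Set.exists_subsuperset_card_eq h1 h0 h2
  obtain ⟨u, v, huv, rfl⟩ := Set.ncard_eq_two.mp hP3
  have hbP : b ∉ ({u, v} : Set V) := fun h' => (hP2 h').2 rfl
  have hc := h.2 u v
  have hne : ({b} : Set V) ≠ S \ {u, v} := by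
    intro h'
    have h3 : (S \ {u, v}).ncard = 1 := by rw [← h', Set.ncard_singleton]
    rw [Set.ncard_sdiff (hP2.trans Set.sdiff_subset) (Set.toFinite _), hP3] at h3
    have := h.1
    omega
  obtain ⟨b', hb', t, ht, hbt⟩ := hc.2 {b} (by
    rintro w hw
    rw [Set.mem_singleton_iff] at hw
    subst hw
    exact ⟨hb, hbP⟩) ⟨b, rfl⟩ hne
  rw [Set.mem_singleton_iff] at hb'
  subst hb'
  exact ht.1.2 (hP1 ⟨ht.1.1, hbt⟩)

theorem Nbr3.swap23 {a x y z : V} (h : Nbr3 G S a x y z) : Nbr3 G S a x z y := by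
  obtain ⟨h1, h2, h3, h4, h5, h6, h7, h8, h9, h10, h11⟩ := h
  refine ⟨h1, h2, h4, h3, h6, h5, h7.symm, h8, h10, h9, fun v hv hav => ?_⟩
  rcases h11 v hv hav with h | h | h
  · exact Or.inl h
  · exact Or.inr (Or.inr h)
  · exact Or.inr (Or.inl h)

theorem Nbr3.swap12 {a x y z : V} (h : Nbr3 G S a x y z) : Nbr3 G S a y x z := by
  obtain ⟨h1, h2, h3, h4, h5, h6, h7, h8, h9, h10, h11⟩ := h
  refine ⟨h1, h3, h2, h4, h5.symm, h7, h6, h9, h8, h10, fun v hv hav => ?_⟩
  rcases h11 v hv hav with h | h | h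
  · exact Or.inr (Or.inl h)
  · exact Or.inl h
  · exact Or.inr (Or.inr h)

theorem contr_adj {a x y : V} (hax : a ≠ x) (hxy : x ≠ y) (hay : G.Adj a y) :
    (contr G a x).Adj x y :=
  ⟨hxy, hax.symm, hay.ne.symm, Or.inr (Or.inl ⟨rfl, hay⟩)⟩

theorem hub (h5 : S_WheelSym) (h7 : S_CaseHub) [Finite V] {a x y z : V} {n : ℕ} {r : ℕ → V}
    (hn : Nbr3 G S a x y z) (hw : WheelAt (contr G a x) (S \ {a}) n x r)
    (hadj : G.Adj x y ∨ ¬ G.Adj x z) :
    IMS K5m G S ∨ IsoOn prism G S ∨ IsoOn k33 G S := by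
  have hn' := hn
  obtain ⟨ha, hx, hy, hz, hxy, hxz, hyz, hax, hay, haz, -⟩ := hn'
  have hyS : y ∈ S \ {a} := ⟨hy, hay.ne.symm⟩
  have hzS : z ∈ S \ {a} := ⟨hz, haz.ne.symm⟩
  obtain ⟨i, hi, hyi⟩ : ∃ i < n, y = r i := by
    rcases hw.2.2.2.2.2.1 y hyS with h | h
    · exact absurd h.symm hxy
    · exact h
  obtain ⟨r', hw', hr'⟩ := (h5 V (contr G a x) (S \ {a}) n x r hw).1 i hi
  have hn4 : 4 ≤ n := hw.1
  have hy0 : y = r' 0 := by
    rw [hr' 0 (by omega), zero_add, Nat.mod_eq_of_lt hi, hyi]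
  obtain ⟨j, hj, hzj⟩ : ∃ j < n, z = r' j := by
    rcases hw'.2.2.2.2.2.1 z hzS with h | h
    · exact absurd h.symm hxz
    · exact h
  have hj0 : j ≠ 0 := by
    rintro rfl
    exact hyz (hy0.trans hzj.symm)
  by_cases hjn : j + 2 ≤ n
  · exact h7 V G S a x y z n x r' j hn hw' rfl hy0 hzj (by omega) hjn hadj
  · have hjn' : j = n - 1 := by omega
    obtain ⟨r'', hw'', hr0, hr''⟩ := (h5 V (contr G a x) (S \ {a}) n x r' hw').2
    have hz1 : z = r'' 1 := by
      rw [hr'' 1 (by omega) (by omega), hzj, hjn']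
    exact h7 V G S a x y z n x r'' 1 hn hw'' rfl (hy0.trans hr0.symm) hz1 le_rfl (by omega) hadj

theorem rim (h5 : S_WheelSym) (h6 : S_CaseRim) [Finite V] {a x y z : V} {n : ℕ} {h : V}
    {r : ℕ → V} (hn : Nbr3 G S a x y z) (hd : 3 ≤ (S ∩ G.neighborSet x).ncard)
    (hw : WheelAt (contr G a x) (S \ {a}) n h r) (hx0 : ∃ i < n, x = r i) :
    IMS K5m G S ∨ WheelOn G S := by
  obtain ⟨ha, hx, hy, hz, hxy, hxz, hyz, hax, hay, haz, -⟩ := id hn
  obtain ⟨i, hi, hxi⟩ := hx0
  obtain ⟨r', hw', hr'⟩ := (h5 V (contr G a x) (S \ {a}) n h r hw).1 i hi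
  have hn4 : 4 ≤ n := hw.1
  have hx0 : x = r' 0 := by
    rw [hr' 0 (by omega), zero_add, Nat.mod_eq_of_lt hi, hxi]
  obtain ⟨r'', hw'', hr0, hr''⟩ := (h5 V (contr G a x) (S \ {a}) n h r' hw').2
  have hx0' : x = r'' 0 := hx0.trans hr0.symm
  have hr1 : r'' 1 = r' (n - 1) := hr'' 1 (by omega) (by omega)
  -- the position of a neighbour
  have key : ∀ v ∈ S, G.Adj a v → x ≠ v → v = h ∨ v = r' 1 ∨ v = r' (n - 1) := by
    intro v hv hav hxv
    rcases hw'.2.2.2.2.2.1 v ⟨hv, hav.ne.symm⟩ with h1 | ⟨k, hk, hvk⟩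
    · exact Or.inl h1
    · right
      have h2 : (contr G a x).Adj (r' 0) (r' k) := by
        rw [← hx0, ← hvk]
        exact contr_adj hax.ne hxv hav
      rw [hw'.2.2.2.2.2.2.2 0 (by omega) k hk] at h2
      rcases h2 with h2 | h2 | h2 | h2
      · left; rw [hvk, h2]
      · omega
      · right; rw [hvk, h2.2]
      · omega
  have c1 := h6 V G S a x y z n h r' hn hd hw' hx0
  have c2 := h6 V G S a x z y n h r' (Nbr3.swap23 hn) hd hw' hx0
  have c3 := h6 V G S a x y z n h r'' hn hd hw'' hx0'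
  have c4 := h6 V G S a x z y n h r'' (Nbr3.swap23 hn) hd hw'' hx0'
  rcases key y hy hay hxy with hy1 | hy1 | hy1 <;> rcases key z hz haz hxz with hz1 | hz1 | hz1
  · exact absurd (hy1.trans hz1.symm) hyz
  · exact c1.2 hy1 hz1
  · exact c3.2 hy1 (hz1.trans hr1.symm)
  · exact c2.2 hz1 hy1
  · exact absurd (hy1.trans hz1.symm) hyz
  · exact Or.inl (c1.1 hy1 hz1)
  · exact c4.2 hz1 (hy1.trans hr1.symm)
  · exact Or.inl (c2.1 hz1 hy1)
  · exact absurd (hy1.trans hz1.symm) hyz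

theorem step (h4 : S_CaseK) (h5 : S_WheelSym) (h6 : S_CaseRim) (h7 : S_CaseHub)
    (h8 : S_CasePrism) (h9 : S_CaseK33) [Finite V] {a x y z : V}
    (hn : Nbr3 G S a x y z) (hd : 3 ≤ (S ∩ G.neighborSet x).ncard) (hS : 5 ≤ S.ncard)
    (hcl : Classified (contr G a x) (S \ {a})) (hK : ¬ IMS K5m G S) : Classified G S := by
  rcases hcl with hcl | ⟨n, h, r, hw⟩ | hcl | hcl
  · exact Or.inr (Or.inl (h4 V G S a x y z hn hd hS hcl hK))
  · obtain ⟨ha, hx, hy, hz, hxy, hxz, hyz, hax, hay, haz, -⟩ := id hn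
    rcases hw.2.2.2.2.2.1 x ⟨hx, hax.ne.symm⟩ with hxh | hxr
    · subst hxh
      have : IMS K5m G S ∨ IsoOn prism G S ∨ IsoOn k33 G S := by
        by_cases hadj : G.Adj x y ∨ ¬ G.Adj x z
        · exact hub h5 h7 hn hw hadj
        · push Not at hadj
          exact hub h5 h7 (Nbr3.swap23 hn) hw (Or.inl hadj.2)
      rcases this with h | h | h
      · exact absurd h hK
      · exact Or.inr (Or.inr (Or.inl h))
      · exact Or.inr (Or.inr (Or.inr h))
    · rcases rim h5 h6 hn hd hw hxr with h | h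
      · exact absurd h hK
      · exact Or.inr (Or.inl h)
  · exact absurd (h8 V G S a x y z hn hd hcl) hK
  · exact absurd (h9 V G S a x y z hn hd hcl) hK

end ClassAux

open ClassAux in
/-- **G11.** Classification. -/
theorem classify (h1 : S_Thomassen) (h2 : S_Halin) (h3 : S_Deg4) (h4 : S_CaseK)
    (h5 : S_WheelSym) (h6 : S_CaseRim) (h7 : S_CaseHub) (h8 : S_CasePrism) (h9 : S_CaseK33)
    (h10 : S_ContrIMS) : S_Class := by
  intro V _ G S
  induction hk : S.ncard using Nat.strong_induction_on generalizing G S with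
  | _ k ih =>
    intro hT hK
    rcases Nat.lt_or_ge k 5 with hk5 | hk5
    · have h4' := hT.1
      exact Or.inl (complete_of_four hT (by omega))
    · have hS : 5 ≤ S.ncard := by omega
      -- contractions are classified
      have hind : ∀ a ∈ S, ∀ x ∈ S, G.Adj a x → ThreeConn (contr G a x) (S \ {a}) →
          Classified (contr G a x) (S \ {a}) := by
        intro a ha x hx hax hT'
        have hc : (S \ {a}).ncard = S.ncard - 1 := Set.ncard_sdiff_singleton_of_mem ha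
        exact ih (S \ {a}).ncard (by omega) (contr G a x) (S \ {a}) rfl hT'
          (fun h => hK (h10 V (Fin 5) K5m G S a x ha hx hax h))
      obtain ⟨a, ha, x, hx, hax, hT'⟩ := h1 V G S hT hS
      rcases h3 V G S a x ha hx hax hS (hind a ha x hx hax hT') hK with hc | ⟨b, hb, hbd⟩
      · exact Or.inl hc
      · have hb3 : (S ∩ G.neighborSet b).ncard = 3 := le_antisymm hbd (deg_ge hT hb)
        obtain ⟨x, y, z, hxy, hxz, hyz, hset⟩ := Set.ncard_eq_three.mp hb3
        have hx : x ∈ S ∩ G.neighborSet b := by rw [hset]; simp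
        have hy : y ∈ S ∩ G.neighborSet b := by rw [hset]; simp
        have hz : z ∈ S ∩ G.neighborSet b := by rw [hset]; simp
        have hn : Nbr3 G S b x y z := by
          refine ⟨hb, hx.1, hy.1, hz.1, hxy, hxz, hyz, hx.2, hy.2, hz.2, fun v hv hbv => ?_⟩
          have : v ∈ S ∩ G.neighborSet b := ⟨hv, hbv⟩
          rw [hset] at this
          simpa using this
        rcases h2 V G S b x y z hT hS hn with h | h | h
        · exact step h4 h5 h6 h7 h8 h9 hn (deg_ge hT hx.1) hS (hind b hb x hx.1 hx.2 h) hK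
        · exact step h4 h5 h6 h7 h8 h9 (Nbr3.swap12 hn) (deg_ge hT hy.1) hS
            (hind b hb y hy.1 hy.2 h) hK
        · exact step h4 h5 h6 h7 h8 h9 (Nbr3.swap12 (Nbr3.swap23 hn)) (deg_ge hT hz.1) hS
            (hind b hb z hz.1 hz.2 h) hK

end Pool.Agent.MPd439b2
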