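import Pool.Agent.Lib.MP_d439b2_co.Spec1

/-!
# E2 and G1: contractions
-/

namespace Pool.Agent.MPd439b2

variable {V W : Type} {G : SimpleGraph V}

theorem ContrIMS_conn_of {a x : V} {A B : Set V} (hAB : A ⊆ B) (haA : a ∉ A)
    (hB : B = insert a A) (hx : x ∈ A) (hax : G.Adj a x) (hc : Conn (contr G a x) A) :
    Conn G B := by
  refine ⟨hc.1.mono hAB, fun C hC hne hne' => ?_⟩
  have haB : a ∈ B := by rw [hB]; exact Set.mem_insert a A
  by_cases haC : a ∈ C
  · by_cases hxC : x ∈ C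
    · -- both in `C`
      have hD1 : C ∩ A ⊆ A := Set.inter_subset_right
      have hD2 : (C ∩ A).Nonempty := ⟨x, hxC, hx⟩
      have hD3 : C ∩ A ≠ A := by
        intro h
        apply hne'
        apply Set.Subset.antisymm hC
        rw [hB]
        apply Set.insert_subset haC
        rw [← h]
        exact Set.inter_subset_left
      obtain ⟨b, hb, c, hc', hbc⟩ := hc.2 _ hD1 hD2 hD3
      have hcC : c ∉ C := fun h => hc'.2 ⟨h, hc'.1⟩
      rcases hbc.2.2.2 with h | ⟨_, h⟩ | ⟨h, _⟩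
      · exact ⟨b, hb.1, c, ⟨hAB hc'.1, hcC⟩, h⟩
      · exact ⟨a, haC, c, ⟨hAB hc'.1, hcC⟩, h⟩
      · exact absurd (h ▸ hxC) hcC
    · exact ⟨a, haC, x, ⟨hAB hx, hxC⟩, hax⟩
  · by_cases hxC : x ∈ C
    · exact ⟨x, hxC, a, ⟨haB, haC⟩, hax.symm⟩
    · have hCA : C ⊆ A := by
        intro v hv
        have := hC hv
        rw [hB] at this
        rcases this with h | h
        · exact absurd (h ▸ hv) haC
        · exact h
      have hD3 : C ≠ A := fun h => hxC (h ▸ hx)
      obtain ⟨b, hb, c, hc', hbc⟩ := hc.2 _ hCA hne hD3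
      rcases hbc.2.2.2 with h | ⟨h, _⟩ | ⟨_, h⟩
      · exact ⟨b, hb, c, ⟨hAB hc'.1, hc'.2⟩, h⟩
      · exact absurd (h ▸ hb) hxC
      · exact ⟨b, hb, a, ⟨haB, haC⟩, h.symm⟩

theorem contrIMS : S_ContrIMS := by
  intro V W _ H G S a x haS hxS hax h
  obtain ⟨B, h1, h2, h3, h4⟩ := h
  have haB : ∀ w, a ∉ B w := fun w h => (h1 w h).2 rfl
  have hBS : ∀ w, B w ⊆ S := fun w v hv => (h1 w hv).1
  let B' : W → Set V := fun w => {v | v ∈ B w ∨ (v = a ∧ x ∈ B w)}
  have hBB' : ∀ w, B w ⊆ B' w := fun w v hv => Or.inl hv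
  refine ⟨B', ?_, ?_, ?_, ?_⟩
  · rintro w v (hv | ⟨hv, _⟩)
    · exact hBS w hv
    · exact hv ▸ haS
  · intro w
    by_cases hx : x ∈ B w
    · have e : B' w = insert a (B w) := by
        ext v
        constructor
        · rintro (hv | ⟨hv, _⟩)
          · exact Or.inr hv
          · exact Or.inl hv
        · rintro (hv | hv)
          · exact Or.inr ⟨hv, hx⟩
          · exact Or.inl hv
      exact ContrIMS_conn_of (hBB' w) (haB w) e hx hax (h2 w)
    · have e : B' w = B w := by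
        ext v
        constructor
        · rintro (hv | ⟨_, hv⟩)
          · exact hv
          · exact absurd hv hx
        · exact Or.inl
      rw [e]
      apply (h2 w).mono_graph
      intro u hu v hv huv
      rcases huv.2.2.2 with h | ⟨h, _⟩ | ⟨h, _⟩
      · exact h
      · exact absurd (h ▸ hu) hx
      · exact absurd (h ▸ hv) hx
  · intro w w' hw
    rw [Set.disjoint_left]
    rintro v (hv | ⟨hv, hx⟩) (hv' | ⟨hv', hx'⟩)
    · exact Set.disjoint_left.1 (h3 w w' hw) hv hv'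
    · exact haB w (hv' ▸ hv)
    · exact haB w' (hv ▸ hv')
    · exact Set.disjoint_left.1 (h3 w w' hw) hx hx'
  · intro w w' hw
    rw [h4 w w' hw]
    constructor
    · rintro ⟨b, hb, c, hc, hbc⟩
      rcases hbc.2.2.2 with h | ⟨h, h'⟩ | ⟨h, h'⟩
      · exact ⟨b, Or.inl hb, c, Or.inl hc, h⟩
      · exact ⟨a, Or.inr ⟨rfl, h ▸ hb⟩, c, Or.inl hc, h'⟩
      · exact ⟨b, Or.inl hb, a, Or.inr ⟨rfl, h ▸ hc⟩, h'.symm⟩
    · rintro ⟨b, hb | ⟨hb, hx⟩, c, hc | ⟨hc, hx'⟩, hbc⟩
      · exact ⟨b, hb, c, hc, hbc.ne, fun h => haB w (h ▸ hb), fun h => haB w' (h ▸ hc), Or.inl hbc⟩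
      · refine ⟨b, hb, x, hx', ?_, fun h => haB w (h ▸ hb), fun h => haB w' (h ▸ hx'),
          Or.inr (Or.inr ⟨rfl, ?_⟩)⟩
        · intro h
          exact Set.disjoint_left.1 (h3 w w' hw) hb (h ▸ hx')
        · rw [hc] at hbc
          exact hbc.symm
      · refine ⟨x, hx, c, hc, ?_, fun h => haB w (h ▸ hx), fun h => haB w' (h ▸ hc),
          Or.inr (Or.inl ⟨rfl, ?_⟩)⟩
        · intro h
          exact Set.disjoint_left.1 (h3 w w' hw) hx (h ▸ hc)
        · rw [hb] at hbc
          exact hbc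
      · exact absurd (hb.trans hc.symm) hbc.ne

theorem ContrIMS_conn_contr {a x : V} {X : Set V} (ha : a ∈ X) (hx : x ∈ X) (hxa : x ≠ a)
    (hc : Conn G X) : Conn (contr G a x) (X \ {a}) := by
  refine ⟨⟨x, hx, hxa⟩, fun C hC hne hne' => ?_⟩
  have haC : a ∉ C := fun h => (hC h).2 rfl
  by_cases hxC : x ∈ C
  · have h1 : insert a C ⊆ X := Set.insert_subset ha fun v hv => (hC hv).1
    have h2 : insert a C ≠ X := by
      intro h
      apply hne'
      rw [← h]
      ext v
      constructor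
      · intro hv
        exact ⟨Or.inr hv, fun h' => haC (h' ▸ hv)⟩
      · rintro ⟨hv | hv, hva⟩
        · exact absurd hv hva
        · exact hv
    obtain ⟨b, hb, c, hcX, hbc⟩ := hc.2 _ h1 (Set.insert_nonempty a C) h2
    have hca : c ≠ a := fun h => hcX.2 (Or.inl h)
    have hcC : c ∉ C := fun h => hcX.2 (Or.inr h)
    rcases hb with hb | hb
    · rw [hb] at hbc
      exact ⟨x, hxC, c, ⟨⟨hcX.1, hca⟩, hcC⟩, fun h => hcC (h ▸ hxC), hxa, hca,
        Or.inr (Or.inl ⟨rfl, hbc⟩)⟩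
    · exact ⟨b, hb, c, ⟨⟨hcX.1, hca⟩, hcC⟩, hbc.ne, fun h => haC (h ▸ hb), hca, Or.inl hbc⟩
  · have h1 : C ⊆ X := fun v hv => (hC hv).1
    have h2 : C ≠ X := fun h => haC (h ▸ ha)
    obtain ⟨b, hb, c, hcX, hbc⟩ := hc.2 _ h1 hne h2
    have hba : b ≠ a := fun h => haC (h ▸ hb)
    by_cases hca : c = a
    · rw [hca] at hbc
      exact ⟨b, hb, x, ⟨⟨hx, hxa⟩, hxC⟩, fun h => hxC (h ▸ hb), hba, hxa,
        Or.inr (Or.inr ⟨rfl, hbc.symm⟩)⟩
    · exact ⟨b, hb, c, ⟨⟨hcX.1, hca⟩, hcX.2⟩, hbc.ne, hba, hca, Or.inl hbc⟩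

theorem ContrIMS_mono {a x : V} {X : Set V} (ha : a ∉ X) (hc : Conn G X) :
    Conn (contr G a x) X := by
  apply hc.mono_graph
  intro u hu v hv huv
  exact ⟨huv.ne, fun h => ha (h ▸ hu), fun h => ha (h ▸ hv), Or.inl huv⟩

theorem nonContr : S_NonContr := by
  intro V _ G S a x h3 h5 haS hxS hax hnot
  by_contra hcon
  push Not at hcon
  apply hnot
  have hxa : x ≠ a := hax.ne.symm
  refine ⟨?_, ?_⟩
  · have := Set.ncard_sdiff_singleton_of_mem haS
    omega
  · have hB : ∀ v, Conn (contr G a x) (S \ {a, x, v}) := by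
      intro v
      apply ContrIMS_mono (fun h => h.2 (Or.inl rfl))
      by_cases hv : v ∈ S ∧ v ≠ a ∧ v ≠ x
      · exact hcon v hv.1 hv.2.1 hv.2.2
      · have e : S \ {a, x, v} = S \ {a, x} := by
          ext w
          constructor
          · rintro ⟨h1, h2⟩
            exact ⟨h1, fun h => h2 (h.elim Or.inl fun h => Or.inr (Or.inl h))⟩
          · rintro ⟨h1, h2⟩
            refine ⟨h1, ?_⟩
            rintro (h | h | h)
            · exact h2 (Or.inl h)
            · exact h2 (Or.inr h)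
            · apply hv
              have h' : w = v := h
              rw [← h']
              exact ⟨h1, fun h => h2 (Or.inl h), fun h => h2 (Or.inr h)⟩
        rw [e]
        exact h3.2 a x
    intro u v
    by_cases hxu : x = u
    · have e : (S \ {a}) \ {u, v} = S \ {a, x, v} := by
        rw [← hxu, Set.sdiff_sdiff]
        congr 1
      rw [e]
      exact hB v
    by_cases hxv : x = v
    · have e : (S \ {a}) \ {u, v} = S \ {a, x, u} := by
        rw [← hxv, Set.sdiff_sdiff, Set.pair_comm u x]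
        congr 1
      rw [e]
      exact hB u
    by_cases hau : a = u ∨ a = v
    · have e : (S \ {a}) \ {u, v} = S \ {u, v} := by
        ext w
        constructor
        · rintro ⟨h1, h2⟩
          exact ⟨h1.1, h2⟩
        · rintro ⟨h1, h2⟩
          refine ⟨⟨h1, ?_⟩, h2⟩
          intro h
          apply h2
          have h' : w = a := h
          rw [h']
          exact hau
      rw [e]
      apply ContrIMS_mono _ (h3.2 u v)
      intro h
      exact h.2 hau
    · have e : (S \ {a}) \ {u, v} = (S \ {u, v}) \ {a} := by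
        rw [Set.sdiff_sdiff, Set.sdiff_sdiff, Set.union_comm]
      rw [e]
      have ha' : a ∈ S \ {u, v} := ⟨haS, hau⟩
      have hx' : x ∈ S \ {u, v} := by
        refine ⟨hxS, ?_⟩
        rintro (h | h)
        · exact hxu h
        · exact hxv h
      exact ContrIMS_conn_contr ha' hx' hxa (h3.2 u v)

end Pool.Agent.MPd439b2
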