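import Pool.Agent.Lib.MP_d439b2_co.Spec2

/-!
# F11: few disjoint pairs give a small cover
-/

namespace Pool.Agent.MPd439b2

theorem Cover_ncard {V : Type} [Finite V] (m : ℕ) (p : Fin m → Set V)
    (hp : ∀ q, (p q).ncard = 2) : (⋃ q, p q).ncard ≤ 2 * m := by
  induction m with
  | zero => simp
  | succ m ih =>
    have h1 : (⋃ q, p q) = p 0 ∪ ⋃ q : Fin m, p q.succ := by
      ext v
      simp only [Set.mem_iUnion, Set.mem_union]
      exact Fin.exists_fin_succ
    rw [h1]
    have h2 := Set.ncard_union_le (p 0) (⋃ q : Fin m, p q.succ)
    have h3 := ih (fun q => p q.succ) (fun q => hp _)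
    have h4 := hp 0
    omega

theorem cover : S_Cover := by
  intro V _ F m hF h
  induction m with
  | zero => exact absurd ⟨fun q => q.elim0, fun q => q.elim0, fun q => q.elim0⟩ h
  | succ m ih =>
    by_cases hm : ∃ p : Fin m → Set V, (∀ q, p q ∈ F) ∧ ∀ q q', q ≠ q' → Disjoint (p q) (p q')
    · obtain ⟨p, hp, hd⟩ := hm
      refine ⟨⋃ q, p q, Set.iUnion_subset fun q => Set.subset_sUnion_of_mem (hp q), ?_, ?_⟩
      · have := Cover_ncard m p (fun q => hF _ (hp q))
        omega
      · intro A hA
        by_contra hne
        rw [Set.not_nonempty_iff_eq_empty] at hne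
        have hdA : ∀ q, Disjoint A (p q) := by
          intro q
          rw [Set.disjoint_left]
          intro v hvA hvp
          have : v ∈ A ∩ ⋃ q, p q := ⟨hvA, Set.mem_iUnion.2 ⟨q, hvp⟩⟩
          rw [hne] at this
          exact this
        apply h
        refine ⟨Fin.cons A p, ?_, ?_⟩
        · intro q
          refine Fin.cases ?_ (fun i => ?_) q
          · exact hA
          · exact hp i
        · intro q q'
          refine Fin.cases ?_ (fun i => ?_) q
          · refine Fin.cases ?_ (fun j => ?_) q'
            · intro h0
              exact absurd rfl h0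
            · intro _
              exact hdA j
          · refine Fin.cases ?_ (fun j => ?_) q'
            · intro _
              exact (hdA i).symm
            · intro h0
              exact hd i j (fun h1 => h0 (by rw [h1]))
    · obtain ⟨C, h1, h2, h3⟩ := ih hm
      exact ⟨C, h1, by omega, h3⟩

end Pool.Agent.MPd439b2
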