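import Mathlib

/-!
# MP_d439b2_co : clique-width of graphs excluding two induced minors

Definitions used in the final statements.
-/

namespace Pool.Agent.MPd439b2

/-! ### induced minors -/

/-- `H` is an induced minor of `G`: there is an induced minor model, i.e. a family of pairwise
disjoint (nonempty) connected vertex sets `B w`, one for every vertex `w` of `H`, such that for
distinct `w, w'` there is an edge of `G` between `B w` and `B w'` if and only if `w w'` is an edge
of `H` (delete the vertices outside the sets and contract every set to one vertex). -/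
def IsIndMinor {W V : Type} (H : SimpleGraph W) (G : SimpleGraph V) : Prop :=
  ∃ B : W → Set V, (∀ w, (G.induce (B w)).Connected) ∧
    (∀ w w', w ≠ w' → Disjoint (B w) (B w')) ∧
    ∀ w w', w ≠ w' → (H.Adj w w' ↔ ∃ x ∈ B w, ∃ y ∈ B w', G.Adj x y)

/-! ### clique-width -/

/-- `k`-expressions: single labelled vertices, disjoint union, adding all edges between the labels
`i ≠ j`, relabelling `i` to `j` -/
inductive Expr (k : ℕ) : Type
  | vertex (l : Fin k) : Expr k
  | union (a b : Expr k) : Expr k
  | join (i j : Fin k) (h : i ≠ j) (a : Expr k) : Expr k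
  | relabel (i j : Fin k) (a : Expr k) : Expr k

namespace Expr

variable {k : ℕ}

/-- the vertices of the graph defined by an expression -/
def V : Expr k → Type
  | vertex _ => Unit
  | union a b => a.V ⊕ b.V
  | join _ _ _ a => a.V
  | relabel _ _ a => a.V

/-- the label of a vertex -/
def label : (e : Expr k) → e.V → Fin k
  | vertex l => fun _ => l
  | union a b => fun v => match v with
    | Sum.inl u => a.label u
    | Sum.inr u => b.label u
  | join _ _ _ a => fun v => a.label v
  | relabel i j a => fun v => if a.label v = i then j else a.label v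

/-- adjacency in the graph defined by an expression -/
def Rel : (e : Expr k) → e.V → e.V → Prop
  | vertex _ => fun _ _ => False
  | union a b => fun u v => match u, v with
    | Sum.inl u, Sum.inl v => a.Rel u v
    | Sum.inr u, Sum.inr v => b.Rel u v
    | _, _ => False
  | join i j _ a => fun u v => a.Rel u v ∨ (a.label u = i ∧ a.label v = j) ∨
      (a.label u = j ∧ a.label v = i)
  | relabel _ _ a => fun u v => a.Rel u v

end Expr

/-- the clique-width of `G` is at most `k` -/
def CWLe {V : Type} (k : ℕ) (G : SimpleGraph V) : Prop :=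
  ∃ (e : Expr k) (φ : V ≃ e.V), ∀ u v, G.Adj u v ↔ e.Rel (φ u) (φ v)

/-- the class of `(H₁, H₂)`-induced-minor-free graphs has bounded clique-width -/
def BoundedCW {W₁ W₂ : Type} (H₁ : SimpleGraph W₁) (H₂ : SimpleGraph W₂) : Prop :=
  ∃ c : ℕ, ∀ (V : Type) [Finite V] [Nonempty V] (G : SimpleGraph V),
    ¬ IsIndMinor H₁ G → ¬ IsIndMinor H₂ G → CWLe c G

/-- `K_5` minus an edge: the complete graph on `0, 1, 2, 3, 4` without the edge `34` -/
def K5m : SimpleGraph (Fin 5) where
  Adj i j := i ≠ j ∧ (i.val < 3 ∨ j.val < 3)
  symm := ⟨fun _ _ h => ⟨h.1.symm, h.2.symm⟩⟩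
  loopless := ⟨fun _ h => h.1 rfl⟩

/-- the vertex set is the union of a clique `K` and an independent set all of whose vertices have
degree at most two -/
def InS2 {W : Type} (H : SimpleGraph W) : Prop :=
  ∃ K : Set W, (∀ u ∈ K, ∀ v ∈ K, u ≠ v → H.Adj u v) ∧
    (∀ u, u ∉ K → ∀ v, v ∉ K → ¬ H.Adj u v) ∧
    ∀ v, v ∉ K → (H.neighborSet v).encard ≤ 2

/-- First theorem: the dichotomy for `K_5` minus an edge. -/
def Goal1 : Prop :=
  ∀ (W : Type) [Finite W] (H : SimpleGraph W), BoundedCW K5m H ↔ InS2 H

end Pool.Agent.MPd439b2
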