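import Pool.Agent.Lib.MP_d439b2_co.Defs

/-!
# MP_d439b2_co, internal definitions

Everything is formulated for subsets of one ambient (finite) vertex set.
-/

namespace Pool.Agent.MPd439b2

variable {V W : Type}

/-- the set `A` is nonempty and connected in `G`, cut version: every nonempty proper subset `B` of
`A` is joined by an edge to `A \ B` -/
def Conn (G : SimpleGraph V) (A : Set V) : Prop :=
  A.Nonempty ∧ ∀ B : Set V, B ⊆ A → B.Nonempty → B ≠ A → ∃ b ∈ B, ∃ a ∈ A \ B, G.Adj b a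

/-- the neighbours of the set `A` outside `A` -/
def nb (G : SimpleGraph V) (A : Set V) : Set V := {v | v ∉ A ∧ ∃ a ∈ A, G.Adj a v}

/-- there is an edge between `A` and `B` -/
def Tch (G : SimpleGraph V) (A B : Set V) : Prop := ∃ a ∈ A, ∃ b ∈ B, G.Adj a b

/-- `H` is an induced minor of the subgraph of `G` induced by `S` -/
def IMS (H : SimpleGraph W) (G : SimpleGraph V) (S : Set V) : Prop :=
  ∃ B : W → Set V, (∀ w, B w ⊆ S) ∧ (∀ w, Conn G (B w)) ∧
    (∀ w w', w ≠ w' → Disjoint (B w) (B w')) ∧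
    ∀ w w', w ≠ w' → (H.Adj w w' ↔ Tch G (B w) (B w'))

/-- `G` with the edge `x y` added (if `x ≠ y`) -/
def addE (G : SimpleGraph V) (x y : V) : SimpleGraph V where
  Adj u v := G.Adj u v ∨ (u ≠ v ∧ ((u = x ∧ v = y) ∨ (u = y ∧ v = x)))
  symm := ⟨fun u v h => by
    rcases h with h | ⟨h1, h2⟩
    · exact Or.inl h.symm
    · exact Or.inr ⟨h1.symm, h2.elim (fun h => Or.inr ⟨h.2, h.1⟩) (fun h => Or.inl ⟨h.2, h.1⟩)⟩⟩
  loopless := ⟨fun u h => by
    rcases h with h | ⟨h1, _⟩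
    · exact G.loopless.irrefl u h
    · exact h1 rfl⟩

/-- contraction of the edge `a x` onto the vertex `x`; the vertex `a` becomes isolated -/
def contr (G : SimpleGraph V) (a x : V) : SimpleGraph V where
  Adj u v := u ≠ v ∧ u ≠ a ∧ v ≠ a ∧ (G.Adj u v ∨ (u = x ∧ G.Adj a v) ∨ (v = x ∧ G.Adj a u))
  symm := ⟨fun u v h => ⟨h.1.symm, h.2.2.1, h.2.1, by
    rcases h.2.2.2 with h | h | h
    · exact Or.inl h.symm
    · exact Or.inr (Or.inr h)
    · exact Or.inr (Or.inl h)⟩⟩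
  loopless := ⟨fun u h => h.1 rfl⟩

/-- the nonempty traces outside `A` of the neighbourhoods of the vertices of `A` -/
def Types (G : SimpleGraph V) (A : Set V) : Set (Set V) :=
  {T | T.Nonempty ∧ ∃ a ∈ A, T = G.neighborSet a \ A}

/-- the set `A` has a layout of width at most `k`: a rooted binary tree with leaves the vertices of
`A` such that the set of leaves below any node has at most `k` nonempty types -/
inductive Lay (G : SimpleGraph V) (k : ℕ) : Set V → Prop
  | empty : Lay G k ∅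
  | single (v : V) : (Types G {v}).encard ≤ k → Lay G k {v}
  | union {A B : Set V} : Lay G k A → Lay G k B → Disjoint A B →
      (Types G (A ∪ B)).encard ≤ k → Lay G k (A ∪ B)

/-- the complete graph on `N` vertices together with `m` vertices of degree two attached to
disjoint pairs `{2q, 2q+1}` (for `2 m ≤ N`) -/
def DD (N m : ℕ) : SimpleGraph (Fin N ⊕ Fin m) where
  Adj
    | Sum.inl i, Sum.inl j => i ≠ j
    | Sum.inl i, Sum.inr q => i.val = 2 * q.val ∨ i.val = 2 * q.val + 1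
    | Sum.inr q, Sum.inl i => i.val = 2 * q.val ∨ i.val = 2 * q.val + 1
    | Sum.inr _, Sum.inr _ => False
  symm := ⟨fun u v h => by
    rcases u with u | u <;> rcases v with v | v
    · exact Ne.symm h
    · exact h
    · exact h
    · exact h⟩
  loopless := ⟨fun u h => by
    rcases u with u | u
    · exact h rfl
    · exact h⟩

/-- neither `K_5` minus an edge nor `DD N m` is an induced minor of `G[S]` -/
def GoodOn (N m : ℕ) (G : SimpleGraph V) (S : Set V) : Prop :=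
  ¬ IMS K5m G S ∧ ¬ IMS (DD N m) G S

/-- `G[S]` is 3-connected -/
def ThreeConn (G : SimpleGraph V) (S : Set V) : Prop :=
  4 ≤ S.ncard ∧ ∀ a b : V, Conn G (S \ {a, b})

/-- `S` is a clique -/
def CompleteOn (G : SimpleGraph V) (S : Set V) : Prop :=
  ∀ u ∈ S, ∀ v ∈ S, u ≠ v → G.Adj u v

/-- `G[S]` is the wheel with hub `h` and rim `r 0, ..., r (n-1)`, `n ≥ 4` -/
def WheelAt (G : SimpleGraph V) (S : Set V) (n : ℕ) (h : V) (r : ℕ → V) : Prop :=
  4 ≤ n ∧ h ∈ S ∧ (∀ i < n, r i ∈ S) ∧ (∀ i < n, r i ≠ h) ∧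
    (∀ i < n, ∀ j < n, r i = r j → i = j) ∧ (∀ v ∈ S, v = h ∨ ∃ i < n, v = r i) ∧
    (∀ i < n, G.Adj h (r i)) ∧
    ∀ i < n, ∀ j < n, (G.Adj (r i) (r j) ↔
      (j = i + 1 ∨ i = j + 1 ∨ (i = 0 ∧ j = n - 1) ∨ (j = 0 ∧ i = n - 1)))

def WheelOn (G : SimpleGraph V) (S : Set V) : Prop := ∃ n h r, WheelAt G S n h r

/-- `G[S]` is isomorphic to the graph `F` -/
def IsoOn (F : SimpleGraph W) (G : SimpleGraph V) (S : Set V) : Prop :=
  ∃ p : W → V, Function.Injective p ∧ Set.range p = S ∧ ∀ i j, G.Adj (p i) (p j) ↔ F.Adj i j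

/-- the prism: triangles `0 1 2` and `3 4 5` and the edges `i (i+3)` -/
def prism : SimpleGraph (Fin 6) where
  Adj i j := i ≠ j ∧ (i.val / 3 = j.val / 3 ∨ i.val % 3 = j.val % 3)
  symm := ⟨fun _ _ h => ⟨h.1.symm, h.2.imp Eq.symm Eq.symm⟩⟩
  loopless := ⟨fun _ h => h.1 rfl⟩

/-- `K_{3,3}` with the classes `0 1 2` and `3 4 5` -/
def k33 : SimpleGraph (Fin 6) where
  Adj i j := i.val / 3 ≠ j.val / 3
  symm := ⟨fun _ _ h => h.symm⟩
  loopless := ⟨fun _ h => h rfl⟩

end Pool.Agent.MPd439b2
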