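import Pool.Agent.Lib.MP_d439b2_co.Defs

/-!
# MP_d439b2_co : classes of graphs closed under induced minors with unbounded clique-width

Definitions used in the second theorem (necessary conditions for all pairs).
-/

namespace Pool.Agent.MPd439b2

/-- `tripods ι` is the disjoint union of tripods, one for every index `c : ι`.  The tripod of index
`c` has the centre `(c, 0, 0)` and three infinite paths starting at the centre:
`(c, 0, 0), (c, 0, 1), ...`, and `(c, 0, 0), (c, 1, 0), (c, 1, 1), ...`, and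
`(c, 0, 0), (c, 2, 0), (c, 2, 1), ...`. -/
def tripods (ι : Type) : SimpleGraph (ι × Fin 3 × ℕ) where
  Adj u v := u ≠ v ∧ u.1 = v.1 ∧
    ((u.2.1 = v.2.1 ∧ (u.2.2 = v.2.2 + 1 ∨ v.2.2 = u.2.2 + 1)) ∨
      (u.2.2 = 0 ∧ v.2.2 = 0 ∧ (u.2.1 = 0 ∨ v.2.1 = 0)))
  symm := ⟨fun _ _ h => ⟨h.1.symm, h.2.1.symm, h.2.2.imp (fun h => ⟨h.1.symm, h.2.symm⟩)
    fun h => ⟨h.2.1, h.1, h.2.2.symm⟩⟩⟩
  loopless := ⟨fun _ h => h.1 rfl⟩

/-- `nets ι` is the disjoint union of nets, one for every index `c : ι`.  The net of index `c` is the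
triangle `(c, 0, 0), (c, 1, 0), (c, 2, 0)` together with the three infinite paths
`(c, i, 0), (c, i, 1), (c, i, 2), ...` starting at its vertices. -/
def nets (ι : Type) : SimpleGraph (ι × Fin 3 × ℕ) where
  Adj u v := u ≠ v ∧ u.1 = v.1 ∧
    ((u.2.1 = v.2.1 ∧ (u.2.2 = v.2.2 + 1 ∨ v.2.2 = u.2.2 + 1)) ∨ (u.2.2 = 0 ∧ v.2.2 = 0))
  symm := ⟨fun _ _ h => ⟨h.1.symm, h.2.1.symm, h.2.2.imp (fun h => ⟨h.1.symm, h.2.symm⟩)
    fun h => ⟨h.2, h.1⟩⟩⟩
  loopless := ⟨fun _ h => h.1 rfl⟩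

/-- the complement of `H` is a subgraph of a disjoint union of tripods, that is: every component of
the complement is a path or a subdivided claw -/
def InCoS {W : Type} (H : SimpleGraph W) : Prop :=
  ∃ (ι : Type) (f : W → ι × Fin 3 × ℕ), Function.Injective f ∧
    ∀ u v, Hᶜ.Adj u v → (tripods ι).Adj (f u) (f v)

/-- the complement of `H` is obtained from an induced subgraph of a disjoint union of nets by
deleting some edges of the pendant paths (no edges of the triangles), that is: every component of the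
complement is a path or a triangle with three (possibly trivial) pendant paths -/
def InCoT {W : Type} (H : SimpleGraph W) : Prop :=
  ∃ (ι : Type) (f : W → ι × Fin 3 × ℕ), Function.Injective f ∧
    (∀ u v, Hᶜ.Adj u v → (nets ι).Adj (f u) (f v)) ∧
    ∀ u v, u ≠ v → (f u).1 = (f v).1 → (f u).2.2 = 0 → (f v).2.2 = 0 → Hᶜ.Adj u v

/-- the `n × n` grid -/
def grid (n : ℕ) : SimpleGraph (Fin n × Fin n) where
  Adj u v := (u.1 = v.1 ∧ (u.2.val = v.2.val + 1 ∨ v.2.val = u.2.val + 1)) ∨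
    (u.2 = v.2 ∧ (u.1.val = v.1.val + 1 ∨ v.1.val = u.1.val + 1))
  symm := ⟨fun _ _ h => h.imp (fun h => ⟨h.1.symm, h.2.symm⟩) fun h => ⟨h.1.symm, h.2.symm⟩⟩
  loopless := ⟨fun u h => by rcases h with h | h <;> omega⟩

/-- `H` is an induced minor of a grid (it is well known that these are the planar graphs) -/
def InGrid {W : Type} (H : SimpleGraph W) : Prop := ∃ n : ℕ, IsIndMinor H (grid n)

/-- `H` is an interval graph: the intersection graph of a family of closed intervals -/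
def IsInterval {W : Type} (H : SimpleGraph W) : Prop :=
  ∃ l r : W → ℝ, (∀ v, l v ≤ r v) ∧ ∀ u v, u ≠ v → (H.Adj u v ↔ l u ≤ r v ∧ l v ≤ r u)

/-- the gem: a path `0 1 2 3` and a vertex `4` adjacent to all of it -/
def gem : SimpleGraph (Fin 5) where
  Adj i j := i ≠ j ∧ (i.val = 4 ∨ j.val = 4 ∨ i.val = j.val + 1 ∨ j.val = i.val + 1)
  symm := ⟨fun _ _ h => ⟨h.1.symm, by tauto⟩⟩
  loopless := ⟨fun _ h => h.1 rfl⟩

/-- the complement of `2 P_1 + P_3`: the complete graph on `0, 1, 2, 3` and a vertex `4` adjacent to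
`0` and `1` (the path of the complement is `2 4 3`) -/
def co2P1P3 : SimpleGraph (Fin 5) where
  Adj i j := i ≠ j ∧ (i.val < 2 ∨ j.val < 2 ∨ (i.val < 4 ∧ j.val < 4))
  symm := ⟨fun _ _ h => ⟨h.1.symm, by tauto⟩⟩
  loopless := ⟨fun _ h => h.1 rfl⟩

/-- `H` is (isomorphic to) an induced subgraph of `G` -/
def IsIndSub {W V : Type} (H : SimpleGraph W) (G : SimpleGraph V) : Prop :=
  ∃ f : W → V, Function.Injective f ∧ ∀ u v, H.Adj u v ↔ G.Adj (f u) (f v)

/-- `H` is a complete graph -/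
def IsComplete {W : Type} (H : SimpleGraph W) : Prop := ∀ u v, u ≠ v → H.Adj u v

/-- Second theorem: if the class of `(H₁, H₂)`-induced-minor-free graphs has bounded clique-width then
each of five classes of graphs contains `H₁` or `H₂`; if `H₁` lies in none of the first three of these
classes then `H₂` is complete or an induced subgraph of the gem or of `co2P1P3`. -/
def Goal2 : Prop :=
  ∀ (W₁ W₂ : Type) [Finite W₁] [Finite W₂] (H₁ : SimpleGraph W₁) (H₂ : SimpleGraph W₂),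
    BoundedCW H₁ H₂ →
    ((InS2 H₁ ∨ InS2 H₂) ∧ (InCoS H₁ ∨ InCoS H₂) ∧ (InCoT H₁ ∨ InCoT H₂) ∧
      (InGrid H₁ ∨ InGrid H₂) ∧ (IsInterval H₁ ∨ IsInterval H₂)) ∧
    (¬ InS2 H₁ → ¬ InCoS H₁ → ¬ InCoT H₁ →
      IsComplete H₂ ∨ IsIndSub H₂ gem ∨ IsIndSub H₂ co2P1P3)

end Pool.Agent.MPd439b2
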