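import Pool.Agent.Lib.MP_d439b2_co.Defs3

/-!
# MP_d439b2_co : the reduction theorem (definitions)
-/

namespace Pool.Agent.MPd439b2

/-- split graphs with a clique `K` and an independent complement of `K` such that the non-adjacency
graph between `K` and its complement is a subgraph of a disjoint union of tripods -/
def InQS {W : Type} (H : SimpleGraph W) : Prop :=
  ∃ K : Set W, (∀ u ∈ K, ∀ v ∈ K, u ≠ v → H.Adj u v) ∧ (∀ u, u ∉ K → ∀ v, v ∉ K → ¬ H.Adj u v) ∧
    ∃ (ι : Type) (f : W → ι × Fin 3 × ℕ), Function.Injective f ∧
      ∀ u ∈ K, ∀ v, v ∉ K → ¬ H.Adj u v → (tripods ι).Adj (f u) (f v)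

/-- interval graphs without four pairwise non-adjacent vertices -/
def InA3 {W : Type} (H : SimpleGraph W) : Prop :=
  IsInterval H ∧ ¬ ∃ p : Fin 4 → W, Function.Injective p ∧ ∀ i j, ¬ H.Adj (p i) (p j)

/-- `H` is the join of a complete graph and an induced subgraph of the path `P_4` with the vertices
`0, 1, 2, 3`: the vertices with the label `none` are adjacent to all other vertices, every label
`some i` occurs at most once, and two vertices with the labels `some i`, `some j` are adjacent if and
only if `i, j` are consecutive -/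
def IsKP4 {W : Type} (H : SimpleGraph W) : Prop :=
  ∃ g : W → Option (Fin 4), (∀ u v i, g u = some i → g v = some i → u = v) ∧
    ∀ u v, u ≠ v → (H.Adj u v ↔ ∀ i j, g u = some i → g v = some j →
      i.val = j.val + 1 ∨ j.val = i.val + 1)

/-- the alternatives of the reduction theorem for the ordered pair `(H, H')`: `H` belongs to `S2`, and
`H` is complete or has at most eight vertices, or `H'` is the join of a complete graph and an induced
subgraph of `P_4` -/
def Red {W W' : Type} (H : SimpleGraph W) (H' : SimpleGraph W') : Prop :=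
  InS2 H ∧ (IsComplete H ∨ Nat.card W ≤ 8 ∨ IsKP4 H')

/-- Second theorem: reduction of the classification of all pairs. -/
def Goal3 : Prop :=
  ∀ (W₁ W₂ : Type) [Finite W₁] [Finite W₂] (H₁ : SimpleGraph W₁) (H₂ : SimpleGraph W₂),
    BoundedCW H₁ H₂ → (InGrid H₁ ∨ InGrid H₂) ∧ (Red H₁ H₂ ∨ Red H₂ H₁)

end Pool.Agent.MPd439b2
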