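import Pool.Agent.Lib.MP_d439b2_co.Basic
import Pool.Agent.Lib.MP_d439b2_co.Defs4

/-!
# MP_d439b2_co : definitions for Theorem B (pairs `H`, `K_s ∨ J` with `J` an induced subgraph of `P_4`)
-/

set_option autoImplicit false

namespace Pool.Agent.MPd439b2

variable {V W : Type}

/-- the join of the complete graph `K_s` and the path `P_4` with the vertices `0, 1, 2, 3` -/
def KP (s : ℕ) : SimpleGraph (Fin s ⊕ Fin 4) where
  Adj
    | Sum.inl i, Sum.inl j => i ≠ j
    | Sum.inl _, Sum.inr _ => True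
    | Sum.inr _, Sum.inl _ => True
    | Sum.inr i, Sum.inr j => i.val = j.val + 1 ∨ j.val = i.val + 1
  symm := ⟨fun u v h => by
    rcases u with u | u <;> rcases v with v | v
    · exact Ne.symm h
    · exact trivial
    · exact trivial
    · exact Or.symm h⟩
  loopless := ⟨fun u h => by
    rcases u with u | u
    · exact h rfl
    · change u.val = u.val + 1 ∨ u.val = u.val + 1 at h
      omega⟩

/-- `Free s N m G`: neither `K_s ∨ P_4` nor `DD N m` is an induced minor of `G` -/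
def Free (s N m : ℕ) (G : SimpleGraph V) : Prop :=
  ¬ IMS (KP s) G Set.univ ∧ ¬ IMS (DD N m) G Set.univ

/-- a model of a complete graph indexed by `Fin t`: the sets `B i` are connected, pairwise disjoint
and pairwise touching -/
def CliqueModel {t : ℕ} (G : SimpleGraph V) (B : Fin t → Set V) : Prop :=
  (∀ i, Conn G (B i)) ∧ ∀ i j, i ≠ j → Disjoint (B i) (B j) ∧ Tch G (B i) (B j)

/-- a model of a complete graph indexed by a finite set of natural numbers -/
def Mdl (G : SimpleGraph V) (I : Finset ℕ) (B : ℕ → Set V) : Prop :=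
  (∀ i ∈ I, Conn G (B i)) ∧
    ∀ i ∈ I, ∀ j ∈ I, i ≠ j → Disjoint (B i) (B j) ∧ Tch G (B i) (B j)

open Classical in
/-- the indices `i ∈ I` of the sets `B i` touched by `D` -/
noncomputable def tau (G : SimpleGraph V) (I : Finset ℕ) (B : ℕ → Set V) (D : Set V) : Finset ℕ :=
  I.filter fun i => Tch G D (B i)

theorem mem_tau {G : SimpleGraph V} {I : Finset ℕ} {B : ℕ → Set V} {D : Set V} {i : ℕ} :
    i ∈ tau G I B D ↔ i ∈ I ∧ Tch G D (B i) := by
  classical
  unfold tau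
  rw [Finset.mem_filter]

/-- four connected, pairwise disjoint sets; exactly the consecutive ones touch -/
def PathPat (G : SimpleGraph V) (P : Fin 4 → Set V) : Prop :=
  (∀ i, Conn G (P i)) ∧ (∀ i j, i ≠ j → Disjoint (P i) (P j)) ∧
    ∀ i j, i ≠ j → (Tch G (P i) (P j) ↔ i.val = j.val + 1 ∨ j.val = i.val + 1)

/-- the subgraph induced by `A` has no induced path with four vertices (the vertices
`a, b, c, d` below are automatically distinct) -/
def P4Free (G : SimpleGraph V) (A : Set V) : Prop :=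
  ∀ a ∈ A, ∀ b ∈ A, ∀ c ∈ A, ∀ d ∈ A, G.Adj a b → G.Adj b c → G.Adj c d →
    ¬ G.Adj a c → ¬ G.Adj b d → G.Adj a d

/-- `D` is (the vertex set of) a connected component of `G[X]` -/
def IsComp (G : SimpleGraph V) (X D : Set V) : Prop :=
  D ⊆ X ∧ Conn G D ∧ ∀ u ∈ X, u ∉ nb G D

/-- `S` is well linked up to the order `θ`: no separation of order at most `θ` has more vertices of `S`
than its order on both sides -/
def WL (G : SimpleGraph V) (S : Set V) (θ : ℕ) : Prop :=
  ∀ P Z R : Set V, P ∪ Z ∪ R = Set.univ → Disjoint P Z → Disjoint Z R → Disjoint P R →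
    (∀ p ∈ P, ∀ r ∈ R, ¬ G.Adj p r) → Z.ncard ≤ θ →
      (S ∩ P).ncard ≤ Z.ncard ∨ (S ∩ R).ncard ≤ Z.ncard

/-- the model `B` is deep of order `k` with respect to `S`: a set `X` of fewer than `k` vertices does
not separate it from more than half of `S` -/
def Deep {t : ℕ} (G : SimpleGraph V) (S : Set V) (k : ℕ) (B : Fin t → Set V) : Prop :=
  ∀ X : Set V, X.ncard < k →
    ∃ i, ∃ C : Set V, Disjoint C X ∧ Conn G C ∧ B i ⊆ C ∧ S.ncard < 2 * (S ∩ C).ncard

/-- the set `Q` of vertices is deep of order `k` with respect to `S` -/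
def DeepV (G : SimpleGraph V) (S : Set V) (k : ℕ) (Q : Set V) : Prop :=
  ∀ X : Set V, X.ncard < k →
    ∃ q ∈ Q, ∃ C : Set V, Disjoint C X ∧ Conn G C ∧ q ∈ C ∧ S.ncard < 2 * (S ∩ C).ncard

/-- **Theorem GK**: a well linked set yields a grid or a deep model of a complete graph. -/
def S_GK : Prop := ∀ t r k : ℕ, k ≤ t → ∃ θ₀ : ℕ, ∀ θ : ℕ, θ₀ ≤ θ →
  ∀ (V : Type) [Finite V] (G : SimpleGraph V) (S : Set V), WL G S θ → 5 * θ ≤ S.ncard →
    IMS (grid r) G Set.univ ∨ ∃ B : Fin t → Set V, CliqueModel G B ∧ Deep G S k B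

/-- **Theorem Q**: a large model of a complete graph yields a complete bipartite subgraph all of whose
vertices on one side touch many sets of the model. -/
def S_Q : Prop := ∀ s N m n : ℕ, ∃ t₀ : ℕ, ∀ t : ℕ, t₀ ≤ t →
  ∀ (V : Type) [Finite V] (G : SimpleGraph V) (B : ℕ → Set V), Free s N m G →
    Mdl G (Finset.range t) B → ∃ Q₁ Q₂ : Set V, Disjoint Q₁ Q₂ ∧ n ≤ Q₁.ncard ∧ n ≤ Q₂.ncard ∧
      (∀ a ∈ Q₁, ∀ b ∈ Q₂, G.Adj a b) ∧ ∀ a ∈ Q₁, n ≤ (tau G (Finset.range t) B {a}).card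

/-- **Theorem C** (the core): structure around a large complete bipartite subgraph. -/
def S_Core : Prop := ∀ s N m : ℕ, ∃ n τ : ℕ,
  ∀ (V : Type) [Finite V] (G : SimpleGraph V) (Q₁ Q₂ : Set V), Free s N m G →
    Disjoint Q₁ Q₂ → n ≤ Q₁.ncard → n ≤ Q₂.ncard → (∀ a ∈ Q₁, ∀ b ∈ Q₂, G.Adj a b) →
      ∃ A T : Set V, Q₁ ∪ Q₂ ⊆ A ∧ T.ncard ≤ τ ∧ P4Free G A ∧
        ∀ D, IsComp G (A ∪ T)ᶜ D → ((nb G D ∩ A) \ T).ncard ≤ 1

/-- **Theorem DG**: the structure of a graph without the three induced minors, seen from a large well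
linked set. -/
def S_DG : Prop := ∀ s N m r : ℕ, ∃ θ τ : ℕ,
  ∀ (V : Type) [Finite V] (G : SimpleGraph V) (S : Set V), WL G S θ → 5 * θ ≤ S.ncard →
    Free s N m G → ¬ IMS (grid r) G Set.univ →
      ∃ A T : Set V, T.ncard ≤ τ ∧ Disjoint A T ∧ P4Free G A ∧
        ∀ D, IsComp G (A ∪ T)ᶜ D → (nb G D ∩ A).ncard ≤ 1 ∧ 2 * (S ∩ D).ncard ≤ S.ncard

/-- **Theorem L**: graphs without the three induced minors have layouts of bounded width. -/
def S_LayB : Prop := ∀ s N m r : ℕ, 2 ≤ N → 2 * m ≤ N → 2 ≤ r → ∃ k : ℕ,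
  ∀ (V : Type) [Finite V] (G : SimpleGraph V), Free s N m G → ¬ IMS (grid r) G Set.univ →
    Lay G k Set.univ

end Pool.Agent.MPd439b2
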