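import Pool.Agent.Lib.MP_d439b2_co.Defs7
import Pool.Agent.Lib.MP_d439b2_co.B.SpecG

/-!
# MP_d439b2_co : the remaining pairs (definitions)
-/

set_option autoImplicit false

namespace Pool.Agent.MPd439b2

/-- `H` contains one of six small graphs: `K_4 + P_1`; `K_5` with a vertex of degree one; `K_4` with two
vertices attached to two disjoint edges; a triangle `0 1 2` with an isolated vertex and two vertices
attached to the edges `0 1`, `0 2`; a triangle with a vertex attached to `0` and two vertices attached to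
the edge `1 2`; the `3`-sun -/
def Six {W : Type} (H : SimpleGraph W) : Prop :=
  IsIndMinor (KA 4 1 ![∅]) H ∨ IsIndMinor (KA 5 1 ![{0}]) H ∨
  IsIndMinor (KA 4 2 ![{0, 1}, {2, 3}]) H ∨ IsIndMinor (KA 3 3 ![∅, {0, 1}, {0, 2}]) H ∨
  IsIndMinor (KA 3 3 ![{0}, {1, 2}, {1, 2}]) H ∨ IsIndMinor (KA 3 3 ![{0, 1}, {0, 2}, {1, 2}]) H

/-- The remaining ordered pairs: `H` is in `S2` and has three pairwise non-adjacent vertices, `H'` is
not a join as in `IsKP4`, and all known necessary conditions hold. -/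
def Left {W W' : Type} (H : SimpleGraph W) (H' : SimpleGraph W') : Prop :=
  InS2 H ∧ Ind3 H ∧ ¬ IsKP4 H' ∧ InCoS H' ∧ (InCoT H ∨ InCoT H') ∧
    ¬ IsIndMinor co2P3 H' ∧ ¬ IsIndMinor co6P2 H' ∧
    (¬ IsIndSub cyc4 H' ∨ (InQS H ∧ InA3 H ∧ ¬ Six H)) ∧
    (IsIndMinor (KA 2 2 ![∅, ∅]) H → ¬ IsIndMinor coP6 H' ∧ ¬ IsIndMinor coP4P2 H') ∧
    (IsIndMinor (KA 3 2 ![∅, {0, 1}]) H → ¬ IsIndMinor coP3P2 H' ∧ ¬ IsIndMinor co3P2 H')

end Pool.Agent.MPd439b2
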