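import Pool.Agent.Lib.MP_d439b2_co.Spec1

/-!
# MP_d439b2_co, task G4: vertices of degree at most three
-/

namespace Pool.Agent.MPd439b2

namespace Deg4Aux

variable {V : Type} {G : SimpleGraph V}

theorem ncard_le_three [Finite V] {T : Set V} {u v w : V}
    (h : ∀ z ∈ T, z = u ∨ z = v ∨ z = w) : T.ncard ≤ 3 := by
  have h1 : T ⊆ ({u, v, w} : Set V) := fun z hz => by
    simpa using h z hz
  have h2 : T.ncard ≤ ({u, v, w} : Set V).ncard := Set.ncard_le_ncard h1 (Set.toFinite _)
  have h3 : ({u, v, w} : Set V).ncard ≤ ({v, w} : Set V).ncard + 1 := Set.ncard_insert_le _ _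
  have h4 : ({v, w} : Set V).ncard ≤ ({w} : Set V).ncard + 1 := Set.ncard_insert_le _ _
  have h5 : ({w} : Set V).ncard = 1 := Set.ncard_singleton _
  omega

/-- an edge between two vertices different from `a` is an edge of the contraction -/
theorem contr_of_adj {a x u v : V} (hu : u ≠ a) (hv : v ≠ a) (h : G.Adj u v) :
    (contr G a x).Adj u v := ⟨h.ne, hu, hv, Or.inl h⟩

/-- an edge of the contraction between two vertices different from `x` is an edge -/
theorem adj_of_contr {a x u v : V} (hu : u ≠ x) (hv : v ≠ x) (h : (contr G a x).Adj u v) :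
    G.Adj u v := by
  rcases h.2.2.2 with h1 | ⟨h1, _⟩ | ⟨h1, _⟩
  · exact h1
  · exact absurd h1 hu
  · exact absurd h1 hv

/-- the neighbours of a vertex not adjacent to `x` in the contraction -/
theorem nb_sub {S : Set V} {a x v : V} (hax : a ≠ x) (hva : v ≠ a) (hvx : v ≠ x)
    (h : ¬ (contr G a x).Adj v x) {w : V} (hw : w ∈ S ∩ G.neighborSet v) :
    w ∈ S \ {a} ∧ (contr G a x).Adj v w := by
  have hadj : G.Adj v w := hw.2
  have hwa : w ≠ a := by
    rintro rfl
    exact h ⟨hvx, hva, hax.symm, Or.inr (Or.inr ⟨rfl, hadj.symm⟩)⟩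
  exact ⟨⟨hw.1, hwa⟩, contr_of_adj hva hwa hadj⟩

theorem three_of_ncard [Finite V] {T : Set V} (h : 3 ≤ T.ncard) :
    ∃ u ∈ T, ∃ v ∈ T, ∃ w ∈ T, u ≠ v ∧ u ≠ w ∧ v ≠ w := by
  obtain ⟨T', hT', hc⟩ := Set.exists_subset_card_eq h
  obtain ⟨u, v, w, huv, huw, hvw, rfl⟩ := Set.ncard_eq_three.1 hc
  exact ⟨u, hT' (by simp), v, hT' (by simp), w, hT' (by simp), huv, huw, hvw⟩

/-- the case of a complete contraction, one half -/
theorem complete_half [Finite V] {S : Set V} {a x c : V} (haS : a ∈ S) (hax : G.Adj a x)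
    (hC : ∀ u ∈ S, ∀ v ∈ S, u ≠ a → u ≠ x → v ≠ a → v ≠ x → u ≠ v → G.Adj u v)
    (hcS : c ∈ S) (hca : c ≠ a) (hcx : c ≠ x) (hn : ¬ G.Adj a c) (hK : ¬ IMS K5m G S) :
    (S ∩ G.neighborSet a).ncard ≤ 3 := by
  by_contra hcon
  push Not at hcon
  have h1 : 3 ≤ ((S ∩ G.neighborSet a) \ {x}).ncard := by
    have := Set.ncard_le_ncard_sdiff_add_ncard (S ∩ G.neighborSet a) {x}
    rw [Set.ncard_singleton] at this
    omega
  obtain ⟨u, hu, v, hv, w, hw, huv, huw, hvw⟩ := three_of_ncard h1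
  have key : ∀ t ∈ (S ∩ G.neighborSet a) \ {x}, t ∈ S ∧ t ≠ x ∧ t ≠ a ∧ t ≠ c ∧ G.Adj t a ∧
      G.Adj t c := by
    rintro t ⟨⟨ht1, ht2⟩, ht3⟩
    have h4 : G.Adj a t := ht2
    have h5 : t ≠ c := by rintro rfl; exact hn h4
    exact ⟨ht1, ht3, h4.ne', h5, h4.symm, hC t ht1 c hcS h4.ne' ht3 hca hcx h5⟩
  obtain ⟨u1, u2, u3, u4, u5, u6⟩ := key u hu
  obtain ⟨v1, v2, v3, v4, v5, v6⟩ := key v hv
  obtain ⟨w1, w2, w3, w4, w5, w6⟩ := key w hw
  apply hK
  have hs : ∀ {t : V}, t ∈ S → ({t} : Set V) ⊆ S := fun ht => Set.singleton_subset_iff.mpr ht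
  have hd : ∀ {s t : V}, s ≠ t → Disjoint ({s} : Set V) {t} := fun h =>
    Set.disjoint_singleton.mpr h
  have ht : ∀ {s t : V}, G.Adj s t → Tch G {s} {t} := fun h => ⟨_, rfl, _, rfl, h⟩
  refine ims_K5m (hs u1) (hs v1) (hs w1) (hs haS) (hs hcS) (Conn.singleton G u)
    (Conn.singleton G v) (Conn.singleton G w) (Conn.singleton G a) (Conn.singleton G c)
    (hd huv) (hd huw) (hd u3) (hd u4) (hd hvw) (hd v3) (hd v4) (hd w3) (hd w4) (hd hca.symm)
    (ht (hC u u1 v v1 u3 u2 v3 v2 huv)) (ht (hC u u1 w w1 u3 u2 w3 w2 huw)) (ht u5) (ht u6)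
    (ht (hC v v1 w w1 v3 v2 w3 w2 hvw)) (ht v5) (ht v6) (ht w5) (ht w6) ?_
  rintro ⟨s, hs', t, ht', hst⟩
  rw [Set.mem_singleton_iff] at hs' ht'
  subst hs' ht'
  exact hn hst

theorem wheel_nb {S : Set V} {n : ℕ} {h : V} {r : ℕ → V} (hw : WheelAt G S n h r) {j : ℕ}
    (hj : j < n) : ∃ u v, ∀ z ∈ S, G.Adj (r j) z → z = h ∨ z = u ∨ z = v := by
  obtain ⟨hn, _, _, _, _, hcov, _, hadj⟩ := hw
  refine ⟨r (if j = n - 1 then 0 else j + 1), r (if j = 0 then n - 1 else j - 1), ?_⟩
  intro z hz hz'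
  rcases hcov z hz with rfl | ⟨i, hi, rfl⟩
  · exact Or.inl rfl
  · right
    rcases (hadj j hj i hi).1 hz' with h1 | h1 | ⟨h1, h2⟩ | ⟨h1, h2⟩
    · left
      rw [if_neg (by omega), h1]
    · right
      rw [if_neg (by omega)]
      congr 1; omega
    · right
      rw [if_pos h1, h2]
    · left
      rw [if_pos h2, h1]

theorem iso_case [Finite V] {F : SimpleGraph (Fin 6)} {S : Set V} {a x : V} (hax : G.Adj a x)
    (hx : x ∈ S) (hF : ∀ i : Fin 6, ∃ j, j ≠ i ∧ ¬ F.Adj j i ∧ ∃ k₁ k₂ k₃, ∀ k, F.Adj j k →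
      k = k₁ ∨ k = k₂ ∨ k = k₃) (h : IsoOn F (contr G a x) (S \ {a})) :
    ∃ b ∈ S, (S ∩ G.neighborSet b).ncard ≤ 3 := by
  obtain ⟨p, hp, hr, hadj⟩ := h
  have hx' : x ∈ Set.range p := by rw [hr]; exact ⟨hx, hax.ne'⟩
  obtain ⟨i, hi⟩ := hx'
  obtain ⟨j, hji, hnadj, k₁, k₂, k₃, hk⟩ := hF i
  have hpj : p j ∈ S \ {a} := by rw [← hr]; exact ⟨j, rfl⟩
  have hne : p j ≠ x := by
    rw [← hi]
    exact fun h' => hji (hp h')
  refine ⟨p j, hpj.1, ncard_le_three (u := p k₁) (v := p k₂) (w := p k₃) ?_⟩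
  intro z hz
  have h1 : ¬ (contr G a x).Adj (p j) x := by
    intro h2
    rw [← hi] at h2
    exact hnadj (by rw [← hadj]; rw [hi] at h2 ⊢; exact h2)
  obtain ⟨h2, h3⟩ := nb_sub hax.ne hpj.2 hne h1 hz
  rw [← hr] at h2
  obtain ⟨k, rfl⟩ := h2
  rcases hk k ((hadj j k).1 h3) with rfl | rfl | rfl
  · exact Or.inl rfl
  · exact Or.inr (Or.inl rfl)
  · exact Or.inr (Or.inr rfl)

end Deg4Aux

open Deg4Aux in
theorem deg4 : S_Deg4 := by
  intro V _ G S a x ha hx hax hcard hcl hK
  rcases hcl with hcl | ⟨n, h, r, hw⟩ | hcl | hcl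
  · -- complete
    have hC : ∀ u ∈ S, ∀ v ∈ S, u ≠ a → u ≠ x → v ≠ a → v ≠ x → u ≠ v → G.Adj u v := by
      intro u hu v hv h1 h2 h3 h4 h5
      exact adj_of_contr h2 h4 (hcl u ⟨hu, h1⟩ v ⟨hv, h3⟩ h5)
    by_cases h1 : ∃ c ∈ S, c ≠ a ∧ c ≠ x ∧ ¬ G.Adj a c
    · obtain ⟨c, hc, hca, hcx, hn⟩ := h1
      exact Or.inr ⟨a, ha, complete_half ha hax hC hc hca hcx hn hK⟩
    by_cases h2 : ∃ c ∈ S, c ≠ a ∧ c ≠ x ∧ ¬ G.Adj x c
    · obtain ⟨c, hc, hca, hcx, hn⟩ := h2
      refine Or.inr ⟨x, hx, complete_half hx hax.symm ?_ hc hcx hca hn hK⟩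
      intro u hu v hv h3 h4 h5 h6 h7
      exact hC u hu v hv h4 h3 h6 h5 h7
    left
    push Not at h1 h2
    intro u hu v hv huv
    by_cases hua : u = a
    · subst hua
      by_cases hvx : v = x
      · subst hvx; exact hax
      · exact h1 v hv huv.symm hvx
    by_cases hux : u = x
    · subst hux
      by_cases hva : v = a
      · subst hva; exact hax.symm
      · exact h2 v hv hva huv.symm
    by_cases hva : v = a
    · subst hva
      exact (h1 u hu hua hux).symm
    by_cases hvx : v = x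
    · subst hvx
      exact (h2 u hu hua hux).symm
    exact hC u hu v hv hua hux hva hvx huv
  · -- wheel
    right
    have hw' := hw
    obtain ⟨hn, hhS, hrS, hrh, hinj, hcov, hhub, hadj⟩ := hw'
    have hrS' : ∀ i < n, r i ∈ S ∧ r i ≠ a := fun i hi => ⟨(hrS i hi).1, (hrS i hi).2⟩
    rcases hcov x ⟨hx, hax.ne'⟩ with hxh | ⟨i, hi, hxi⟩
    · -- the hub
      by_cases h1 : ∃ j < n, ¬ (G.Adj (r j) a ∧ G.Adj (r j) x)
      · obtain ⟨j, hj, h2⟩ := h1
        obtain ⟨u, v, huv⟩ := wheel_nb hw hj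
        obtain ⟨hjS, hja⟩ := hrS' j hj
        refine ⟨r j, hjS, ?_⟩
        by_cases h3 : G.Adj (r j) a
        · have h4 : ¬ G.Adj (r j) x := fun h' => h2 ⟨h3, h'⟩
          refine ncard_le_three (u := a) (v := u) (w := v) ?_
          rintro z ⟨hz1, hz2⟩
          have hz2' : G.Adj (r j) z := hz2
          by_cases hza : z = a
          · exact Or.inl hza
          · right
            rcases huv z ⟨hz1, hza⟩ (contr_of_adj hja hza hz2') with h5 | h5
            · exfalso
              rw [h5, ← hxh] at hz2'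
              exact h4 hz2'
            · exact h5
        · refine ncard_le_three (u := h) (v := u) (w := v) ?_
          rintro z ⟨hz1, hz2⟩
          have hz2' : G.Adj (r j) z := hz2
          have hza : z ≠ a := by
            rintro rfl
            exact h3 hz2'
          exact huv z ⟨hz1, hza⟩ (contr_of_adj hja hza hz2')
      · push Not at h1
        exfalso
        apply hK
        have hr0 := hrS' 0 (by omega)
        have hr1 := hrS' 1 (by omega)
        have hr2 := hrS' 2 (by omega)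
        have hx0 : r 0 ≠ x := by rw [hxh]; exact hrh 0 (by omega)
        have hx1 : r 1 ≠ x := by rw [hxh]; exact hrh 1 (by omega)
        have hx2 : r 2 ≠ x := by rw [hxh]; exact hrh 2 (by omega)
        have n01 : r 1 ≠ r 0 := fun h' => by
          have := hinj 1 (by omega) 0 (by omega) h'
          omega
        have n12 : r 1 ≠ r 2 := fun h' => by
          have := hinj 1 (by omega) 2 (by omega) h'
          omega
        have n02 : r 0 ≠ r 2 := fun h' => by
          have := hinj 0 (by omega) 2 (by omega) h'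
          omega
        have a10 : G.Adj (r 1) (r 0) := adj_of_contr hx1 hx0
          ((hadj 1 (by omega) 0 (by omega)).2 (Or.inr (Or.inl rfl)))
        have a12 : G.Adj (r 1) (r 2) := adj_of_contr hx1 hx2
          ((hadj 1 (by omega) 2 (by omega)).2 (Or.inl rfl))
        have a02 : ¬ G.Adj (r 0) (r 2) := by
          intro h'
          have := (hadj 0 (by omega) 2 (by omega)).1 (contr_of_adj hr0.2 hr2.2 h')
          omega
        have hs : ∀ {t : V}, t ∈ S → ({t} : Set V) ⊆ S := fun ht =>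
          Set.singleton_subset_iff.mpr ht
        have hd : ∀ {s t : V}, s ≠ t → Disjoint ({s} : Set V) {t} := fun h =>
          Set.disjoint_singleton.mpr h
        have ht : ∀ {s t : V}, G.Adj s t → Tch G {s} {t} := fun h => ⟨_, rfl, _, rfl, h⟩
        have b0 := h1 0 (by omega)
        have b1 := h1 1 (by omega)
        have b2 := h1 2 (by omega)
        refine ims_K5m (hs ha) (hs hx) (hs hr1.1) (hs hr0.1) (hs hr2.1) (Conn.singleton G _)
          (Conn.singleton G _) (Conn.singleton G _) (Conn.singleton G _) (Conn.singleton G _)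
          (hd hax.ne) (hd hr1.2.symm) (hd hr0.2.symm) (hd hr2.2.symm) (hd hx1.symm)
          (hd hx0.symm) (hd hx2.symm) (hd n01) (hd n12) (hd n02) (ht hax) (ht b1.1.symm)
          (ht b0.1.symm) (ht b2.1.symm) (ht b1.2.symm) (ht b0.2.symm) (ht b2.2.symm) (ht a10)
          (ht a12) ?_
        rintro ⟨s, hs', t, ht', hst⟩
        rw [Set.mem_singleton_iff] at hs' ht'
        subst hs' ht'
        exact a02 hst
    · -- a rim vertex
      obtain ⟨j, hj, hji, hjn⟩ : ∃ j < n, j ≠ i ∧ ¬ (contr G a x).Adj (r j) (r i) := by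
        by_cases h1 : i + 2 < n
        · refine ⟨i + 2, h1, by omega, fun h' => ?_⟩
          have := (hadj (i + 2) h1 i hi).1 h'
          omega
        · refine ⟨i + 2 - n, by omega, by omega, fun h' => ?_⟩
          have := (hadj (i + 2 - n) (by omega) i hi).1 h'
          omega
      obtain ⟨u, v, huv⟩ := wheel_nb hw hj
      obtain ⟨hjS, hja⟩ := hrS' j hj
      have hjx : r j ≠ x := by
        rw [hxi]
        exact fun h' => hji (hinj j hj i hi h')
      refine ⟨r j, hjS, ncard_le_three (u := h) (v := u) (w := v) ?_⟩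
      intro z hz
      obtain ⟨h2, h3⟩ := nb_sub hax.ne hja hjx (by rw [hxi] at hjn ⊢; exact hjn) hz
      exact huv z h2 h3
  · -- prism
    refine Or.inr (iso_case hax hx ?_ hcl)
    intro i
    fin_cases i
    · exact ⟨4, by decide, fun h => absurd h.2 (by decide), 3, 5, 1, fun k hk => by
        have h1 := hk.1; have h2 := hk.2; revert h1 h2; fin_cases k <;> decide⟩
    · exact ⟨5, by decide, fun h => absurd h.2 (by decide), 3, 4, 2, fun k hk => by
        have h1 := hk.1; have h2 := hk.2; revert h1 h2; fin_cases k <;> decide⟩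
    · exact ⟨3, by decide, fun h => absurd h.2 (by decide), 4, 5, 0, fun k hk => by
        have h1 := hk.1; have h2 := hk.2; revert h1 h2; fin_cases k <;> decide⟩
    · exact ⟨1, by decide, fun h => absurd h.2 (by decide), 0, 2, 4, fun k hk => by
        have h1 := hk.1; have h2 := hk.2; revert h1 h2; fin_cases k <;> decide⟩
    · exact ⟨2, by decide, fun h => absurd h.2 (by decide), 0, 1, 5, fun k hk => by
        have h1 := hk.1; have h2 := hk.2; revert h1 h2; fin_cases k <;> decide⟩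
    · exact ⟨0, by decide, fun h => absurd h.2 (by decide), 1, 2, 3, fun k hk => by
        have h1 := hk.1; have h2 := hk.2; revert h1 h2; fin_cases k <;> decide⟩
  · -- K33
    refine Or.inr (iso_case hax hx ?_ hcl)
    intro i
    fin_cases i
    · exact ⟨1, by decide, fun h => h rfl, 3, 4, 5, fun k hk => by
        have h1 : (1 : Fin 6).val / 3 ≠ k.val / 3 := hk
        revert h1; fin_cases k <;> decide⟩
    · exact ⟨2, by decide, fun h => h rfl, 3, 4, 5, fun k hk => by
        have h1 : (2 : Fin 6).val / 3 ≠ k.val / 3 := hk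
        revert h1; fin_cases k <;> decide⟩
    · exact ⟨0, by decide, fun h => h rfl, 3, 4, 5, fun k hk => by
        have h1 : (0 : Fin 6).val / 3 ≠ k.val / 3 := hk
        revert h1; fin_cases k <;> decide⟩
    · exact ⟨4, by decide, fun h => h rfl, 0, 1, 2, fun k hk => by
        have h1 : (4 : Fin 6).val / 3 ≠ k.val / 3 := hk
        revert h1; fin_cases k <;> decide⟩
    · exact ⟨5, by decide, fun h => h rfl, 0, 1, 2, fun k hk => by
        have h1 : (5 : Fin 6).val / 3 ≠ k.val / 3 := hk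
        revert h1; fin_cases k <;> decide⟩
    · exact ⟨3, by decide, fun h => h rfl, 0, 1, 2, fun k hk => by
        have h1 : (3 : Fin 6).val / 3 ≠ k.val / 3 := hk
        revert h1; fin_cases k <;> decide⟩

end Pool.Agent.MPd439b2
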