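import Pool.Agent.Lib.MP_d439b2_co.Spec1

/-!
# MP_d439b2_co, G3: Halin's theorem (a vertex of degree three has a contractible edge)
-/

namespace Pool.Agent.MPd439b2

namespace HalinAux

variable {V : Type} {G : SimpleGraph V} {S : Set V}

theorem sep (h : ThreeConn G S) {C : Set V} {p q w : V} (hC : C ⊆ S) (hne : C.Nonempty)
    (hp : p ∉ C) (hq : q ∉ C) (hw : w ∈ S) (hwC : w ∉ C) (hwp : w ≠ p) (hwq : w ≠ q)
    (hnb : ∀ c ∈ C, ∀ t ∈ S, G.Adj c t → t ∈ C ∨ t = p ∨ t = q) : False := by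
  have h1 := (h.2 p q).eq_of_nb (C := C)
    (fun c hc => ⟨hC hc, fun h' => by
      rcases h' with h' | h'
      · exact hp (h' ▸ hc)
      · exact hq ((Set.mem_singleton_iff.mp h') ▸ hc)⟩) hne (by
    intro t ht htn
    obtain ⟨h2, c, hc, hct⟩ := htn
    rcases hnb c hc t ht.1 hct with h3 | h3 | h3
    · exact h2 h3
    · exact ht.2 (Or.inl h3)
    · exact ht.2 (Or.inr h3))
  apply hwC
  rw [h1]
  refine ⟨hw, fun h' => ?_⟩
  rcases h' with h' | h'
  · exact hwp h'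
  · exact hwq h'

/-- separation data -/
structure Sep (G : SimpleGraph V) (S : Set V) (a x y z u : V) (Y Z : Set V) : Prop where
  uS : u ∈ S
  ua : u ≠ a
  ux : u ≠ x
  YS : Y ⊆ S
  ZS : Z ⊆ S
  yY : y ∈ Y
  zZ : z ∈ Z
  aY : a ∉ Y
  aZ : a ∉ Z
  xY : x ∉ Y
  xZ : x ∉ Z
  uY : u ∉ Y
  uZ : u ∉ Z
  dis : ∀ t, t ∈ Y → t ∉ Z
  cov : ∀ t ∈ S, t = a ∨ t = x ∨ t = u ∨ t ∈ Y ∨ t ∈ Z
  no : ∀ p ∈ Y, ∀ q ∈ Z, ¬ G.Adj p q

theorem exists_sep [Finite V] (h : S_NonContr) {a x y z : V} (hS : ThreeConn G S)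
    (h5 : 5 ≤ S.ncard) (hN : Nbr3 G S a x y z)
    (hc : ¬ ThreeConn (contr G a x) (S \ {a})) : ∃ u Y Z, Sep G S a x y z u Y Z := by
  obtain ⟨haS, hxS, hyS, hzS, hxy, hxz, hyz, hax, hay, haz, hall⟩ := hN
  obtain ⟨u, huS, hua, hux, hcon⟩ := h V G S a x hS h5 haS hxS hax hc
  have hmem : ∀ t, t ∈ S \ {a, x, u} ↔ t ∈ S ∧ t ≠ a ∧ t ≠ x ∧ t ≠ u := by
    intro t
    simp only [Set.mem_sdiff, Set.mem_insert_iff, Set.mem_singleton_iff, not_or]
  have hne : (S \ {a, x, u}).Nonempty := by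
    by_cases hyu : y = u
    · exact ⟨z, (hmem z).mpr ⟨hzS, haz.ne', hxz.symm, fun h' => hyz (hyu.trans h'.symm)⟩⟩
    · exact ⟨y, (hmem y).mpr ⟨hyS, hay.ne', hxy.symm, hyu⟩⟩
  obtain ⟨C, hCA, hCc, hCne, hCnb⟩ := exists_comp_of_not_conn hne hcon
  -- the complement
  obtain ⟨d, hdA, hdC⟩ : ∃ d ∈ S \ {a, x, u}, d ∉ C := by
    by_contra h'
    push Not at h'
    exact hCne (Set.Subset.antisymm hCA h')
  have hno : ∀ p ∈ C, ∀ q ∈ (S \ {a, x, u}) \ C, ¬ G.Adj p q := by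
    intro p hp q hq hpq
    exact hCnb q hq.1 ⟨hq.2, p, hp, hpq⟩
  have key : ∀ D ⊆ S \ {a, x, u}, D.Nonempty →
      (∀ c ∈ D, ∀ t ∈ (S \ {a, x, u}), G.Adj c t → t ∈ D) → ∃ c ∈ D, G.Adj a c := by
    intro D hD hDne hDcl
    by_contra h'
    push Not at h'
    have hD' : ∀ c ∈ D, c ∈ S ∧ c ≠ a ∧ c ≠ x ∧ c ≠ u := fun c hc => (hmem c).mp (hD hc)
    refine sep hS (C := D) (p := x) (q := u) (w := a) (fun c hc => (hD' c hc).1) hDne
      (fun h1 => (hD' x h1).2.2.1 rfl) (fun h1 => (hD' u h1).2.2.2 rfl) haS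
      (fun h1 => (hD' a h1).2.1 rfl) hax.ne hua.symm ?_
    intro c hc t ht hct
    by_cases h1 : t = x
    · exact Or.inr (Or.inl h1)
    by_cases h2 : t = u
    · exact Or.inr (Or.inr h2)
    left
    refine hDcl c hc t ((hmem t).mpr ⟨ht, ?_, h1, h2⟩) hct
    intro h3
    exact h' c hc (h3 ▸ hct.symm)
  obtain ⟨c, hcC, hac⟩ := key C hCA hCc.1 (by
    intro c hc t ht hct
    by_contra h'
    exact hno c hc t ⟨ht, h'⟩ hct)
  obtain ⟨e, heD, hae⟩ := key ((S \ {a, x, u}) \ C) (fun t ht => ht.1) ⟨d, hdA, hdC⟩ (by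
    intro c hc t ht hct
    refine ⟨ht, fun h' => ?_⟩
    exact hno t h' c hc hct.symm)
  have hC' : ∀ c ∈ C, c ∈ S ∧ c ≠ a ∧ c ≠ x ∧ c ≠ u := fun c hc => (hmem c).mp (hCA hc)
  have hD' : ∀ c ∈ (S \ {a, x, u}) \ C, c ∈ S ∧ c ≠ a ∧ c ≠ x ∧ c ≠ u :=
    fun c hc => (hmem c).mp hc.1
  have hcov : ∀ t ∈ S, t = a ∨ t = x ∨ t = u ∨ t ∈ C ∨ t ∈ (S \ {a, x, u}) \ C := by
    intro t ht
    by_cases h1 : t = a
    · exact Or.inl h1
    by_cases h2 : t = x
    · exact Or.inr (Or.inl h2)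
    by_cases h3 : t = u
    · exact Or.inr (Or.inr (Or.inl h3))
    by_cases h4 : t ∈ C
    · exact Or.inr (Or.inr (Or.inr (Or.inl h4)))
    · exact Or.inr (Or.inr (Or.inr (Or.inr ⟨(hmem t).mpr ⟨ht, h1, h2, h3⟩, h4⟩)))
  have hc3 := hall c (hC' c hcC).1 hac
  have he3 := hall e (hD' e heD).1 hae
  have hcx : c ≠ x := (hC' c hcC).2.2.1
  have hex : e ≠ x := (hD' e heD).2.2.1
  rcases hc3 with h1 | h1 | h1
  · exact absurd h1 hcx
  · rcases he3 with h2 | h2 | h2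
    · exact absurd h2 hex
    · exfalso
      rw [h2, ← h1] at heD
      exact heD.2 hcC
    · refine ⟨u, C, (S \ {a, x, u}) \ C, ?_⟩
      exact {
        uS := huS, ua := hua, ux := hux, YS := fun t ht => (hC' t ht).1,
        ZS := fun t ht => (hD' t ht).1, yY := h1 ▸ hcC, zZ := h2 ▸ heD,
        aY := fun h' => (hC' a h').2.1 rfl, aZ := fun h' => (hD' a h').2.1 rfl,
        xY := fun h' => (hC' x h').2.2.1 rfl, xZ := fun h' => (hD' x h').2.2.1 rfl,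
        uY := fun h' => (hC' u h').2.2.2 rfl, uZ := fun h' => (hD' u h').2.2.2 rfl,
        dis := fun t ht ht' => ht'.2 ht, cov := hcov, no := hno }
  · rcases he3 with h2 | h2 | h2
    · exact absurd h2 hex
    · refine ⟨u, (S \ {a, x, u}) \ C, C, ?_⟩
      exact {
        uS := huS, ua := hua, ux := hux, YS := fun t ht => (hD' t ht).1,
        ZS := fun t ht => (hC' t ht).1, yY := h2 ▸ heD, zZ := h1 ▸ hcC,
        aY := fun h' => (hD' a h').2.1 rfl, aZ := fun h' => (hC' a h').2.1 rfl,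
        xY := fun h' => (hD' x h').2.2.1 rfl, xZ := fun h' => (hC' x h').2.2.1 rfl,
        uY := fun h' => (hD' u h').2.2.2 rfl, uZ := fun h' => (hC' u h').2.2.2 rfl,
        dis := fun t ht ht' => ht.2 ht',
        cov := fun t ht => by
          rcases hcov t ht with h' | h' | h' | h' | h'
          · exact Or.inl h'
          · exact Or.inr (Or.inl h')
          · exact Or.inr (Or.inr (Or.inl h'))
          · exact Or.inr (Or.inr (Or.inr (Or.inr h')))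
          · exact Or.inr (Or.inr (Or.inr (Or.inl h'))),
        no := fun p hp q hq hpq => hno q hq p hp hpq.symm }
    · exfalso
      rw [h2, ← h1] at heD
      exact heD.2 hcC

theorem partP [Finite V] (h : S_NonContr) {a x y z : V} (hS : ThreeConn G S)
    (h5 : 5 ≤ S.ncard) (hN : Nbr3 G S a x y z)
    (hcx : ¬ ThreeConn (contr G a x) (S \ {a})) (hcy : ¬ ThreeConn (contr G a y) (S \ {a})) :
    G.Adj y x ∧ ¬ G.Adj y z := by
  have hN' : Nbr3 G S a y x z := by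
    obtain ⟨haS, hxS, hyS, hzS, hxy, hxz, hyz, hax, hay, haz, hall⟩ := hN
    refine ⟨haS, hyS, hxS, hzS, hxy.symm, hyz, hxz, hay, hax, haz, fun v hv hav => ?_⟩
    rcases hall v hv hav with h1 | h1 | h1
    · exact Or.inr (Or.inl h1)
    · exact Or.inl h1
    · exact Or.inr (Or.inr h1)
  obtain ⟨u, Yx, Zx, A⟩ := exists_sep h hS h5 hN hcx
  obtain ⟨v, Xy, Zy, B⟩ := exists_sep h hS h5 hN' hcy
  obtain ⟨haS, hxS, hyS, hzS, hxy, hxz, hyz, hax, hay, haz, hall⟩ := hN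
  have hxu : x ≠ u := A.ux.symm
  have hyv : y ≠ v := B.ux.symm
  have hxv : x ≠ v := fun h' => B.uY (h' ▸ B.yY)
  have hyu : y ≠ u := fun h' => A.uY (h' ▸ A.yY)
  -- neighbours of `Zx ∩ Zy`
  have hxZy : x ∉ Zy := B.dis x B.yY
  have hyZx : y ∉ Zx := A.dis y A.yY
  have n1 : ∀ w ∈ Zx ∩ Zy, ∀ t ∈ S, G.Adj w t →
      t ∈ Zx ∩ Zy ∨ t = a ∨ (t = v ∧ t ∈ Zx) ∨ (t = u ∧ t ∈ Zy) ∨ (t = u ∧ t = v) := by
    intro w hw t ht hwt
    have h1 : t ∉ Yx := fun h' => A.no t h' w hw.1 hwt.symm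
    have h2 : t ∉ Xy := fun h' => B.no t h' w hw.2 hwt.symm
    rcases A.cov t ht with h3 | h3 | h3 | h3 | h3
    · exact Or.inr (Or.inl h3)
    · exfalso; exact h2 (h3 ▸ B.yY)
    · rcases B.cov t ht with h4 | h4 | h4 | h4 | h4
      · exact Or.inr (Or.inl h4)
      · exfalso; exact h1 (h4 ▸ A.yY)
      · exact Or.inr (Or.inr (Or.inr (Or.inr ⟨h3, h4⟩)))
      · exact absurd h4 h2
      · exact Or.inr (Or.inr (Or.inr (Or.inl ⟨h3, h4⟩)))
    · exact absurd h3 h1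
    · rcases B.cov t ht with h4 | h4 | h4 | h4 | h4
      · exact Or.inr (Or.inl h4)
      · exfalso; exact h1 (h4 ▸ A.yY)
      · exact Or.inr (Or.inr (Or.inl ⟨h4, h3⟩))
      · exact absurd h4 h2
      · exact Or.inl ⟨h3, h4⟩
  have hvZ : v ∈ Zx := by
    by_contra hv
    refine sep hS (C := Zx ∩ Zy) (p := a) (q := u) (w := x) (fun t ht => A.ZS ht.1)
      ⟨z, A.zZ, B.zZ⟩ (fun h' => A.aZ h'.1) (fun h' => A.uZ h'.1) hxS (fun h' => A.xZ h'.1)
      hax.ne' hxu ?_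
    intro c hc t ht hct
    rcases n1 c hc t ht hct with h1 | h1 | h1 | h1 | h1
    · exact Or.inl h1
    · exact Or.inr (Or.inl h1)
    · exact absurd (h1.1 ▸ h1.2) hv
    · exact Or.inr (Or.inr h1.1)
    · exact Or.inr (Or.inr h1.1)
  have huZ : u ∈ Zy := by
    by_contra hu
    refine sep hS (C := Zx ∩ Zy) (p := a) (q := v) (w := x) (fun t ht => A.ZS ht.1)
      ⟨z, A.zZ, B.zZ⟩ (fun h' => A.aZ h'.1) (fun h' => B.uZ h'.2) hxS (fun h' => A.xZ h'.1)
      hax.ne' hxv ?_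
    intro c hc t ht hct
    rcases n1 c hc t ht hct with h1 | h1 | h1 | h1 | h1
    · exact Or.inl h1
    · exact Or.inr (Or.inl h1)
    · exact Or.inr (Or.inr h1.1)
    · exact absurd (h1.1 ▸ h1.2) hu
    · exact Or.inr (Or.inr h1.2)
  have huv : u ≠ v := fun h' => A.uZ (h' ▸ hvZ)
  -- `Xy ∩ Yx` is empty
  have e1 : ∀ t, t ∈ Xy → t ∉ Yx := by
    intro t₀ h1 h2
    refine sep hS (C := Xy ∩ Yx) (p := x) (q := y) (w := a) (fun t ht => A.YS ht.2)
      ⟨t₀, h1, h2⟩ (fun h' => A.xY h'.2) (fun h' => B.xY h'.1) haS (fun h' => A.aY h'.2)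
      hax.ne hay.ne ?_
    intro c hc t ht hct
    have h3 : t ∉ Zx := fun h' => A.no c hc.2 t h' hct
    have h4 : t ∉ Zy := fun h' => B.no c hc.1 t h' hct
    have hta : t ≠ a := by
      intro h'
      subst h'
      rcases hall c (A.YS hc.2) hct.symm with h5 | h5 | h5
      · exact A.xY (h5 ▸ hc.2)
      · exact B.xY (h5 ▸ hc.1)
      · exact A.dis z (h5 ▸ hc.2) A.zZ
    rcases A.cov t ht with h5 | h5 | h5 | h5 | h5
    · exact absurd h5 hta
    · exact Or.inr (Or.inl h5)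
    · exact absurd (h5 ▸ huZ) h4
    · rcases B.cov t ht with h6 | h6 | h6 | h6 | h6
      · exact absurd h6 hta
      · exact Or.inr (Or.inr h6)
      · exact absurd (h6 ▸ hvZ) h3
      · exact Or.inl ⟨h6, h5⟩
      · exact absurd h6 h4
    · exact absurd h5 h3
  -- `Yx ∩ Zy` is empty
  have e2 : ∀ t, t ∈ Yx → t ∉ Zy := by
    intro t₀ h1 h2
    refine sep hS (C := Yx ∩ Zy) (p := u) (q := y) (w := x) (fun t ht => A.YS ht.1)
      ⟨t₀, h1, h2⟩ (fun h' => A.uY h'.1) (fun h' => B.xZ h'.2) hxS (fun h' => A.xY h'.1)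
      hxu hxy ?_
    intro c hc t ht hct
    have h3 : t ∉ Zx := fun h' => A.no c hc.1 t h' hct
    have h4 : t ∉ Xy := fun h' => B.no t h' c hc.2 hct.symm
    have hta : t ≠ a := by
      intro h'
      subst h'
      rcases hall c (A.YS hc.1) hct.symm with h5 | h5 | h5
      · exact A.xY (h5 ▸ hc.1)
      · exact B.xZ (h5 ▸ hc.2)
      · exact A.dis z (h5 ▸ hc.1) A.zZ
    rcases A.cov t ht with h5 | h5 | h5 | h5 | h5
    · exact absurd h5 hta
    · exact absurd (h5 ▸ B.yY) h4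
    · exact Or.inr (Or.inl h5)
    · rcases B.cov t ht with h6 | h6 | h6 | h6 | h6
      · exact absurd h6 hta
      · exact Or.inr (Or.inr h6)
      · exact absurd (h6 ▸ hvZ) h3
      · exact absurd h6 h4
      · exact Or.inl ⟨h5, h6⟩
    · exact absurd h5 h3
  -- `Yx = {y}`
  have e3 : ∀ t ∈ Yx, t = y := by
    intro t ht
    rcases B.cov t (A.YS ht) with h6 | h6 | h6 | h6 | h6
    · exact absurd (h6 ▸ ht) A.aY
    · exact h6
    · exact absurd (h6 ▸ hvZ) (A.dis t ht)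
    · exact absurd ht (e1 t h6)
    · exact absurd h6 (e2 t ht)
  refine ⟨?_, A.no y A.yY z A.zZ⟩
  by_contra hyx
  refine sep hS (C := {y}) (p := a) (q := u) (w := x) (Set.singleton_subset_iff.mpr hyS)
    ⟨y, rfl⟩ (fun h' => hay.ne h') (fun h' => hyu (Set.mem_singleton_iff.mp h').symm) hxS
    (fun h' => hxy h') hax.ne' hxu ?_
  intro c hc t ht hct
  rw [Set.mem_singleton_iff] at hc
  subst hc
  rcases A.cov t ht with h5 | h5 | h5 | h5 | h5
  · exact Or.inr (Or.inl h5)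
  · exact absurd (h5 ▸ hct) hyx
  · exact Or.inr (Or.inr h5)
  · exact Or.inl (e3 t h5)
  · exact absurd hct (A.no c A.yY t h5)

end HalinAux

theorem halin (h : S_NonContr) : S_Halin := by
  intro V _ G S a x y z hS h5 hN
  by_contra hcon
  push Not at hcon
  obtain ⟨hx, hy, hz⟩ := hcon
  have hN1 : Nbr3 G S a y x z := by
    obtain ⟨haS, hxS, hyS, hzS, hxy, hxz, hyz, hax, hay, haz, hall⟩ := hN
    refine ⟨haS, hyS, hxS, hzS, hxy.symm, hyz, hxz, hay, hax, haz, fun v hv hav => ?_⟩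
    rcases hall v hv hav with h1 | h1 | h1
    · exact Or.inr (Or.inl h1)
    · exact Or.inl h1
    · exact Or.inr (Or.inr h1)
  have hN2 : Nbr3 G S a z x y := by
    obtain ⟨haS, hxS, hyS, hzS, hxy, hxz, hyz, hax, hay, haz, hall⟩ := hN
    refine ⟨haS, hzS, hxS, hyS, hxz.symm, hyz.symm, hxy, haz, hax, hay, fun v hv hav => ?_⟩
    rcases hall v hv hav with h1 | h1 | h1
    · exact Or.inr (Or.inl h1)
    · exact Or.inr (Or.inr h1)
    · exact Or.inl h1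
  exact (HalinAux.partP h hS h5 hN1 hy hx).2 (HalinAux.partP h hS h5 hN2 hz hx).1

end Pool.Agent.MPd439b2
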