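import Pool.Agent.Lib.MP_d439b2_co.Spec1

/-!
# MP_d439b2_co, E1: simulation of an additional edge by a connected set
-/

namespace Pool.Agent.MPd439b2

namespace ImsEdge

variable {V W : Type}

theorem adj_of {G : SimpleGraph V} {x c u v : V} (h : (addE G x c).Adj u v) :
    G.Adj u v ∨ (u = x ∧ v = c) ∨ (u = c ∧ v = x) := by
  rcases h with h | ⟨_, h | h⟩
  · exact Or.inl h
  · exact Or.inr (Or.inl h)
  · exact Or.inr (Or.inr h)

theorem adj_iff_of_left {G : SimpleGraph V} {x c u v : V} (hu : u ≠ x) (hv : v ≠ x) :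
    (addE G x c).Adj u v ↔ G.Adj u v := by
  constructor
  · intro h
    rcases adj_of h with h | h | h
    · exact h
    · exact absurd h.1 hu
    · exact absurd h.2 hv
  · exact fun h => Or.inl h

/-- the big set with both ends is connected -/
theorem conn_both (G : SimpleGraph V) (A R : Set V) (x c : V) (hx : x ∈ A) (hc : c ∈ A)
    (hR : Conn G R) (hrx : ∃ r ∈ R, G.Adj r x) (hrc : ∃ r ∈ R, G.Adj r c)
    (hA : Conn (addE G x c) A) : Conn G (A ∪ R) := by
  refine ⟨⟨x, Or.inl hx⟩, fun C hC hne hne' => ?_⟩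
  by_contra hcon
  push Not at hcon
  obtain ⟨r1, hr1, hr1x⟩ := hrx
  obtain ⟨r2, hr2, hr2c⟩ := hrc
  by_cases hCR : (C ∩ R).Nonempty
  · have h1 : C ∩ R = R := hR.eq_of_nb Set.inter_subset_right hCR (by
      intro v hv hvn
      obtain ⟨hv1, b, hb, hbv⟩ := hvn
      exact hcon b hb.1 v ⟨Or.inr hv, fun h => hv1 ⟨h, hv⟩⟩ hbv)
    have hRC : R ⊆ C := by
      intro r hr
      rw [← h1] at hr
      exact hr.1
    have hxC : x ∈ C := by
      by_contra h2
      exact hcon r1 (hRC hr1) x ⟨Or.inl hx, h2⟩ hr1x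
    have hcC : c ∈ C := by
      by_contra h2
      exact hcon r2 (hRC hr2) c ⟨Or.inl hc, h2⟩ hr2c
    have h3 : C ∩ A = A := hA.eq_of_nb Set.inter_subset_right ⟨x, hxC, hx⟩ (by
      intro v hv hvn
      obtain ⟨hv1, b, hb, hbv⟩ := hvn
      have hvC : v ∉ C := fun h => hv1 ⟨h, hv⟩
      rcases adj_of hbv with h | h | h
      · exact hcon b hb.1 v ⟨Or.inl hv, hvC⟩ h
      · exact hvC (h.2 ▸ hcC)
      · exact hvC (h.2 ▸ hxC))
    apply hne'
    apply Set.Subset.antisymm hC
    apply Set.union_subset _ hRC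
    intro a ha
    rw [← h3] at ha
    exact ha.1
  · have hCA : C ⊆ A := by
      intro v hv
      rcases hC hv with h | h
      · exact h
      · exact absurd ⟨v, hv, h⟩ hCR
    have hR1 : ∀ r ∈ R, r ∉ C := fun r hr h => hCR ⟨r, h, hr⟩
    have hxC : x ∉ C := by
      intro h2
      exact hcon x h2 r1 ⟨Or.inr hr1, hR1 r1 hr1⟩ hr1x.symm
    have hcC : c ∉ C := by
      intro h2
      exact hcon c h2 r2 ⟨Or.inr hr2, hR1 r2 hr2⟩ hr2c.symm
    have h3 : C = A := hA.eq_of_nb hCA hne (by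
      intro v hv hvn
      obtain ⟨hv1, b, hb, hbv⟩ := hvn
      rcases adj_of hbv with h | h | h
      · exact hcon b hb v ⟨Or.inl hv, hv1⟩ h
      · exact hxC (h.1 ▸ hb)
      · exact hcC (h.1 ▸ hb))
    exact hxC (h3 ▸ hx)

end ImsEdge

theorem imsEdge : S_ImsEdge := by
  classical
  intro V W _ H G S R x c _ _ hxc hdis hR hRS hrx hrc hM
  obtain ⟨B, hBS, hBc, hBd, hBa⟩ := hM
  by_cases hw : ∃ w, x ∈ B w
  · obtain ⟨w0, hw0⟩ := hw
    have hxw : ∀ w, w ≠ w0 → x ∉ B w := fun w hw h =>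
      Set.disjoint_left.1 (hBd w w0 hw) h hw0
    have hxne : ∀ w, w ≠ w0 → ∀ u ∈ B w, u ≠ x := by
      intro w hw u hu h
      rw [h] at hu
      exact hxw w hw hu
    have hRB : ∀ w, Disjoint R (B w) := fun w => hdis.mono_right (hBS w)
    obtain ⟨r1, hr1, hr1x⟩ := hrx
    obtain ⟨r2, hr2, hr2c⟩ := hrc
    -- connectivity of the sets
    have hc1 : ∀ w, w ≠ w0 → Conn G (B w) := fun w hw =>
      (Conn.congr fun u hu v hv => ImsEdge.adj_iff_of_left (hxne w hw u hu)
        (hxne w hw v hv)).1 (hBc w)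
    have hc0 : Conn G (B w0 ∪ R) := by
      by_cases hcw : c ∈ B w0
      · exact ImsEdge.conn_both G (B w0) R x c hw0 hcw hR ⟨r1, hr1, hr1x⟩
          ⟨r2, hr2, hr2c⟩ (hBc w0)
      · have h1 : Conn G (B w0) := (Conn.congr fun u hu v hv => by
          constructor
          · intro h
            rcases ImsEdge.adj_of h with h | h | h
            · exact h
            · exact absurd (h.2 ▸ hv) hcw
            · exact absurd (h.1 ▸ hu) hcw
          · exact fun h => Or.inl h).1 (hBc w0)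
        exact h1.union hR (Or.inr ⟨x, hw0, r1, hr1, hr1x.symm⟩)
    -- adjacency with the big set
    have hkey : ∀ w, w ≠ w0 → (Tch (addE G x c) (B w0) (B w) ↔ Tch G (B w0 ∪ R) (B w)) := by
      intro w hw
      constructor
      · rintro ⟨u, hu, v, hv, huv⟩
        rcases ImsEdge.adj_of huv with h | h | h
        · exact ⟨u, Or.inl hu, v, hv, h⟩
        · exact ⟨r2, Or.inr hr2, v, hv, h.2 ▸ hr2c⟩
        · exact absurd (h.2 ▸ hv) (hxw w hw)
      · rintro ⟨u, hu, v, hv, huv⟩
        rcases hu with hu | hu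
        · exact ⟨u, hu, v, hv, Or.inl huv⟩
        · rcases hRS v (hBS w hv) ⟨u, hu, huv⟩ with h | h
          · exact absurd (h ▸ hv) (hxw w hw)
          · exact ⟨x, hw0, v, hv, Or.inr ⟨h ▸ hxc, Or.inl ⟨rfl, h⟩⟩⟩
    refine ⟨fun w => if w = w0 then B w0 ∪ R else B w, ?_, ?_, ?_, ?_⟩
    · intro w
      dsimp only
      split_ifs with h
      · exact Set.union_subset_union_left R (hBS w0)
      · exact (hBS w).trans Set.subset_union_left
    · intro w
      dsimp only
      split_ifs with h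
      · exact hc0
      · exact hc1 w h
    · intro w w' hww
      dsimp only
      split_ifs with h h' h'
      · exact absurd (h.trans h'.symm) hww
      · exact Set.disjoint_union_left.2 ⟨hBd w0 w' (h ▸ hww), hRB w'⟩
      · exact Set.disjoint_union_right.2 ⟨hBd w w0 (h' ▸ hww), (hRB w).symm⟩
      · exact hBd w w' hww
    · intro w w' hww
      rw [hBa w w' hww]
      dsimp only
      split_ifs with h h' h'
      · exact absurd (h.trans h'.symm) hww
      · rw [h]
        exact hkey w' h'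
      · rw [h', tch_comm, hkey w h, tch_comm]
      · constructor
        · rintro ⟨u, hu, v, hv, huv⟩
          exact ⟨u, hu, v, hv, (ImsEdge.adj_iff_of_left (hxne w h u hu)
            (hxne w' h' v hv)).1 huv⟩
        · rintro ⟨u, hu, v, hv, huv⟩
          exact ⟨u, hu, v, hv, Or.inl huv⟩
  · have hM : IMS H (addE G x c) (S \ {x}) :=
      ⟨B, fun w v hv => ⟨hBS w hv, fun h => hw ⟨w, (Set.mem_singleton_iff.1 h) ▸ hv⟩⟩, hBc, hBd, hBa⟩
    have h1 : IMS H G (S \ {x}) := hM.congr fun u hu v hv =>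
      ImsEdge.adj_iff_of_left (fun h => hu.2 h) (fun h => hv.2 h)
    exact h1.mono (Set.sdiff_subset.trans Set.subset_union_left)

end Pool.Agent.MPd439b2
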