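import Pool.Agent.Lib.MP_d439b2_co.Spec2

/-!
# MP_d439b2_co, F15: the torso is complete
-/

set_option autoImplicit false

namespace Pool.Agent.MPd439b2

namespace LayCompleteM

variable {V : Type}

theorem powerset_encard [Finite V] {C' : Set V} {s : ℕ} (h : C'.ncard ≤ s) :
    (𝒫 C').encard ≤ ((2 ^ s : ℕ) : ℕ∞) := by
  have h1 : (𝒫 C').Finite := Set.toFinite _
  rw [← Set.Finite.cast_ncard_eq h1, Set.ncard_powerset]
  exact_mod_cast Nat.pow_le_pow_right (by norm_num) h

theorem three_encard [Finite V] {C' : Set V} {s k : ℕ} (h : C'.ncard ≤ s) (hk : 2 ^ (s + 2) ≤ k)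
    {F : Set (Set V)} (w : V) (Z : Set V)
    (hF : ∀ A ∈ F, A ⊆ C' ∨ (∃ X ⊆ C', A = X ∪ {w}) ∨ ∃ X ⊆ C', A = X ∪ Z) :
    F.encard ≤ k := by
  have h1 : F ⊆ 𝒫 C' ∪ ((fun X => X ∪ {w}) '' 𝒫 C' ∪ (fun X => X ∪ Z) '' 𝒫 C') := by
    intro A hA
    rcases hF A hA with h | ⟨X, hX, rfl⟩ | ⟨X, hX, rfl⟩
    · exact Or.inl h
    · exact Or.inr (Or.inl ⟨X, hX, rfl⟩)
    · exact Or.inr (Or.inr ⟨X, hX, rfl⟩)
  have h2 := powerset_encard h
  have h3 : 2 ^ s + (2 ^ s + 2 ^ s) ≤ k := by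
    refine le_trans ?_ hk
    rw [pow_add]
    omega
  calc F.encard ≤ (𝒫 C' ∪ ((fun X => X ∪ {w}) '' 𝒫 C' ∪ (fun X => X ∪ Z) '' 𝒫 C')).encard :=
        Set.encard_le_encard h1
    _ ≤ (𝒫 C').encard + ((fun X => X ∪ {w}) '' 𝒫 C' ∪ (fun X => X ∪ Z) '' 𝒫 C').encard :=
        Set.encard_union_le _ _
    _ ≤ (𝒫 C').encard + (((fun X => X ∪ {w}) '' 𝒫 C').encard +
        ((fun X => X ∪ Z) '' 𝒫 C').encard) := add_le_add le_rfl (Set.encard_union_le _ _)
    _ ≤ (𝒫 C').encard + ((𝒫 C').encard + (𝒫 C').encard) :=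
        add_le_add le_rfl (add_le_add (Set.encard_image_le _ _) (Set.encard_image_le _ _))
    _ ≤ ((2 ^ s : ℕ) : ℕ∞) + (((2 ^ s : ℕ) : ℕ∞) + ((2 ^ s : ℕ) : ℕ∞)) :=
        add_le_add h2 (add_le_add h2 h2)
    _ = ((2 ^ s + (2 ^ s + 2 ^ s) : ℕ) : ℕ∞) := by push_cast; rfl
    _ ≤ (k : ℕ∞) := by exact_mod_cast h3

open Classical in
/-- the ranks -/
noncomputable def rk (G : SimpleGraph V) (PP : Set (Set V)) (C' : Set V) (f : V → ℕ) (N : ℕ)
    (Q : Set V) : ℕ :=
  if Q ∈ PP then (if h : (nb G Q \ C').Nonempty then 2 * f h.some + 1 else 0)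
  else (if h : (Q \ C').Nonempty then 2 * f h.some + 2 else 2 * N + 5)

variable {G : SimpleGraph V} {PP : Set (Set V)} {C' : Set V} {f : V → ℕ} {N : ℕ}

theorem rk_part {Q : Set V} (hQ : Q ∈ PP) {w : V} (hw : w ∈ nb G Q \ C')
    (hu : ∀ v ∈ nb G Q \ C', v = w) : rk G PP C' f N Q = 2 * f w + 1 := by
  have h : (nb G Q \ C').Nonempty := ⟨w, hw⟩
  unfold rk
  rw [if_pos hQ, dif_pos h, hu _ h.some_mem]

theorem rk_part_lt {Q : Set V} (hQ : Q ∈ PP) (hN : ∀ v, f v < N) :
    rk G PP C' f N Q < 2 * N + 5 := by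
  unfold rk
  rw [if_pos hQ]
  split_ifs with h
  · have := hN h.some
    omega
  · omega

theorem rk_single {w : V} (hQ : {w} ∉ PP) (hw : w ∉ C') : rk G PP C' f N {w} = 2 * f w + 2 := by
  have h : (({w} : Set V) \ C').Nonempty := ⟨w, rfl, hw⟩
  unfold rk
  rw [if_neg hQ, dif_pos h]
  have h1 : h.some = w := h.some_mem.1
  rw [h1]

theorem rk_top {c : V} (hQ : {c} ∉ PP) (hc : c ∈ C') : rk G PP C' f N {c} = 2 * N + 5 := by
  have h : ¬ (({c} : Set V) \ C').Nonempty := by
    rintro ⟨v, hv, hv'⟩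
    have hv1 : v = c := hv
    rw [hv1] at hv'
    exact hv' hc
  unfold rk
  rw [if_neg hQ, dif_neg h]

end LayCompleteM

open LayCompleteM in
/-- F15. -/
theorem layComplete (h : S_LayRank) : S_LayComplete := by
  intro V _ G U x y PP T C m k hxU hyU hnbU hP hT hC hmeet hk hlay
  classical
  set C' : Set V := C ∪ {x, y} with hC'def
  have hC' : C'.ncard ≤ 2 * m + 2 := by
    have h1 : C'.ncard ≤ C.ncard + ({x, y} : Set V).ncard :=
      Set.ncard_union_le C ({x, y} : Set V)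
    have h2 : ({x, y} : Set V).ncard ≤ 2 := by
      have h3 := Set.ncard_insert_le x ({y} : Set V)
      rw [Set.ncard_singleton] at h3
      exact h3
    omega
  have hxC : x ∈ C' := Or.inr (Or.inl rfl)
  have hyC : y ∈ C' := Or.inr (Or.inr rfl)
  -- elements of `T`
  have hTU : ∀ t ∈ T, t ∈ U ∨ t = x ∨ t = y := by
    intro t ht
    rw [hP.hT] at ht
    rcases ht.1 with h1 | h1
    · exact Or.inl h1
    · exact Or.inr h1
  have hTP : ∀ t ∈ T, ∀ P ∈ PP, t ∉ P := by
    intro t ht P hPP htP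
    rw [hP.hT] at ht
    exact ht.2 ⟨P, hPP, htP⟩
  have hUT : ∀ v, (v ∈ U ∨ v = x ∨ v = y) → v ∈ T ∨ ∃ P ∈ PP, v ∈ P := by
    intro v hv
    by_cases h1 : ∃ P ∈ PP, v ∈ P
    · exact Or.inr h1
    · left
      rw [hP.hT]
      refine ⟨hv.elim (fun h => Or.inl h) (fun h => Or.inr h), ?_⟩
      rintro ⟨P, hPP, hvP⟩
      exact h1 ⟨P, hPP, hvP⟩
  -- uniqueness of the neighbour outside `C'`
  have huniq : ∀ P ∈ PP, ∀ w ∈ nb G P \ C', ∀ v ∈ nb G P \ C', v = w := by
    intro P hPP w hw v hv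
    obtain ⟨a, b, hab, hnb⟩ := Set.ncard_eq_two.1 (hP.nb2 P hPP)
    obtain ⟨c, hc, hcC⟩ := hmeet P hPP
    have hcC' : c ∈ C' := Or.inl hcC
    rw [hnb] at hw hv hc
    rcases hc with hc | hc
    · rcases hw.1 with h1 | h1
      · exact absurd (h1.trans hc.symm ▸ hcC') hw.2
      · rcases hv.1 with h2 | h2
        · exact absurd (h2.trans hc.symm ▸ hcC') hv.2
        · exact h2.trans h1.symm
    · rcases hw.1 with h1 | h1
      · rcases hv.1 with h2 | h2
        · exact h2.trans h1.symm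
        · exact absurd (h2.trans hc.symm ▸ hcC') hv.2
      · exact absurd (h1.trans hc.symm ▸ hcC') hw.2
  -- index function
  obtain ⟨f, hf⟩ := exists_injective_nat V
  obtain ⟨N, hN⟩ : ∃ N, ∀ v, f v < N := by
    obtain ⟨N, hN⟩ := (Set.finite_range f).bddAbove
    exact ⟨N + 1, fun v => Nat.lt_succ_of_le (hN ⟨v, rfl⟩)⟩
  set SS : Set (Set V) := PP ∪ {Q | ∃ t ∈ T, t ≠ x ∧ t ≠ y ∧ Q = {t}} with hSS
  have hsingle : ∀ t ∈ T, {t} ∉ PP := fun t ht h1 => hTP t ht {t} h1 rfl
  have hU : ⋃₀ SS = U := by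
    apply Set.Subset.antisymm
    · rintro v ⟨Q, hQ, hvQ⟩
      rcases hQ with hQ | ⟨t, ht, htx, hty, rfl⟩
      · exact hP.sub Q hQ hvQ
      · have hvt : v = t := hvQ
        rw [hvt]
        rcases hTU t ht with h1 | h1 | h1
        · exact h1
        · exact absurd h1 htx
        · exact absurd h1 hty
    · intro v hv
      rcases hUT v (Or.inl hv) with h1 | ⟨P, hPP, hvP⟩
      · refine ⟨{v}, Or.inr ⟨v, h1, ?_, ?_, rfl⟩, rfl⟩
        · rintro rfl
          exact hxU hv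
        · rintro rfl
          exact hyU hv
      · exact ⟨P, Or.inl hPP, hvP⟩
  have hk1 : 1 ≤ k := le_trans Nat.one_le_two_pow hk
  rw [← hU]
  refine h V G k SS (rk G PP C' f N) ?_ ?_ ?_
  · rintro Q (hQ | ⟨t, _, _, _, rfl⟩)
    · exact hlay Q hQ
    · exact Lay.single' hk1 t
  · rintro P (hPP | ⟨t, ht, _, _, rfl⟩) Q (hQ | ⟨t', ht', _, _, rfl⟩) hPQ
    · exact hP.disj P hPP Q hQ hPQ
    · exact Set.disjoint_singleton_right.2 (hTP t' ht' P hPP)
    · exact Set.disjoint_singleton_left.2 (hTP t ht Q hQ)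
    · rw [Set.disjoint_singleton]
      rintro rfl
      exact hPQ rfl
  · intro QQ' hQQ' hinit
    set A : Set V := ⋃₀ QQ' with hA
    have hAU : A ⊆ U := by
      rw [← hU]
      exact Set.sUnion_subset_sUnion hQQ'
    -- neighbours of `A`
    have hnbA : ∀ a ∈ A, ∀ v, G.Adj a v → v ∈ T ∨ ∃ P ∈ PP, v ∈ P := by
      intro a ha v hav
      apply hUT
      by_cases hvU : v ∈ U
      · exact Or.inl hvU
      · exact Or.inr (hnbU ⟨hvU, a, hAU ha, hav⟩)
    have hrkP : ∀ P ∈ PP, ∀ w ∈ nb G P \ C', rk G PP C' f N P = 2 * f w + 1 :=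
      fun P hPP w hw => rk_part hPP hw (huniq P hPP w hw)
    -- the neighbours of the singletons are in `T`
    have hsT : ∀ t ∈ T, {t} ∈ QQ' → ∀ v, G.Adj t v → v ∉ A → v ∈ T := by
      intro t ht htQ v htv hvA
      rcases hnbA t ⟨{t}, htQ, rfl⟩ v htv with h1 | ⟨P, hPP, hvP⟩
      · exact h1
      · exfalso
        apply hvA
        refine ⟨P, hinit {t} htQ P (Or.inl hPP) ?_, hvP⟩
        have htnb : t ∈ nb G P := ⟨hTP t ht P hPP, v, hvP, htv.symm⟩
        by_cases htC : t ∈ C'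
        · rw [rk_top (hsingle t ht) htC]
          exact rk_part_lt hPP hN
        · rw [rk_single (hsingle t ht) htC, hrkP P hPP t ⟨htnb, htC⟩]
          omega
    -- the special vertex
    obtain ⟨ws, hws⟩ : ∃ ws : V, ∀ P ∈ PP, P ∈ QQ' → ∀ w ∈ nb G P \ C', w ∉ A → w = ws := by
      by_cases h1 : ∃ P ∈ PP, P ∈ QQ' ∧ ∃ w ∈ nb G P \ C', w ∉ A
      · obtain ⟨P, hPP, hPQ, w, hw, hwA⟩ := h1
        refine ⟨w, fun P' hPP' hPQ' w' hw' hwA' => ?_⟩
        by_contra hne
        have key : ∀ (P : Set V) (w : V) (P' : Set V) (w' : V), P ∈ PP → w ∈ nb G P \ C' →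
            w ∉ A → P' ∈ PP → P' ∈ QQ' → w' ∈ nb G P' \ C' → f w < f w' → False := by
          intro P w P' w' hPP hw hwA hPP' hPQ' hw' hlt
          apply hwA
          have hwT : w ∈ T := hP.nbT P hPP hw.1
          refine ⟨{w}, hinit P' hPQ' {w} (Or.inr ⟨w, hwT, ?_, ?_, rfl⟩) ?_, rfl⟩
          · rintro rfl
            exact hw.2 hxC
          · rintro rfl
            exact hw.2 hyC
          · rw [rk_single (hsingle w hwT) hw.2, hrkP P' hPP' w' hw']
            omega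
        rcases lt_trichotomy (f w) (f w') with h2 | h2 | h2
        · exact key P w P' w' hPP hw hwA hPP' hPQ' hw' h2
        · exact hne (hf h2).symm
        · exact key P' w' P w hPP' hw' hwA' hPP hPQ hw h2
      · exact ⟨x, fun P hPP hPQ w hw hwA => absurd ⟨P, hPP, hPQ, w, hw, hwA⟩ h1⟩
    refine three_encard (s := 2 * m + 2) hC' hk ws ((T \ C') \ A) ?_
    rintro D ⟨_, a, ha, rfl⟩
    obtain ⟨Q, hQ, haQ⟩ := ha
    rcases hQQ' hQ with hQP | ⟨t, ht, htx, hty, rfl⟩
    · -- a part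
      have hsub : ∀ v ∈ G.neighborSet a \ A, v ∈ nb G Q := fun v hv =>
        ⟨fun h1 => hv.2 ⟨Q, hQ, h1⟩, a, haQ, hv.1⟩
      by_cases h1 : G.neighborSet a \ A ⊆ C'
      · exact Or.inl h1
      · right
        left
        obtain ⟨w, hw, hwC⟩ := Set.not_subset.1 h1
        have hws1 : w = ws := hws Q hQP hQ w ⟨hsub w hw, hwC⟩ hw.2
        refine ⟨(G.neighborSet a \ A) ∩ C', Set.inter_subset_right, ?_⟩
        ext v
        constructor
        · intro hv
          by_cases hvC : v ∈ C'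
          · exact Or.inl ⟨hv, hvC⟩
          · right
            have h2 : v = ws := hws Q hQP hQ v ⟨hsub v hv, hvC⟩ hv.2
            exact h2
        · rintro (hv | hv)
          · exact hv.1
          · have h2 : v = ws := hv
            rw [h2, ← hws1]
            exact hw
    · -- a singleton
      have hat : a = t := haQ
      subst hat
      by_cases htC : a ∈ C'
      · left
        intro v hv
        by_contra hvC
        have hvT : v ∈ T := hsT a ht hQ v hv.1 hv.2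
        apply hv.2
        refine ⟨{v}, hinit {a} hQ {v} (Or.inr ⟨v, hvT, ?_, ?_, rfl⟩) ?_, rfl⟩
        · rintro rfl
          exact hvC hxC
        · rintro rfl
          exact hvC hyC
        · rw [rk_top (hsingle a ht) htC, rk_single (hsingle v hvT) hvC]
          have := hN v
          omega
      · right
        right
        refine ⟨(G.neighborSet a \ A) ∩ C', Set.inter_subset_right, ?_⟩
        ext v
        constructor
        · intro hv
          by_cases hvC : v ∈ C'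
          · exact Or.inl ⟨hv, hvC⟩
          · exact Or.inr ⟨⟨hsT a ht hQ v hv.1 hv.2, hvC⟩, hv.2⟩
        · rintro (hv | ⟨⟨hvT, hvC⟩, hvA⟩)
          · exact hv.1
          · refine ⟨?_, hvA⟩
            have hne : a ≠ v := by
              rintro rfl
              exact hvA ⟨{a}, hQ, rfl⟩
            have h1 := hT a ht v hvT hne
            rcases h1.2 with h2 | ⟨P, hPP, hPnb⟩
            · rcases h2 with h2 | ⟨_, ⟨h3, _⟩ | ⟨h3, _⟩⟩
              · exact h2
              · exact absurd h3 htx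
              · exact absurd h3 hty
            · exfalso
              obtain ⟨c, hc, hcC⟩ := hmeet P hPP
              rw [hPnb] at hc
              rcases hc with hc | hc
              · exact htC (hc ▸ Or.inl hcC)
              · have hc' : c = v := hc
                exact hvC (hc' ▸ Or.inl hcC)

end Pool.Agent.MPd439b2
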