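import Pool.Agent.Lib.MP_d439b2_co.Spec2

/-!
# MP_d439b2_co, F12 and F13: ordered collections, small torso
-/

set_option autoImplicit false

namespace Pool.Agent.MPd439b2

/-- F12. -/
theorem layRank : S_LayRank := by
  intro V _ G k QQ ρ hL hD hT
  have key : ∀ n : ℕ, ∀ QQ' ⊆ QQ, QQ'.ncard = n →
      (∀ Q ∈ QQ', ∀ P ∈ QQ, ρ P < ρ Q → P ∈ QQ') → Lay G k (⋃₀ QQ') := by
    intro n
    induction n with
    | zero =>
      intro QQ' h1 h2 h3
      have h4 : QQ' = ∅ := (Set.ncard_eq_zero (Set.toFinite _)).mp h2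
      rw [h4, Set.sUnion_empty]
      exact Lay.empty
    | succ n ih =>
      intro QQ' h1 h2 h3
      have hne : QQ'.Nonempty := by
        by_contra h4
        rw [Set.not_nonempty_iff_eq_empty] at h4
        rw [h4, Set.ncard_empty] at h2
        omega
      obtain ⟨Q, hQ, hmax⟩ := Set.exists_max_image QQ' ρ (Set.toFinite _) hne
      have h4 : Lay G k (⋃₀ (QQ' \ {Q})) := by
        refine ih (QQ' \ {Q}) (fun R hR => h1 hR.1) ?_ ?_
        · have h5 := Set.ncard_sdiff_singleton_of_mem hQ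
          omega
        · intro R hR P hP hlt
          refine ⟨h3 R hR.1 P hP hlt, fun hPQ => ?_⟩
          have h6 : P = Q := hPQ
          have h7 := hmax R hR.1
          rw [h6] at hlt
          omega
      have h5 : ⋃₀ QQ' = ⋃₀ (QQ' \ {Q}) ∪ Q := by
        ext v
        constructor
        · rintro ⟨R, hR, hv⟩
          by_cases h6 : R = Q
          · right; rw [← h6]; exact hv
          · left; exact ⟨R, ⟨hR, h6⟩, hv⟩
        · rintro (⟨R, hR, hv⟩ | hv)
          · exact ⟨R, hR.1, hv⟩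
          · exact ⟨Q, hQ, hv⟩
      have h6 := hT QQ' h1 h3
      rw [h5] at h6 ⊢
      refine Lay.union h4 (hL Q (h1 hQ)) ?_ h6
      rw [Set.disjoint_left]
      rintro v ⟨R, hR, hv⟩ hvQ
      exact Set.disjoint_left.mp (hD R (h1 hR.1) Q (h1 hQ) hR.2) hv hvQ
  exact key _ QQ subset_rfl rfl (fun Q _ P hP _ => hP)

/-- F13. -/
theorem laySmall (h : S_LayRank) : S_LaySmall := by
  intro V _ G U x y PP T s k hxU hyU hnbU hP hs hk hlay
  classical
  set QQ : Set (Set V) := PP ∪ {Q | ∃ t ∈ T \ {x, y}, Q = {t}} with hQQ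
  have hTU : ∀ t ∈ T \ {x, y}, t ∈ U := by
    rintro t ⟨ht, hxy⟩
    rw [hP.hT] at ht
    rcases ht.1 with h1 | h1
    · exact h1
    · exact absurd h1 hxy
  have hTP : ∀ t ∈ T, ∀ P ∈ PP, t ∉ P := by
    intro t ht P hPP htP
    rw [hP.hT] at ht
    exact ht.2 ⟨P, hPP, htP⟩
  have hU : U = ⋃₀ QQ := by
    ext v
    constructor
    · intro hv
      by_cases h1 : ∃ P ∈ PP, v ∈ P
      · obtain ⟨P, hPP, hvP⟩ := h1
        exact ⟨P, Or.inl hPP, hvP⟩
      · refine ⟨{v}, Or.inr ⟨v, ⟨?_, ?_⟩, rfl⟩, rfl⟩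
        · rw [hP.hT]
          refine ⟨Or.inl hv, ?_⟩
          rintro ⟨P, hPP, hvP⟩
          exact h1 ⟨P, hPP, hvP⟩
        · rintro (h2 | h2)
          · exact hxU (h2 ▸ hv)
          · exact hyU ((show v = y from h2) ▸ hv)
    · rintro ⟨Q, hQ | ⟨t, ht, rfl⟩, hv⟩
      · exact hP.sub Q hQ hv
      · rw [Set.mem_singleton_iff] at hv
        rw [hv]
        exact hTU t ht
  have hk1 : 1 ≤ k := le_trans (Nat.one_le_two_pow) hk
  rw [hU]
  refine h V G k QQ (fun Q => if Q ∈ PP then 0 else 1) ?_ ?_ ?_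
  · rintro Q (hQ | ⟨t, ht, rfl⟩)
    · exact hlay Q hQ
    · exact Lay.single' hk1 t
  · rintro P (hPP | ⟨t, ht, rfl⟩) Q (hQ | ⟨t', ht', rfl⟩) hne
    · exact hP.disj P hPP Q hQ hne
    · rw [Set.disjoint_singleton_right]
      exact hTP t' ht'.1 P hPP
    · rw [Set.disjoint_singleton_left]
      exact hTP t ht.1 Q hQ
    · rw [Set.disjoint_singleton]
      rintro rfl
      exact hne rfl
  · intro QQ' hsub hinit
    have hnb : nb G (⋃₀ QQ') ⊆ T := by
      rintro v ⟨hv, a, ⟨Q, hQ, haQ⟩, hav⟩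
      by_cases hQP : Q ∈ PP
      · apply hP.nbT Q hQP
        exact ⟨fun h1 => hv ⟨Q, hQ, h1⟩, a, haQ, hav⟩
      · rcases hsub hQ with h1 | ⟨t, ht, rfl⟩
        · exact absurd h1 hQP
        · have hat : a = t := haQ
          have hall : ∀ P ∈ PP, P ∈ QQ' := by
            intro P hPP
            refine hinit {t} hQ P (Or.inl hPP) ?_
            simp only [if_pos hPP, if_neg hQP]
            exact Nat.zero_lt_one
          have haU : a ∈ U := by rw [hat]; exact hTU t ht
          rw [hP.hT]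
          refine ⟨?_, ?_⟩
          · by_cases hvU : v ∈ U
            · exact Or.inl hvU
            · exact Or.inr (hnbU ⟨hvU, a, haU, hav⟩)
          · rintro ⟨P, hPP, hvP⟩
            exact hv ⟨P, hall P hPP, hvP⟩
    have h1 : (nb G (⋃₀ QQ')).ncard ≤ s := (Set.ncard_le_ncard hnb (Set.toFinite _)).trans hs
    refine (types_encard_le h1).trans ?_
    exact_mod_cast (Nat.sub_le _ _).trans hk

end Pool.Agent.MPd439b2
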