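import Pool.Agent.Lib.MP_d439b2_co.Spec2

/-!
# MP_d439b2_co, F14: the torso is a wheel
-/

namespace Pool.Agent.MPd439b2

/-- the possible ranks of the members of the collection -/
private def RR {V : Type} (G : SimpleGraph V) (PP : Set (Set V)) (n : ℕ) (h : V) (r : ℕ → V)
    (Q : Set V) (ρ : ℕ) : Prop :=
  (Q ∈ PP ∧ nb G Q = {r (n - 1), r 0} ∧ ρ = 0) ∨
  (Q ∈ PP ∧ ∃ i < n, nb G Q = {h, r i} ∧ ρ = 3 * i + 1) ∨
  (Q ∈ PP ∧ ∃ i, i + 1 < n ∧ nb G Q = {r i, r (i + 1)} ∧ ρ = 3 * i + 2) ∨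
  (Q ∉ PP ∧ ∃ i < n, Q = {r i} ∧ ρ = 3 * i + 3) ∨
  (Q ∉ PP ∧ Q = {h} ∧ ρ = 3 * n + 1)

private theorem exists_RR {V : Type} [Finite V] {G : SimpleGraph V} {U : Set V} {x y : V}
    {PP : Set (Set V)} {T : Set V} (hP : PartSys G U x y PP T) {n : ℕ} {h : V} {r : ℕ → V}
    (hW : WheelAt (TG G x y PP) T n h r) {Q : Set V}
    (hQ : Q ∈ PP ∪ {S | ∃ t ∈ T \ {x, y}, S = {t}}) : ∃ ρ, RR G PP n h r Q ρ := by
  obtain ⟨hn, hhT, hrT, hrh, hinj, hcov, hspoke, hrim⟩ := hW
  rcases hQ with hQ | ⟨t, ht, rfl⟩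
  · obtain ⟨a, b, hab, hnb⟩ := Set.ncard_eq_two.mp (hP.nb2 Q hQ)
    have haT : a ∈ T := hP.nbT Q hQ (by rw [hnb]; exact Or.inl rfl)
    have hbT : b ∈ T := hP.nbT Q hQ (by rw [hnb]; exact Or.inr rfl)
    have hadj : (TG G x y PP).Adj a b := ⟨hab, Or.inr ⟨Q, hQ, hnb⟩⟩
    rcases hcov a haT with rfl | ⟨i, hi, rfl⟩
    · rcases hcov b hbT with rfl | ⟨j, hj, rfl⟩
      · exact absurd rfl hab
      · exact ⟨3 * j + 1, Or.inr (Or.inl ⟨hQ, j, hj, hnb, rfl⟩)⟩
    · rcases hcov b hbT with rfl | ⟨j, hj, rfl⟩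
      · exact ⟨3 * i + 1, Or.inr (Or.inl ⟨hQ, i, hi, by rw [hnb, Set.pair_comm], rfl⟩)⟩
      · rcases (hrim i hi j hj).mp hadj with h1 | h1 | ⟨h1, h2⟩ | ⟨h1, h2⟩
        · subst h1
          exact ⟨3 * i + 2, Or.inr (Or.inr (Or.inl ⟨hQ, i, hj, hnb, rfl⟩))⟩
        · subst h1
          exact ⟨3 * j + 2, Or.inr (Or.inr (Or.inl ⟨hQ, j, hi, by rw [hnb, Set.pair_comm], rfl⟩))⟩
        · subst h1 h2
          exact ⟨0, Or.inl ⟨hQ, by rw [hnb, Set.pair_comm], rfl⟩⟩
        · subst h1 h2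
          exact ⟨0, Or.inl ⟨hQ, hnb, rfl⟩⟩
  · have hnot : ({t} : Set V) ∉ PP := by
      intro h'
      have h1 : t ∈ (U ∪ {x, y}) \ ⋃₀ PP := hP.hT ▸ ht.1
      exact h1.2 ⟨{t}, h', rfl⟩
    rcases hcov t ht.1 with rfl | ⟨i, hi, rfl⟩
    · exact ⟨3 * n + 1, Or.inr (Or.inr (Or.inr (Or.inr ⟨hnot, rfl, rfl⟩)))⟩
    · exact ⟨3 * i + 3, Or.inr (Or.inr (Or.inr (Or.inl ⟨hnot, i, hi, rfl, rfl⟩)))⟩

theorem layWheel (hLR : S_LayRank) : S_LayWheel := by
  intro V _ G U x y PP T k hx hy hnbU hP ⟨n, h, r, hW⟩ hk hlay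
  classical
  obtain ⟨hn, hhT, hrT, hrh, hinj, hcov, hspoke, hrim⟩ := id hW
  -- the collection
  set QQ : Set (Set V) := PP ∪ {S | ∃ t ∈ T \ {x, y}, S = {t}} with hQQ
  have hTU : ∀ t ∈ T, t ∈ U ∪ {x, y} ∧ t ∉ ⋃₀ PP := by
    intro t ht
    have h1 : t ∈ (U ∪ {x, y}) \ ⋃₀ PP := hP.hT ▸ ht
    exact h1
  have hUT : ∀ t, t ∈ U ∪ {x, y} → t ∉ ⋃₀ PP → t ∈ T := by
    intro t h1 h2
    rw [hP.hT]
    exact ⟨h1, h2⟩
  have hsing : ∀ t ∈ T, ({t} : Set V) ∉ PP := fun t ht h' => (hTU t ht).2 ⟨{t}, h', rfl⟩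
  have hUn : ⋃₀ QQ = U := by
    apply Set.Subset.antisymm
    · apply Set.sUnion_subset
      rintro Q (hQ | ⟨t, ht, rfl⟩)
      · exact hP.sub Q hQ
      · rintro s hs
        rw [Set.mem_singleton_iff] at hs
        subst hs
        rcases (hTU s ht.1).1 with h1 | h1
        · exact h1
        · exact absurd h1 ht.2
    · intro u hu
      by_cases h1 : u ∈ ⋃₀ PP
      · obtain ⟨P, hPP, huP⟩ := h1
        exact ⟨P, Or.inl hPP, huP⟩
      · refine ⟨{u}, Or.inr ⟨u, ⟨hUT u (Or.inl hu) h1, ?_⟩, rfl⟩, rfl⟩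
        rintro (h2 | h2)
        · exact hx (h2 ▸ hu)
        · exact hy (h2 ▸ hu)
  -- the ranks
  have hex : ∀ Q : Set V, ∃ ρ, Q ∈ QQ → RR G PP n h r Q ρ := by
    intro Q
    by_cases hQ : Q ∈ QQ
    · obtain ⟨ρ, hρ⟩ := exists_RR hP hW hQ
      exact ⟨ρ, fun _ => hρ⟩
    · exact ⟨0, fun h' => absurd h' hQ⟩
  choose ρ hρ using hex
  have hρr : ∀ j < n, r j ∈ T \ {x, y} → ρ {r j} = 3 * j + 3 := by
    intro j hj hrj
    have h1 := hρ {r j} (Or.inr ⟨r j, hrj, rfl⟩)
    have h2 := hsing (r j) hrj.1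
    rcases h1 with h1 | h1 | h1 | h1 | h1
    · exact absurd h1.1 h2
    · exact absurd h1.1 h2
    · exact absurd h1.1 h2
    · obtain ⟨_, i, hi, h3, h4⟩ := h1
      have h5 : j = i := hinj j hj i hi (Set.singleton_injective h3)
      subst h5
      exact h4
    · exact absurd (Set.singleton_injective h1.2.1) (hrh j hj)
  have hρh : h ∈ T \ {x, y} → ρ {h} = 3 * n + 1 := by
    intro hhx
    have h1 := hρ {h} (Or.inr ⟨h, hhx, rfl⟩)
    have h2 := hsing h hhx.1
    rcases h1 with h1 | h1 | h1 | h1 | h1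
    · exact absurd h1.1 h2
    · exact absurd h1.1 h2
    · exact absurd h1.1 h2
    · obtain ⟨_, i, hi, h3, h4⟩ := h1
      exact absurd (Set.singleton_injective h3).symm (hrh i hi)
    · exact h1.2.2
  -- ranks of the parts
  have hρP : ∀ P ∈ PP, (nb G P = {r (n - 1), r 0} ∧ ρ P = 0) ∨
      (∃ i < n, nb G P = {h, r i} ∧ ρ P = 3 * i + 1) ∨
      (∃ i, i + 1 < n ∧ nb G P = {r i, r (i + 1)} ∧ ρ P = 3 * i + 2) := by
    intro P hPP
    have h1 := hρ P (Or.inl hPP)
    rcases h1 with h1 | h1 | h1 | h1 | h1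
    · exact Or.inl h1.2
    · exact Or.inr (Or.inl h1.2)
    · exact Or.inr (Or.inr h1.2)
    · exact absurd hPP h1.1
    · exact absurd hPP h1.1
  have hρlt : ∀ P ∈ PP, ∀ t ∈ T \ {x, y}, t ∈ nb G P → ρ P < ρ {t} := by
    intro P hPP t ht htP
    rcases hcov t ht.1 with rfl | ⟨j, hj, rfl⟩
    · rw [hρh ht]
      rcases hρP P hPP with h1 | ⟨i, hi, h1⟩ | ⟨i, hi, h1⟩ <;> omega
    · rw [hρr j hj ht]
      rcases hρP P hPP with h1 | ⟨i, hi, h1, h2⟩ | ⟨i, hi, h1, h2⟩
      · omega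
      · rw [h1] at htP
        rcases htP with h3 | h3
        · exact absurd h3 (hrh j hj)
        · have h4 : j = i := hinj j hj i hi h3
          omega
      · rw [h1] at htP
        rcases htP with h3 | h3
        · have h4 : j = i := hinj j hj i (by omega) h3
          omega
        · have h4 : j = i + 1 := hinj j hj (i + 1) hi h3
          omega
  have hmain : Lay G k (⋃₀ QQ) := by
    apply hLR V G k QQ ρ
    · rintro Q (hQ | ⟨t, ht, rfl⟩)
      · exact hlay Q hQ
      · exact Lay.single' (by omega) t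
    · rintro P (hP1 | ⟨t, ht, rfl⟩) Q (hQ1 | ⟨s, hs, rfl⟩) hne
      · exact hP.disj P hP1 Q hQ1 hne
      · rw [Set.disjoint_singleton_right]
        exact fun h' => (hTU s hs.1).2 ⟨P, hP1, h'⟩
      · rw [Set.disjoint_singleton_left]
        exact fun h' => (hTU t ht.1).2 ⟨Q, hQ1, h'⟩
      · rw [Set.disjoint_singleton]
        exact fun h' => hne (by rw [h'])
    · intro QQ' hsub hinit
      by_cases hemp : QQ'.Nonempty
      swap
      · rw [Set.not_nonempty_iff_eq_empty] at hemp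
        subst hemp
        have : Types G (⋃₀ (∅ : Set (Set V))) = ∅ := by
          rw [Set.sUnion_empty]
          apply Set.eq_empty_of_forall_notMem
          rintro S ⟨_, a, ha, _⟩
          exact ha
        rw [this, Set.encard_empty]
        exact zero_le
      -- a member of maximal rank
      have hfin : QQ'.Finite := Set.toFinite _
      obtain ⟨M, hM, hmax⟩ := Set.exists_max_image QQ' ρ hfin hemp
      set i := (ρ M - 1) / 3 with hi
      have hlow : ∀ Q ∈ QQ, ρ Q < ρ M → Q ∈ QQ' := fun Q hQ hlt => hinit M hM Q hQ hlt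
      have hnbs : nb G (⋃₀ QQ') ⊆ {h, x, y, r (n - 1), r i, r (i + 1)} := by
        rintro v ⟨hv, a, ⟨Q, hQ, haQ⟩, hav⟩
        have hQ0 := hsub hQ
        have hQle := hmax Q hQ
        have haU : a ∈ U := hUn ▸ ⟨Q, hQ0, haQ⟩
        by_cases hvU : v ∈ U
        swap
        · rcases hnbU ⟨hvU, a, haU, hav⟩ with h1 | h1
          · rw [h1]; simp
          · rw [Set.mem_singleton_iff] at h1
            rw [h1]; simp
        have hvxy : v ∉ ({x, y} : Set V) := by
          rintro (h1 | h1)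
          · exact hx (h1 ▸ hvU)
          · exact hy (h1 ▸ hvU)
        have hvQ : ∀ P ∈ QQ', v ∉ P := fun P hP1 h' => hv ⟨P, hP1, h'⟩
        -- `v ∈ T`
        have hvT : v ∈ T := by
          apply hUT v (Or.inl hvU)
          rintro ⟨P, hPP, hvP⟩
          have hPQ : P ∉ QQ' := fun h' => hvQ P h' hvP
          rcases hQ0 with hQ1 | ⟨t, ht, rfl⟩
          · have hne : Q ≠ P := fun h' => hPQ (h' ▸ hQ)
            exact hP.notch Q hQ1 P hPP hne ⟨a, haQ, v, hvP, hav⟩
          · rw [Set.mem_singleton_iff] at haQ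
            subst haQ
            apply hPQ
            apply hlow P (Or.inl hPP)
            refine lt_of_lt_of_le (hρlt P hPP a ht ⟨?_, v, hvP, hav.symm⟩) hQle
            exact fun h' => (hTU a ht.1).2 ⟨P, hPP, h'⟩
        rcases hcov v hvT with rfl | ⟨j, hj, rfl⟩
        · simp
        have hrj := hρr j hj ⟨hvT, hvxy⟩
        have hge : ρ M ≤ 3 * j + 3 := by
          by_contra hcon
          have := hlow {r j} (Or.inr ⟨r j, ⟨hvT, hvxy⟩, rfl⟩) (by omega)
          exact hvQ _ this rfl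
        have hfin1 : (j = i ∨ j = i + 1) →
            r j ∈ ({h, x, y, r (n - 1), r i, r (i + 1)} : Set V) := by
          rintro (h1 | h1)
          · rw [h1]; simp
          · rw [h1]; simp
        rcases hQ0 with hQ1 | ⟨t, ht, rfl⟩
        · have hvn : r j ∈ nb G Q := ⟨hvQ Q hQ, a, haQ, hav⟩
          rcases hρP Q hQ1 with ⟨h1, h2⟩ | ⟨i', hi', h1, h2⟩ | ⟨i', hi', h1, h2⟩
          · rw [h1] at hvn
            rcases hvn with h3 | h3
            · rw [h3]; simp
            · have h4 : j = 0 := hinj j hj 0 (by omega) h3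
              apply hfin1
              omega
          · rw [h1] at hvn
            rcases hvn with h3 | h3
            · exact absurd h3 (hrh j hj)
            · have h4 : j = i' := hinj j hj i' hi' h3
              apply hfin1
              omega
          · rw [h1] at hvn
            rcases hvn with h3 | h3
            · have h4 : j = i' := hinj j hj i' (by omega) h3
              apply hfin1
              omega
            · have h4 : j = i' + 1 := hinj j hj (i' + 1) hi' h3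
              apply hfin1
              omega
        · rw [Set.mem_singleton_iff] at haQ
          subst haQ
          rcases hcov a ht.1 with rfl | ⟨i', hi', rfl⟩
          · rw [hρh ht] at hQle
            omega
          · rw [hρr i' hi' ht] at hQle
            have hne : r i' ≠ r j := fun h' => hvQ _ hQ h'.symm
            have hadj : (TG G x y PP).Adj (r i') (r j) := ⟨hne, Or.inl (Or.inl hav)⟩
            rcases (hrim i' hi' j hj).mp hadj with h1 | h1 | ⟨h1, h2⟩ | ⟨h1, h2⟩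
            · apply hfin1
              omega
            · omega
            · rw [h2]; simp
            · omega
      have hcard : (nb G (⋃₀ QQ')).ncard ≤ 6 := by
        refine (Set.ncard_le_ncard hnbs (Set.toFinite _)).trans ?_
        have e1 := Set.ncard_insert_le h ({x, y, r (n - 1), r i, r (i + 1)} : Set V)
        have e2 := Set.ncard_insert_le x ({y, r (n - 1), r i, r (i + 1)} : Set V)
        have e3 := Set.ncard_insert_le y ({r (n - 1), r i, r (i + 1)} : Set V)
        have e4 := Set.ncard_insert_le (r (n - 1)) ({r i, r (i + 1)} : Set V)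
        have e5 := Set.ncard_insert_le (r i) ({r (i + 1)} : Set V)
        have e6 := Set.ncard_singleton (r (i + 1))
        omega
      refine (types_encard_le hcard).trans ?_
      have : (2 ^ 6 - 1 : ℕ) ≤ k := by norm_num; omega
      exact_mod_cast this
  rw [hUn] at hmain
  exact hmain

end Pool.Agent.MPd439b2
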