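import Pool.Agent.Lib.MP_d439b2_co.Spec3

/-!
# MP_d439b2_co, H1: small sets of vertices of the wall-like graphs
-/

set_option autoImplicit false

namespace Pool.Agent.MPd439b2

/-- the relation which gives adjacency in nets, and in tripods for `t = 0` -/
def Legs_R (t : ℕ) {ι : Type} (a b : ι × Fin 3 × ℕ) : Prop :=
  a.1 = b.1 ∧ ((a.2.1 = b.2.1 ∧ (a.2.2 = b.2.2 + 1 ∨ b.2.2 = a.2.2 + 1)) ∨
    (a.2.2 = 0 ∧ b.2.2 = 0 ∧ (t = 0 → a.2.1 = 0 ∨ b.2.1 = 0)))

theorem Legs_R_symm {t : ℕ} {ι : Type} {a b : ι × Fin 3 × ℕ} (h : Legs_R t a b) :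
    Legs_R t b a := by
  obtain ⟨h1, h2⟩ := h
  refine ⟨h1.symm, ?_⟩
  rcases h2 with ⟨h2, h3⟩ | ⟨h2, h3, h4⟩
  · exact Or.inl ⟨h2.symm, h3.symm⟩
  · exact Or.inr ⟨h3, h2, fun ht => (h4 ht).symm⟩

/-- the image of a point of a line -/
def Legs_pt (t s x : ℕ) (b : Bool) (l j r : ℕ) : (Bool × ℕ × ℕ) × Fin 3 × ℕ :=
  if r < t then ((b, l, j), 1, t - 1 - r)
  else if r < x then ((b, l, j), 0, r - t)
  else ((b, l, j + 1), 1, s + t - 1 - r)

theorem Legs_same {t s x : ℕ} {b : Bool} {l j r : ℕ} (ht : t ≤ 1) (h1 : t < x) (h2 : x < s)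
    (h3 : r + 1 < s) (h4 : r ≠ x) (h5 : r + 1 ≠ x) :
    Legs_R t (Legs_pt t s x b l j r) (Legs_pt t s x b l j (r + 1)) := by
  unfold Legs_pt Legs_R
  split_ifs <;> simp only [Fin.isValue, true_and, false_and, or_false, false_or] <;> omega

theorem Legs_next {t s x x' : ℕ} {b : Bool} {l j r : ℕ} (ht : t ≤ 1) (h1 : t < x) (h2 : x < s)
    (h1' : t < x') (h3 : r + 1 = s) (_h4 : r ≠ x) :
    Legs_R t (Legs_pt t s x b l j r) (Legs_pt t s x' b l (j + 1) 0) := by
  have e1 : Legs_pt t s x b l j r = ((b, l, j + 1), 1, t) := by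
    unfold Legs_pt
    rw [if_neg (by omega), if_neg (by omega)]
    congr 2
    omega
  rw [e1]
  unfold Legs_pt Legs_R
  split_ifs
  · refine ⟨rfl, Or.inl ⟨rfl, Or.inl ?_⟩⟩
    show t = t - 1 - 0 + 1
    omega
  · refine ⟨rfl, Or.inr ⟨?_, ?_, fun _ => Or.inr rfl⟩⟩
    · show t = 0
      omega
    · show 0 - t = 0
      omega
  · omega

theorem Legs_branch {t s x : ℕ} {b : Bool} {l j r : ℕ} (ht : t ≤ 1) (h1 : t < x) (h3 : r ≤ t) :
    (Legs_pt t s x b l j r).1 = (b, l, j) ∧ (Legs_pt t s x b l j r).2.2 = 0 ∧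
      (t = 0 → (Legs_pt t s x b l j r).2.1 = 0) := by
  unfold Legs_pt
  split_ifs
  · refine ⟨rfl, ?_, fun h => by omega⟩
    show t - 1 - r = 0
    omega
  · refine ⟨rfl, ?_, fun _ => rfl⟩
    show r - t = 0
    omega
  · omega

theorem Legs_leg {t s x : ℕ} {b : Bool} {l j r : ℕ} : (Legs_pt t s x b l j r).2.1 ≠ 2 := by
  unfold Legs_pt
  split_ifs <;> simp

theorem Legs_inj {t s x x' : ℕ} {b b' : Bool} {l l' j j' r r' : ℕ}
    (h1 : t < x) (h1' : t < x') (hr : r < s) (hr' : r' < s)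
    (hb : b = b') (hl : l = l')
    (h : Legs_pt t s x b l j r = Legs_pt t s x' b' l' j' r') : j = j' ∧ r = r' := by
  subst hb hl
  unfold Legs_pt at h
  split_ifs at h <;> simp only [Prod.mk.injEq, true_and, Fin.isValue] at h <;> omega

theorem Legs_idx {t s x : ℕ} {b : Bool} {l j r : ℕ} :
    (Legs_pt t s x b l j r).1.1 = b ∧ (Legs_pt t s x b l j r).1.2.1 = l := by
  unfold Legs_pt
  split_ifs <;> exact ⟨rfl, rfl⟩

theorem Legs_zero {s x : ℕ} {b : Bool} {l j r : ℕ} (hr : r < s)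
    (h : (Legs_pt 1 s x b l j r).2.2 = 0) :
    r ≤ 1 ∧ (Legs_pt 1 s x b l j r).1 = (b, l, j) := by
  unfold Legs_pt at h ⊢
  split_ifs at h ⊢ with h3 h4
  · exact ⟨by omega, rfl⟩
  · have h5 : r - 1 = 0 := h
    exact ⟨by omega, rfl⟩
  · have h5 : s + 1 - 1 - r = 0 := h
    omega

theorem Legs_div {s q j : ℕ} (hs : 2 ≤ s) (h1 : j * s ≤ q) (h2 : q ≤ j * s + 1) :
    q / s = j ∧ q % s = q - j * s := by
  rw [Nat.div_mod_unique (by omega)]
  constructor
  · rw [mul_comm s j]
    omega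
  · omega

theorem Legs_succ {s q : ℕ} (hs : 2 ≤ s) :
    ((q + 1) / s = q / s ∧ (q + 1) % s = q % s + 1 ∧ q % s + 1 < s) ∨
      ((q + 1) / s = q / s + 1 ∧ (q + 1) % s = 0 ∧ q % s + 1 = s) := by
  have h1 := Nat.div_add_mod q s
  have h2 := Nat.mod_lt q (show s > 0 by omega)
  by_cases h : q % s + 1 < s
  · left
    have h3 : (q + 1) / s = q / s ∧ (q + 1) % s = q % s + 1 := by
      rw [Nat.div_mod_unique (by omega)]
      exact ⟨by omega, h⟩
    exact ⟨h3.1, h3.2, h⟩
  · right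
    have h3 : (q + 1) / s = q / s + 1 ∧ (q + 1) % s = 0 := by
      rw [Nat.div_mod_unique (by omega)]
      refine ⟨?_, by omega⟩
      rw [mul_add, mul_one]
      omega
    exact ⟨h3.1, h3.2, by omega⟩

theorem Legs_pick {V : Type} [Finite V] (U : Set V) (g : ℕ) (hU : U.ncard < g) (F : V → ℕ)
    (I : Finset ℕ) (hI : g ≤ I.card) : ∃ x ∈ I, ∀ u ∈ U, F u ≠ x := by
  classical
  have hfin : U.Finite := Set.toFinite U
  have h1 : (hfin.toFinset.image F).card < I.card := by
    refine lt_of_le_of_lt Finset.card_image_le ?_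
    rw [← Set.ncard_eq_toFinset_card U hfin]
    omega
  obtain ⟨x, hx, hx'⟩ := Finset.exists_mem_notMem_of_card_lt_card h1
  refine ⟨x, hx, fun u hu h => hx' ?_⟩
  exact Finset.mem_image.2 ⟨u, by rwa [Set.Finite.mem_toFinset], h⟩

/-- the map of H1 -/
def Legs_map (n g t : ℕ) (X : Bool → Fin n → ℕ → ℕ) (Mf : Fin n → Fin n → ℕ) :
    WTV n g → (Bool × ℕ × ℕ) × Fin 3 × ℕ
  | Sum.inl (b, l, q) =>
      Legs_pt t (g + 2) (X b l (q.val / (g + 2))) b l.val (q.val / (g + 2)) (q.val % (g + 2))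
  | Sum.inr (i, j, m) =>
      if m.val < Mf i j then ((false, i.val, j.val), 2, m.val)
      else ((true, j.val, i.val), 2, g - 1 - m.val)

theorem Legs_map_inr (n g t : ℕ) (X : Bool → Fin n → ℕ → ℕ) (Mf : Fin n → Fin n → ℕ)
    (i j : Fin n) (m : Fin g) : Legs_map n g t X Mf (Sum.inr (i, j, m)) =
      if m.val < Mf i j then ((false, i.val, j.val), 2, m.val)
      else ((true, j.val, i.val), 2, g - 1 - m.val) := rfl

theorem legs : S_Legs := by
  intro n g t U ht hU
  have hX : ∀ (b : Bool) (l : Fin n) (j : ℕ), ∃ x, t < x ∧ x < g + 2 ∧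
      ∀ q : Fin (n * (g + 2)), Sum.inl (b, l, q) ∈ U → q.val ≠ j * (g + 2) + x := by
    intro b l j
    obtain ⟨x, hx, hx'⟩ := Legs_pick U g hU (fun u => match u with
      | Sum.inl (_, _, q) => q.val - j * (g + 2)
      | Sum.inr _ => 0) (Finset.Ioo t (g + 2)) (by rw [Nat.card_Ioo]; omega)
    rw [Finset.mem_Ioo] at hx
    refine ⟨x, hx.1, hx.2, fun q hq h => ?_⟩
    have := hx' _ hq
    apply this
    show q.val - j * (g + 2) = x
    omega
  have hM : ∀ (i j : Fin n), ∃ x, x < g ∧ ∀ m : Fin g, Sum.inr (i, j, m) ∈ U → m.val ≠ x := by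
    intro i j
    obtain ⟨x, hx, hx'⟩ := Legs_pick U g hU (fun u => match u with
      | Sum.inl _ => 0
      | Sum.inr (_, _, m) => m.val) (Finset.range g) (by rw [Finset.card_range])
    rw [Finset.mem_range] at hx
    exact ⟨x, hx, fun m hm => hx' _ hm⟩
  choose X hX1 hX2 hX3 using hX
  choose Mf hM1 hM2 using hM
  set s := g + 2 with hs
  -- points of `U` avoid the gaps
  have hgap : ∀ (b : Bool) (l : Fin n) (q : Fin (n * (g + 2))), Sum.inl (b, l, q) ∈ U →
      q.val % (g + 2) ≠ X b l (q.val / (g + 2)) := by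
    intro b l q hq h
    apply hX3 b l (q.val / (g + 2)) q hq
    rw [← h]
    exact (Nat.div_add_mod' q.val (g + 2)).symm
  have hpos : 0 < g + 2 := by omega
  have hR : ∀ u ∈ U, ∀ v ∈ U, (WT n g t).Adj u v →
      Legs_R t (Legs_map n g t X Mf u) (Legs_map n g t X Mf v) := by
    have hll : ∀ (b : Bool) (l : Fin n) (q q' : Fin (n * (g + 2))), Sum.inl (b, l, q) ∈ U →
        Sum.inl (b, l, q') ∈ U → q'.val = q.val + 1 →
        Legs_R t (Legs_map n g t X Mf (Sum.inl (b, l, q)))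
          (Legs_map n g t X Mf (Sum.inl (b, l, q'))) := by
      intro b l q q' hq hq' h
      have g1 := hgap b l q hq
      have g2 := hgap b l q' hq'
      show Legs_R t (Legs_pt t (g + 2) _ b l.val (q.val / (g + 2)) (q.val % (g + 2)))
        (Legs_pt t (g + 2) _ b l.val (q'.val / (g + 2)) (q'.val % (g + 2)))
      rw [h] at g2 ⊢
      rcases Legs_succ (s := g + 2) (q := q.val) (by omega) with ⟨e1, e2, e3⟩ | ⟨e1, e2, e3⟩
      · rw [e1, e2] at g2 ⊢
        exact Legs_same ht (hX1 _ _ _) (hX2 _ _ _) e3 g1 g2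
      · rw [e1, e2] at g2 ⊢
        exact Legs_next ht (hX1 _ _ _) (hX2 _ _ _) (hX1 _ _ _) e3 g1
    have hrr : ∀ (i j : Fin n) (m m' : Fin g), Sum.inr (i, j, m) ∈ U →
        Sum.inr (i, j, m') ∈ U → m'.val = m.val + 1 →
        Legs_R t (Legs_map n g t X Mf (Sum.inr (i, j, m)))
          (Legs_map n g t X Mf (Sum.inr (i, j, m'))) := by
      intro i j m m' hm hm' h
      have g1 := hM2 i j m hm
      have g2 := hM2 i j m' hm'
      have g3 := m'.isLt
      rw [Legs_map_inr, Legs_map_inr]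
      by_cases hlt : m.val < Mf i j
      · rw [if_pos hlt, if_pos (by omega)]
        exact ⟨rfl, Or.inl ⟨rfl, Or.inr h⟩⟩
      · rw [if_neg hlt, if_neg (by omega)]
        refine ⟨rfl, Or.inl ⟨rfl, Or.inl ?_⟩⟩
        show g - 1 - m.val = g - 1 - m'.val + 1
        omega
    have hlr : ∀ (b : Bool) (l : Fin n) (q : Fin (n * (g + 2))) (i j : Fin n) (m : Fin g),
        Sum.inl (b, l, q) ∈ U → Sum.inr (i, j, m) ∈ U →
        (WT n g t).Adj (Sum.inl (b, l, q)) (Sum.inr (i, j, m)) →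
        Legs_R t (Legs_map n g t X Mf (Sum.inl (b, l, q)))
          (Legs_map n g t X Mf (Sum.inr (i, j, m))) := by
      intro b l q i j m hq hm h
      have g1 := hM2 i j m hm
      have g2 := hM1 i j
      have g3 := m.isLt
      rcases h with ⟨hb, hl, hm0, h1, h2⟩ | ⟨hb, hl, hm0, h1, h2⟩
      · subst hb hl
        obtain ⟨e1, e2⟩ := Legs_div (s := g + 2) (by omega) h1 (by omega)
        have e3 : Legs_map n g t X Mf (Sum.inr (l, j, m)) =
            ((false, l.val, j.val), 2, 0) := by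
          show (if m.val < Mf l j then ((false, l.val, j.val), 2, m.val)
            else ((true, j.val, l.val), 2, g - 1 - m.val)) = _
          rw [if_pos (by omega), hm0]
        rw [e3]
        obtain ⟨p1, p2, p3⟩ := Legs_branch (s := g + 2) (b := false) (l := l.val)
          (j := q.val / (g + 2)) (r := q.val % (g + 2)) ht (hX1 false l (q.val / (g + 2)))
          (by omega)
        refine ⟨?_, Or.inr ⟨p2, rfl, fun h0 => Or.inl (p3 h0)⟩⟩
        rw [show (Legs_map n g t X Mf (Sum.inl (false, l, q))).1 = _ from p1, e1]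
      · subst hb hl
        obtain ⟨e1, e2⟩ := Legs_div (s := g + 2) (by omega) h1 (by omega)
        have e3 : Legs_map n g t X Mf (Sum.inr (i, l, m)) =
            ((true, l.val, i.val), 2, 0) := by
          show (if m.val < Mf i l then ((false, i.val, l.val), 2, m.val)
            else ((true, l.val, i.val), 2, g - 1 - m.val)) = _
          rw [if_neg (by omega), show g - 1 - m.val = 0 by omega]
        rw [e3]
        obtain ⟨p1, p2, p3⟩ := Legs_branch (s := g + 2) (b := true) (l := l.val)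
          (j := q.val / (g + 2)) (r := q.val % (g + 2)) ht (hX1 true l (q.val / (g + 2)))
          (by omega)
        refine ⟨?_, Or.inr ⟨p2, rfl, fun h0 => Or.inl (p3 h0)⟩⟩
        rw [show (Legs_map n g t X Mf (Sum.inl (true, l, q))).1 = _ from p1, e1]
    intro u hu v hv h
    rcases u with ⟨b, l, q⟩ | ⟨i, j, m⟩ <;> rcases v with ⟨b', l', q'⟩ | ⟨i', j', m'⟩
    · obtain ⟨h1, h2, h3⟩ := h
      subst h1 h2
      rcases h3 with h3 | h3
      · exact Legs_R_symm (hll _ _ _ _ hv hu h3)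
      · exact hll _ _ _ _ hu hv h3
    · exact hlr _ _ _ _ _ _ hu hv h
    · exact Legs_R_symm (hlr _ _ _ _ _ _ hv hu h.symm)
    · obtain ⟨h1, h2, h3⟩ := h
      subst h1 h2
      rcases h3 with h3 | h3
      · exact Legs_R_symm (hrr _ _ _ _ hv hu h3)
      · exact hrr _ _ _ _ hu hv h3
  have hinj : Set.InjOn (Legs_map n g t X Mf) U := by
    intro u hu v hv h
    rcases u with ⟨b, l, q⟩ | ⟨i, j, m⟩ <;> rcases v with ⟨b', l', q'⟩ | ⟨i', j', m'⟩
    · have h0 : Legs_pt t (g + 2) (X b l (q.val / (g + 2))) b l.val (q.val / (g + 2))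
          (q.val % (g + 2)) = Legs_pt t (g + 2) (X b' l' (q'.val / (g + 2))) b' l'.val
          (q'.val / (g + 2)) (q'.val % (g + 2)) := h
      have i1 := Legs_idx (t := t) (s := g + 2) (x := X b l (q.val / (g + 2))) (b := b)
        (l := l.val) (j := q.val / (g + 2)) (r := q.val % (g + 2))
      have i2 := Legs_idx (t := t) (s := g + 2) (x := X b' l' (q'.val / (g + 2))) (b := b')
        (l := l'.val) (j := q'.val / (g + 2)) (r := q'.val % (g + 2))
      rw [h0, i2.1, i2.2] at i1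
      obtain ⟨hb, hl⟩ := i1
      have hl' : l' = l := Fin.ext hl
      subst hb hl'
      obtain ⟨e1, e2⟩ := Legs_inj (hX1 _ _ _) (hX1 _ _ _) (Nat.mod_lt _ hpos)
        (Nat.mod_lt _ hpos) rfl rfl h0
      have hq : q = q' := by
        apply Fin.ext
        rw [← Nat.div_add_mod q.val (g + 2), ← Nat.div_add_mod q'.val (g + 2), e1, e2]
      rw [hq]
    · exfalso
      have h1 : (Legs_map n g t X Mf (Sum.inr (i', j', m'))).2.1 = 2 := by
        rw [Legs_map_inr]
        split_ifs <;> rfl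
      rw [← h] at h1
      exact Legs_leg h1
    · exfalso
      have h1 : (Legs_map n g t X Mf (Sum.inr (i, j, m))).2.1 = 2 := by
        rw [Legs_map_inr]
        split_ifs <;> rfl
      rw [h] at h1
      exact Legs_leg h1
    · have g3 := m.isLt
      have g4 := m'.isLt
      have h0 : (if m.val < Mf i j then (((false, i.val, j.val) : Bool × ℕ × ℕ), (2 : Fin 3), m.val)
          else ((true, j.val, i.val), 2, g - 1 - m.val)) =
          (if m'.val < Mf i' j' then ((false, i'.val, j'.val), 2, m'.val)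
            else ((true, j'.val, i'.val), 2, g - 1 - m'.val)) := h
      split_ifs at h0
      · simp only [Prod.mk.injEq, true_and] at h0
        rw [Fin.ext h0.1.1, Fin.ext h0.1.2, Fin.ext h0.2]
      · simp at h0
      · simp at h0
      · simp only [Prod.mk.injEq, true_and] at h0
        rw [Fin.ext h0.1.1, Fin.ext h0.1.2, show m = m' from Fin.ext (by omega)]
  refine ⟨Bool × ℕ × ℕ, Legs_map n g t X Mf, hinj, ?_, ?_, ?_⟩
  · intro u hu v hv h
    have hne : Legs_map n g t X Mf u ≠ Legs_map n g t X Mf v := fun e =>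
      h.ne (hinj hu hv e)
    obtain ⟨h1, h2⟩ := hR u hu v hv h
    refine ⟨hne, h1, ?_⟩
    rcases h2 with h2 | h2
    · exact Or.inl h2
    · exact Or.inr ⟨h2.1, h2.2.1⟩
  · intro ht0 u hu v hv h
    have hne : Legs_map n g t X Mf u ≠ Legs_map n g t X Mf v := fun e =>
      h.ne (hinj hu hv e)
    obtain ⟨h1, h2⟩ := hR u hu v hv h
    refine ⟨hne, h1, ?_⟩
    rcases h2 with h2 | h2
    · exact Or.inl h2
    · exact Or.inr ⟨h2.1, h2.2.1, h2.2.2 ht0⟩
  · intro ht1
    subst ht1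
    have hlr : ∀ (b : Bool) (l : Fin n) (q : Fin (n * (g + 2))) (i j : Fin n) (m : Fin g),
        Sum.inl (b, l, q) ∈ U → Sum.inr (i, j, m) ∈ U →
        (Legs_map n g 1 X Mf (Sum.inl (b, l, q))).1 =
          (Legs_map n g 1 X Mf (Sum.inr (i, j, m))).1 →
        (Legs_map n g 1 X Mf (Sum.inl (b, l, q))).2.2 = 0 →
        (Legs_map n g 1 X Mf (Sum.inr (i, j, m))).2.2 = 0 →
        (WT n g 1).Adj (Sum.inl (b, l, q)) (Sum.inr (i, j, m)) := by
      intro b l q i j m hq hm h1 h2 h3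
      obtain ⟨z1, z2⟩ := Legs_zero (Nat.mod_lt q.val hpos) h2
      rw [show (Legs_map n g 1 X Mf (Sum.inl (b, l, q))).1 = _ from z2] at h1
      have g3 := m.isLt
      have hdm := Nat.div_add_mod q.val (g + 2)
      have h1' : ((b, l.val, q.val / (g + 2)) : Bool × ℕ × ℕ) =
          (if m.val < Mf i j then (((false, i.val, j.val) : Bool × ℕ × ℕ), (2 : Fin 3), m.val)
          else ((true, j.val, i.val), 2, g - 1 - m.val)).1 := h1
      have h3' : (if m.val < Mf i j then (((false, i.val, j.val) : Bool × ℕ × ℕ), (2 : Fin 3), m.val)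
          else ((true, j.val, i.val), 2, g - 1 - m.val)).2.2 = 0 := h3
      split_ifs at h1' h3'
      · simp only [Prod.mk.injEq] at h1'
        obtain ⟨a1, a2, a3⟩ := h1'
        rw [a3, mul_comm] at hdm
        exact Or.inl ⟨a1, Fin.ext a2, h3', by omega, by omega⟩
      · simp only [Prod.mk.injEq] at h1'
        obtain ⟨a1, a2, a3⟩ := h1'
        rw [a3, mul_comm] at hdm
        have h4 : g - 1 - m.val = 0 := h3'
        exact Or.inr ⟨a1, Fin.ext a2, by omega, by omega, by omega⟩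
    intro u hu v hv hne h1 h2 h3
    rcases u with ⟨b, l, q⟩ | ⟨i, j, m⟩ <;> rcases v with ⟨b', l', q'⟩ | ⟨i', j', m'⟩
    · obtain ⟨z1, z2⟩ := Legs_zero (Nat.mod_lt q.val hpos) h2
      obtain ⟨z1', z2'⟩ := Legs_zero (Nat.mod_lt q'.val hpos) h3
      rw [show (Legs_map n g 1 X Mf (Sum.inl (b, l, q))).1 = _ from z2,
        show (Legs_map n g 1 X Mf (Sum.inl (b', l', q'))).1 = _ from z2'] at h1
      simp only [Prod.mk.injEq] at h1
      obtain ⟨a1, a2, a3⟩ := h1
      have a2' : l = l' := Fin.ext a2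
      subst a1 a2'
      have hqq : q.val ≠ q'.val := fun e => hne (by rw [Fin.ext e])
      have d1 := Nat.div_add_mod q.val (g + 2)
      have d2 := Nat.div_add_mod q'.val (g + 2)
      rw [← a3] at d2
      exact ⟨rfl, rfl, by omega⟩
    · exact hlr _ _ _ _ _ _ hu hv h1 h2 h3
    · exact (hlr _ _ _ _ _ _ hv hu h1.symm h3 h2).symm
    · exfalso
      apply hne
      have g3 := m.isLt
      have g4 := m'.isLt
      have h1' : (if m.val < Mf i j then (((false, i.val, j.val) : Bool × ℕ × ℕ), (2 : Fin 3), m.val)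
          else ((true, j.val, i.val), 2, g - 1 - m.val)).1 =
          (if m'.val < Mf i' j' then (((false, i'.val, j'.val) : Bool × ℕ × ℕ), (2 : Fin 3), m'.val)
            else ((true, j'.val, i'.val), 2, g - 1 - m'.val)).1 := h1
      have h2' : (if m.val < Mf i j then (((false, i.val, j.val) : Bool × ℕ × ℕ), (2 : Fin 3), m.val)
          else ((true, j.val, i.val), 2, g - 1 - m.val)).2.2 = 0 := h2
      have h3' : (if m'.val < Mf i' j' then (((false, i'.val, j'.val) : Bool × ℕ × ℕ), (2 : Fin 3),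
          m'.val) else ((true, j'.val, i'.val), 2, g - 1 - m'.val)).2.2 = 0 := h3
      split_ifs at h1' h2' h3'
      · simp only [Prod.mk.injEq, true_and] at h1'
        have e2 : m.val = 0 := h2'
        have e3 : m'.val = 0 := h3'
        rw [Fin.ext h1'.1, Fin.ext h1'.2, show m = m' from Fin.ext (by omega)]
      · simp at h1'
      · simp at h1'
      · simp only [Prod.mk.injEq, true_and] at h1'
        have e2 : g - 1 - m.val = 0 := h2'
        have e3 : g - 1 - m'.val = 0 := h3'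
        rw [Fin.ext h1'.1, Fin.ext h1'.2, show m = m' from Fin.ext (by omega)]

end Pool.Agent.MPd439b2
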