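import Pool.Agent.Lib.MP_d439b2_co.Spec2

/-!
# MP_d439b2_co: the main induction for layouts
-/

namespace Pool.Agent.MPd439b2

theorem mainLay_addE_off {V : Type} {G : SimpleGraph V} {x y : V} {S : Set V}
    (h : x ∉ S ∨ y ∉ S) : ∀ u ∈ S, ∀ v ∈ S, ((addE G x y).Adj u v ↔ G.Adj u v) := by
  intro u hu v hv
  constructor
  · rintro (h1 | ⟨-, ⟨h2, h3⟩ | ⟨h2, h3⟩⟩)
    · exact h1
    · subst h2
      subst h3
      rcases h with h | h
      · exact absurd hu h
      · exact absurd hv h
    · subst h2
      subst h3
      rcases h with h | h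
      · exact absurd hv h
      · exact absurd hu h
  · intro h1
    exact Or.inl h1

theorem mainLay_isoOn_ncard {V : Type} {F : SimpleGraph (Fin 6)} {G : SimpleGraph V} {S : Set V}
    (h : IsoOn F G S) : S.ncard ≤ 6 := by
  obtain ⟨p, -, h2, -⟩ := h
  rw [← h2, ← Set.image_univ]
  refine (Set.ncard_image_le Set.finite_univ).trans ?_
  simp [Set.ncard_univ]

theorem mainLay (h1 : S_One) (h2 : S_CaseDisc) (h3 : S_CaseCut) (h4 : S_CasePoly) (h5 : S_Parts)
    (h6 : S_TorsoIMS) (h7 : S_TorsoThree) (h8 : S_PartGood) (h9 : S_TorsoDD) (h10 : S_Cover)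
    (h11 : S_LaySmall) (h12 : S_LayWheel) (h13 : S_LayComplete) (h14 : S_Class) : S_Main := by
  intro V _ _ G N m hNm hgood
  set K : ℕ := 2 ^ (N + 2 * m + 8) with hK
  have hK8 : 2 ^ 8 ≤ K := Nat.pow_le_pow_right (by norm_num) (by omega)
  have hK64 : 64 ≤ K := le_trans (by norm_num) hK8
  have hKm : 2 ^ (2 * m + 4) ≤ K := Nat.pow_le_pow_right (by norm_num) (by omega)
  have hK6 : 2 ^ 6 ≤ K := le_trans (by norm_num) hK8
  have hKN : 2 ^ (N + m) ≤ K := Nat.pow_le_pow_right (by norm_num) (by omega)
  have hSH : ∀ n, SH N m K n V := by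
    intro n
    induction n with
    | zero =>
      intro G U x y hU
      exact absurd hU (Nat.not_lt_zero _)
    | succ n ih =>
      intro G U x y hU hxy hx hy hnb hgood
      have hUn : U.ncard ≤ n := Nat.lt_succ_iff.1 hU
      rcases U.eq_empty_or_nonempty with hU0 | hU0
      · rw [hU0]
        exact Lay.empty
      by_cases hconn : Conn G U
      swap
      · exact h2 V N m K n (by omega) ih G U x y hUn hxy hx hy hnb hgood hU0 hconn
      by_cases hyn : y ∈ nb G U
      swap
      · refine h1 V N m K n (by omega) ih G U x hUn hx ?_ ?_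
        · intro v hv
          rcases hnb hv with h | h
          · exact h
          · rw [Set.mem_singleton_iff] at h
            subst h
            exact absurd hv hyn
        · refine (hgood.mono (S := U ∪ {x}) ?_).congr (mainLay_addE_off (Or.inr ?_))
          · intro v hv
            rcases hv with hv | hv
            · exact Or.inl hv
            · exact Or.inr (Or.inl hv)
          · rintro (h | h)
            · exact hy h
            · exact hxy h.symm
      by_cases hxn : x ∈ nb G U
      swap
      · refine h1 V N m K n (by omega) ih G U y hUn hy ?_ ?_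
        · intro v hv
          rcases hnb hv with h | h
          · subst h
            exact absurd hv hxn
          · exact h
        · refine (hgood.mono (S := U ∪ {y}) ?_).congr (mainLay_addE_off (Or.inl ?_))
          · intro v hv
            rcases hv with hv | hv
            · exact Or.inl hv
            · exact Or.inr (Or.inr hv)
          · rintro (h | h)
            · exact hx h
            · exact hxy h
      have hnbe : nb G U = {x, y} := by
        refine Set.Subset.antisymm hnb ?_
        rintro v (hv | hv)
        · rw [hv]; exact hxn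
        · rw [Set.mem_singleton_iff] at hv
          rw [hv]; exact hyn
      by_cases hcut : ∃ c ∈ U, ∃ D ⊆ U \ {c}, D.Nonempty ∧ nb G D ⊆ {c}
      · obtain ⟨c, hc, D, hD, hDne, hDnb⟩ := hcut
        exact h3 V N m K n (by omega) ih G U x y hUn hxy hx hy hnb hgood c hc D hD hDne hDnb
      by_cases hpoly : ∃ c ∈ U, ∃ A B : Set V, A ∪ B = U \ {c} ∧ Disjoint A B ∧
          nb G A ⊆ {x, c} ∧ nb G B ⊆ {y, c}
      · obtain ⟨c, hc, A, B, hAB, hdis, hA, hB⟩ := hpoly
        exact h4 V N m K n (by omega) ih G U x y hUn hxy hx hy hnbe hgood hconn c hc A B hAB hdis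
          hA hB
      have hR : Rigid G U x y :=
        { hxy := hxy
          hx := hx
          hy := hy
          conn := hconn
          hnb := hnbe
          nocut := fun c hc D hD hDne hDnb => hcut ⟨c, hc, D, hD, hDne, hDnb⟩
          nopoly := fun c hc A B hAB hdis hA hB => hpoly ⟨c, hc, A, B, hAB, hdis, hA, hB⟩ }
      obtain ⟨PP, T, hps⟩ := h5 V G U x y hR
      have hPL : ∀ P ∈ PP, Lay G K P := by
        intro P hP
        obtain ⟨u, v, huv, hPuv⟩ := Set.ncard_eq_two.1 (hps.nb2 P hP)
        have hpart : IsPart G U P := ⟨hps.sub P hP, hps.ne P hP, hps.conn P hP,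
          (hps.nb2 P hP).le⟩
        have hg := h8 V G U x y N m P u v hR hpart hPuv huv hgood
        have hlt : P.ncard < U.ncard :=
          Set.ncard_lt_ncard ((hps.sub P hP).ssubset_of_ne (hps.ne P hP)) (Set.toFinite U)
        have hu : u ∈ nb G P := by rw [hPuv]; exact Or.inl rfl
        have hv : v ∈ nb G P := by rw [hPuv]; exact Or.inr rfl
        exact ih G P u v (lt_of_lt_of_le hlt hUn) huv hu.1 hv.1 hPuv.le hg
      have hPPU : ⋃₀ PP ⊆ U := Set.sUnion_subset hps.sub
      have hno : ¬ IMS K5m (TG G x y PP) T := by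
        intro hI
        have hd : Disjoint T (⋃₀ PP) := by
          rw [hps.hT]
          exact Set.disjoint_sdiff_left
        have := h6 V (Fin 5) K5m G U x y PP T hx hy hps PP (Set.Subset.refl _) T
          (Set.Subset.refl _) hd hI
        refine hgood.1 (this.mono ?_)
        refine Set.union_subset ?_ (hPPU.trans Set.subset_union_left)
        rw [hps.hT]
        exact Set.sdiff_subset
      have h3c := h7 V G U x y PP T hR hps
      rcases h14 V (TG G x y PP) T h3c hno with hc | hc | hc | hc
      · by_cases hT : T.ncard ≤ N + m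
        · exact h11 V G U x y PP T (N + m) K hx hy hnb hps hT hKN hPL
        · push Not at hT
          have hcov : ∃ C : Set V, C ⊆ ⋃₀ {A | ∃ P ∈ PP, A = nb G P} ∧ C.ncard ≤ 2 * m ∧
              ∀ A ∈ {A | ∃ P ∈ PP, A = nb G P}, (A ∩ C).Nonempty := by
            refine h10 V {A | ∃ P ∈ PP, A = nb G P} m ?_ ?_
            · rintro A ⟨P, hP, rfl⟩
              exact hps.nb2 P hP
            · rintro ⟨p, hp1, hp2⟩
              choose q hq1 hq2 using hp1
              refine hgood.2 (h9 V G U x y PP T N m q hx hy hps hNm hc hT.le hq1 ?_)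
              intro i j hij
              rw [← hq2 i, ← hq2 j]
              exact hp2 i j hij
          obtain ⟨C, -, hC2, hC3⟩ := hcov
          exact h13 V G U x y PP T C m K hx hy hnb hps hc hC2
            (fun P hP => hC3 _ ⟨P, hP, rfl⟩) hKm hPL
      · exact h12 V G U x y PP T K hx hy hnb hps hc hK64 hPL
      · exact h11 V G U x y PP T 6 K hx hy hnb hps (mainLay_isoOn_ncard hc) hK6 hPL
      · exact h11 V G U x y PP T 6 K hx hy hnb hps (mainLay_isoOn_ncard hc) hK6 hPL
  -- the final step
  obtain ⟨x⟩ := ‹Nonempty V›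
  have hx : x ∉ (Set.univ \ {x} : Set V) := fun h => h.2 rfl
  have hL : Lay G K (Set.univ \ {x}) := by
    refine h1 V N m K (Set.univ \ {x} : Set V).ncard (by omega) (hSH _) G (Set.univ \ {x}) x le_rfl
      hx ?_ (hgood.mono (Set.subset_univ _))
    intro v hv
    by_contra hc
    exact hv.1 ⟨Set.mem_univ v, hc⟩
  have hins : insert x (Set.univ \ {x} : Set V) = Set.univ := by
    ext v
    by_cases hv : v = x
    · simp [hv]
    · simp [hv]
  have h0 : (Types G (insert x (Set.univ \ {x} : Set V))).encard ≤ K := by
    have : Types G (insert x (Set.univ \ {x} : Set V)) = ∅ := by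
      rw [hins]
      ext T
      constructor
      · rintro ⟨hne, a, -, hT⟩
        obtain ⟨t, ht⟩ := hne
        rw [hT] at ht
        exact absurd (Set.mem_univ t) ht.2
      · intro h
        exact absurd h (Set.notMem_empty _)
    rw [this, Set.encard_empty]
    exact zero_le
  have hfin := Lay.insert (k := K) (by omega) hL hx h0
  rwa [hins] at hfin

end Pool.Agent.MPd439b2
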