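import Pool.Agent.Lib.MP_d439b2_co.Spec2

/-!
# MP_d439b2_co, F1 and F2
-/

namespace Pool.Agent.MPd439b2

variable {V : Type}

/-- the nonempty types of a set without outside neighbours -/
theorem types_of_nb_empty {G : SimpleGraph V} {A : Set V} {k : ℕ} (h : nb G A ⊆ ∅) :
    (Types G A).encard ≤ k := by
  have h1 : Types G A = ∅ := by
    rw [Set.eq_empty_iff_forall_notMem]
    intro T hT
    obtain ⟨h2, h3⟩ := types_subset_powerset G A hT
    obtain ⟨v, hv⟩ := h3
    exact h (h2 hv)
  rw [h1]; simp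

theorem types_of_nb_le [Finite V] {G : SimpleGraph V} {A B : Set V} {k n : ℕ} (h : nb G A ⊆ B)
    (hB : B.ncard ≤ n) (hk : 2 ^ n - 1 ≤ k) : (Types G A).encard ≤ k := by
  have h1 := types_encard_le (G := G) (A := A) (n := n)
    ((Set.ncard_le_ncard h (Set.toFinite _)).trans hB)
  exact h1.trans (by exact_mod_cast hk)

theorem lay_of_noEdges [Finite V] {G : SimpleGraph V} {k : ℕ} (hk : 1 ≤ k) (U : Set V)
    (hnb : nb G U ⊆ ∅) (hne : ∀ u ∈ U, ∀ v ∈ U, ¬ G.Adj u v) : Lay G k U := by
  have key : ∀ A : Set V, A ⊆ U → nb G A ⊆ ∅ := by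
    rintro A hA v ⟨hv, a, ha, hav⟩
    by_cases hvU : v ∈ U
    · exact absurd hav (hne a (hA ha) v hvU)
    · exact hnb ⟨hvU, a, hA ha, hav⟩
  have h2 : ∀ A : Set V, A ⊆ U → Lay G k A := by
    intro A hA
    induction A, Set.toFinite A using Set.Finite.induction_on with
    | empty => exact Lay.empty
    | @insert a s has _ ih =>
      exact Lay.insert hk (ih ((Set.subset_insert a s).trans hA)) has
        (types_of_nb_empty (key _ hA))
  exact h2 U (le_refl U)

theorem addE_adj_iff {G : SimpleGraph V} {x c : V} (h : G.Adj x c) (u v : V) :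
    (addE G x c).Adj u v ↔ G.Adj u v := by
  constructor
  · rintro (h1 | ⟨_, ⟨rfl, rfl⟩ | ⟨rfl, rfl⟩⟩)
    · exact h1
    · exact h
    · exact h.symm
  · exact fun h1 => Or.inl h1

theorem goodOn_addE {N m : ℕ} {G : SimpleGraph V} {S S' : Set V} {x c : V} (h : G.Adj x c)
    (hg : GoodOn N m G S') (hS : S ⊆ S') : GoodOn N m (addE G x c) S :=
  (hg.mono hS).congr fun u _ v _ => (addE_adj_iff h u v).symm

theorem one : S_One := by
  intro V _ N m k n hk hSH G U x hn hx hnb hg
  by_cases h1 : ∃ c ∈ U, G.Adj x c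
  · obtain ⟨c, hc, hxc⟩ := h1
    have hU : insert c (U \ {c}) = U := by
      rw [Set.insert_sdiff_singleton, Set.insert_eq_of_mem hc]
    have hlt : (U \ {c}).ncard < n := by
      have := Set.ncard_sdiff_singleton_lt_of_mem hc (Set.toFinite U)
      omega
    have h2 : Lay G k (U \ {c}) := by
      refine hSH G (U \ {c}) x c hlt (fun h => hx (h ▸ hc)) (fun h => hx h.1) (fun h => h.2 rfl)
        ?_ ?_
      · rintro v ⟨hv, a, ha, hav⟩
        by_cases hvU : v ∈ U
        · right
          by_contra hvc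
          exact hv ⟨hvU, hvc⟩
        · left
          exact hnb ⟨hvU, a, ha.1, hav⟩
      · refine goodOn_addE hxc hg ?_
        rintro v (hv | hv | hv)
        · exact Or.inl hv.1
        · exact Or.inr hv
        · rw [Set.mem_singleton_iff] at hv
          rw [hv]; exact Or.inl hc
    rw [← hU]
    refine Lay.insert hk h2 (fun h => h.2 rfl) ?_
    rw [hU]
    exact types_of_nb_le (n := 1) hnb (by simp) (by omega)
  · have hnb0 : nb G U ⊆ ∅ := by
      rintro v hv
      have hvx := hnb hv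
      rw [Set.mem_singleton_iff] at hvx
      subst hvx
      obtain ⟨_, a, ha, hav⟩ := hv
      exact h1 ⟨a, ha, hav.symm⟩
    by_cases h3 : ∃ u ∈ U, ∃ v ∈ U, G.Adj u v
    · obtain ⟨u, hu, v, hv, huv⟩ := h3
      have huv' : u ≠ v := huv.ne
      have hvU : v ∈ U \ {u} := ⟨hv, fun h => huv' h.symm⟩
      have hU1 : insert u (U \ {u}) = U := by
        rw [Set.insert_sdiff_singleton, Set.insert_eq_of_mem hu]
      have hU2 : insert v ((U \ {u}) \ {v}) = U \ {u} := by
        rw [Set.insert_sdiff_singleton, Set.insert_eq_of_mem hvU]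
      have hlt : ((U \ {u}) \ {v}).ncard < n := by
        have e1 := Set.ncard_sdiff_singleton_lt_of_mem hu (Set.toFinite U)
        have e2 := Set.ncard_sdiff_singleton_lt_of_mem hvU (Set.toFinite (U \ {u}))
        omega
      have h2 : Lay G k ((U \ {u}) \ {v}) := by
        refine hSH G _ u v hlt huv' (fun h => h.1.2 rfl) (fun h => h.2 rfl) ?_ ?_
        · rintro w ⟨hw, a, ha, haw⟩
          by_cases hwU : w ∈ U
          · by_contra hcon
            apply hw
            refine ⟨⟨hwU, fun h => hcon (Or.inl h)⟩, fun h => hcon (Or.inr h)⟩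
          · exact absurd (hnb0 ⟨hwU, a, ha.1.1, haw⟩) (Set.notMem_empty w)
        · refine goodOn_addE huv hg ?_
          rintro w (hw | hw | hw)
          · exact Or.inl hw.1.1
          · rw [hw]; exact Or.inl hu
          · rw [Set.mem_singleton_iff] at hw
            rw [hw]; exact Or.inl hv
      have h4 : Lay G k (U \ {u}) := by
        rw [← hU2]
        refine Lay.insert hk h2 (fun h => h.2 rfl) ?_
        rw [hU2]
        refine types_of_nb_le (B := {u}) (n := 1) ?_ (by simp) (by omega)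
        rintro w ⟨hw, a, ha, haw⟩
        by_cases hwU : w ∈ U
        · by_contra hcon
          exact hw ⟨hwU, hcon⟩
        · exact absurd (hnb0 ⟨hwU, a, ha.1, haw⟩) (Set.notMem_empty w)
      rw [← hU1]
      refine Lay.insert hk h4 (fun h => h.2 rfl) ?_
      rw [hU1]
      exact types_of_nb_empty hnb0
    · push Not at h3
      exact lay_of_noEdges hk U hnb0 h3

theorem caseDisc : S_CaseDisc := by
  intro V _ N m k n hk hSH G U x y hn hxy hx hy hnb hg hne hconn
  obtain ⟨C, hCU, hC, hCne, hCnb⟩ := exists_comp_of_not_conn hne hconn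
  have hnoedge : ∀ a ∈ C, ∀ b ∈ U \ C, ¬ G.Adj a b := fun a ha b hb hab =>
    hCnb b hb.1 ⟨hb.2, a, ha, hab⟩
  have hlt1 : C.ncard < n :=
    lt_of_lt_of_le (Set.ncard_lt_ncard (Set.ssubset_iff_subset_ne.mpr ⟨hCU, hCne⟩)
      (Set.toFinite U)) hn
  have hlt2 : (U \ C).ncard < n := by
    have h1 : U \ C ⊂ U := by
      rw [Set.ssubset_iff_subset_ne]
      refine ⟨Set.sdiff_subset, fun h => ?_⟩
      obtain ⟨c, hc⟩ := hC.1
      have h2 := hCU hc
      rw [← h] at h2
      exact h2.2 hc
    exact lt_of_lt_of_le (Set.ncard_lt_ncard h1 (Set.toFinite U)) hn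
  have hnb1 : nb G C ⊆ {x, y} := by
    intro v hv
    by_cases hvU : v ∈ U
    · exact absurd hv (hCnb v hvU)
    · obtain ⟨_, a, ha, hav⟩ := hv
      exact hnb ⟨hvU, a, hCU ha, hav⟩
  have hnb2 : nb G (U \ C) ⊆ {x, y} := by
    rintro v ⟨hv, a, ha, hav⟩
    by_cases hvU : v ∈ U
    · by_cases hvC : v ∈ C
      · exact absurd hav.symm (hnoedge v hvC a ha)
      · exact absurd ⟨hvU, hvC⟩ hv
    · exact hnb ⟨hvU, a, ha.1, hav⟩
  have hL1 : Lay G k C := hSH G C x y hlt1 hxy (fun h => hx (hCU h)) (fun h => hy (hCU h)) hnb1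
    (hg.mono (Set.union_subset_union_left _ hCU))
  have hL2 : Lay G k (U \ C) := hSH G (U \ C) x y hlt2 hxy (fun h => hx h.1) (fun h => hy h.1)
    hnb2 (hg.mono (Set.union_subset_union_left _ Set.sdiff_subset))
  have hU : C ∪ (U \ C) = U := Set.union_sdiff_cancel hCU
  rw [← hU]
  refine Lay.union hL1 hL2 Set.disjoint_sdiff_right ?_
  rw [hU]
  exact types_of_nb_le (n := 2) hnb (by
    calc ({x, y} : Set V).ncard ≤ ({y} : Set V).ncard + 1 := Set.ncard_insert_le _ _
      _ = 2 := by simp) (by omega)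

end Pool.Agent.MPd439b2
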