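import Pool.Agent.Lib.MP_d439b2_co.Spec2

/-!
# F9: parts are good with the virtual edge
-/

namespace Pool.Agent.MPd439b2

variable {V : Type} {G : SimpleGraph V}

theorem PartGood_addE_comm (G : SimpleGraph V) (x y : V) : addE G x y = addE G y x := by
  ext a b
  simp only [addE]
  constructor
  · rintro (h | ⟨h1, h2⟩)
    · exact Or.inl h
    · exact Or.inr ⟨h1, h2.symm⟩
  · rintro (h | ⟨h1, h2⟩)
    · exact Or.inl h
    · exact Or.inr ⟨h1, h2.symm⟩

/-- the component `R` of `x` touches `u` -/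
theorem PartGood_touch {U P R : Set V} {x y u v : V} (hxy : x ≠ y) (hx : x ∉ U) (hy : y ∉ U)
    (conn : Conn G U) (hnb : nb G U = {x, y})
    (nocut : ∀ c ∈ U, ∀ D ⊆ U \ {c}, D.Nonempty → ¬ nb G D ⊆ {c})
    (hPU : P ⊆ U) (hPne : P.Nonempty) (hP : nb G P = {u, v})
    (hRZ : R ⊆ (U ∪ {x, y}) \ (P ∪ {u, v})) (hxR : x ∈ R)
    (hR : ∀ w ∈ (U ∪ {x, y}) \ (P ∪ {u, v}), w ∉ nb (addE G x y) R) :
    ∃ r ∈ R, (addE G x y).Adj r u := by
  by_contra hcon
  push Not at hcon
  have hGE : ∀ a b, G.Adj a b → (addE G x y).Adj a b := fun a b h => Or.inl h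
  -- neighbours of `U`
  have hnbU : ∀ a ∈ U, ∀ b, G.Adj a b → b ∈ U ∪ {x, y} := by
    intro a ha b hab
    by_cases hb : b ∈ U
    · exact Or.inl hb
    · right
      rw [← hnb]
      exact ⟨hb, a, ha, hab⟩
  -- the only possible neighbour is `v`
  have h1 : ∀ r ∈ R, ∀ w ∈ U ∪ {x, y}, w ∉ R → (addE G x y).Adj r w → w = v := by
    intro r hr w hw hwR hrw
    have hwZ : w ∈ P ∪ {u, v} := by
      by_contra hwZ
      exact hR w ⟨hw, hwZ⟩ ⟨hwR, r, hr, hrw⟩
    rcases hwZ with hwP | hwu | hwv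
    · exfalso
      have hG : G.Adj w r := by
        rcases hrw with h | ⟨_, h | h⟩
        · exact h.symm
        · exact absurd (h.2 ▸ hPU hwP) hy
        · exact absurd (h.2 ▸ hPU hwP) hx
      have hrZ := hRZ hr
      have : r ∈ nb G P := ⟨fun h => hrZ.2 (Or.inl h), w, hwP, hG⟩
      rw [hP] at this
      exact hrZ.2 (Or.inr this)
    · rw [hwu] at hrw
      exact absurd hrw (hcon r hr)
    · exact hwv
  have hvP : v ∉ P := by
    have : v ∈ nb G P := by rw [hP]; exact Or.inr rfl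
    exact this.1
  have hvR : v ∉ R := fun h => (hRZ h).2 (Or.inr (Or.inr rfl))
  have hvT : v ∈ U ∪ {x, y} := by
    have : v ∈ nb G P := by rw [hP]; exact Or.inr rfl
    obtain ⟨_, p, hp, hpv⟩ := this
    exact hnbU p (hPU hp) v hpv
  set D : Set V := (U ∪ {x, y}) \ (R ∪ {v}) with hD
  have hPD : P ⊆ D := by
    intro p hp
    refine ⟨Or.inl (hPU hp), ?_⟩
    rintro (h | h)
    · exact (hRZ h).2 (Or.inl hp)
    · exact hvP (h ▸ hp)
  have hDne : D.Nonempty := hPne.mono hPD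
  have hDR : ∀ d ∈ D, ∀ r ∈ R, ¬ G.Adj d r := by
    intro d hd r hr h
    have := h1 r hr d hd.1 (fun h' => hd.2 (Or.inl h')) (hGE _ _ h.symm)
    exact hd.2 (Or.inr this)
  by_cases hyR : y ∈ R
  · have hDU : D ⊆ U := by
      intro d hd
      rcases hd.1 with h | h | h
      · exact h
      · exact absurd (Or.inl (h ▸ hxR)) hd.2
      · exact absurd (Or.inl (h ▸ hyR)) hd.2
    have hvU : v ∈ U := by
      rcases hvT with h | h | h
      · exact h
      · exact absurd (h ▸ hxR) hvR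
      · exact absurd (h ▸ hyR) hvR
    refine nocut v hvU D (fun d hd => ⟨hDU hd, fun h => hd.2 (Or.inr h)⟩) hDne ?_
    rintro w ⟨hwD, d, hd, hdw⟩
    have hwT := hnbU d (hDU hd) w hdw
    by_contra hwv
    apply hwD
    refine ⟨hwT, ?_⟩
    rintro (h | h)
    · exact hDR d hd w h hdw
    · exact hwv h
  · have hxyE : (addE G x y).Adj x y := Or.inr ⟨hxy, Or.inl ⟨rfl, rfl⟩⟩
    have hyv : y = v := h1 x hxR y (Or.inr (Or.inr rfl)) hyR hxyE
    have hDU : D ⊆ U := by
      intro d hd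
      rcases hd.1 with h | h | h
      · exact h
      · exact absurd (Or.inl (h ▸ hxR)) hd.2
      · exact absurd (Or.inr (h.trans hyv)) hd.2
    have hDeq : D = U := by
      by_contra hne
      obtain ⟨b, hb, a, ha, hba⟩ := conn.2 D hDU hDne hne
      apply ha.2
      refine ⟨Or.inl ha.1, ?_⟩
      rintro (h | h)
      · exact hDR b hb a h hba
      · apply hy
        rw [hyv]
        exact h ▸ ha.1
    have hxn : x ∈ nb G U := by rw [hnb]; exact Or.inl rfl
    obtain ⟨_, a, ha, hax⟩ := hxn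
    exact hDR a (hDeq ▸ ha) x hxR hax

theorem PartGood_half (hE : S_ImsEdge) {V : Type} [Finite V] {G : SimpleGraph V} {U P : Set V}
    {x y u v : V} (N m : ℕ) (hxy : x ≠ y) (hx : x ∉ U) (hy : y ∉ U)
    (conn : Conn G U) (hnb : nb G U = {x, y})
    (nocut : ∀ c ∈ U, ∀ D ⊆ U \ {c}, D.Nonempty → ¬ nb G D ⊆ {c})
    (hPU : P ⊆ U) (hPne : P.Nonempty) (hP : nb G P = {u, v}) (huv : u ≠ v)
    (hxP : x ∉ P ∪ {u, v}) (hgood : GoodOn N m (addE G x y) (U ∪ {x, y})) :
    GoodOn N m (addE G u v) (P ∪ {u, v}) := by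
  have hxZ : x ∈ (U ∪ {x, y}) \ (P ∪ {u, v}) := ⟨Or.inr (Or.inl rfl), hxP⟩
  obtain ⟨R, hRZ, hxR, hRc, hR⟩ := exists_comp (addE G x y) hxZ
  have t1 := PartGood_touch hxy hx hy conn hnb nocut hPU hPne hP hRZ hxR hR
  have t2 : ∃ r ∈ R, (addE G x y).Adj r v := by
    have hP' : nb G P = {v, u} := by rw [hP, Set.pair_comm]
    have e : (P ∪ {v, u} : Set V) = P ∪ {u, v} := by rw [Set.pair_comm]
    refine PartGood_touch (u := v) (v := u) hxy hx hy conn hnb nocut hPU hPne hP' ?_ hxR ?_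
    · rw [e]; exact hRZ
    · rw [e]; exact hR
  have hnbU : ∀ a ∈ U, ∀ b, G.Adj a b → b ∈ U ∪ {x, y} := by
    intro a ha b hab
    by_cases hb : b ∈ U
    · exact Or.inl hb
    · right
      rw [← hnb]
      exact ⟨hb, a, ha, hab⟩
  have huvT : ∀ w ∈ ({u, v} : Set V), w ∈ U ∪ {x, y} := by
    intro w hw
    rw [← hP] at hw
    obtain ⟨_, p, hp, hpw⟩ := hw
    exact hnbU p (hPU hp) w hpw
  have hST : P ∪ {u, v} ∪ R ⊆ U ∪ {x, y} := by
    rintro w ((h | h) | h)
    · exact Or.inl (hPU h)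
    · exact huvT w h
    · exact (hRZ h).1
  have hdis : Disjoint R (P ∪ {u, v}) := by
    rw [Set.disjoint_left]
    intro w hw hw'
    exact (hRZ hw).2 hw'
  have htouch : ∀ s ∈ P ∪ {u, v}, (∃ r ∈ R, (addE G x y).Adj r s) → s = u ∨ s = v := by
    rintro s (hs | hs) ⟨r, hr, hrs⟩
    · exfalso
      have hG : G.Adj s r := by
        rcases hrs with h | ⟨_, h | h⟩
        · exact h.symm
        · exact absurd (h.2 ▸ hPU hs) hy
        · exact absurd (h.2 ▸ hPU hs) hx
      have hrZ := hRZ hr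
      have : r ∈ nb G P := ⟨fun h => hrZ.2 (Or.inl h), s, hs, hG⟩
      rw [hP] at this
      exact hrZ.2 (Or.inr this)
    · exact hs
  have hagree : ∀ a ∈ P ∪ {u, v}, ∀ b ∈ P ∪ {u, v},
      ((addE G u v).Adj a b ↔ (addE (addE G x y) u v).Adj a b) := by
    intro a ha b hb
    constructor
    · rintro (h | h)
      · exact Or.inl (Or.inl h)
      · exact Or.inr h
    · rintro ((h | ⟨_, h | h⟩) | h)
      · exact Or.inl h
      · exact absurd (h.1 ▸ ha) hxP
      · exact absurd (h.2 ▸ hb) hxP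
      · exact Or.inr h
  have key : ∀ (W : Type) (H : SimpleGraph W), IMS H (addE G u v) (P ∪ {u, v}) →
      IMS H (addE G x y) (U ∪ {x, y}) := by
    intro W H h
    have h1 := h.congr hagree
    exact (hE V W H (addE G x y) (P ∪ {u, v}) R u v (Or.inr (Or.inl rfl)) (Or.inr (Or.inr rfl)) huv
      hdis hRc htouch t1 t2 h1).mono hST
  exact ⟨fun h => hgood.1 (key _ _ h), fun h => hgood.2 (key _ _ h)⟩

theorem partGood (h : S_ImsEdge) : S_PartGood := by
  intro V _ G U x y N m P u v hrig hpart hP huv hgood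
  obtain ⟨hPU, hPneU, hPc, _⟩ := hpart
  by_cases hxP : x ∈ P ∪ {u, v}
  · -- then `y` is not in it
    have hyP : y ∉ P ∪ {u, v} := by
      intro hyP
      have hx' : x ∈ ({u, v} : Set V) := hxP.resolve_left fun h => hrig.hx (hPU h)
      have hy' : y ∈ ({u, v} : Set V) := hyP.resolve_left fun h => hrig.hy (hPU h)
      obtain ⟨b, hb, a, ha, hba⟩ := hrig.conn.2 P hPU hPc.1 hPneU
      have ha' : a ∈ nb G P := ⟨ha.2, b, hb, hba⟩
      rw [hP] at ha'
      have hax : a ≠ x := fun h => hrig.hx (h ▸ ha.1)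
      have hay : a ≠ y := fun h => hrig.hy (h ▸ ha.1)
      have hxy := hrig.hxy
      simp only [Set.mem_insert_iff, Set.mem_singleton_iff] at hx' hy' ha'
      rcases hx' with h1 | h1 <;> rcases hy' with h2 | h2 <;> rcases ha' with h3 | h3
      · exact hxy (h1.trans h2.symm)
      · exact hxy (h1.trans h2.symm)
      · exact hax (h3.trans h1.symm)
      · exact hay (h3.trans h2.symm)
      · exact hay (h3.trans h2.symm)
      · exact hax (h3.trans h1.symm)
      · exact hxy (h1.trans h2.symm)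
      · exact hxy (h1.trans h2.symm)
    have hnb : nb G U = {y, x} := by rw [hrig.hnb, Set.pair_comm]
    have hg : GoodOn N m (addE G y x) (U ∪ {y, x}) := by
      rw [PartGood_addE_comm G y x, Set.pair_comm y x]
      exact hgood
    exact PartGood_half h N m hrig.hxy.symm hrig.hy hrig.hx hrig.conn hnb hrig.nocut hPU hPc.1 hP huv
      hyP hg
  · exact PartGood_half h N m hrig.hxy hrig.hx hrig.hy hrig.conn hrig.hnb hrig.nocut hPU hPc.1 hP huv
      hxP hgood

end Pool.Agent.MPd439b2
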