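import Pool.Agent.Lib.MP_d439b2_co.Spec2

/-!
# MP_d439b2_co, F6: the system of the maximal parts
-/

namespace Pool.Agent.MPd439b2

namespace PartsAux

variable {V : Type} {G : SimpleGraph V} {U : Set V} {x y : V}

theorem nb_subset (hR : Rigid G U x y) {P : Set V} (hP : P ⊆ U) : nb G P ⊆ U ∪ {x, y} := by
  rintro v ⟨_, a, ha, hav⟩
  by_cases hv : v ∈ U
  · exact Or.inl hv
  · right
    rw [← hR.hnb]
    exact ⟨hv, a, hP ha, hav⟩

theorem part_nb [Finite V] (hR : Rigid G U x y) {P : Set V} (hP : IsPart G U P) :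
    (nb G P).ncard = 2 ∧ ∃ c ∈ nb G P, c ∈ U := by
  obtain ⟨hPU, hne, hc, h2⟩ := hP
  obtain ⟨b, hb, c, hcU, hbc⟩ := hR.conn.2 P hPU hc.1 hne
  have hcn : c ∈ nb G P := ⟨hcU.2, b, hb, hbc⟩
  have h1 : ¬ nb G P ⊆ {c} := by
    refine hR.nocut c hcU.1 P ?_ hc.1
    intro z hz
    refine ⟨hPU hz, fun h => ?_⟩
    rw [Set.mem_singleton_iff] at h
    exact hcU.2 (h ▸ hz)
  obtain ⟨d, hd, hdc⟩ := Set.not_subset.1 h1
  have hdc' : c ≠ d := fun h => hdc (by rw [h]; rfl)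
  have h3 : ({c, d} : Set V) ⊆ nb G P := by
    intro z hz
    rcases hz with hz | hz
    · rw [hz]; exact hcn
    · rw [Set.mem_singleton_iff] at hz
      rw [hz]; exact hd
  have h4 := Set.ncard_le_ncard h3 (Set.toFinite _)
  rw [Set.ncard_pair hdc'] at h4
  exact ⟨le_antisymm h2 h4, c, hcn, hcU.1⟩

theorem exists_nb {P Q : Set V} (hQ : Conn G Q) (hQP : ¬ Q ⊆ P)
    (h : (P ∩ Q).Nonempty ∨ Tch G P Q) : ∃ q ∈ Q, q ∈ nb G P := by
  have key : (P ∩ Q).Nonempty → ∃ q ∈ Q, q ∈ nb G P := by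
    intro h1
    obtain ⟨b, hb, a, ha, hba⟩ := hQ.2 (P ∩ Q) Set.inter_subset_right h1 (fun h' => by
      apply hQP
      rw [← h']
      exact Set.inter_subset_left)
    exact ⟨a, ha.1, fun h' => ha.2 ⟨h', ha.1⟩, b, hb.1, hba⟩
  rcases h with h | ⟨p, hp, q, hq, hpq⟩
  · exact key h
  · by_cases hqP : q ∈ P
    · exact key ⟨q, hqP, hq⟩
    · exact ⟨q, hq, hqP, p, hp, hpq⟩

/-- a set with two elements one of which lies in `Q` -/
theorem ncard_sdiff_le [Finite V] {A Q : Set V} {q : V} (hA : A.ncard ≤ 2) (hq : q ∈ A)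
    (hqQ : q ∈ Q) : (A \ Q).ncard ≤ 1 := by
  have h1 : A \ Q ⊆ A \ {q} := by
    intro z hz
    refine ⟨hz.1, fun h => hz.2 ?_⟩
    rw [Set.mem_singleton_iff] at h
    rw [h]; exact hqQ
  have h2 := Set.ncard_le_ncard h1 (Set.toFinite _)
  rw [Set.ncard_sdiff_singleton_of_mem hq] at h2
  omega

theorem poly_contra (hR : Rigid G U x y) {P Q : Set V} {p q : V} (hP : P ⊆ U) (hQ : Q ⊆ U)
    (hPQ : P ∪ Q = U) (hqU : q ∈ U) (hqP : q ∉ P) (hpU : p ∈ U) (hnP : nb G P ⊆ {x, q})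
    (hnQ : nb G Q ⊆ {y, p}) : False := by
  have hqx : ∀ b ∈ U, b ≠ q → b ∉ nb G P := by
    intro b hb hbq hbn
    rcases hnP hbn with h | h
    · rw [h] at hb
      exact hR.hx hb
    · exact hbq h
  refine hR.nopoly q hqU P ((U \ {q}) \ P) ?_ ?_ hnP ?_
  · apply Set.union_sdiff_cancel
    intro z hz
    refine ⟨hP hz, fun h => ?_⟩
    rw [Set.mem_singleton_iff] at h
    rw [h] at hz
    exact hqP hz
  · exact Set.disjoint_sdiff_right
  · rintro v ⟨hvB, b, hb, hbv⟩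
    by_cases hvq : v = q
    · right; exact hvq
    left
    have hbQ : b ∈ Q := by
      have h1 : b ∈ P ∪ Q := by rw [hPQ]; exact hb.1.1
      exact h1.resolve_left hb.2
    have hvP : v ∉ P := fun h => hqx b hb.1.1 (fun h' => hb.1.2 h') ⟨hb.2, v, h, hbv.symm⟩
    have hvU : v ∉ U := fun h => hvB ⟨⟨h, hvq⟩, hvP⟩
    have hvn : v ∈ nb G Q := ⟨fun h => hvU (hQ h), b, hbQ, hbv⟩
    rcases hnQ hvn with h | h
    · exact h
    · rw [Set.mem_singleton_iff] at h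
      rw [h] at hvU
      exact absurd hpU hvU

/-- a set with at most two elements which contains `a ≠ b` -/
theorem subset_pair [Finite V] {A : Set V} {a b : V} (hA : A.ncard ≤ 2) (ha : a ∈ A) (hb : b ∈ A)
    (hab : a ≠ b) : A ⊆ {a, b} := by
  have h3 : ({a, b} : Set V) ⊆ A := by
    intro z hz
    rcases hz with hz | hz
    · rw [hz]; exact ha
    · rw [Set.mem_singleton_iff] at hz
      rw [hz]; exact hb
  have h4 := Set.eq_of_subset_of_ncard_le h3 (by rw [Set.ncard_pair hab]; exact hA)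
    (Set.toFinite _)
  rw [← h4]

theorem part_union [Finite V] (hR : Rigid G U x y) {P Q : Set V} (hP : IsPart G U P)
    (hQ : IsPart G U Q) (hPQ : ¬ P ⊆ Q) (hQP : ¬ Q ⊆ P)
    (h : (P ∩ Q).Nonempty ∨ Tch G P Q) : IsPart G U (P ∪ Q) := by
  obtain ⟨q, hqQ, hqn⟩ := exists_nb hQ.2.2.1 hQP h
  obtain ⟨p, hpP, hpn⟩ := exists_nb (P := Q) (Q := P) hP.2.2.1 hPQ (by
    rw [Set.inter_comm]
    exact h.imp id Tch.symm)
  have hsub : nb G (P ∪ Q) ⊆ (nb G P \ Q) ∪ (nb G Q \ P) := by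
    rintro v ⟨hv, a, ha, hav⟩
    rcases ha with ha | ha
    · exact Or.inl ⟨⟨fun h => hv (Or.inl h), a, ha, hav⟩, fun h => hv (Or.inr h)⟩
    · exact Or.inr ⟨⟨fun h => hv (Or.inr h), a, ha, hav⟩, fun h => hv (Or.inl h)⟩
  refine ⟨Set.union_subset hP.1 hQ.1, ?_, hP.2.2.1.union hQ.2.2.1 h, ?_⟩
  · intro hU
    have hqU : q ∈ U := hQ.1 hqQ
    have hpU : p ∈ U := hP.1 hpP
    have hqx : q ≠ x := fun h => hR.hx (h ▸ hqU)
    have hqy : q ≠ y := fun h => hR.hy (h ▸ hqU)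
    have hpx : p ≠ x := fun h => hR.hx (h ▸ hpU)
    have hpy : p ≠ y := fun h => hR.hy (h ▸ hpU)
    rw [hU, hR.hnb] at hsub
    have hx1 := hsub (Set.mem_insert x {y})
    have hy1 := hsub (Set.mem_insert_of_mem x (Set.mem_singleton y))
    have notboth : ∀ (A : Set V) (a : V), A.ncard ≤ 2 → a ∈ A → a ≠ x → a ≠ y → x ∈ A →
        y ∈ A → False := by
      intro A a hA ha hax hay hxA hyA
      have h1 := subset_pair hA hxA hyA hR.hxy ha
      rcases h1 with h1 | h1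
      · exact hax h1
      · exact hay h1
    rcases hx1 with hx1 | hx1
    · have hy2 : y ∈ nb G Q := by
        rcases hy1 with hy1 | hy1
        · exact (notboth _ q hP.2.2.2 hqn hqx hqy hx1.1 hy1.1).elim
        · exact hy1.1
      exact poly_contra hR hP.1 hQ.1 hU hqU hqn.1 hpU
        (subset_pair hP.2.2.2 hx1.1 hqn hqx.symm) (subset_pair hQ.2.2.2 hy2 hpn hpy.symm)
    · have hy2 : y ∈ nb G P := by
        rcases hy1 with hy1 | hy1
        · exact hy1.1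
        · exact (notboth _ p hQ.2.2.2 hpn hpx hpy hx1.1 hy1.1).elim
      exact poly_contra hR hQ.1 hP.1 (by rw [Set.union_comm]; exact hU) hpU hpn.1 hqU
        (subset_pair hQ.2.2.2 hx1.1 hpn hpx.symm) (subset_pair hP.2.2.2 hy2 hqn hqy.symm)
  · have h1 := Set.ncard_le_ncard hsub (Set.toFinite _)
    have h2 := Set.ncard_union_le (nb G P \ Q) (nb G Q \ P)
    have h3 := ncard_sdiff_le hP.2.2.2 hqn hqQ
    have h4 := ncard_sdiff_le hQ.2.2.2 hpn hpP
    omega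

end PartsAux

open PartsAux in
/-- **F6.** The system of the maximal parts. -/
theorem parts : S_Parts := by
  intro V _ G U x y hR
  let PP : Set (Set V) := {P | Maximal (IsPart G U) P}
  have key : ∀ P ∈ PP, ∀ Q ∈ PP, P ≠ Q → ¬ ((P ∩ Q).Nonempty ∨ Tch G P Q) := by
    intro P hP Q hQ hne h
    have hPQ : ¬ P ⊆ Q := fun h' => hne (Set.Subset.antisymm h' (hP.2 hQ.1 h'))
    have hQP : ¬ Q ⊆ P := fun h' => hne (Set.Subset.antisymm (hQ.2 hP.1 h') h')
    have h1 := part_union hR hP.1 hQ.1 hPQ hQP h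
    exact hQP (Set.subset_union_right.trans (hP.2 h1 Set.subset_union_left))
  refine ⟨PP, (U ∪ {x, y}) \ ⋃₀ PP, rfl, fun P hP => hP.1.1, fun P hP => hP.1.2.2.1, ?_, ?_,
    fun P hP => (part_nb hR hP.1).1, ?_, fun P hP => hP.1.2.1, ?_⟩
  · intro P hP Q hQ hne
    rw [Set.disjoint_iff_inter_eq_empty, ← Set.not_nonempty_iff_eq_empty]
    exact fun h => key P hP Q hQ hne (Or.inl h)
  · exact fun P hP Q hQ hne h => key P hP Q hQ hne (Or.inr h)
  · intro P hP v hv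
    refine ⟨nb_subset hR hP.1.1 hv, ?_⟩
    rintro ⟨Q, hQ, hvQ⟩
    by_cases hne : P = Q
    · rw [← hne] at hvQ
      exact hv.1 hvQ
    · obtain ⟨a, ha, hav⟩ := hv.2
      exact key P hP Q hQ hne (Or.inr ⟨a, ha, v, hvQ, hav⟩)
  · intro Q hQ
    obtain ⟨P, hQP, hP⟩ := (Set.toFinite {P | IsPart G U P}).exists_le_maximal hQ
    exact ⟨P, hP, hQP⟩

end Pool.Agent.MPd439b2
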