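import Pool.Agent.Lib.MP_d439b2_co.Spec1

/-!
# MP_d439b2_co, Spec 2: layouts of graphs without `K_5^-` and `DD N m`

The main induction: `SH N m k n V` says that sets `U` with fewer than `n` elements, attached to two
vertices `x, y`, such that `G[U ∪ {x, y}] + xy` is good, have a layout of width `k`.
-/

namespace Pool.Agent.MPd439b2

/-- the induction hypothesis -/
def SH (N m k n : ℕ) (V : Type) : Prop := ∀ (G : SimpleGraph V) (U : Set V) (x y : V),
  U.ncard < n → x ≠ y → x ∉ U → y ∉ U → nb G U ⊆ {x, y} →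
  GoodOn N m (addE G x y) (U ∪ {x, y}) → Lay G k U

/-- **F1.** Sets attached to one vertex.

Proof. `U = ∅`: `Lay.empty`.  If `x` has a neighbour `c ∈ U`: apply `SH` to `U \ {c}` and the pair
`x, c`: `nb G (U \ {c}) ⊆ {x, c}`, `addE G x c` and `G` have the same edges, so `GoodOn` is inherited
(`GoodOn.congr`, `GoodOn.mono`; `U \ {c} ∪ {x, c} = U ∪ {x}`).  Insert `c` with `Lay.insert`: the types of
`U` are nonempty subsets of `nb G U ⊆ {x}`, at most one (`types_encard_le`).  If `x` has no neighbour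
in `U`, then `nb G U = ∅`.  If `U` contains an edge `u u'`: apply `SH` to `U \ {u, u'}` with the pair
`u, u'`, then insert `u'` (the types of `U \ {u}` are subsets of `{u}`) and `u` (no types).  If `U`
contains no edge then no subset of `U` has a (nonempty) type: `Lay` by induction on the number of
elements. -/
def S_One : Prop := ∀ (V : Type) [Finite V] (N m k n : ℕ), 1 ≤ k → SH N m k n V →
  ∀ (G : SimpleGraph V) (U : Set V) (x : V), U.ncard ≤ n → x ∉ U → nb G U ⊆ {x} →
    GoodOn N m G (U ∪ {x}) → Lay G k U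

/-- **F2.** `U` not connected.

Proof. `exists_comp_of_not_conn`: `C ⊆ U` connected, `C ≠ U`, no vertex of `U` in `nb G C`.  Then
`nb G C ⊆ {x, y}` and `nb G (U \ C) ⊆ {x, y}` (no edges between `C` and `U \ C`); both have fewer
than `n` elements; `GoodOn` by `mono`; `Lay.union`; the types of `U` are nonempty subsets of `{x, y}`: at
most `3`. -/
def S_CaseDisc : Prop := ∀ (V : Type) [Finite V] (N m k n : ℕ), 3 ≤ k → SH N m k n V →
  ∀ (G : SimpleGraph V) (U : Set V) (x y : V), U.ncard ≤ n → x ≠ y → x ∉ U → y ∉ U →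
    nb G U ⊆ {x, y} → GoodOn N m (addE G x y) (U ∪ {x, y}) → U.Nonempty → ¬ Conn G U → Lay G k U

/-- **F3.** Grafting: `D` is attached only to `c ∈ A`; `G0` is `G` without the edges at `D`.

Proof. Induction on `Lay G0 k A'` for a statement about all `A' ⊆ A`:  (i) if `c ∉ A'` (and `A'` is
disjoint from `D`) then `Lay G k A'`: the types in `G` and `G0` agree, as the vertices `a ∈ A'` are not
adjacent to `D` (`nb G D ⊆ {c}`), so `N_G(a) = N_{G0}(a)`.  (ii) if `c ∈ A'` then `Lay G k (A' ∪ D)`: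
for the leaf `{c}`: `Lay.union (Lay.single' c) (Lay G k D)`: types of `{c} ∪ D`: the vertices of `D` have no
neighbours outside, so at most one type, `k ≥ 1`.  For `union A₁ A₂` with `c ∈ A₁`:
`(A₁ ∪ D) ∪ A₂`, with (ii) for `A₁` and (i) for `A₂`; the nonempty types of `A' ∪ D` in `G` are types of
`A'` in `G0`: for `a ∈ A'`: `N_G(a) \ (A' ∪ D) = N_{G0}(a) \ A'` (`G0`-neighbours are not in `D`, and
the `G`-neighbours of `a` outside `D` are `G0`-neighbours); for `d ∈ D`: `N_G(d) ⊆ D ∪ {c}`. -/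
def S_Graft : Prop := ∀ (V : Type) [Finite V] (G G0 : SimpleGraph V) (k : ℕ) (A D : Set V) (c : V),
  1 ≤ k → c ∈ A → Disjoint A D → nb G D ⊆ {c} → Lay G k D →
  (∀ u v, G0.Adj u v ↔ G.Adj u v ∧ u ∉ D ∧ v ∉ D) → Lay G0 k A → Lay G k (A ∪ D)

/-- **F4.** A cut vertex.

Proof (from F1 and F3). `Lay G k D` by F1 with the vertex `c` (`D ∪ {c} ⊆ U` contains neither `x` nor
`y`, so `addE G x y` and `G` agree on it).  Let `G0` be `G` without the edges at `D`.  `SH` for `G0`,
`U \ D` (fewer elements), `x, y`: `nb G0 (U \ D) ⊆ {x, y}`; `GoodOn N m (addE G0 x y) (U \ D ∪ {x, y})`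
by `congr` (no vertex of `D` occurs) and `mono`.  Then F3 with `A = U \ D`. -/
def S_CaseCut : Prop := ∀ (V : Type) [Finite V] (N m k n : ℕ), 3 ≤ k → SH N m k n V →
  ∀ (G : SimpleGraph V) (U : Set V) (x y : V), U.ncard ≤ n → x ≠ y → x ∉ U → y ∉ U →
    nb G U ⊆ {x, y} → GoodOn N m (addE G x y) (U ∪ {x, y}) →
    ∀ c ∈ U, ∀ D ⊆ U \ {c}, D.Nonempty → nb G D ⊆ {c} → Lay G k U

/-- **F5.** Series decomposition.

Proof (from E1). No edges between `A` and `B`.  `SH` for `A` and the pair `x, c` (if `GoodOn` holds), for `B`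
and the pair `y, c`; then `A ∪ B` (types: nonempty subsets of `{x, y, c}`, at most `7`), then insert `c`
(types of `U`: at most `3`).
`GoodOn N m (addE G x c) (A ∪ {x, c})`: there is a connected `R ⊆ B ∪ {y}` with `y ∈ R`, touching
`c`: `y` has a neighbour `u ∈ U`; `u ∉ A` as `nb G A ⊆ {x, c}`; if `u = c` take `R = {y}`; otherwise
`u ∈ B`; let `B'` be the component of `u` in `G[B]` (`exists_comp`); as `U` is connected and
`c ∉ B'`, `B'` has a neighbour in `U`, which is not in `A` (no edges), not in `B`, so it is `c`;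
`R = B' ∪ {y}`.  In the graph `G' = addE G x y`: `R` is connected, it touches `x` (edge `x y`) and `c`, and
no other vertex of `S = A ∪ {x, c}`.  On `S` the graphs `addE G x c` and `addE G' x c` agree
(`y ∉ S`).  So an `IMS` of `K5m` or `DD N m` in `addE G x c` on `S` gives one in `G'` on
`S ∪ R ⊆ U ∪ {x, y}`, by E1.  Symmetrically for `B` (with `x` and `y` exchanged;
`addE G x y = addE G y x` adjacency-wise). -/
def S_CasePoly : Prop := ∀ (V : Type) [Finite V] (N m k n : ℕ), 7 ≤ k → SH N m k n V →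
  ∀ (G : SimpleGraph V) (U : Set V) (x y : V), U.ncard ≤ n → x ≠ y → x ∉ U → y ∉ U →
    nb G U = {x, y} → GoodOn N m (addE G x y) (U ∪ {x, y}) → Conn G U →
    ∀ c ∈ U, ∀ A B : Set V, A ∪ B = U \ {c} → Disjoint A B → nb G A ⊆ {x, c} →
      nb G B ⊆ {y, c} → Lay G k U

/-! ### the rigid case -/

/-- the remaining case -/
structure Rigid {V : Type} (G : SimpleGraph V) (U : Set V) (x y : V) : Prop where
  hxy : x ≠ y
  hx : x ∉ U
  hy : y ∉ U
  conn : Conn G U
  hnb : nb G U = {x, y}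
  nocut : ∀ c ∈ U, ∀ D ⊆ U \ {c}, D.Nonempty → ¬ nb G D ⊆ {c}
  nopoly : ∀ c ∈ U, ∀ A B : Set V, A ∪ B = U \ {c} → Disjoint A B → nb G A ⊆ {x, c} →
    ¬ nb G B ⊆ {y, c}

/-- connected proper subsets of `U` with at most two neighbours -/
def IsPart {V : Type} (G : SimpleGraph V) (U P : Set V) : Prop :=
  P ⊆ U ∧ P ≠ U ∧ Conn G P ∧ (nb G P).ncard ≤ 2

/-- the properties of the system `PP` of the maximal parts and of the torso `T` -/
structure PartSys {V : Type} (G : SimpleGraph V) (U : Set V) (x y : V) (PP : Set (Set V))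
    (T : Set V) : Prop where
  hT : T = (U ∪ {x, y}) \ ⋃₀ PP
  sub : ∀ P ∈ PP, P ⊆ U
  conn : ∀ P ∈ PP, Conn G P
  disj : ∀ P ∈ PP, ∀ Q ∈ PP, P ≠ Q → Disjoint P Q
  notch : ∀ P ∈ PP, ∀ Q ∈ PP, P ≠ Q → ¬ Tch G P Q
  nb2 : ∀ P ∈ PP, (nb G P).ncard = 2
  nbT : ∀ P ∈ PP, nb G P ⊆ T
  ne : ∀ P ∈ PP, P ≠ U
  max : ∀ Q, IsPart G U Q → ∃ P ∈ PP, Q ⊆ P

/-- the torso graph: `G + xy` with the edge `u v` for every `P ∈ QQ` with `nb G P = {u, v}` -/
def TG {V : Type} (G : SimpleGraph V) (x y : V) (QQ : Set (Set V)) : SimpleGraph V where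
  Adj u v := u ≠ v ∧ ((addE G x y).Adj u v ∨ ∃ P ∈ QQ, nb G P = {u, v})
  symm := ⟨fun u v h => ⟨h.1.symm, h.2.imp (fun h => h.symm) fun ⟨P, hP, h⟩ =>
    ⟨P, hP, by rw [h, Set.pair_comm]⟩⟩⟩
  loopless := ⟨fun u h => h.1 rfl⟩

/-- **F6.** The system of the maximal parts.

Proof. `PP :=` the inclusion-maximal parts (every part is contained in a maximal one, as `V` is
finite).
(a) Every part `P` has exactly two neighbours, they lie in `U ∪ {x, y}`, and `nb G P ≠ {x, y}`: the
neighbours of `P ⊆ U` are in `U ∪ nb G U`.  As `U` is connected and `P ≠ U` nonempty, there is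
`c ∈ nb G P ∩ U`.  If `nb G P ⊆ {c}` then `nocut` (with `D = P`) is violated.  So `|nb| = 2`, and it is
not `{x, y}`.
(b) Let `P, Q` be parts, none contained in the other, intersecting or touching.  Then `P ∪ Q` is
connected.  There is a vertex of `Q` in `nb G P`: if they intersect, `Q ∩ P` is a nonempty proper
subset of the connected `Q`; if they are disjoint and touch, clear.  So `|nb G P \ Q| ≤ 1`, in the
same way `|nb G Q \ P| ≤ 1`, and `nb G (P ∪ Q) ⊆ (nb G P \ Q) ∪ (nb G Q \ P)` has at most two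
elements.  If `P ∪ Q ≠ U` then `P ∪ Q` is a part.  If `P ∪ Q = U`: the neighbours `x, y` of `U` are
`nb G P \ Q` and `nb G Q \ P` in some order; by symmetry `nb G P = {x, q}`, `q ∈ Q`, and
`nb G Q = {y, p}`, `p ∈ P` (if `nb G P \ Q = {y}` exchange `P` and `Q`).  Put `c = q`, `A = P`,
`B = U \ {q} \ P ⊆ Q`: (`q ∉ P`) `nb G A = {x, c}`; `B` is not adjacent to `P` (as `nb G P = {x, q}`), its
neighbours are in `Q ∪ nb G Q`, so they are in `{y, q}`: contradiction to `nopoly`.
(c) So two different maximal parts are disjoint and do not touch (otherwise the union would be a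
larger part).  A neighbour of `P ∈ PP` in another `Q ∈ PP` would mean touching, so
`nb G P ⊆ T`. -/
def S_Parts : Prop := ∀ (V : Type) [Finite V] (G : SimpleGraph V) (U : Set V) (x y : V),
  Rigid G U x y → ∃ (PP : Set (Set V)) (T : Set V), PartSys G U x y PP T

/-- **F7.** Simulation of the virtual edges.

Proof (from E1). Induction on the number of elements of `QQ` (a finite set), for all `S`.  `QQ = ∅`: `TG`
is `addE G x y`.  `QQ = QQ' ∪ {P}`, `P ∉ QQ'`, `nb G P = {u, v}`, `u ≠ v` (`nb2`), `u, v ∈ T ⊆ S`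
(`nbT`).  `TG G x y QQ` and `addE (TG G x y QQ') u v` have the same edges.  E1 for the graph
`TG G x y QQ'`, the set `S`, `R = P`: `P` is connected (`mono_graph`); an edge of `TG G x y QQ'`
between `r ∈ P` and `s ∈ S` is an edge of `G` (it is not `x y` since `P ⊆ U`, and not virtual since
virtual edges have both ends in `T`, which is disjoint from `P`), so `s ∈ nb G P`; `P` touches `u`
and `v`.  So `IMS H (TG G x y QQ') (S ∪ P)`.  By the induction hypothesis for `S ∪ P` (disjoint from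
`⋃₀ QQ'`): `IMS H (addE G x y) (S ∪ P ∪ ⋃₀ QQ')`. -/
def S_TorsoIMS : Prop := ∀ (V W : Type) [Finite V] (H : SimpleGraph W) (G : SimpleGraph V)
  (U : Set V) (x y : V) (PP : Set (Set V)) (T : Set V), x ∉ U → y ∉ U → PartSys G U x y PP T →
  ∀ QQ ⊆ PP, ∀ S : Set V, T ⊆ S → Disjoint S (⋃₀ QQ) → IMS H (TG G x y QQ) S →
    IMS H (addE G x y) (S ∪ ⋃₀ QQ)

/-- **F8.** The torso is 3-connected.

Proof. (a) `|T| ≥ 4`.  `x, y ∈ T` (parts are subsets of `U`).  If `PP = ∅` then `T = U ∪ {x, y}`; `U` is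
nonempty, and `U = {c}` contradicts `nopoly` with `A = B = ∅` (`nb G ∅ = ∅`); so `|T| ≥ 4`.  If
`P ∈ PP`: `nb G P ⊆ T` has two elements, and it is not `{x, y}` (`U` connected, `P ≠ U`: some neighbour
of `P` is in `U`), so there is `c ∈ T ∩ U`.  Suppose `T = {x, y, c}`.  Every `Q ∈ PP` has
`nb G Q = {x, c}` or `{y, c}` (not `{x, y}`, as before).  Let `A` be the union of the first ones and
`B` the union of the others: `A ∪ B = U \ {c}`, disjoint, `nb G A ⊆ {x, c}` (parts do not touch),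
`nb G B ⊆ {y, c}`: contradiction to `nopoly`.
(b) Let `a, b : V` and suppose `T \ {a, b}` is not connected in `TG`; it is nonempty by (a), so
`T \ {a, b} = C₁ ∪ C₂`, nonempty, disjoint, no `TG`-edges between.  `x y` is a `TG` edge, so one of
`C₁, C₂` contains neither `x` nor `y`; say `C₁`.  Then `C₁ ⊆ U`.  Let
`D = C₁ ∪ ⋃ {P ∈ PP | nb G P meets C₁} ⊆ U`.  For such a `P`, `nb G P = {c₁, w}` with `c₁ ∈ C₁`
and `w ∈ C₁ ∪ {a, b}` (`c₁ w` is a `TG`-edge, so `w ∉ C₂`).  So `nb G D ⊆ {a, b}`: a neighbour of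
`c₁ ∈ C₁` lies in `U ∪ {x, y}`, i.e. in `T` (then in `C₁ ∪ {a, b}`) or in some `P ∈ PP` (which then
belongs to `D`); a neighbour of such a `P` is in `nb G P ⊆ C₁ ∪ {a, b}`.  Let `c₁ ∈ C₁` and let `D'`
be the component of `c₁` in `G[D]`: `nb G D' ⊆ {a, b}`, so `D'` is connected with at most two
neighbours.  `D' ≠ U`: otherwise `C₁ ∪ C₂ ⊆ ... `: `C₂ ∩ U ∩ D = ∅` (`C₂ ⊆ T`, and `D ∩ T = C₁`), so
`C₂ ⊆ {x, y}`, and `{x, y} = nb G U ⊆ {a, b}` contradicts `C₂ ≠ ∅`.  So `D'` is a part, contained in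
some `P ∈ PP` (`max`), but `c₁ ∈ T` is in no `P`: contradiction. -/
def S_TorsoThree : Prop := ∀ (V : Type) [Finite V] (G : SimpleGraph V) (U : Set V) (x y : V)
  (PP : Set (Set V)) (T : Set V), Rigid G U x y → PartSys G U x y PP T → ThreeConn (TG G x y PP) T

/-- **F9.** Parts are good with the virtual edge.

Proof (from E1). Let `G' = addE G x y`, `T₀ = U ∪ {x, y}`, `Z = T₀ \ (P ∪ {u, v})`.  `x, y ∉ P`, and
`{u, v} ≠ {x, y}` since `P` has a neighbour in `U` (`U` connected, `P ≠ U`, `P` nonempty).  So one of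
`x, y` is in `Z`; say `x ∈ Z` (the other case is symmetric).  Let `R` be the component of `x` in
`G'[Z]` (`exists_comp`): `R` is connected, `x ∈ R`, and no vertex of `Z` is in `nb G' R`.  `R` does not
touch `P` (as `nb G P = {u, v}`, and `P ⊆ U` does not contain `x, y`).  CLAIM: `R` touches `u` and
`v` in `G'`.  Suppose it does not touch `u` (the other case is symmetric); then in `T₀` the only
possible neighbour of `R` outside `R` is `v`.  Let `D = T₀ \ R \ {v}`; it contains `P` and `u`.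
There are no edges between `D` and `R`, so if `D ⊆ U` then `nb G D ⊆ {v}` (a vertex outside `T₀` has no
neighbour in `U`).  If `y ∈ R`: `D ⊆ U` (`x, y ∈ R`); if `v ∈ U` then `nocut` is violated (`c = v`, `D`);
`v ∉ U` means `v ∈ {x, y} ⊆ R`, impossible (`R ⊆ Z`).  If `y ∉ R`: `y` is a neighbour of `x ∈ R` in
`G'`, so `y = v`.  Then `D ⊆ U`, `D` nonempty, and `U \ D ⊆ R` has no edges to `D`.  As `U` is
connected, `D = U`.  But `x ∈ nb G U` has a neighbour in `U = D`, and `x ∈ R`: contradiction.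
Now E1 for the graph `G'`, the set `S = P ∪ {u, v}`, the vertices `u, v` and `R`: an `IMS` in
`addE G' u v` on `S` gives one in `G'` on `S ∪ R ⊆ T₀`.  On `S`, `addE G' u v` and `addE G u v` agree:
`x` and `y` are not both in `S` (`x ∈ Z`).  Apply this to `K5m` and `DD N m`. -/
def S_PartGood : Prop := ∀ (V : Type) [Finite V] (G : SimpleGraph V) (U : Set V) (x y : V)
  (N m : ℕ) (P : Set V) (u v : V), Rigid G U x y → IsPart G U P → nb G P = {u, v} → u ≠ v →
  GoodOn N m (addE G x y) (U ∪ {x, y}) → GoodOn N m (addE G u v) (P ∪ {u, v})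

/-- **F10.** A large complete torso with `m` disjoint virtual pairs contains `DD N m`.

Proof (from F7). `p q ∈ PP` for `q : Fin m`, `nb G (p q) = {u_q, v_q} ⊆ T` pairwise disjoint (so
`p` is injective and the `2 m` vertices `u_q, v_q` are different).  As `|T| ≥ N + m` (and `2 m ≤ N`)
there are `m + (N - 2 m)` further distinct vertices in `T`: `w_q` (`q < m`) and `z_i`
(`2 m ≤ i < N`).  Let `QQ = PP \ range p`.  In `TG G x y QQ` all pairs of `T` are adjacent except
possibly the pairs `u_q v_q` (a virtual edge of `p q` joins exactly `u_q v_q`).  On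
`S = T ∪ ⋃ q, p q` (disjoint from `⋃₀ QQ`) the following is an induced minor model of `DD N m` in
`TG G x y QQ`:
`inl (2 q) ↦ {u_q, w_q}`, `inl (2 q + 1) ↦ {v_q}`, `inl i ↦ {z_i}` for `2 m ≤ i`, `inr q ↦ p q`.
Connected: `u_q w_q` is an edge (it is a `TG G x y PP` edge and not one of the pairs `u_q' v_q'`);
`p q` is connected.  `inl`-sets are pairwise adjacent: for `inl (2q)`, `inl (2q+1)` use `w_q v_q`; for
the others any pair of their vertices not of the form `u v`.  `p q` touches in `TG G x y QQ` only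
`u_q` and `v_q` within `T` (`nb G (p q)`; virtual edges have no end in `p q`), and no `p q'`
(`notch`).  Now F7: `IMS (DD N m) (addE G x y) (S ∪ ⋃₀ QQ)`, and `S ∪ ⋃₀ QQ ⊆ U ∪ {x, y}`. -/
def S_TorsoDD : Prop := ∀ (V : Type) [Finite V] (G : SimpleGraph V) (U : Set V) (x y : V)
  (PP : Set (Set V)) (T : Set V) (N m : ℕ) (p : Fin m → Set V), x ∉ U → y ∉ U →
  PartSys G U x y PP T → 2 * m ≤ N → CompleteOn (TG G x y PP) T → N + m ≤ T.ncard →
  (∀ q, p q ∈ PP) → (∀ q q', q ≠ q' → Disjoint (nb G (p q)) (nb G (p q'))) →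
  IMS (DD N m) (addE G x y) (U ∪ {x, y})

/-- **F11.** Few disjoint pairs give a small cover.

Proof. Let `j` be maximal such that there is a family `p : Fin j → Set V` in `F` with pairwise disjoint
members (`j = 0` is possible; `j < m` by assumption, as a family of length `≥ m` could be
restricted).  `C` := the union of the `p q`, at most `2 j ≤ 2 m` elements.  Every `A ∈ F` meets `C`,
otherwise `p` could be extended. -/
def S_Cover : Prop := ∀ (V : Type) [Finite V] (F : Set (Set V)) (m : ℕ),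
  (∀ A ∈ F, A.ncard = 2) →
  (¬ ∃ p : Fin m → Set V, (∀ q, p q ∈ F) ∧ ∀ q q', q ≠ q' → Disjoint (p q) (p q')) →
  ∃ C : Set V, C ⊆ ⋃₀ F ∧ C.ncard ≤ 2 * m ∧ ∀ A ∈ F, (A ∩ C).Nonempty

/-- **F12.** Ordered collections.

Proof. Call `QQ' ⊆ QQ` initial if it satisfies the condition (elements of smaller rank than an element
of `QQ'` are in `QQ'`).  By induction on the number of elements, `Lay G k (⋃₀ QQ')` for every initial
`QQ'`: if it is nonempty remove an element `Q` of maximal rank; the rest is initial;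
`Lay.union` with the types bound for `QQ'`.  `QQ` itself is initial. -/
def S_LayRank : Prop := ∀ (V : Type) [Finite V] (G : SimpleGraph V) (k : ℕ) (QQ : Set (Set V))
  (ρ : Set V → ℕ), (∀ Q ∈ QQ, Lay G k Q) → (∀ P ∈ QQ, ∀ Q ∈ QQ, P ≠ Q → Disjoint P Q) →
  (∀ QQ' ⊆ QQ, (∀ Q ∈ QQ', ∀ P ∈ QQ, ρ P < ρ Q → P ∈ QQ') → (Types G (⋃₀ QQ')).encard ≤ k) →
  Lay G k (⋃₀ QQ)

/-- **F13.** Small torso.

Proof (from F12). Collection `QQ = PP ∪ {{t} | t ∈ T \ {x, y}}` with union `U`; rank `0` for `P ∈ PP` and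
`1` for the singletons (a set which is both may get any rank `0`).  For initial `QQ'`: if it contains
only members of `PP`, the neighbours are in `T`; if it contains a singleton `{t}`, then it contains all
of `PP`, and the neighbours are in `T` again.  So there are at most `2 ^ s - 1` types
(`types_encard_le`).  (Neighbours of `t ∈ T ∩ U` are in `U ∪ {x, y} = T ∪ ⋃₀ PP`.) -/
def S_LaySmall : Prop := ∀ (V : Type) [Finite V] (G : SimpleGraph V) (U : Set V) (x y : V)
  (PP : Set (Set V)) (T : Set V) (s k : ℕ), x ∉ U → y ∉ U → nb G U ⊆ {x, y} →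
  PartSys G U x y PP T → T.ncard ≤ s → 2 ^ s ≤ k → (∀ P ∈ PP, Lay G k P) → Lay G k U

/-- **F14.** The torso is a wheel.

Proof (from F12). `T = {h, r 0, ..., r (n-1)}`, `n ≥ 4`.  For `P ∈ PP`, `nb G P` is an edge of the wheel
`TG G x y PP` (F: `nb2`, `nbT`).  Ranks: `P` with `nb G P = {r (n-1), r 0}`: `0`; `P` with
`nb G P = {h, r i}`: `3 i + 1`; `P` with `nb G P = {r i, r (i+1)}`, `i + 1 < n`: `3 i + 2`; the singleton
`{r i}` (if `r i ∉ {x, y}`): `3 i + 3`; the singleton `{h}` (if `h ∉ {x, y}`): `3 n + 1`.  Let `QQ'` be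
initial, nonempty, with maximal rank `ρ`.  Claim: the neighbours of `⋃₀ QQ'` are in
`{h, x, y, r (n-1), r i, r (i+1)}`, where `i = (ρ - 1) / 3` (`i = 0` if `ρ = 0`), so at most `6`,
and there are at most `2 ^ 6 - 1` types.  Indeed: a neighbour is not in a part: a member of `QQ'` which
is a part has neighbours in `T` only; if a singleton `{r j}` is in `QQ'` then all parts attached to `r j`
have smaller rank than `{r j}` (`{r (j-1), r j}` has rank `3 (j-1) + 2`, `{h, r j}`: `3 j + 1`,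
`{r j, r (j+1)}`: `3 j + 2`, `{r (n-1), r 0}`: `0`), so they are in `QQ'`; if `{h}` is in `QQ'` then
everything else is.  A neighbour in `T` is `h`, `x`, `y`, or some `r j` not yet contained, `r j ∉ {x, y}`,
so `3 j + 3 ≥ ρ`, `j ≥ i`; it is adjacent to a member of rank `≤ ρ`: a part `{r (n-1), r 0}`: `j = n-1`
or `j = 0` (then `i = 0`); a part `{h, r j}`: `3 j + 1 ≤ ρ ≤ 3 i + 3` so `j ≤ i`; a part `{r j', r (j'+1)}`,
`j' ≤ i`, `j ∈ {j', j'+1}`, `j ≤ i + 1`; a singleton `{r j'}`, `j' ≤ i`, and `r j` is a neighbour of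
`r j'` in `TG`: `j = j' ± 1` or `j = n - 1` (`j' = 0`) or `j = 0` (`j' = n-1 = i`, but `j ≥ i`: no). -/
def S_LayWheel : Prop := ∀ (V : Type) [Finite V] (G : SimpleGraph V) (U : Set V) (x y : V)
  (PP : Set (Set V)) (T : Set V) (k : ℕ), x ∉ U → y ∉ U → nb G U ⊆ {x, y} →
  PartSys G U x y PP T → WheelOn (TG G x y PP) T → 64 ≤ k → (∀ P ∈ PP, Lay G k P) → Lay G k U

/-- **F15.** The torso is complete and the virtual edges have a small vertex cover.

Proof (from F12). Let `C' = C ∪ {x, y}`, `|C'| ≤ 2 m + 2`, and enumerate `T \ C' = {w_1, ..., w_s}`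
(an injective index function to `ℕ`, values `≥ 1`).  For `w, w' ∈ T \ C'`, `w ≠ w'`: `G.Adj w w'`
(the `TG`-edge is not virtual since every `nb G P` meets `C`, and not `x y`).  Every `P ∈ PP` has
`nb G P ⊆ C'` or `nb G P = {w, c}`, `w ∈ T \ C'`, `c ∈ C'`.  Ranks: the former: `0`; `P` with
`nb G P = {w_i, c}`: `2 i + 1`; `{w_i}`: `2 i + 2`; `{c}` for `c ∈ C' \ {x, y}`, `c ∈ T`: `2 s + 5` (larger
than all others).  Let `QQ'` be initial, nonempty, with maximal rank `ρ`, `A = ⋃₀ QQ'`.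
If `QQ'` contains a `{c}`, `c ∈ C'`, then it contains everything of rank `< 2 s + 5` and the neighbours of
`A` are in `C'`: at most `2 ^ |C'|` types.  Otherwise let `i` be the index of the current group
(`ρ = 2 i + 1` or `2 i + 2`; if `ρ = 0` all neighbours are in `C'`).  Types `N(a) \ A`, `a ∈ A`:
(1) `a` in a part `P` with `nb G P ⊆ C' ∪ A`: a subset of `C'`; (2) `a` in a part `P` with
`nb G P = {w_i, c}`, `w_i ∉ A`: a subset of `C' ∪ {w_i}`, i.e. a subset of `C'` or a subset of `C'` plus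
`w_i`; (3) `a = w_j`, `j ≤ i`: all parts attached to `w_j` have rank `2 j + 1` and are in `QQ'`, so
`N(w_j) \ A` consists of `(T \ C') \ A` and a subset of `C'`.  So all types are of the form `X`,
`X ∪ {w_i}`, `X ∪ ((T \ C') \ A)` with `X ⊆ C'`: at most `3 * 2 ^ (2 m + 2) ≤ 2 ^ (2 m + 4) ≤ k`. -/
def S_LayComplete : Prop := ∀ (V : Type) [Finite V] (G : SimpleGraph V) (U : Set V) (x y : V)
  (PP : Set (Set V)) (T C : Set V) (m k : ℕ), x ∉ U → y ∉ U → nb G U ⊆ {x, y} →
  PartSys G U x y PP T → CompleteOn (TG G x y PP) T → C.ncard ≤ 2 * m →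
  (∀ P ∈ PP, (nb G P ∩ C).Nonempty) → 2 ^ (2 * m + 4) ≤ k → (∀ P ∈ PP, Lay G k P) → Lay G k U

/-- **F16.** The induction step and its consequence (assembly, from everything above).

Proof. `SH N m k 0` is vacuous.  Step: `|U| ≤ n`.  `U = ∅`: `Lay.empty`.  `U` not connected: F2.  If
`x` or `y` has no neighbour in `U`: F1 (`nb G U ⊆ {x}` or `⊆ {y}`).  Otherwise `nb G U = {x, y}`.  If
there are `c, D` as in F4 or `c, A, B` as in F5: done.  Otherwise `Rigid G U x y`; F6 gives `PP, T`.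
Every `P ∈ PP` is a part (`|P| < |U|`), `nb G P = {u, v}`; F9 and `SH` give `Lay G k P`.
`IMS K5m (TG G x y PP) T` would give `IMS K5m (addE G x y) (T ∪ ⋃₀ PP)` by F7; so by F8 and `S_Class`
the torso is complete, a wheel, a prism or `K_{3,3}`.  Prism, `K_{3,3}`: `|T| ≤ 6`, F13 with `s = 6`.
Wheel: F14.  Complete: if `|T| ≤ N + m`: F13.  Otherwise there are no `m` parts with disjoint
neighbourhoods (F10), so F11 for `F = {nb G P | P ∈ PP}` and F15.
Finally `GoodOn N m G univ`: pick `x : V`, F1 for `U = univ \ {x}` and insert `x` (no types). -/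
def S_Main : Prop := ∀ (V : Type) [Finite V] [Nonempty V] (G : SimpleGraph V) (N m : ℕ),
  2 * m ≤ N → GoodOn N m G Set.univ → Lay G (2 ^ (N + 2 * m + 8)) Set.univ

end Pool.Agent.MPd439b2
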