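import Pool.Agent.Lib.MP_d439b2_co.Spec1

/-!
# MP_d439b2_co, G2: Thomassen's theorem (some edge is contractible)
-/

namespace Pool.Agent.MPd439b2

namespace ThomassenAux

variable {V : Type} {G : SimpleGraph V} {S : Set V}

theorem sep (h : ThreeConn G S) {C : Set V} {p q w : V} (hC : C ⊆ S) (hne : C.Nonempty)
    (hp : p ∉ C) (hq : q ∉ C) (hw : w ∈ S) (hwC : w ∉ C) (hwp : w ≠ p) (hwq : w ≠ q)
    (hnb : ∀ c ∈ C, ∀ t ∈ S, G.Adj c t → t ∈ C ∨ t = p ∨ t = q) : False := by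
  have h1 := (h.2 p q).eq_of_nb (C := C)
    (fun c hc => ⟨hC hc, fun h' => by
      rcases h' with h' | h'
      · exact hp (h' ▸ hc)
      · exact hq ((Set.mem_singleton_iff.mp h') ▸ hc)⟩) hne (by
    intro t ht htn
    obtain ⟨h2, c, hc, hct⟩ := htn
    rcases hnb c hc t ht.1 hct with h3 | h3 | h3
    · exact h2 h3
    · exact ht.2 (Or.inl h3)
    · exact ht.2 (Or.inr h3))
  apply hwC
  rw [h1]
  refine ⟨hw, fun h' => ?_⟩
  rcases h' with h' | h'
  · exact hwp h'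
  · exact hwq h'

/-- the quadruples of the proof -/
structure Quad (G : SimpleGraph V) (S : Set V) (x y z : V) (C : Set V) : Prop where
  xS : x ∈ S
  yS : y ∈ S
  zS : z ∈ S
  zx : z ≠ x
  zy : z ≠ y
  adj : G.Adj x y
  CS : C ⊆ S
  xC : x ∉ C
  yC : y ∉ C
  zC : z ∉ C
  ne : C.Nonempty
  rest : ∃ d ∈ S, d ≠ x ∧ d ≠ y ∧ d ≠ z ∧ d ∉ C
  cl : ∀ c ∈ C, ∀ t ∈ S, G.Adj c t → t ∈ C ∨ t = x ∨ t = y ∨ t = z

theorem nonempty3 [Finite V] (h5 : 5 ≤ S.ncard) (a x z : V) : (S \ {a, x, z}).Nonempty := by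
  by_contra h
  rw [Set.not_nonempty_iff_eq_empty, Set.sdiff_eq_empty] at h
  have h1 := Set.ncard_le_ncard h (Set.toFinite _)
  have h2 : ({a, x, z} : Set V).ncard ≤ 3 := by
    refine (Set.ncard_insert_le _ _).trans ?_
    have := Set.ncard_insert_le x ({z} : Set V)
    rw [Set.ncard_singleton] at this
    omega
  omega

/-- a non-contractible edge: the two sides -/
theorem sides [Finite V] (h : S_NonContr) {a x : V} (hS : ThreeConn G S)
    (h5 : 5 ≤ S.ncard) (ha : a ∈ S) (hx : x ∈ S) (hax : G.Adj a x)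
    (hc : ¬ ThreeConn (contr G a x) (S \ {a})) :
    ∃ z D D', z ∈ S ∧ Quad G S a x z D ∧ Quad G S a x z D' ∧ (∀ t, t ∈ D → t ∉ D') ∧
      (∀ p ∈ D, ∀ q ∈ D', ¬ G.Adj p q) := by
  obtain ⟨z, hzS, hza, hzx, hcon⟩ := h V G S a x hS h5 ha hx hax hc
  have hmem : ∀ t, t ∈ S \ {a, x, z} ↔ t ∈ S ∧ t ≠ a ∧ t ≠ x ∧ t ≠ z := by
    intro t
    simp only [Set.mem_sdiff, Set.mem_insert_iff, Set.mem_singleton_iff, not_or]
  obtain ⟨C, hCA, hCc, hCne, hCnb⟩ := exists_comp_of_not_conn (nonempty3 h5 a x z) hcon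
  obtain ⟨d, hdA, hdC⟩ : ∃ d ∈ S \ {a, x, z}, d ∉ C := by
    by_contra h'
    push Not at h'
    exact hCne (Set.Subset.antisymm hCA h')
  have hno : ∀ p ∈ C, ∀ q ∈ (S \ {a, x, z}) \ C, ¬ G.Adj p q := by
    intro p hp q hq hpq
    exact hCnb q hq.1 ⟨hq.2, p, hp, hpq⟩
  have hC' : ∀ c ∈ C, c ∈ S ∧ c ≠ a ∧ c ≠ x ∧ c ≠ z := fun c hc => (hmem c).mp (hCA hc)
  have hD' : ∀ c ∈ (S \ {a, x, z}) \ C, c ∈ S ∧ c ≠ a ∧ c ≠ x ∧ c ≠ z :=
    fun c hc => (hmem c).mp hc.1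
  have hcov : ∀ t ∈ S, t = a ∨ t = x ∨ t = z ∨ t ∈ C ∨ t ∈ (S \ {a, x, z}) \ C := by
    intro t ht
    by_cases h1 : t = a
    · exact Or.inl h1
    by_cases h2 : t = x
    · exact Or.inr (Or.inl h2)
    by_cases h3 : t = z
    · exact Or.inr (Or.inr (Or.inl h3))
    by_cases h4 : t ∈ C
    · exact Or.inr (Or.inr (Or.inr (Or.inl h4)))
    · exact Or.inr (Or.inr (Or.inr (Or.inr ⟨(hmem t).mpr ⟨ht, h1, h2, h3⟩, h4⟩)))
  obtain ⟨c₀, hc₀⟩ := hCc.1
  refine ⟨z, C, (S \ {a, x, z}) \ C, hzS, ?_, ?_, fun t ht ht' => ht'.2 ht, hno⟩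
  · exact {
      xS := ha, yS := hx, zS := hzS, zx := hza, zy := hzx, adj := hax
      CS := fun t ht => (hC' t ht).1
      xC := fun h' => (hC' a h').2.1 rfl
      yC := fun h' => (hC' x h').2.2.1 rfl
      zC := fun h' => (hC' z h').2.2.2 rfl
      ne := hCc.1
      rest := ⟨d, ((hmem d).mp hdA).1, ((hmem d).mp hdA).2.1, ((hmem d).mp hdA).2.2.1,
        ((hmem d).mp hdA).2.2.2, hdC⟩
      cl := fun c hc t ht hct => by
        rcases hcov t ht with h1 | h1 | h1 | h1 | h1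
        · exact Or.inr (Or.inl h1)
        · exact Or.inr (Or.inr (Or.inl h1))
        · exact Or.inr (Or.inr (Or.inr h1))
        · exact Or.inl h1
        · exact absurd hct (hno c hc t h1) }
  · exact {
      xS := ha, yS := hx, zS := hzS, zx := hza, zy := hzx, adj := hax
      CS := fun t ht => (hD' t ht).1
      xC := fun h' => (hD' a h').2.1 rfl
      yC := fun h' => (hD' x h').2.2.1 rfl
      zC := fun h' => (hD' z h').2.2.2 rfl
      ne := ⟨d, hdA, hdC⟩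
      rest := ⟨c₀, (hC' c₀ hc₀).1, (hC' c₀ hc₀).2.1, (hC' c₀ hc₀).2.2.1, (hC' c₀ hc₀).2.2.2,
        fun h' => h'.2 hc₀⟩
      cl := fun c hc t ht hct => by
        rcases hcov t ht with h1 | h1 | h1 | h1 | h1
        · exact Or.inr (Or.inl h1)
        · exact Or.inr (Or.inr (Or.inl h1))
        · exact Or.inr (Or.inr (Or.inr h1))
        · exact absurd hct.symm (hno t h1 c hc)
        · exact Or.inl h1 }

/-- the descent -/
theorem descend [Finite V] (h : S_NonContr) (hS : ThreeConn G S) (h5 : 5 ≤ S.ncard)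
    (hno : ∀ a ∈ S, ∀ x ∈ S, G.Adj a x → ¬ ThreeConn (contr G a x) (S \ {a}))
    {x y z : V} {C : Set V} (Q : Quad G S x y z C) :
    ∃ x' y' z' C', Quad G S x' y' z' C' ∧ C'.ncard < C.ncard := by
  -- `v ∈ C` adjacent to `z`
  obtain ⟨v, hvC, hvz⟩ : ∃ v ∈ C, G.Adj v z := by
    by_contra h'
    push Not at h'
    refine sep hS (C := C) (p := x) (q := y) (w := z) Q.CS Q.ne Q.xC Q.yC Q.zS Q.zC Q.zx Q.zy ?_
    intro c hc t ht hct
    rcases Q.cl c hc t ht hct with h1 | h1 | h1 | h1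
    · exact Or.inl h1
    · exact Or.inr (Or.inl h1)
    · exact Or.inr (Or.inr h1)
    · exact absurd (h1 ▸ hct) (h' c hc)
  have hvS : v ∈ S := Q.CS hvC
  obtain ⟨w, D, D', hwS, QD, QD', hdis, hDD⟩ :=
    sides h hS h5 Q.zS hvS hvz.symm (hno z Q.zS v hvS hvz.symm)
  -- a side without `x` and `y`
  have hside : ∃ E, Quad G S z v w E ∧ x ∉ E ∧ y ∉ E := by
    by_cases hx : x ∈ D
    · refine ⟨D', QD', hdis x hx, fun hy => ?_⟩
      exact hDD x hx y hy Q.adj
    · by_cases hy : y ∈ D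
      · refine ⟨D', QD', fun hx' => ?_, hdis y hy⟩
        exact hDD y hy x hx' Q.adj.symm
      · exact ⟨D, QD, hx, hy⟩
  obtain ⟨E, QE, hxE, hyE⟩ := hside
  -- `v` has a neighbour in `E`
  obtain ⟨u, huE, hvu⟩ : ∃ u ∈ E, G.Adj v u := by
    by_contra h'
    push Not at h'
    refine sep hS (C := E) (p := z) (q := w) (w := v) QE.CS QE.ne QE.xC QE.zC hvS QE.yC
      hvz.ne QE.zy.symm ?_
    intro c hc t ht hct
    rcases QE.cl c hc t ht hct with h1 | h1 | h1 | h1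
    · exact Or.inl h1
    · exact Or.inr (Or.inl h1)
    · exact absurd (h1 ▸ hct).symm (h' c hc)
    · exact Or.inr (Or.inr h1)
  have huC : u ∈ C := by
    rcases Q.cl v hvC u (QE.CS huE) hvu with h1 | h1 | h1 | h1
    · exact h1
    · exact absurd (h1 ▸ huE) hxE
    · exact absurd (h1 ▸ huE) hyE
    · exact absurd (h1 ▸ huE) QE.xC
  refine ⟨z, v, w, E ∩ C, ?_, ?_⟩
  · exact {
      xS := QE.xS, yS := QE.yS, zS := QE.zS, zx := QE.zx, zy := QE.zy, adj := QE.adj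
      CS := fun t ht => QE.CS ht.1
      xC := fun h' => QE.xC h'.1
      yC := fun h' => QE.yC h'.1
      zC := fun h' => QE.zC h'.1
      ne := ⟨u, huE, huC⟩
      rest := by
        obtain ⟨d, hd, h1, h2, h3, h4⟩ := QE.rest
        exact ⟨d, hd, h1, h2, h3, fun h' => h4 h'.1⟩
      cl := fun c hc t ht hct => by
        rcases QE.cl c hc.1 t ht hct with h1 | h1 | h1 | h1
        · rcases Q.cl c hc.2 t ht hct with h2 | h2 | h2 | h2
          · exact Or.inl ⟨h1, h2⟩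
          · exact absurd (h2 ▸ h1) hxE
          · exact absurd (h2 ▸ h1) hyE
          · exact absurd (h2 ▸ h1) QE.xC
        · exact Or.inr (Or.inl h1)
        · exact Or.inr (Or.inr (Or.inl h1))
        · exact Or.inr (Or.inr (Or.inr h1)) }
  · apply Set.ncard_lt_ncard _ (Set.toFinite _)
    refine ⟨Set.inter_subset_right, fun h' => ?_⟩
    exact QE.yC (h' hvC).1

theorem no_quad [Finite V] (h : S_NonContr) (hS : ThreeConn G S) (h5 : 5 ≤ S.ncard)
    (hno : ∀ a ∈ S, ∀ x ∈ S, G.Adj a x → ¬ ThreeConn (contr G a x) (S \ {a})) (n : ℕ) :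
    ∀ (x y z : V) (C : Set V), Quad G S x y z C → C.ncard = n → False := by
  induction n using Nat.strong_induction_on with
  | _ n ih =>
    intro x y z C Q hn
    obtain ⟨x', y', z', C', Q', hlt⟩ := descend h hS h5 hno Q
    exact ih C'.ncard (hn ▸ hlt) x' y' z' C' Q' rfl

end ThomassenAux

open ThomassenAux in
/-- **G2.** Some edge is contractible. -/
theorem thomassen (h : S_NonContr) : S_Thomassen := by
  intro V _ G S hS h5
  by_contra hcon
  push Not at hcon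
  have hno : ∀ a ∈ S, ∀ x ∈ S, G.Adj a x → ¬ ThreeConn (contr G a x) (S \ {a}) :=
    fun a ha x hx hax => hcon a ha x hx hax
  -- an edge
  have hne : S.Nonempty := by
    by_contra h'
    rw [Set.not_nonempty_iff_eq_empty] at h'
    rw [h', Set.ncard_empty] at h5
    omega
  obtain ⟨a, ha⟩ := hne
  obtain ⟨x, hx, hax⟩ : ∃ x ∈ S, G.Adj a x := by
    by_contra h'
    push Not at h'
    obtain ⟨t, ht⟩ := nonempty3 (S := S) h5 a a a
    have ht' : t ≠ a := by
      intro h1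
      exact ht.2 (Or.inl h1)
    obtain ⟨s, hs⟩ := nonempty3 (S := S) h5 a t t
    have hs1 : s ≠ a := fun h1 => hs.2 (Or.inl h1)
    have hs2 : s ≠ t := fun h1 => hs.2 (Or.inr (Or.inl h1))
    refine sep hS (C := {a}) (p := t) (q := t) (w := s) (Set.singleton_subset_iff.mpr ha)
      ⟨a, rfl⟩ (fun h1 => ht' h1) (fun h1 => ht' h1) hs.1 (fun h1 => hs1 h1) hs2 hs2 ?_
    intro c hc u hu hcu
    rw [Set.mem_singleton_iff] at hc
    exact absurd (hc ▸ hcu) (h' u hu)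
  obtain ⟨z, D, D', _, QD, _, _, _⟩ := sides h hS h5 ha hx hax (hno a ha x hx hax)
  exact no_quad h hS h5 hno D.ncard a x z D QD rfl

end Pool.Agent.MPd439b2
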