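import Pool.Agent.Lib.MP_d439b2_co.Spec2

/-!
# MP_d439b2_co, F10: a large complete torso with `m` disjoint virtual pairs contains `DD N m`
-/

namespace Pool.Agent.MPd439b2

namespace TorsoDDAux

/-- the choice of the representatives -/
theorem exists_a {V : Type} [Finite V] {T : Set V} {N m : ℕ} (hmN : 2 * m ≤ N)
    (u v : Fin m → V) (huv : ∀ q q', u q ≠ v q') (hv : Function.Injective v)
    (hvT : ∀ q, v q ∈ T) (hcard : N - m ≤ (T \ (Set.range u ∪ Set.range v)).ncard) :
    ∃ a : Fin N → V, Function.Injective a ∧ (∀ i, a i ∈ T) ∧ (∀ i q, a i ≠ u q) ∧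
      (∀ (i : Fin N) (q : Fin m), a i = v q ↔ i.val = 2 * q.val + 1) ∧
      (∀ (i : Fin N) (q : Fin m), i.val = 2 * q.val →
        a i ∉ Set.range u ∪ Set.range v) := by
  classical
  obtain ⟨f, hf, hfT⟩ : ∃ f : Fin (N - m) → V, Function.Injective f ∧
      ∀ i, f i ∈ T \ (Set.range u ∪ Set.range v) := by
    have : Fintype ↥(T \ (Set.range u ∪ Set.range v)) := Fintype.ofFinite _
    obtain ⟨e⟩ := Function.Embedding.nonempty_of_card_le (α := Fin (N - m))
      (β := ↥(T \ (Set.range u ∪ Set.range v))) (by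
        rw [Fintype.card_fin, ← Nat.card_eq_fintype_card, Nat.card_coe_set_eq]
        exact hcard)
    exact ⟨fun i => (e i).1, fun i j h => e.injective (Subtype.ext h), fun i => (e i).2⟩
  have hfu : ∀ i q, f i ≠ u q := fun i q h => (hfT i).2 (Or.inl ⟨q, h.symm⟩)
  have hfv : ∀ i q, f i ≠ v q := fun i q h => (hfT i).2 (Or.inr ⟨q, h.symm⟩)
  let g : Fin N → Fin (N - m) := fun i =>
    ⟨if i.val < 2 * m then i.val / 2 else i.val - m, by split_ifs <;> omega⟩
  let a : Fin N → V := fun i =>
    if h : i.val < 2 * m ∧ i.val % 2 = 1 then v ⟨i.val / 2, by omega⟩ else f (g i)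
  have ha1 : ∀ i : Fin N, ∀ h : i.val < 2 * m ∧ i.val % 2 = 1,
      a i = v ⟨i.val / 2, by omega⟩ := fun i h => dif_pos h
  have ha2 : ∀ i : Fin N, ¬ (i.val < 2 * m ∧ i.val % 2 = 1) → a i = f (g i) :=
    fun i h => dif_neg h
  refine ⟨a, ?_, ?_, ?_, ?_, ?_⟩
  · intro i j hij
    by_cases hi : i.val < 2 * m ∧ i.val % 2 = 1 <;> by_cases hj : j.val < 2 * m ∧ j.val % 2 = 1
    · rw [ha1 i hi, ha1 j hj] at hij
      have h1 := congrArg Fin.val (hv hij)
      simp only at h1
      apply Fin.ext
      omega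
    · rw [ha1 i hi, ha2 j hj] at hij
      exact absurd hij.symm (hfv _ _)
    · rw [ha2 i hi, ha1 j hj] at hij
      exact absurd hij (hfv _ _)
    · rw [ha2 i hi, ha2 j hj] at hij
      have h1 := congrArg Fin.val (hf hij)
      simp only [g] at h1
      apply Fin.ext
      split_ifs at h1 <;> omega
  · intro i
    by_cases hi : i.val < 2 * m ∧ i.val % 2 = 1
    · rw [ha1 i hi]
      exact hvT _
    · rw [ha2 i hi]
      exact (hfT _).1
  · intro i q
    by_cases hi : i.val < 2 * m ∧ i.val % 2 = 1
    · rw [ha1 i hi]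
      exact fun h => huv _ _ h.symm
    · rw [ha2 i hi]
      exact hfu _ _
  · intro i q
    by_cases hi : i.val < 2 * m ∧ i.val % 2 = 1
    · rw [ha1 i hi]
      constructor
      · intro h
        have h1 := congrArg Fin.val (hv h)
        simp only at h1
        omega
      · intro h
        congr 1
        apply Fin.ext
        simp only
        omega
    · rw [ha2 i hi]
      constructor
      · intro h
        exact absurd h (hfv _ _)
      · intro h
        exfalso
        have := q.2
        omega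
  · intro i q h
    have hi : ¬ (i.val < 2 * m ∧ i.val % 2 = 1) := by omega
    rw [ha2 i hi]
    exact (hfT _).2

end TorsoDDAux

open TorsoDDAux in
/-- **F10.** -/
theorem torsoDD (h7 : S_TorsoIMS) : S_TorsoDD := by
  classical
  intro V _ G U x y PP T N m p hxU hyU hPS hmN hcomp hcard hpPP hdisj
  -- the two neighbours of every part
  have hex : ∀ q, ∃ u v : V, u ≠ v ∧ nb G (p q) = {u, v} := by
    intro q
    obtain ⟨u, v, huv, h⟩ := Set.ncard_eq_two.1 (hPS.nb2 (p q) (hpPP q))
    exact ⟨u, v, huv, h⟩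
  choose u v huv hnb using hex
  have hu : ∀ q, u q ∈ nb G (p q) := fun q => by rw [hnb]; exact Or.inl rfl
  have hv : ∀ q, v q ∈ nb G (p q) := fun q => by rw [hnb]; exact Or.inr rfl
  have hne : ∀ q q', q ≠ q' → ∀ z ∈ nb G (p q), ∀ z' ∈ nb G (p q'), z ≠ z' := by
    intro q q' hq z hz z' hz' h
    rw [h] at hz
    exact Set.disjoint_left.1 (hdisj q q' hq) hz hz'
  have huinj : Function.Injective u := by
    intro q q' h
    by_contra hq
    exact hne q q' hq _ (hu q) _ (hu q') h
  have hvinj : Function.Injective v := by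
    intro q q' h
    by_contra hq
    exact hne q q' hq _ (hv q) _ (hv q') h
  have huv' : ∀ q q', u q ≠ v q' := by
    intro q q'
    by_cases hq : q = q'
    · rw [← hq]
      exact huv q
    · exact hne q q' hq _ (hu q) _ (hv q')
  have huT : ∀ q, u q ∈ T := fun q => hPS.nbT _ (hpPP q) (hu q)
  have hvT : ∀ q, v q ∈ T := fun q => hPS.nbT _ (hpPP q) (hv q)
  have hTP : ∀ z ∈ T, ∀ P ∈ PP, z ∉ P := by
    intro z hz P hP hzP
    rw [hPS.hT] at hz
    exact hz.2 ⟨P, hP, hzP⟩
  have hcard2 : N - m ≤ (T \ (Set.range u ∪ Set.range v)).ncard := by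
    have h1 := Set.ncard_le_ncard_sdiff_add_ncard T (Set.range u ∪ Set.range v) (Set.toFinite _)
    have h2 := Set.ncard_union_le (Set.range u) (Set.range v)
    have h3 : ∀ w : Fin m → V, (Set.range w).ncard ≤ m := by
      intro w
      rw [← Set.image_univ]
      refine (Set.ncard_image_le (Set.toFinite _)).trans ?_
      rw [Set.ncard_univ, Nat.card_fin]
    have h4 := h3 u
    have h5 := h3 v
    omega
  obtain ⟨a, hainj, haT, hau, hav, haE⟩ := exists_a hmN u v huv' hvinj hvT hcard2
  -- the remaining virtual edges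
  set QQ : Set (Set V) := PP \ Set.range p with hQQ
  -- adjacency in `T`
  have hadj : ∀ s ∈ T, ∀ t ∈ T, s ≠ t → (∀ q, nb G (p q) ≠ {s, t}) →
      (TG G x y QQ).Adj s t := by
    intro s hs t ht hst hq
    obtain ⟨_, h1⟩ := hcomp s hs t ht hst
    refine ⟨hst, h1.imp id ?_⟩
    rintro ⟨P, hP, hPn⟩
    refine ⟨P, ⟨hP, ?_⟩, hPn⟩
    rintro ⟨q, rfl⟩
    exact hq q hPn
  -- adjacency to a part
  have hpart : ∀ q, ∀ t ∈ p q, ∀ s, (TG G x y QQ).Adj s t → G.Adj s t := by
    intro q t ht s hst
    rcases hst.2 with h1 | ⟨P, hP, hPn⟩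
    · rcases h1 with h1 | ⟨_, h1⟩
      · exact h1
      · exfalso
        have htU := hPS.sub _ (hpPP q) ht
        rcases h1 with h1 | h1
        · rw [h1.2] at htU
          exact hyU htU
        · rw [h1.2] at htU
          exact hxU htU
    · exfalso
      have h2 : t ∈ nb G P := by rw [hPn]; exact Or.inr rfl
      exact hTP t (hPS.nbT P hP.1 h2) _ (hpPP q) ht
  have hG : ∀ s t, G.Adj s t → (TG G x y QQ).Adj s t :=
    fun s t h => ⟨h.ne, Or.inl (Or.inl h)⟩
  -- the model
  let B : Fin N ⊕ Fin m → Set V := fun w => match w with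
    | Sum.inl i => {z | z = a i ∨ ∃ q : Fin m, i.val = 2 * q.val ∧ z = u q}
    | Sum.inr q => p q
  have hBl : ∀ i, B (Sum.inl i) = {z | z = a i ∨ ∃ q : Fin m, i.val = 2 * q.val ∧ z = u q} :=
    fun i => rfl
  have hBr : ∀ q, B (Sum.inr q) = p q := fun q => rfl
  have hBT : ∀ i, B (Sum.inl i) ⊆ T := by
    intro i z hz
    rcases hz with hz | ⟨q, _, hz⟩
    · rw [hz]; exact haT i
    · rw [hz]; exact huT q
  have hpinj : ∀ q q', q ≠ q' → p q ≠ p q' := by
    intro q q' hq h
    have h1 := hu q
    rw [h] at h1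
    exact hne q q' hq _ (hu q) _ h1 rfl
  -- touching of `inl i` and `inr q`
  have hlr : ∀ (i : Fin N) (q : Fin m), (i.val = 2 * q.val ∨ i.val = 2 * q.val + 1) ↔
      Tch (TG G x y QQ) (B (Sum.inl i)) (B (Sum.inr q)) := by
    intro i q
    constructor
    · rintro (h | h)
      · obtain ⟨_, b, hb, hbu⟩ := hu q
        exact ⟨u q, Or.inr ⟨q, h, rfl⟩, b, hb, (hG _ _ hbu).symm⟩
      · obtain ⟨_, b, hb, hbv⟩ := hv q
        exact ⟨v q, Or.inl ((hav i q).2 h).symm, b, hb, (hG _ _ hbv).symm⟩
    · rintro ⟨s, hs, t, ht, hst⟩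
      have h1 := hpart q t ht s hst
      have hsT := hBT i hs
      have h2 : s ∈ nb G (p q) := ⟨hTP s hsT _ (hpPP q), t, ht, h1.symm⟩
      rw [hnb q] at h2
      rcases h2 with h2 | h2
      · rcases hs with hs | ⟨q', hq', hs⟩
        · exact absurd (hs.symm.trans h2) (hau i q)
        · have h3 := huinj (hs.symm.trans h2)
          rw [h3] at hq'
          exact Or.inl hq'
      · rw [Set.mem_singleton_iff] at h2
        rcases hs with hs | ⟨q', hq', hs⟩
        · exact Or.inr ((hav i q).1 (hs.symm.trans h2))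
        · exact absurd (hs.symm.trans h2) (huv' q' q)
  have hmodel : IMS (DD N m) (TG G x y QQ) (T ∪ ⋃ q, p q) := by
    refine ⟨B, ?_, ?_, ?_, ?_⟩
    · rintro (i | q)
      · exact (hBT i).trans Set.subset_union_left
      · exact (Set.subset_iUnion p q).trans Set.subset_union_right
    · rintro (i | q)
      · by_cases hi : ∃ q : Fin m, i.val = 2 * q.val
        · obtain ⟨q, hq⟩ := hi
          have h1 : B (Sum.inl i) = {a i, u q} := by
            ext z
            constructor
            · rintro (hz | ⟨q', hq', hz⟩)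
              · exact Or.inl hz
              · have h2 : q' = q := Fin.ext (by omega)
                rw [h2] at hz
                exact Or.inr hz
            · rintro (hz | hz)
              · exact Or.inl hz
              · exact Or.inr ⟨q, hq, hz⟩
          rw [h1]
          apply Conn.pair
          apply hadj _ (haT i) _ (huT q) (hau i q)
          intro q' h2
          have h3 : a i ∈ nb G (p q') := by rw [h2]; exact Or.inl rfl
          rw [hnb q'] at h3
          apply haE i q hq
          rcases h3 with h3 | h3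
          · exact Or.inl ⟨q', h3.symm⟩
          · exact Or.inr ⟨q', h3.symm⟩
        · have h1 : B (Sum.inl i) = {a i} := by
            ext z
            constructor
            · rintro (hz | ⟨q', hq', hz⟩)
              · exact hz
              · exact absurd ⟨q', hq'⟩ hi
            · exact fun hz => Or.inl hz
          rw [h1]
          exact Conn.singleton _ _
      · exact (hPS.conn _ (hpPP q)).mono_graph fun s _ t _ h => hG s t h
    · rintro (i | q) (j | q') hw
      · rw [Set.disjoint_left]
        have hij : i ≠ j := fun h => hw (by rw [h])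
        rintro z (hz | ⟨r, hr, hz⟩) (hz' | ⟨r', hr', hz'⟩)
        · exact hij (hainj (hz.symm.trans hz'))
        · exact hau i r' (hz.symm.trans hz')
        · exact hau j r (hz'.symm.trans hz)
        · have h2 := huinj (hz.symm.trans hz')
          rw [h2] at hr
          exact hij (Fin.ext (hr.trans hr'.symm))
      · rw [Set.disjoint_left]
        exact fun z hz hz' => hTP z (hBT i hz) _ (hpPP q') hz'
      · rw [Set.disjoint_left]
        exact fun z hz hz' => hTP z (hBT j hz') _ (hpPP q) hz
      · exact hPS.disj _ (hpPP q) _ (hpPP q') (hpinj q q' fun h => hw (by rw [h]))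
    · rintro (i | q) (j | q') hw
      · have hij : i ≠ j := fun h => hw (by rw [h])
        refine iff_of_true hij ?_
        refine ⟨a i, Or.inl rfl, a j, Or.inl rfl, ?_⟩
        apply hadj _ (haT i) _ (haT j) (fun h => hij (hainj h))
        intro r hr
        have h2 : u r ∈ nb G (p r) := hu r
        rw [hr] at h2
        rcases h2 with h2 | h2
        · exact hau i r h2.symm
        · exact hau j r h2.symm
      · exact hlr i q'
      · exact (hlr j q).trans tch_comm
      · refine iff_of_false (fun h => h) ?_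
        rintro ⟨s, hs, t, ht, hst⟩
        exact hPS.notch _ (hpPP q) _ (hpPP q') (hpinj q q' fun h => hw (by rw [h]))
          ⟨s, hs, t, ht, hpart q' t ht s hst⟩
  have hdis : Disjoint (T ∪ ⋃ q, p q) (⋃₀ QQ) := by
    rw [Set.disjoint_left]
    rintro z (hz | hz) ⟨P, hP, hzP⟩
    · exact hTP z hz P hP.1 hzP
    · obtain ⟨q, hq⟩ := Set.mem_iUnion.1 hz
      exact Set.disjoint_left.1 (hPS.disj _ (hpPP q) P hP.1 (fun h => hP.2 ⟨q, h⟩)) hq hzP
  have hfin := h7 V (Fin N ⊕ Fin m) (DD N m) G U x y PP T hxU hyU hPS QQ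
    (fun P hP => hP.1) _ Set.subset_union_left hdis hmodel
  refine hfin.mono ?_
  rintro z ((hz | hz) | ⟨P, hP, hzP⟩)
  · rw [hPS.hT] at hz
    exact hz.1
  · obtain ⟨q, hq⟩ := Set.mem_iUnion.1 hz
    exact Or.inl (hPS.sub _ (hpPP q) hq)
  · exact Or.inl (hPS.sub P hP.1 hzP)

end Pool.Agent.MPd439b2
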