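import Pool.Agent.Lib.MP_d439b2_co.Spec2

/-!
# MP_d439b2_co, F7
-/

namespace Pool.Agent.MPd439b2

theorem torsoIMS (h : S_ImsEdge) : S_TorsoIMS := by
  intro V W _ H G U x y PP T hx hy hP QQ hQQ
  classical
  have hfin : QQ.Finite := Set.toFinite _
  induction QQ, hfin using Set.Finite.induction_on with
  | empty =>
    intro S hTS hd hims
    rw [Set.sUnion_empty, Set.union_empty]
    refine hims.congr fun u _ v _ => ?_
    constructor
    · rintro ⟨_, h1 | ⟨P, hP, _⟩⟩
      · exact h1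
      · exact absurd hP (Set.notMem_empty P)
    · intro h1
      exact ⟨h1.ne, Or.inl h1⟩
  | @insert P QQ' hPQ _ ih =>
    intro S hTS hd hims
    have hPP : P ∈ PP := hQQ (Set.mem_insert P QQ')
    have hQ' : QQ' ⊆ PP := (Set.subset_insert P QQ').trans hQQ
    obtain ⟨u, v, huv, hnbP⟩ := Set.ncard_eq_two.mp (hP.nb2 P hPP)
    have huT : u ∈ T := hP.nbT P hPP (by rw [hnbP]; exact Or.inl rfl)
    have hvT : v ∈ T := hP.nbT P hPP (by rw [hnbP]; exact Or.inr rfl)
    have hPT : Disjoint P T := by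
      rw [Set.disjoint_left]
      intro a ha haT
      rw [hP.hT] at haT
      exact haT.2 ⟨P, hPP, ha⟩
    have hPU := hP.sub P hPP
    have hdP : Disjoint P S := by
      rw [Set.disjoint_left]
      intro a ha haS
      exact Set.disjoint_left.mp hd haS ⟨P, Set.mem_insert P QQ', ha⟩
    -- adjacency from `P` in the torso graph is adjacency in `G`
    have hadj : ∀ r ∈ P, ∀ s, (TG G x y QQ').Adj r s → G.Adj r s := by
      rintro r hr s ⟨hrs, h1 | ⟨Q, hQ, hnbQ⟩⟩
      · rcases h1 with h1 | ⟨_, ⟨rfl, _⟩ | ⟨rfl, _⟩⟩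
        · exact h1
        · exact absurd (hPU hr) hx
        · exact absurd (hPU hr) hy
      · exfalso
        have : r ∈ T := hP.nbT Q (hQ' hQ) (by rw [hnbQ]; exact Or.inl rfl)
        exact Set.disjoint_left.mp hPT hr this
    have hG : ∀ r s, G.Adj r s → (TG G x y QQ').Adj r s := fun r s h1 =>
      ⟨h1.ne, Or.inl (Or.inl h1)⟩
    have hims' : IMS H (addE (TG G x y QQ') u v) S := by
      refine hims.congr fun a _ b _ => ?_
      constructor
      · rintro ⟨hab, h1 | ⟨Q, hQ, hnbQ⟩⟩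
        · exact Or.inl ⟨hab, Or.inl h1⟩
        · rcases hQ with rfl | hQ
          · right
            refine ⟨hab, ?_⟩
            rw [hnbP] at hnbQ
            have e1 : a ∈ ({u, v} : Set V) := by rw [hnbQ]; exact Or.inl rfl
            have e2 : b ∈ ({u, v} : Set V) := by rw [hnbQ]; exact Or.inr rfl
            rcases e1 with rfl | e1 <;> rcases e2 with rfl | e2
            · exact absurd rfl hab
            · exact Or.inl ⟨rfl, e2⟩
            · exact Or.inr ⟨e1, rfl⟩
            · exact absurd (e1.trans e2.symm) hab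
          · exact Or.inl ⟨hab, Or.inr ⟨Q, hQ, hnbQ⟩⟩
      · rintro (⟨hab, h1 | ⟨Q, hQ, hnbQ⟩⟩ | ⟨hab, ⟨rfl, rfl⟩ | ⟨rfl, rfl⟩⟩)
        · exact ⟨hab, Or.inl h1⟩
        · exact ⟨hab, Or.inr ⟨Q, Set.mem_insert_of_mem _ hQ, hnbQ⟩⟩
        · exact ⟨hab, Or.inr ⟨P, Set.mem_insert _ _, hnbP⟩⟩
        · exact ⟨hab, Or.inr ⟨P, Set.mem_insert _ _, by rw [hnbP, Set.pair_comm]⟩⟩
    have hstep : IMS H (TG G x y QQ') (S ∪ P) := by
      refine h V W H (TG G x y QQ') S P u v (hTS huT) (hTS hvT) huv hdP ?_ ?_ ?_ ?_ hims'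
      · exact (hP.conn P hPP).mono_graph fun a _ b _ hab => hG a b hab
      · rintro s hs ⟨r, hr, hrs⟩
        have h1 := hadj r hr s hrs
        have h2 : s ∈ nb G P := ⟨fun h3 => Set.disjoint_left.mp hdP h3 hs, r, hr, h1⟩
        rw [hnbP] at h2
        exact h2
      · have h2 : u ∈ nb G P := by rw [hnbP]; exact Or.inl rfl
        obtain ⟨_, a, ha, hau⟩ := h2
        exact ⟨a, ha, hG a u hau⟩
      · have h2 : v ∈ nb G P := by rw [hnbP]; exact Or.inr rfl
        obtain ⟨_, a, ha, hau⟩ := h2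
        exact ⟨a, ha, hG a v hau⟩
    have hd' : Disjoint (S ∪ P) (⋃₀ QQ') := by
      rw [Set.disjoint_left]
      rintro a (ha | ha) ⟨Q, hQ, haQ⟩
      · exact Set.disjoint_left.mp hd ha ⟨Q, Set.mem_insert_of_mem _ hQ, haQ⟩
      · have hne : P ≠ Q := fun h1 => hPQ (h1 ▸ hQ)
        exact Set.disjoint_left.mp (hP.disj P hPP Q (hQ' hQ) hne) ha haQ
    have := ih hQ' (S ∪ P) (hTS.trans Set.subset_union_left) hd' hstep
    rw [Set.sUnion_insert, ← Set.union_assoc]
    exact this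

end Pool.Agent.MPd439b2
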