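import Pool.Agent.Lib.MP_d439b2_co.Spec2

/-!
# MP_d439b2_co, F8: the torso is 3-connected
-/

namespace Pool.Agent.MPd439b2

namespace TorsoThreeAux

variable {V : Type} {G : SimpleGraph V} {U : Set V} {x y : V} {PP : Set (Set V)} {T : Set V}

theorem pair_le (a b : V) : ({a, b} : Set V).ncard ≤ 2 := by
  refine (Set.ncard_insert_le a {b}).trans ?_
  rw [Set.ncard_singleton]

theorem notMem_part (hP : PartSys G U x y PP T) {t : V} (ht : t ∈ T) {P : Set V} (h : P ∈ PP) :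
    t ∉ P := by
  intro htP
  rw [hP.hT] at ht
  exact ht.2 ⟨P, h, htP⟩

theorem T_sub (hP : PartSys G U x y PP T) {t : V} (ht : t ∈ T) : t ∈ U ∨ t = x ∨ t = y := by
  rw [hP.hT] at ht
  rcases ht.1 with h | h
  · exact Or.inl h
  · exact Or.inr h

theorem mem_T_or (hP : PartSys G U x y PP T) {t : V} (ht : t ∈ U ∨ t = x ∨ t = y) :
    t ∈ T ∨ ∃ P ∈ PP, t ∈ P := by
  by_cases h : t ∈ ⋃₀ PP
  · obtain ⟨P, hP1, hP2⟩ := h
    exact Or.inr ⟨P, hP1, hP2⟩
  · left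
    rw [hP.hT]
    refine ⟨?_, h⟩
    rcases ht with h1 | h1
    · exact Or.inl h1
    · exact Or.inr h1

theorem x_mem (hR : Rigid G U x y) (hP : PartSys G U x y PP T) : x ∈ T := by
  rcases mem_T_or hP (Or.inr (Or.inl (rfl : x = x))) with h | ⟨P, h1, h2⟩
  · exact h
  · exact absurd (hP.sub P h1 h2) hR.hx

theorem y_mem (hR : Rigid G U x y) (hP : PartSys G U x y PP T) : y ∈ T := by
  rcases mem_T_or hP (Or.inr (Or.inr (rfl : y = y))) with h | ⟨P, h1, h2⟩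
  · exact h
  · exact absurd (hP.sub P h1 h2) hR.hy

theorem nb_meets (hR : Rigid G U x y) (hP : PartSys G U x y PP T) {P : Set V} (h : P ∈ PP) :
    ∃ c ∈ nb G P, c ∈ U := by
  obtain ⟨b, hb, a, ha, hab⟩ := hR.conn.2 P (hP.sub P h) (hP.conn P h).1 (hP.ne P h)
  exact ⟨a, ⟨ha.2, b, hb, hab⟩, ha.1⟩

/-- two torso vertices in `U` -/
theorem exists_two [Finite V] (hR : Rigid G U x y) (hP : PartSys G U x y PP T) :
    ∃ c ∈ T ∩ U, ∃ c' ∈ T ∩ U, c ≠ c' := by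
  by_contra hcon
  push Not at hcon
  -- there is one
  obtain ⟨c, hc⟩ : (T ∩ U).Nonempty := by
    obtain ⟨u, hu⟩ := hR.conn.1
    rcases mem_T_or hP (Or.inl hu) with h | ⟨P, h1, h2⟩
    · exact ⟨u, h, hu⟩
    · obtain ⟨c, hc1, hc2⟩ := nb_meets hR hP h1
      exact ⟨c, hP.nbT P h1 hc1, hc2⟩
  have hTc : ∀ t ∈ T, t = x ∨ t = y ∨ t = c := by
    intro t ht
    rcases T_sub hP ht with h | h | h
    · exact Or.inr (Or.inr (hcon t ⟨ht, h⟩ c hc))
    · exact Or.inl h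
    · exact Or.inr (Or.inl h)
  have hcnb : ∀ Q ∈ PP, c ∈ nb G Q := by
    intro Q hQ
    obtain ⟨c', hc1, hc2⟩ := nb_meets hR hP hQ
    have := hcon c' ⟨hP.nbT Q hQ hc1, hc2⟩ c hc
    rwa [this] at hc1
  have hxc : x ≠ c := fun h => hR.hx (h ▸ hc.2)
  have hyc : y ≠ c := fun h => hR.hy (h ▸ hc.2)
  refine hR.nopoly c hc.2 (⋃₀ {Q | Q ∈ PP ∧ x ∈ nb G Q}) (⋃₀ {Q | Q ∈ PP ∧ x ∉ nb G Q})
    ?_ ?_ ?_ ?_
  · ext u
    constructor
    · rintro (⟨Q, hQ, huQ⟩ | ⟨Q, hQ, huQ⟩)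
      · exact ⟨hP.sub Q hQ.1 huQ, fun h => notMem_part hP hc.1 hQ.1 (h ▸ huQ)⟩
      · exact ⟨hP.sub Q hQ.1 huQ, fun h => notMem_part hP hc.1 hQ.1 (h ▸ huQ)⟩
    · rintro ⟨hu, huc⟩
      rcases mem_T_or hP (Or.inl hu) with h | ⟨P, h1, h2⟩
      · exact absurd (hcon u ⟨h, hu⟩ c hc) huc
      · by_cases h3 : x ∈ nb G P
        · exact Or.inl ⟨P, ⟨h1, h3⟩, h2⟩
        · exact Or.inr ⟨P, ⟨h1, h3⟩, h2⟩
  · rw [Set.disjoint_left]
    rintro u ⟨Q, hQ, huQ⟩ ⟨Q', hQ', huQ'⟩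
    have hne : Q ≠ Q' := fun h => hQ'.2 (h ▸ hQ.2)
    exact Set.disjoint_left.mp (hP.disj Q hQ.1 Q' hQ'.1 hne) huQ huQ'
  · rintro v ⟨hv, d, ⟨Q, hQ, hdQ⟩, hdv⟩
    have hvQ : v ∉ Q := fun h => hv ⟨Q, hQ, h⟩
    have hvn : v ∈ nb G Q := ⟨hvQ, d, hdQ, hdv⟩
    have h1 : ({x, c} : Set V) ⊆ nb G Q := by
      rintro z (rfl | rfl)
      · exact hQ.2
      · exact hcnb Q hQ.1
    have h2 : ({x, c} : Set V) = nb G Q := by
      refine Set.eq_of_subset_of_ncard_le h1 ?_ (Set.toFinite _)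
      rw [hP.nb2 Q hQ.1, Set.ncard_pair hxc]
    rw [h2]
    exact hvn
  · rintro v ⟨hv, d, ⟨Q, hQ, hdQ⟩, hdv⟩
    have hvQ : v ∉ Q := fun h => hv ⟨Q, hQ, h⟩
    have hvn : v ∈ nb G Q := ⟨hvQ, d, hdQ, hdv⟩
    rcases hTc v (hP.nbT Q hQ.1 hvn) with h | h | h
    · exact absurd (h ▸ hvn) hQ.2
    · exact Or.inl h
    · exact Or.inr h

theorem four [Finite V] (hR : Rigid G U x y) (hP : PartSys G U x y PP T) : 4 ≤ T.ncard := by
  classical
  obtain ⟨c, hc, c', hc', hne⟩ := exists_two hR hP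
  have hxc : x ≠ c := fun h => hR.hx (h ▸ hc.2)
  have hyc : y ≠ c := fun h => hR.hy (h ▸ hc.2)
  have hxc' : x ≠ c' := fun h => hR.hx (h ▸ hc'.2)
  have hyc' : y ≠ c' := fun h => hR.hy (h ▸ hc'.2)
  have h1 : (({x, y, c, c'} : Finset V) : Set V) ⊆ T := by
    intro z hz
    simp only [Finset.coe_insert, Finset.coe_singleton, Set.mem_insert_iff,
      Set.mem_singleton_iff] at hz
    rcases hz with rfl | rfl | rfl | rfl
    · exact x_mem hR hP
    · exact y_mem hR hP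
    · exact hc.1
    · exact hc'.1
  have h2 : ({x, y, c, c'} : Finset V).card = 4 := by
    rw [Finset.card_insert_of_notMem, Finset.card_insert_of_notMem, Finset.card_insert_of_notMem,
      Finset.card_singleton]
    · simpa using hne
    · simp [hyc, hyc']
    · simp [hR.hxy, hxc, hxc']
  rw [← h2, ← Set.ncard_coe_finset]
  exact Set.ncard_le_ncard h1 (Set.toFinite _)

theorem key [Finite V] (hR : Rigid G U x y) (hP : PartSys G U x y PP T) {a b : V} {C C' : Set V}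
    (hC : C ⊆ T \ {a, b}) (hC' : C' ⊆ T \ {a, b}) (hcov : ∀ t ∈ T \ {a, b}, t ∈ C ∨ t ∈ C')
    (hd : ∀ t ∈ C, t ∉ C') (hne : C.Nonempty) (hne' : C'.Nonempty)
    (hno : ∀ t ∈ C, ∀ t' ∈ C', ¬ (TG G x y PP).Adj t t') (hxC : x ∉ C) (hyC : y ∉ C) : False := by
  have hCU : C ⊆ U := by
    intro t ht
    rcases T_sub hP (hC ht).1 with h | h | h
    · exact h
    · exact absurd (h ▸ ht) hxC
    · exact absurd (h ▸ ht) hyC
  set D : Set V := C ∪ ⋃₀ {P | P ∈ PP ∧ (nb G P ∩ C).Nonempty} with hD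
  have hDU : D ⊆ U := by
    rintro t (ht | ⟨P, hP1, hP2⟩)
    · exact hCU ht
    · exact hP.sub P hP1.1 hP2
  have hnbD : nb G D ⊆ {a, b} := by
    rintro v ⟨hv, d, hd1, hdv⟩
    have fin : ∀ t ∈ C, v ∈ T → (TG G x y PP).Adj t v → v ∈ ({a, b} : Set V) := by
      intro t ht hvT hadj
      by_contra hvab
      rcases hcov v ⟨hvT, hvab⟩ with h | h
      · exact hv (Or.inl h)
      · exact hno t ht v h hadj
    rcases hd1 with hdC | ⟨P, ⟨hP1, c₁, hc₁, hc₁C⟩, hdP⟩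
    · have hvU : v ∈ U ∨ v = x ∨ v = y := by
        by_cases hvU : v ∈ U
        · exact Or.inl hvU
        · right
          have : v ∈ nb G U := ⟨hvU, d, hCU hdC, hdv⟩
          rw [hR.hnb] at this
          exact this
      rcases mem_T_or hP hvU with h | ⟨P, h1, h2⟩
      · exact fin d hdC h ⟨hdv.ne, Or.inl (Or.inl hdv)⟩
      · exfalso
        apply hv
        refine Or.inr ⟨P, ⟨h1, d, ⟨?_, v, h2, hdv.symm⟩, hdC⟩, h2⟩
        exact notMem_part hP (hC hdC).1 h1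
    · have hvP : v ∉ P := fun h => hv (Or.inr ⟨P, ⟨hP1, c₁, hc₁, hc₁C⟩, h⟩)
      have hvn : v ∈ nb G P := ⟨hvP, d, hdP, hdv⟩
      have hvc : c₁ ≠ v := fun h => hv (Or.inl (h ▸ hc₁C))
      have h1 : ({c₁, v} : Set V) ⊆ nb G P := by
        rintro z (rfl | rfl)
        · exact hc₁
        · exact hvn
      have h2 : ({c₁, v} : Set V) = nb G P := by
        refine Set.eq_of_subset_of_ncard_le h1 ?_ (Set.toFinite _)
        rw [hP.nb2 P hP1, Set.ncard_pair hvc]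
      exact fin c₁ hc₁C (hP.nbT P hP1 hvn) ⟨hvc, Or.inr ⟨P, hP1, h2.symm⟩⟩
  obtain ⟨c₁, hc₁⟩ := hne
  obtain ⟨D', hD'D, hcD', hD'conn, hD'nb⟩ := exists_comp G (A := D) (v := c₁) (Or.inl hc₁)
  have hnbD' : nb G D' ⊆ {a, b} := by
    intro v hv
    have hvD : v ∉ D := fun h => hD'nb v h hv
    obtain ⟨_, d, hd1, hdv⟩ := hv
    exact hnbD ⟨hvD, d, hD'D hd1, hdv⟩
  have hD'U : D' ≠ U := by
    intro h
    rw [h, hR.hnb] at hnbD'
    obtain ⟨z, hz⟩ := hne'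
    have hzT := hC' hz
    have hzU : z ∈ U := by
      rcases T_sub hP hzT.1 with h1 | h1 | h1
      · exact h1
      · exact absurd (hnbD' (Or.inl h1)) hzT.2
      · exact absurd (hnbD' (Or.inr h1)) hzT.2
    rw [← h] at hzU
    rcases hD'D hzU with h1 | ⟨P, hP1, hP2⟩
    · exact hd z h1 hz
    · exact notMem_part hP hzT.1 hP1.1 hP2
  have hpart : IsPart G U D' := by
    refine ⟨hD'D.trans hDU, hD'U, hD'conn, ?_⟩
    refine (Set.ncard_le_ncard hnbD' (Set.toFinite _)).trans ?_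
    exact pair_le a b
  obtain ⟨P, hP1, hP2⟩ := hP.max D' hpart
  exact notMem_part hP (hC hc₁).1 hP1 (hP2 hcD')

end TorsoThreeAux

open TorsoThreeAux in
theorem torsoThree : S_TorsoThree := by
  intro V _ G U x y PP T hR hP
  refine ⟨four hR hP, fun a b => ?_⟩
  have hne : (T \ {a, b}).Nonempty := by
    by_contra h
    rw [Set.not_nonempty_iff_eq_empty, Set.sdiff_eq_empty] at h
    have h1 := Set.ncard_le_ncard h (Set.toFinite _)
    have h2 := pair_le a b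
    have h3 := four hR hP
    omega
  by_contra hcon
  obtain ⟨C, hC, hCconn, hCne, hCnb⟩ := exists_comp_of_not_conn hne hcon
  have hne' : ((T \ {a, b}) \ C).Nonempty := by
    by_contra h
    rw [Set.not_nonempty_iff_eq_empty, Set.sdiff_eq_empty] at h
    exact hCne (Set.Subset.antisymm hC h)
  have hno : ∀ t ∈ C, ∀ t' ∈ (T \ {a, b}) \ C, ¬ (TG G x y PP).Adj t t' := by
    intro t ht t' ht' hadj
    exact hCnb t' ht'.1 ⟨ht'.2, t, ht, hadj⟩
  have hxy : (TG G x y PP).Adj x y :=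
    ⟨hR.hxy, Or.inl (Or.inr ⟨hR.hxy, Or.inl ⟨rfl, rfl⟩⟩)⟩
  by_cases h : x ∉ C ∧ y ∉ C
  · refine key hR hP (C := C) (C' := (T \ {a, b}) \ C) (a := a) (b := b) hC
      (fun t ht => ht.1) (fun t ht => ?_) (fun t ht h' => h'.2 ht) hCconn.1 hne' hno h.1 h.2
    by_cases htC : t ∈ C
    · exact Or.inl htC
    · exact Or.inr ⟨ht, htC⟩
  · refine key hR hP (C := (T \ {a, b}) \ C) (C' := C) (a := a) (b := b) (fun t ht => ht.1)
      hC (fun t ht => ?_) (fun t ht h' => ht.2 h') hne' hCconn.1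
      (fun t ht t' ht' hadj => hno t' ht' t ht hadj.symm) ?_ ?_
    · by_cases htC : t ∈ C
      · exact Or.inr htC
      · exact Or.inl ⟨ht, htC⟩
    · intro hx
      have hxC := hx.2
      have hyC : y ∈ C := by
        by_contra hyC
        exact h ⟨hxC, hyC⟩
      exact hno y hyC x hx hxy.symm
    · intro hy
      have hyC := hy.2
      have hxC : x ∈ C := by
        by_contra hxC
        exact h ⟨hxC, hyC⟩
      exact hno x hxC y hy hxy

end Pool.Agent.MPd439b2
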