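import Pool.Agent.Lib.MP_d439b2_co.Spec1

/-!
# MP_d439b2_co, G6: rotation and reflection of a wheel
-/

set_option autoImplicit false

namespace Pool.Agent.MPd439b2

/-- reindexing a wheel by a bijection of the index set which respects the cyclic adjacency -/
theorem WheelAt.reindex {V : Type} {G : SimpleGraph V} {S : Set V} {n : ℕ} {h : V} {r : ℕ → V}
    (hw : WheelAt G S n h r) (σ : ℕ → ℕ) (h1 : ∀ i < n, σ i < n)
    (h2 : ∀ i < n, ∀ j < n, σ i = σ j → i = j) (h3 : ∀ k < n, ∃ i < n, σ i = k)
    (h4 : ∀ i < n, ∀ j < n,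
      ((j = i + 1 ∨ i = j + 1 ∨ (i = 0 ∧ j = n - 1) ∨ (j = 0 ∧ i = n - 1)) ↔
        (σ j = σ i + 1 ∨ σ i = σ j + 1 ∨ (σ i = 0 ∧ σ j = n - 1) ∨ (σ j = 0 ∧ σ i = n - 1)))) :
    WheelAt G S n h (fun i => r (σ i)) := by
  obtain ⟨hn, hS, hrS, hrh, hinj, hcov, hhub, hadj⟩ := hw
  refine ⟨hn, hS, fun i hi => hrS _ (h1 i hi), fun i hi => hrh _ (h1 i hi), ?_, ?_,
    fun i hi => hhub _ (h1 i hi), ?_⟩
  · intro i hi j hj hij
    exact h2 i hi j hj (hinj _ (h1 i hi) _ (h1 j hj) hij)
  · intro v hv
    rcases hcov v hv with h5 | ⟨k, hk, h5⟩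
    · exact Or.inl h5
    · obtain ⟨i, hi, h6⟩ := h3 k hk
      exact Or.inr ⟨i, hi, by rw [h5, ← h6]⟩
  · intro i hi j hj
    rw [h4 i hi j hj]
    exact hadj _ (h1 i hi) _ (h1 j hj)

theorem wheelSym : S_WheelSym := by
  intro V G S n h r hw
  have hn : 4 ≤ n := hw.1
  refine ⟨?_, ?_⟩
  · intro j hj
    have hmod : ∀ i < n, (i + j) % n = if i + j < n then i + j else i + j - n := by
      intro i hi
      split_ifs with h5
      · exact Nat.mod_eq_of_lt h5
      · rw [Nat.mod_eq_sub_mod (by omega), Nat.mod_eq_of_lt (by omega)]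
    refine ⟨fun i => r (if i + j < n then i + j else i + j - n), ?_, fun i hi => ?_⟩
    · refine hw.reindex (fun i => if i + j < n then i + j else i + j - n) ?_ ?_ ?_ ?_
      · intro i hi
        try dsimp only
        split_ifs <;> omega
      · intro i hi i' hi' h5
        try dsimp only at h5
        split_ifs at h5 <;> omega
      · intro k hk
        by_cases h5 : j ≤ k
        · refine ⟨k - j, by omega, ?_⟩
          try dsimp only
          rw [if_pos (by omega)]; omega
        · refine ⟨k + n - j, by omega, ?_⟩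
          try dsimp only
          rw [if_neg (by omega)]; omega
      · intro i hi i' hi'
        try dsimp only
        split_ifs <;> omega
    · dsimp only
      rw [hmod i hi]
  · refine ⟨fun i => r (if i = 0 then 0 else n - i), ?_, ?_, ?_⟩
    · refine hw.reindex (fun i => if i = 0 then 0 else n - i) ?_ ?_ ?_ ?_
      · intro i hi
        try dsimp only
        split_ifs <;> omega
      · intro i hi i' hi' h5
        try dsimp only at h5
        split_ifs at h5 <;> omega
      · intro k hk
        by_cases h5 : k = 0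
        · exact ⟨0, by omega, by simp [h5]⟩
        · refine ⟨n - k, by omega, ?_⟩
          try dsimp only
          rw [if_neg (by omega)]; omega
      · intro i hi i' hi'
        by_cases h5 : i = 0 <;> by_cases h6 : i' = 0
        · rw [if_pos h5, if_pos h6]; subst h5; subst h6
          constructor <;> intro h7 <;> omega
        · rw [if_pos h5, if_neg h6]; subst h5
          constructor <;> intro h7 <;> omega
        · rw [if_neg h5, if_pos h6]; subst h6
          constructor <;> intro h7 <;> omega
        · rw [if_neg h5, if_neg h6]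
          constructor <;> intro h7 <;> omega
    · simp
    · intro i hi0 hi
      dsimp only
      rw [if_neg (by omega)]

end Pool.Agent.MPd439b2
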